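import Pool.Agent.Tri5.Targets

/-!
# TRI-ARC: the bound of `JV`
-/

set_option autoImplicit false

open Finset

namespace Pool.Agent.Tri5

namespace ARC_

theorem norm_ex (x : ℝ) : ‖ex x‖ = 1 := by
  have e : (2 * Real.pi * x * Complex.I : ℂ) = ((2 * Real.pi * x : ℝ) : ℂ) * Complex.I := by
    push_cast; ring
  rw [ex, e, Complex.norm_exp_ofReal_mul_I]

theorem cont_ex : Continuous ex := by
  unfold ex
  fun_prop

theorem cont_PP (L a I : ℕ) : Continuous (PP L a I) := by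
  unfold PP
  refine continuous_finsetSum _ fun i _ => ?_
  exact cont_ex.comp (by fun_prop)

theorem arc_nonneg (X : ℝ) (q c : ℕ) (α : ℝ) : 0 ≤ arc X q c α := by
  unfold arc
  split_ifs
  · positivity
  · exact le_rfl

theorem arc_int (X : ℝ) (hX : 1 ≤ X) (q c : ℕ) (G : ℝ → ℝ) (hG : Continuous G) :
    IntervalIntegrable (fun α => arc X q c α * G α) MeasureTheory.volume 0 1 := by
  have hX0 : 0 < X := by linarith
  have e : (fun α => arc X q c α * G α) =
      Set.indicator {α : ℝ | |α - c / q| ≤ 1 / (q * Real.sqrt X)}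
        (fun α => 1 / (1 / X ^ 2 + (α - c / q) ^ 2 / 16) * G α) := by
    funext α
    rw [Set.indicator_apply, arc]
    by_cases h : |α - c / q| ≤ 1 / (q * Real.sqrt X)
    · rw [if_pos h, if_pos (show α ∈ {α : ℝ | |α - c / q| ≤ 1 / (q * Real.sqrt X)} from h)]
    · rw [if_neg h, if_neg (show ¬ α ∈ {α : ℝ | |α - c / q| ≤ 1 / (q * Real.sqrt X)} from h),
        zero_mul]
  have hc : Continuous (fun α : ℝ => 1 / (1 / X ^ 2 + (α - c / q) ^ 2 / 16) * G α) := by
    refine Continuous.mul (continuous_const.div (by fun_prop) fun α => ?_) hG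
    positivity
  have hm : MeasurableSet {α : ℝ | |α - c / q| ≤ 1 / (q * Real.sqrt X)} :=
    (isClosed_le (by fun_prop) continuous_const).measurableSet
  rw [e, intervalIntegrable_iff]
  exact ((intervalIntegrable_iff.mp (hc.intervalIntegrable 0 1)).indicator hm)

theorem isum {ι : Type} (s : Finset ι) (f : ι → ℝ → ℝ)
    (h : ∀ i ∈ s, IntervalIntegrable (f i) MeasureTheory.volume 0 1) :
    IntervalIntegrable (fun x => ∑ i ∈ s, f i x) MeasureTheory.volume 0 1 := by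
  have e : (fun x => ∑ i ∈ s, f i x) = ∑ i ∈ s, f i := by
    funext x; rw [Finset.sum_apply]
  rw [e]
  exact IntervalIntegrable.sum s h

theorem card_le (q : ℕ) :
    ((range (q + 1)).filter (fun c => c.Coprime q)).card ≤ Nat.totient q + 1 := by
  rw [Finset.range_add_one, Finset.filter_insert]
  have h1 : ((range q).filter (fun c => c.Coprime q)).card = Nat.totient q := by
    rw [Nat.totient_eq_card_coprime]
    congr 1
    ext c
    simp [Nat.coprime_comm]
  split_ifs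
  · exact (Finset.card_insert_le _ _).trans (by rw [h1])
  · rw [h1]; omega

end ARC_

open ARC_ in
theorem p_ARC (h1 : T_ARCA) (h2 : T_ARCB) (h3 : T_ARCC) (h4 : T_QF) : T_ARC := by
  intro L a b I y z X B η h hD hX hB hη hh
  have hX0 : 0 < X := by linarith
  obtain ⟨-, -, -, hQ1, -, -, -⟩ := h4 L hD.hL
  set Q := Qf L with hQdef
  have hQ0 : (0 : ℝ) < Q := by exact_mod_cast hQ1
  refine (h1 L a b I y z X (Q * h) hD hX).trans ?_
  refine add_le_add ?_ le_rfl
  set W : ℝ → ℝ := fun α => ‖PP L a I α‖ ^ 2 * ‖PP L b I α‖ ^ 2 with hW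
  set D : ℝ → ℝ := fun α => ‖1 - ex (α * ((Q * h : ℤ) : ℝ))‖ ^ 2 with hDd
  have hWc : Continuous W := by
    have c1 := cont_PP L a I
    have c2 := cont_PP L b I
    rw [hW]
    fun_prop
  have hDc : Continuous D := by
    have c1 := cont_ex.comp (by fun_prop : Continuous fun α : ℝ => α * ((Q * h : ℤ) : ℝ))
    rw [hDd]
    exact ((continuous_const.sub c1).norm).pow 2
  have hW0 : ∀ α, 0 ≤ W α := fun α => by rw [hW]; positivity
  have hD4 : ∀ α, D α ≤ 4 := by
    intro α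
    have e1 : ‖1 - ex (α * ((Q * h : ℤ) : ℝ))‖ ≤ 2 := by
      refine (norm_sub_le _ _).trans ?_
      rw [norm_ex, norm_one]; norm_num
    calc D α = ‖1 - ex (α * ((Q * h : ℤ) : ℝ))‖ ^ 2 := rfl
      _ ≤ 2 ^ 2 := pow_le_pow_left₀ (norm_nonneg _) e1 2
      _ = 4 := by norm_num
  set N := ⌊Real.sqrt X⌋₊ with hN
  have hN1 : 1 ≤ N := by
    rw [hN]
    refine Nat.le_floor ?_
    rw [Nat.cast_one]
    exact Real.one_le_sqrt.mpr hX
  set T : Finset ℕ := (Icc 1 N).filter (fun q => q.Coprime (2 * Q)) with hT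
  set A : ℕ → Finset ℕ := fun q => (range (q + 1)).filter (fun c => c.Coprime q) with hA
  -- the integrals of the single arcs
  set J : ℕ → ℕ → ℝ := fun q c => ∫ α in (0 : ℝ)..1, arc X q c α * (W α * D α) with hJ
  have hint : (∫ α in (0 : ℝ)..1, MJ Q X α * (W α * D α)) =
      ∑ q₁ ∈ Q.divisors, ∑ q₂ ∈ T, ∑ c ∈ A (q₁ * q₂), J (q₁ * q₂) c / (16 * q₂ ^ 2 * Q ^ 4) := by
    have e1 : ∀ α, MJ Q X α * (W α * D α) = ∑ q₁ ∈ Q.divisors, ∑ q₂ ∈ T,
        ∑ c ∈ A (q₁ * q₂), (16 * (q₂ : ℝ) ^ 2 * Q ^ 4)⁻¹ *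
          (arc X (q₁ * q₂) c α * (W α * D α)) := by
      intro α
      rw [MJ, Finset.sum_mul]
      refine Finset.sum_congr rfl fun q₁ _ => ?_
      rw [Finset.sum_mul]
      refine Finset.sum_congr rfl fun q₂ _ => ?_
      rw [Finset.sum_mul]
      refine Finset.sum_congr rfl fun c _ => ?_
      rw [div_eq_mul_inv]; ring
    have hi : ∀ q c : ℕ, IntervalIntegrable (fun α => arc X q c α * (W α * D α))
        MeasureTheory.volume 0 1 := fun q c => arc_int X hX q c _ (hWc.mul hDc)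
    simp only [e1]
    rw [intervalIntegral.integral_finsetSum]
    · refine Finset.sum_congr rfl fun q₁ _ => ?_
      rw [intervalIntegral.integral_finsetSum]
      · refine Finset.sum_congr rfl fun q₂ _ => ?_
        rw [intervalIntegral.integral_finsetSum]
        · refine Finset.sum_congr rfl fun c _ => ?_
          rw [intervalIntegral.integral_const_mul, div_eq_inv_mul]
        · intro c _
          exact (hi _ _).const_mul _
      · intro q₂ _
        exact isum _ _ fun c _ => (hi _ _).const_mul _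
    · intro q₁ _
      exact isum _ _ fun q₂ _ => isum _ _ fun c _ => (hi _ _).const_mul _
  show 2 * (∫ α in (0 : ℝ)..1, MJ Q X α * (W α * D α)) ≤ _
  rw [hint]
  -- the terms with `q₂ ≥ 2`
  set T2 : Finset ℕ := (Icc 2 N).filter (fun q => q.Coprime (2 * Q)) with hT2
  have hTs : T = insert 1 T2 := by
    ext q
    rw [hT, hT2, Finset.mem_insert, Finset.mem_filter, Finset.mem_filter, Finset.mem_Icc,
      Finset.mem_Icc]
    constructor
    · rintro ⟨⟨e1, e2⟩, e3⟩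
      rcases Nat.eq_or_lt_of_le e1 with e4 | e4
      · exact Or.inl e4.symm
      · exact Or.inr ⟨⟨e4, e2⟩, e3⟩
    · rintro (rfl | ⟨⟨e1, e2⟩, e3⟩)
      · exact ⟨⟨le_rfl, hN1⟩, Nat.coprime_one_left _⟩
      · exact ⟨⟨by omega, e2⟩, e3⟩
  have h1T2 : 1 ∉ T2 := by
    rw [hT2, Finset.mem_filter, Finset.mem_Icc]
    rintro ⟨⟨e, -⟩, -⟩
    omega
  have hJle : ∀ q c : ℕ, J q c ≤ 4 * ∫ α in (0 : ℝ)..1, arc X q c α *
      (‖PP L a I α‖ ^ 2 * ‖PP L b I α‖ ^ 2) := by
    intro q c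
    rw [← intervalIntegral.integral_const_mul]
    refine intervalIntegral.integral_mono_on (by norm_num) (arc_int X hX q c _ (hWc.mul hDc))
      ((arc_int X hX q c _ hWc).const_mul 4) fun α _ => ?_
    have e1 := arc_nonneg X q c α
    have e2 := hW0 α
    have e3 := hD4 α
    have e4 : W α * D α ≤ W α * 4 := mul_le_mul_of_nonneg_left e3 e2
    calc arc X q c α * (W α * D α) ≤ arc X q c α * (W α * 4) := mul_le_mul_of_nonneg_left e4 e1
      _ = 4 * (arc X q c α * W α) := by ring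
  have hbig : ∀ q₁ ∈ Q.divisors, ∀ q₂ ∈ T2,
      ∑ c ∈ A (q₁ * q₂), J (q₁ * q₂) c / (16 * q₂ ^ 2 * Q ^ 4) ≤
        (Nat.totient q₁ : ℝ) * (Real.pi * X / Q ^ 4 * ((Nq L a b I q₂ : ℝ) / q₂)) := by
    intro q₁ hq₁ q₂ hq₂
    rw [hT2, Finset.mem_filter, Finset.mem_Icc] at hq₂
    obtain ⟨⟨e1, -⟩, e2⟩ := hq₂
    have e3 : q₁ ∣ Q := Nat.dvd_of_mem_divisors hq₁
    have e4 : 0 < q₁ := Nat.pos_of_mem_divisors hq₁
    have e5 : 2 ≤ q₁ * q₂ := by nlinarith
    have h5 := h2 L a b I q₁ q₂ X hD.hL hD.ha hD.hb e3 (by omega) e2 e5 hX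
    have e6 : (0 : ℝ) < q₂ := by
      have : 0 < q₂ := by omega
      exact_mod_cast this
    have e7 : ∑ c ∈ A (q₁ * q₂), J (q₁ * q₂) c ≤
        4 * (Nat.totient q₁ * q₂ * Nq L a b I q₂ * (4 * Real.pi * X)) := by
      refine (Finset.sum_le_sum fun c _ => hJle (q₁ * q₂) c).trans ?_
      rw [← Finset.mul_sum]
      exact mul_le_mul_of_nonneg_left h5 (by norm_num)
    rw [← Finset.sum_div, div_le_iff₀ (by positivity)]
    refine e7.trans (le_of_eq ?_)
    field_simp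
    ring
  set K : ℝ := (I : ℝ) ^ 4 * (16 * Real.pi ^ 3 * B ^ 2 * η ^ 2 * X + 128 * X / B) with hK
  have hK0 : 0 ≤ K := by rw [hK]; positivity
  have hone : ∀ q₁ ∈ Q.divisors,
      ∑ c ∈ A (q₁ * 1), J (q₁ * 1) c / (16 * ((1 : ℕ) : ℝ) ^ 2 * Q ^ 4) ≤
        ((Nat.totient q₁ : ℝ) + 1) * (K / (16 * Q ^ 4)) := by
    intro q₁ hq₁
    have e3 : q₁ ∣ Q := Nat.dvd_of_mem_divisors hq₁
    have e4 : ∀ c ∈ A (q₁ * 1), J (q₁ * 1) c / (16 * ((1 : ℕ) : ℝ) ^ 2 * Q ^ 4) ≤
        K / (16 * Q ^ 4) := by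
      intro c _
      rw [Nat.cast_one, one_pow, mul_one, mul_one]
      refine div_le_div_of_nonneg_right ?_ (by positivity)
      exact h3 L a b I Q q₁ c X B η h hQ1 e3 hX hB hη hh
    refine (Finset.sum_le_sum e4).trans ?_
    rw [Finset.sum_const, nsmul_eq_mul]
    refine mul_le_mul_of_nonneg_right ?_ (by positivity)
    have e5 := card_le (q₁ * 1)
    rw [mul_one] at e5
    rw [hA, mul_one]
    exact_mod_cast e5
  have hsum : ∑ q₁ ∈ Q.divisors, ∑ q₂ ∈ T, ∑ c ∈ A (q₁ * q₂),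
      J (q₁ * q₂) c / (16 * q₂ ^ 2 * Q ^ 4) ≤
      2 * Q * (K / (16 * Q ^ 4)) + Q * (Real.pi * X / Q ^ 4 * SI L a b I N) := by
    have e1 : ∀ q₁ ∈ Q.divisors, ∑ q₂ ∈ T, ∑ c ∈ A (q₁ * q₂),
        J (q₁ * q₂) c / (16 * q₂ ^ 2 * Q ^ 4) ≤
        ((Nat.totient q₁ : ℝ) + 1) * (K / (16 * Q ^ 4)) +
          (Nat.totient q₁ : ℝ) * (Real.pi * X / Q ^ 4 * SI L a b I N) := by
      intro q₁ hq₁
      rw [hTs, Finset.sum_insert h1T2]
      refine add_le_add (hone q₁ hq₁) ?_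
      refine (Finset.sum_le_sum fun q₂ hq₂ => hbig q₁ hq₁ q₂ hq₂).trans (le_of_eq ?_)
      rw [← Finset.mul_sum, ← Finset.mul_sum]
      rfl
    refine (Finset.sum_le_sum e1).trans ?_
    rw [Finset.sum_add_distrib, ← Finset.sum_mul, ← Finset.sum_mul, Finset.sum_add_distrib,
      Finset.sum_const, nsmul_eq_mul, mul_one]
    have e2 : ∑ q₁ ∈ Q.divisors, (Nat.totient q₁ : ℝ) = Q := by
      rw [← Nat.cast_sum, Nat.sum_totient]
    have e3 : ((Q.divisors.card : ℕ) : ℝ) ≤ Q := by exact_mod_cast Nat.card_divisors_le_self Q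
    rw [e2]
    refine add_le_add ?_ le_rfl
    refine mul_le_mul_of_nonneg_right ?_ (by positivity)
    linarith
  refine (mul_le_mul_of_nonneg_left hsum (by norm_num : (0 : ℝ) ≤ 2)).trans (le_of_eq ?_)
  rw [hK]
  field_simp
  ring

end Pool.Agent.Tri5
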