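import Pool.Agent.Tri5.Targets

/-!
# ARCA: integrating the pointwise bound
-/

set_option autoImplicit false

open Finset

namespace Pool.Agent.Tri5

namespace ARCA_

theorem ex_cont : Continuous ex := by
  unfold ex
  fun_prop

theorem norm_ex (x : ℝ) : ‖ex x‖ = 1 := by
  unfold ex
  have h : (2 * Real.pi * x * Complex.I : ℂ) = ((2 * Real.pi * x : ℝ) : ℂ) * Complex.I := by
    push_cast
    ring
  rw [h, Complex.norm_exp_ofReal_mul_I]

theorem PP_cont (L a I : ℕ) : Continuous (PP L a I) := by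
  unfold PP
  refine continuous_finsetSum _ fun i _ => ?_
  exact ex_cont.comp (by fun_prop)

theorem arc_int (X : ℝ) (hX : 1 ≤ X) (q c : ℕ) :
    IntervalIntegrable (arc X q c) MeasureTheory.volume 0 1 := by
  set G : ℝ → ℝ := fun α => 1 / (1 / X ^ 2 + (α - c / q) ^ 2 / 16) with hG
  have hcont : Continuous G := by
    rw [hG]
    refine continuous_const.div (by fun_prop) fun α => ?_
    have h1 : 0 < 1 / X ^ 2 := by positivity
    have h2 : 0 ≤ (α - c / q) ^ 2 / 16 := by positivity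
    linarith
  have h : IntervalIntegrable G MeasureTheory.volume 0 1 := hcont.intervalIntegrable _ _
  set S : Set ℝ := {α : ℝ | |α - c / q| ≤ 1 / (q * Real.sqrt X)} with hS
  have hSm : MeasurableSet S := by
    apply IsClosed.measurableSet
    exact isClosed_le (by fun_prop) continuous_const
  have e : arc X q c = S.indicator G := by
    funext α
    unfold arc
    by_cases hα : α ∈ S
    · have hα' : |α - c / q| ≤ 1 / (q * Real.sqrt X) := hα
      rw [Set.indicator_of_mem hα, if_pos hα']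
    · have hα' : ¬ |α - c / q| ≤ 1 / (q * Real.sqrt X) := hα
      rw [Set.indicator_of_notMem hα, if_neg hα']
  rw [e]
  exact ⟨h.1.indicator hSm, h.2.indicator hSm⟩

theorem MJ_int (Q : ℕ) (X : ℝ) (hX : 1 ≤ X) :
    IntervalIntegrable (MJ Q X) MeasureTheory.volume 0 1 := by
  have h : MJ Q X = fun α => ∑ q₁ ∈ Q.divisors,
      ∑ q₂ ∈ (Icc 1 ⌊Real.sqrt X⌋₊).filter (fun q => q.Coprime (2 * Q)),
      ∑ c ∈ (range (q₁ * q₂ + 1)).filter (fun c => c.Coprime (q₁ * q₂)),
        arc X (q₁ * q₂) c α / (16 * q₂ ^ 2 * Q ^ 4) := rfl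
  rw [h]
  constructor
  · refine MeasureTheory.integrable_finsetSum _ fun q₁ _ => ?_
    refine MeasureTheory.integrable_finsetSum _ fun q₂ _ => ?_
    refine MeasureTheory.integrable_finsetSum _ fun c _ => ?_
    exact (arc_int X hX (q₁ * q₂) c).1.div_const _
  · refine MeasureTheory.integrable_finsetSum _ fun q₁ _ => ?_
    refine MeasureTheory.integrable_finsetSum _ fun q₂ _ => ?_
    refine MeasureTheory.integrable_finsetSum _ fun c _ => ?_
    exact (arc_int X hX (q₁ * q₂) c).2.div_const _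

theorem core {f g w e M : ℝ → ℝ} {E : ℝ} (hf : Continuous f) (hg : Continuous g)
    (hw : Continuous w) (he : Continuous e)
    (hM : IntervalIntegrable M MeasureTheory.volume 0 1)
    (hf0 : ∀ α, 0 ≤ f α) (hg0 : ∀ α, 0 ≤ g α) (hw0 : ∀ α, 0 ≤ w α) (he0 : ∀ α, 0 ≤ e α)
    (he4 : ∀ α, e α ≤ 4)
    (hpt : ∀ α, 0 ≤ α → α ≤ 1 → f α * g α ≤ 2 * M α + 6 * E ^ 2 * (f α + g α + E ^ 2)) :
    (∫ α in (0 : ℝ)..1, f α * g α * w α * e α) ≤
      2 * (∫ α in (0 : ℝ)..1, M α * (w α * e α)) +
      24 * E ^ 2 * ((∫ α in (0 : ℝ)..1, f α * w α) + (∫ α in (0 : ℝ)..1, g α * w α) +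
        E ^ 2 * ∫ α in (0 : ℝ)..1, w α) := by
  have i1 : IntervalIntegrable (fun α => f α * g α * w α * e α) MeasureTheory.volume 0 1 :=
    (((hf.mul hg).mul hw).mul he).intervalIntegrable _ _
  have i2 : IntervalIntegrable (fun α => M α * (w α * e α)) MeasureTheory.volume 0 1 :=
    hM.mul_continuousOn (hw.mul he).continuousOn
  have i3 : IntervalIntegrable (fun α => f α * w α) MeasureTheory.volume 0 1 :=
    (hf.mul hw).intervalIntegrable _ _
  have i4 : IntervalIntegrable (fun α => g α * w α) MeasureTheory.volume 0 1 :=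
    (hg.mul hw).intervalIntegrable _ _
  have i5 : IntervalIntegrable w MeasureTheory.volume 0 1 := hw.intervalIntegrable _ _
  have e1 : 2 * (∫ α in (0 : ℝ)..1, M α * (w α * e α)) +
      24 * E ^ 2 * ((∫ α in (0 : ℝ)..1, f α * w α) + (∫ α in (0 : ℝ)..1, g α * w α) +
        E ^ 2 * ∫ α in (0 : ℝ)..1, w α) =
      ∫ α in (0 : ℝ)..1, (2 * (M α * (w α * e α)) +
        24 * E ^ 2 * (f α * w α + g α * w α + E ^ 2 * w α)) := by
    rw [intervalIntegral.integral_add (i2.const_mul 2)
        (((i3.add i4).add (i5.const_mul (E ^ 2))).const_mul (24 * E ^ 2)),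
      intervalIntegral.integral_const_mul, intervalIntegral.integral_const_mul,
      intervalIntegral.integral_add (i3.add i4) (i5.const_mul (E ^ 2)),
      intervalIntegral.integral_add i3 i4, intervalIntegral.integral_const_mul]
  rw [e1]
  refine intervalIntegral.integral_mono_on zero_le_one i1 ((i2.const_mul 2).add
    (((i3.add i4).add (i5.const_mul (E ^ 2))).const_mul (24 * E ^ 2))) ?_
  intro α hα
  have h1 := hpt α hα.1 hα.2
  have h2 : 0 ≤ w α * e α := mul_nonneg (hw0 α) (he0 α)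
  have h3 := mul_le_mul_of_nonneg_right h1 h2
  have h4 : 0 ≤ 6 * E ^ 2 * (f α + g α + E ^ 2) * w α := by
    have := hf0 α
    have := hg0 α
    have := hw0 α
    positivity
  have h5 := mul_le_mul_of_nonneg_left (he4 α) h4
  nlinarith [h3, h5]

end ARCA_

open ARCA_ in
/-- ARCA -/
theorem p_ARCA (h1 : T_PT) (h2 : T_CONT) (h3 : T_QF) : T_ARCA := by
  intro L a b I y z X h hD hX
  have hQ : 1 ≤ Qf L := (h3 L hD.hL).2.2.2.1
  have hc1 : Continuous (fun α => ‖th (Qf L) y X α‖ ^ 2) := ((h2 (Qf L) y X hQ hX).1.norm).pow 2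
  have hc2 : Continuous (fun α => ‖th (Qf L) z X α‖ ^ 2) := ((h2 (Qf L) z X hQ hX).1.norm).pow 2
  have hc3 : Continuous (fun α => ‖PP L a I α‖ ^ 2 * ‖PP L b I α‖ ^ 2) :=
    ((PP_cont L a I).norm.pow 2).mul ((PP_cont L b I).norm.pow 2)
  have hc4 : Continuous (fun α : ℝ => ‖1 - ex (α * h)‖ ^ 2) :=
    ((continuous_const.sub (ex_cont.comp (by fun_prop))).norm).pow 2
  exact core (E := 3 * Qf L * Real.sqrt (Real.sqrt X)) hc1 hc2 hc3 hc4 (MJ_int (Qf L) X hX)
    (fun _ => by positivity) (fun _ => by positivity) (fun _ => by positivity)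
    (fun _ => by positivity)
    (fun α => by
      have h4 : ‖(1 : ℂ) - ex (α * h)‖ ≤ 2 := by
        refine (norm_sub_le _ _).trans ?_
        rw [norm_one, norm_ex]
        norm_num
      have h5 := norm_nonneg ((1 : ℂ) - ex (α * h))
      show ‖(1 : ℂ) - ex (α * h)‖ ^ 2 ≤ 4
      nlinarith)
    (fun α h0 h1' => h1 L a b y z X α hD hX h0 h1')

end Pool.Agent.Tri5
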