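import Pool.Agent.Tri5.Targets

/-!
# TRI-ARCB: the arcs of one denominator
-/

set_option autoImplicit false

open Finset MeasureTheory

namespace Pool.Agent.Tri5

namespace ARCB_

theorem norm_ex (x : ℝ) : ‖ex x‖ = 1 := by
  have e : (2 * Real.pi * x * Complex.I : ℂ) = ((2 * Real.pi * x : ℝ) : ℂ) * Complex.I := by
    push_cast; ring
  rw [ex, e, Complex.norm_exp_ofReal_mul_I]

theorem cont_ex : Continuous ex := by
  unfold ex
  fun_prop

theorem cont_PP (L a I : ℕ) : Continuous (PP L a I) := by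
  unfold PP
  refine continuous_finsetSum _ fun i _ => ?_
  exact cont_ex.comp (by fun_prop)

theorem norm_PP (L a I : ℕ) (α : ℝ) : ‖PP L a I α‖ ≤ I := by
  refine (norm_sum_le _ _).trans ?_
  simp only [norm_ex]
  simp

theorem arc_nonneg (X : ℝ) (q c : ℕ) (α : ℝ) : 0 ≤ arc X q c α := by
  unfold arc
  split_ifs
  · positivity
  · exact le_rfl

/-- the weight -/
noncomputable def W (L a b I : ℕ) (α : ℝ) : ℝ := ‖PP L a I α‖ ^ 2 * ‖PP L b I α‖ ^ 2

/-- the kernel -/
noncomputable def g (X β : ℝ) : ℝ := 1 / (1 / X ^ 2 + β ^ 2 / 16)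

theorem g_nonneg (X β : ℝ) : 0 ≤ g X β := by unfold g; positivity

theorem W_nonneg (L a b I : ℕ) (α : ℝ) : 0 ≤ W L a b I α := by unfold W; positivity

theorem W_le (L a b I : ℕ) (α : ℝ) : W L a b I α ≤ (I : ℝ) ^ 4 := by
  have e1 := pow_le_pow_left₀ (norm_nonneg _) (norm_PP L a I α) 2
  have e2 := pow_le_pow_left₀ (norm_nonneg _) (norm_PP L b I α) 2
  calc W L a b I α ≤ (I : ℝ) ^ 2 * (I : ℝ) ^ 2 := mul_le_mul e1 e2 (by positivity) (by positivity)
    _ = (I : ℝ) ^ 4 := by ring

theorem W_cont (L a b I : ℕ) : Continuous (W L a b I) := by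
  have c1 := cont_PP L a I
  have c2 := cont_PP L b I
  unfold W
  fun_prop

theorem g_cont (X : ℝ) (hX : 1 ≤ X) : Continuous (g X) := by
  unfold g
  refine continuous_const.div (by fun_prop) fun α => ?_
  have : 0 < X := by linarith
  positivity

theorem gW_int (h2 : T_INT) (L a b I : ℕ) (X : ℝ) (hX : 1 ≤ X) (s : ℝ) :
    Integrable (fun β : ℝ => g X β * W L a b I (s + β)) := by
  have h3 := (h2 X (by linarith)).1
  refine Integrable.mono' (h3.const_mul ((I : ℝ) ^ 4)) ?_ ?_
  · exact ((g_cont X hX).mul ((W_cont L a b I).comp (by fun_prop))).aestronglyMeasurable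
  · refine Filter.Eventually.of_forall fun β => ?_
    rw [Real.norm_eq_abs, abs_of_nonneg (mul_nonneg (g_nonneg X β) (W_nonneg L a b I _)), mul_comm]
    exact mul_le_mul_of_nonneg_right (W_le L a b I _) (g_nonneg X β)

theorem arc_le (h2 : T_INT) (L a b I : ℕ) (X : ℝ) (hX : 1 ≤ X) (q c : ℕ) :
    (∫ α in (0 : ℝ)..1, arc X q c α * (‖PP L a I α‖ ^ 2 * ‖PP L b I α‖ ^ 2)) ≤
      ∫ β : ℝ, g X β * W L a b I ((c : ℝ) / q + β) := by
  have hX0 : 0 < X := by linarith
  have hle : ∀ α, arc X q c α * W L a b I α ≤ g X (α - c / q) * W L a b I α := by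
    intro α
    refine mul_le_mul_of_nonneg_right ?_ (W_nonneg L a b I α)
    unfold arc g
    split_ifs
    · exact le_rfl
    · positivity
  have hsh : (fun α => g X (α - c / q) * W L a b I α) =
      fun α => (fun β => g X β * W L a b I ((c : ℝ) / q + β)) (α - c / q) := by
    funext α
    show _ = g X (α - c / q) * W L a b I ((c : ℝ) / q + (α - c / q))
    rw [add_sub_cancel]
  have hI : Integrable (fun α => g X (α - c / q) * W L a b I α) := by
    rw [hsh]
    exact (gW_int h2 L a b I X hX _).comp_sub_right _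
  have hE : ∫ α : ℝ, g X (α - c / q) * W L a b I α =
      ∫ β : ℝ, g X β * W L a b I ((c : ℝ) / q + β) := by
    rw [hsh]
    exact integral_sub_right_eq_self (fun β => g X β * W L a b I ((c : ℝ) / q + β)) _
  rw [← hE, intervalIntegral.integral_of_le (by norm_num)]
  show (∫ α in Set.Ioc (0 : ℝ) 1, arc X q c α * W L a b I α) ≤ _
  refine le_trans ?_ (setIntegral_le_integral hI (Filter.Eventually.of_forall fun α =>
    mul_nonneg (g_nonneg X _) (W_nonneg L a b I α)) (s := Set.Ioc (0 : ℝ) 1))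
  by_cases hint : IntegrableOn (fun α => arc X q c α * W L a b I α) (Set.Ioc (0 : ℝ) 1)
  · exact setIntegral_mono hint hI.integrableOn hle
  · rw [integral_undef hint]
    exact setIntegral_nonneg measurableSet_Ioc fun α _ =>
      mul_nonneg (g_nonneg X _) (W_nonneg L a b I α)

end ARCB_

open ARCB_ in
theorem p_ARCB (h1 : T_WS) (h2 : T_INT) : T_ARCB := by
  intro L a b I q₁ q₂ X hL ha hb hq₁ hq₂ hcop h2q hX
  have hset : (range (q₁ * q₂ + 1)).filter (fun c => c.Coprime (q₁ * q₂)) =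
      (range (q₁ * q₂)).filter (fun c => c.Coprime (q₁ * q₂)) := by
    rw [Finset.range_add_one, Finset.filter_insert, if_neg]
    intro h
    rw [Nat.coprime_self] at h
    omega
  rw [hset]
  refine (Finset.sum_le_sum fun c _ => arc_le h2 L a b I X hX (q₁ * q₂) c).trans ?_
  rw [← integral_finsetSum _ (fun c _ => gW_int h2 L a b I X hX _)]
  have hi := h2 X (by linarith)
  set M : ℝ := (Nat.totient q₁ : ℝ) * q₂ * Nq L a b I q₂ with hM
  have hpt : ∀ β : ℝ, ∑ c ∈ (range (q₁ * q₂)).filter (fun c => c.Coprime (q₁ * q₂)),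
      g X β * W L a b I ((c : ℝ) / ((q₁ * q₂ : ℕ) : ℝ) + β) ≤
      M * (1 / (1 / X ^ 2 + β ^ 2 / 16)) := by
    intro β
    rw [← Finset.mul_sum, mul_comm]
    exact mul_le_mul_of_nonneg_right (h1 L a b I q₁ q₂ β hL ha hb hq₁ hq₂ hcop) (g_nonneg X β)
  refine (integral_mono (integrable_finsetSum _ fun c _ => gW_int h2 L a b I X hX _)
    (hi.1.const_mul M) hpt).trans (le_of_eq ?_)
  rw [integral_const_mul, hi.2]

end Pool.Agent.Tri5
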