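import Pool.Agent.Tri5.Targets

set_option autoImplicit false

/-!
# ARCC: the arcs with denominator dividing the modulus
-/

open Finset MeasureTheory

namespace Pool.Agent.Tri5

namespace ARCC_

private theorem norm_ex (x : ℝ) : ‖ex x‖ = 1 := by
  unfold ex
  rw [Complex.norm_exp]
  simp

private theorem ex_add_int (x : ℝ) (n : ℤ) : ex (x + n) = ex x := by
  unfold ex
  have h : (2 * (Real.pi : ℂ) * ((x + n : ℝ) : ℂ) * Complex.I) =
      2 * (Real.pi : ℂ) * (x : ℂ) * Complex.I + n * (2 * (Real.pi : ℂ) * Complex.I) := by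
    push_cast
    ring
  rw [h, Complex.exp_add, Complex.exp_int_mul_two_pi_mul_I, mul_one]

private theorem one_sub_ex_le (x : ℝ) : ‖1 - ex x‖ ≤ 2 * Real.pi * |x| := by
  have h := Real.norm_exp_I_mul_ofReal_sub_one_le (x := 2 * Real.pi * x)
  have e : ex x = Complex.exp (Complex.I * ((2 * Real.pi * x : ℝ) : ℂ)) := by
    unfold ex
    congr 1
    push_cast
    ring
  rw [norm_sub_rev, e]
  refine h.trans (le_of_eq ?_)
  rw [Real.norm_eq_abs, abs_mul, abs_of_nonneg (by positivity)]

private theorem one_sub_ex_le_two (x : ℝ) : ‖1 - ex x‖ ≤ 2 := by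
  refine (norm_sub_le _ _).trans ?_
  rw [norm_ex, norm_one]
  norm_num

private theorem norm_PP (L a I : ℕ) (α : ℝ) : ‖PP L a I α‖ ≤ I := by
  unfold PP
  refine (norm_sum_le _ _).trans ?_
  simp only [norm_ex]
  simp

/-- the tail -/
private noncomputable def tl (r t : ℝ) : ℝ := (Set.Ioi r).indicator (fun t => 64 / t ^ 2) t

private theorem tl_integral (r : ℝ) (hr : 0 < r) : ∫ β : ℝ, tl r |β| = 128 / r := by
  rw [integral_comp_abs]
  unfold tl
  rw [setIntegral_indicator measurableSet_Ioi]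
  have h1 : Set.Ioi (0 : ℝ) ∩ Set.Ioi r = Set.Ioi r := by
    rw [Set.inter_eq_right]
    exact Set.Ioi_subset_Ioi hr.le
  rw [h1]
  have h2 : ∫ t in Set.Ioi r, 64 / t ^ 2 = 64 * ∫ t in Set.Ioi r, t ^ (-2 : ℝ) := by
    rw [← integral_const_mul]
    refine setIntegral_congr_fun measurableSet_Ioi ?_
    intro t ht
    have ht0 : 0 < t := hr.trans ht
    simp only
    rw [Real.rpow_neg ht0.le, div_eq_mul_inv]
    norm_num
  rw [h2, integral_Ioi_rpow_of_lt (by norm_num) hr]
  have h3 : (-2 : ℝ) + 1 = -1 := by norm_num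
  rw [h3, Real.rpow_neg_one]
  field_simp
  norm_num

private theorem tl_integrable (r : ℝ) (hr : 0 < r) : Integrable (fun β : ℝ => tl r |β|) := by
  by_contra h
  have h1 := tl_integral r hr
  rw [integral_undef h] at h1
  have : 0 < 128 / r := by positivity
  linarith

private theorem tl_nonneg (r t : ℝ) : 0 ≤ tl r t := by
  unfold tl
  exact Set.indicator_nonneg (fun t _ => by positivity) t

end ARCC_

open ARCC_ in
/-- ARCC. -/
theorem p_ARCC (h1 : T_INT) : T_ARCC := by
  intro L a b I Q q c X B η h hQ hqQ hX hB hη hQh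
  have hX0 : 0 < X := by linarith
  obtain ⟨hKi, hK⟩ := h1 X hX0
  have hq : 0 < q := Nat.pos_of_dvd_of_pos hqQ (by omega)
  have hq' : (q : ℝ) ≠ 0 := by exact_mod_cast hq.ne'
  set r : ℝ := B / X with hr
  have hr0 : 0 < r := by positivity
  set K : ℝ → ℝ := fun β => 1 / (1 / X ^ 2 + β ^ 2 / 16) with hKdef
  have hK0 : ∀ β, 0 ≤ K β := fun β => by simp only [hKdef]; positivity
  set G : ℝ → ℝ := fun β => (I : ℝ) ^ 4 * ((2 * Real.pi * (B * η)) ^ 2 * K β + tl r |β|) with hG
  have hG0 : ∀ β, 0 ≤ G β := fun β => by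
    have := hK0 β
    have := tl_nonneg r |β|
    simp only [hG]
    positivity
  have hGi : Integrable G := ((hKi.const_mul _).add (tl_integrable r hr0)).const_mul _
  have hGint : ∫ β, G β = (I : ℝ) ^ 4 * (16 * Real.pi ^ 3 * B ^ 2 * η ^ 2 * X + 128 * X / B) := by
    simp only [hG]
    rw [integral_const_mul, integral_add (hKi.const_mul _) (tl_integrable r hr0),
      integral_const_mul, tl_integral r hr0, hK, hr]
    field_simp
    ring
  -- pointwise bound
  have hpt : ∀ α : ℝ, arc X q c α * ((‖PP L a I α‖ ^ 2 * ‖PP L b I α‖ ^ 2) *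
      ‖1 - ex (α * (Q * h : ℤ))‖ ^ 2) ≤ G (α - c / q) := by
    intro α
    set β : ℝ := α - c / q with hβ
    have harc : arc X q c α ≤ K β := by
      unfold arc
      split_ifs with hc
      · exact le_rfl
      · exact hK0 β
    have hW : ‖PP L a I α‖ ^ 2 * ‖PP L b I α‖ ^ 2 ≤ (I : ℝ) ^ 4 := by
      have e1 := pow_le_pow_left₀ (norm_nonneg _) (norm_PP L a I α) 2
      have e2 := pow_le_pow_left₀ (norm_nonneg _) (norm_PP L b I α) 2
      calc ‖PP L a I α‖ ^ 2 * ‖PP L b I α‖ ^ 2 ≤ (I : ℝ) ^ 2 * (I : ℝ) ^ 2 :=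
            mul_le_mul e1 e2 (by positivity) (by positivity)
        _ = (I : ℝ) ^ 4 := by ring
    have hex : ex (α * (Q * h : ℤ)) = ex (β * (Q * h)) := by
      obtain ⟨m, hm⟩ := hqQ
      have e : α * ((Q * h : ℤ) : ℝ) = β * (Q * h) + ((c * m * h : ℤ) : ℝ) := by
        rw [hβ, hm]
        push_cast
        field_simp
        ring
      rw [e, ex_add_int]
    rw [hex]
    have hn0 : 0 ≤ ‖1 - ex (β * (Q * h))‖ := norm_nonneg _
    have hmain : K β * ‖1 - ex (β * (Q * h))‖ ^ 2 ≤
        (2 * Real.pi * (B * η)) ^ 2 * K β + tl r |β| := by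
      by_cases hc : |β| ≤ r
      · have e1 : |β * (Q * h)| ≤ B * η := by
          rw [abs_mul]
          calc |β| * |(Q : ℝ) * h| ≤ r * (η * X) :=
                mul_le_mul hc hQh (abs_nonneg _) hr0.le
            _ = B * η := by rw [hr]; field_simp
        have e2 : ‖1 - ex (β * (Q * h))‖ ≤ 2 * Real.pi * (B * η) :=
          (one_sub_ex_le _).trans (mul_le_mul_of_nonneg_left e1 (by positivity))
        have e3 := pow_le_pow_left₀ hn0 e2 2
        have e4 := mul_le_mul_of_nonneg_left e3 (hK0 β)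
        have e5 := tl_nonneg r |β|
        linarith
      · rw [not_le] at hc
        have hβ0 : 0 < |β| := hr0.trans hc
        have hβ2 : 0 < β ^ 2 := by rw [← sq_abs]; positivity
        have e1 : K β ≤ 16 / β ^ 2 := by
          simp only [hKdef]
          rw [div_le_div_iff₀ (by positivity) hβ2]
          have : 0 < 1 / X ^ 2 := by positivity
          nlinarith
        have e2 : ‖1 - ex (β * (Q * h))‖ ^ 2 ≤ 4 := by
          have := pow_le_pow_left₀ hn0 (one_sub_ex_le_two (β * (Q * h))) 2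
          norm_num at this
          exact this
        have e3 : tl r |β| = 64 / β ^ 2 := by
          unfold tl
          rw [Set.indicator_of_mem (by exact hc), sq_abs]
        have e4 : K β * ‖1 - ex (β * (Q * h))‖ ^ 2 ≤ 16 / β ^ 2 * 4 :=
          mul_le_mul e1 e2 (by positivity) (by positivity)
        have e5 : 0 ≤ (2 * Real.pi * (B * η)) ^ 2 * K β := mul_nonneg (by positivity) (hK0 β)
        have e6 : 16 / β ^ 2 * 4 = 64 / β ^ 2 := by ring
        rw [e3]
        linarith
    calc arc X q c α * ((‖PP L a I α‖ ^ 2 * ‖PP L b I α‖ ^ 2) * ‖1 - ex (β * (Q * h))‖ ^ 2)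
        ≤ K β * ((I : ℝ) ^ 4 * ‖1 - ex (β * (Q * h))‖ ^ 2) :=
          mul_le_mul harc (mul_le_mul_of_nonneg_right hW (by positivity)) (by positivity) (hK0 β)
      _ = (I : ℝ) ^ 4 * (K β * ‖1 - ex (β * (Q * h))‖ ^ 2) := by ring
      _ ≤ G β := by
          simp only [hG]
          exact mul_le_mul_of_nonneg_left hmain (by positivity)
  have harc0 : ∀ α, 0 ≤ arc X q c α := by
    intro α
    unfold arc
    split_ifs
    · positivity
    · exact le_rfl
  have hGs : Integrable (fun α : ℝ => G (α - c / q)) := hGi.comp_sub_right _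
  rw [intervalIntegral.integral_of_le zero_le_one]
  calc ∫ α in Set.Ioc (0 : ℝ) 1, arc X q c α * ((‖PP L a I α‖ ^ 2 * ‖PP L b I α‖ ^ 2) *
      ‖1 - ex (α * (Q * h : ℤ))‖ ^ 2)
      ≤ ∫ α in Set.Ioc (0 : ℝ) 1, G (α - c / q) := by
        refine integral_mono_of_nonneg ?_ hGs.integrableOn ?_
        · exact Filter.Eventually.of_forall (fun α => mul_nonneg (harc0 α) (by positivity))
        · exact Filter.Eventually.of_forall hpt
    _ ≤ ∫ α, G (α - c / q) :=
        setIntegral_le_integral hGs (Filter.Eventually.of_forall (fun α => hG0 _))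
    _ = ∫ β, G β := integral_sub_right_eq_self G _
    _ = _ := hGint

end Pool.Agent.Tri5
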