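import Pool.Agent.Tri5.Targets

/-!
# CNT: points of a progression in an interval
-/

set_option autoImplicit false

open Finset

namespace Pool.Agent.Tri5

theorem p_CNT : T_CNT := by
  intro Q y A B hQ
  have hQ0 : (0 : ℝ) < Q := by exact_mod_cast hQ
  refine ⟨Finset.Ioc ⌊(A - y) / Q⌋ ⌊(B - y) / Q⌋, ?_, ?_⟩
  · intro k hk
    rw [Finset.mem_Ioc, Int.floor_lt, Int.le_floor, div_lt_iff₀ hQ0, le_div_iff₀ hQ0] at hk
    push_cast
    constructor
    · linarith [hk.1]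
    · linarith [hk.2]
  · rw [Int.card_Ioc]
    have h1 : ((B - y) / Q : ℝ) - 1 < (⌊(B - y) / Q⌋ : ℝ) := Int.sub_one_lt_floor _
    have h2 : (⌊(A - y) / Q⌋ : ℝ) ≤ (A - y) / Q := Int.floor_le _
    have h3 : ((⌊(B - y) / Q⌋ - ⌊(A - y) / Q⌋ : ℤ) : ℝ) ≤
        (((⌊(B - y) / Q⌋ - ⌊(A - y) / Q⌋ : ℤ).toNat : ℕ) : ℝ) := by
      exact_mod_cast Int.self_le_toNat _
    push_cast at h3
    have h4 : (B - A) / Q = (B - y) / Q - (A - y) / Q := by ring
    linarith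

end Pool.Agent.Tri5
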