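import Pool.Agent.Tri5.Targets

set_option autoImplicit false

/-!
# CONT: continuity and summability of the theta sum
-/

open Finset

namespace Pool.Agent.Tri5

namespace CONT_

/-- comparison of a Gaussian with an exponential -/
private theorem wt_le (X : ℝ) (hX : 1 ≤ X) (z : ℤ) :
    wt X z ≤ Real.exp (Real.pi / 4) * Real.exp (-(Real.pi / √X * |2 * (z : ℝ) + 1|)) := by
  unfold wt
  rw [← Real.exp_add]
  apply Real.exp_le_exp.2
  have hs : 0 < √X := Real.sqrt_pos.2 (by linarith)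
  have h1 : (2 * (z : ℝ) + 1) ^ 2 / X = (|2 * (z : ℝ) + 1| / √X) ^ 2 := by
    rw [div_pow, sq_abs, Real.sq_sqrt (by linarith)]
  have h2 : Real.pi * (2 * (z : ℝ) + 1) ^ 2 / X = Real.pi * (|2 * (z : ℝ) + 1| / √X) ^ 2 := by
    rw [← h1]; ring
  have h3 : Real.pi / √X * |2 * (z : ℝ) + 1| = Real.pi * (|2 * (z : ℝ) + 1| / √X) := by ring
  rw [h2, h3]
  nlinarith [mul_nonneg Real.pi_pos.le (sq_nonneg (|2 * (z : ℝ) + 1| / √X - 1 / 2))]

/-- the sum of the exponentials -/
private theorem hasSum_exp (t : ℝ) (ht : 0 < t) :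
    ∃ S, HasSum (fun z : ℤ => Real.exp (-(t * |2 * (z : ℝ) + 1|))) S ∧ S ≤ 2 / t := by
  set q : ℝ := Real.exp (-t) with hq
  have hq0 : 0 < q := Real.exp_pos _
  have hq1 : q < 1 := by rw [hq]; exact Real.exp_lt_one_iff.2 (by linarith)
  have hq2 : q ^ 2 < 1 := by nlinarith
  have hg : HasSum (fun n : ℕ => q * (q ^ 2) ^ n) (q * (1 - q ^ 2)⁻¹) :=
    (hasSum_geometric_of_lt_one (by positivity) hq2).mul_left q
  have e1 : ∀ n : ℕ, Real.exp (-(t * |2 * (((n : ℕ) : ℤ) : ℝ) + 1|)) = q * (q ^ 2) ^ n := by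
    intro n
    rw [abs_of_nonneg (by push_cast; positivity), hq, ← pow_mul, ← Real.exp_nat_mul, ← Real.exp_add]
    congr 1
    push_cast
    ring
  have e2 : ∀ n : ℕ, Real.exp (-(t * |2 * ((-((n : ℤ) + 1) : ℤ) : ℝ) + 1|)) = q * (q ^ 2) ^ n := by
    intro n
    have : |2 * ((-((n : ℤ) + 1) : ℤ) : ℝ) + 1| = 2 * (n : ℝ) + 1 := by
      rw [abs_of_nonpos (by push_cast; have : (0 : ℝ) ≤ n := by positivity
                            linarith)]
      push_cast
      ring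
    rw [this, hq, ← pow_mul, ← Real.exp_nat_mul, ← Real.exp_add]
    congr 1
    push_cast
    ring
  have hs := HasSum.of_nat_of_neg_add_one
    (f := fun z : ℤ => Real.exp (-(t * |2 * (z : ℝ) + 1|)))
    (by simpa only [e1] using hg) (by simpa only [e2] using hg)
  refine ⟨_, hs, ?_⟩
  have h1 : t * q ≤ 1 - q ^ 2 := by
    have h2 : q * Real.exp t = 1 := by
      rw [hq, ← Real.exp_add]; simp
    have h3 : t + 1 ≤ Real.exp t := Real.add_one_le_exp t
    nlinarith [mul_le_mul_of_nonneg_left h3 hq0.le]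
  have h4 : 0 < 1 - q ^ 2 := by linarith
  have h5 : q * (1 - q ^ 2)⁻¹ ≤ 1 / t := by
    rw [← div_eq_mul_inv, div_le_div_iff₀ h4 ht]
    linarith
  calc q * (1 - q ^ 2)⁻¹ + q * (1 - q ^ 2)⁻¹ ≤ 1 / t + 1 / t := add_le_add h5 h5
    _ = 2 / t := by ring

/-- all weights -/
private theorem wt_sum (X : ℝ) (hX : 1 ≤ X) :
    Summable (fun z : ℤ => wt X z) ∧ ∑' z : ℤ, wt X z ≤ 4 * Real.sqrt X := by
  have hs : 0 < √X := Real.sqrt_pos.2 (by linarith)
  obtain ⟨S, hS, hS2⟩ := hasSum_exp (Real.pi / √X) (by positivity)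
  have hS' := hS.mul_left (Real.exp (Real.pi / 4))
  have h0 : ∀ z : ℤ, 0 ≤ wt X z := fun z => (Real.exp_pos _).le
  have hsum : Summable (fun z : ℤ => wt X z) :=
    Summable.of_nonneg_of_le h0 (wt_le X hX) hS'.summable
  refine ⟨hsum, ?_⟩
  have h1 : ∑' z : ℤ, wt X z ≤ Real.exp (Real.pi / 4) * S := by
    rw [← hS'.tsum_eq]
    exact hsum.tsum_le_tsum (wt_le X hX) hS'.summable
  have h2 : Real.exp (Real.pi / 4) ≤ 3 := by
    have h3 : Real.exp (Real.pi / 4) ≤ Real.exp 1 :=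
      Real.exp_le_exp.2 (by linarith [Real.pi_le_four])
    linarith [Real.exp_one_lt_d9]
  have h3 : 2 / (Real.pi / √X) = 2 * √X / Real.pi := by
    field_simp
  rw [h3] at hS2
  have h4 : 2 * √X / Real.pi ≤ 2 * √X / 3 :=
    div_le_div_of_nonneg_left (by positivity) (by norm_num) Real.pi_gt_three.le
  have h5 : 0 ≤ S := hS.nonneg (fun z => (Real.exp_pos _).le)
  calc ∑' z : ℤ, wt X z ≤ Real.exp (Real.pi / 4) * S := h1
    _ ≤ 3 * (2 * √X / 3) := mul_le_mul h2 (hS2.trans h4) h5 (by norm_num)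
    _ = 2 * √X := by ring
    _ ≤ 4 * √X := by linarith

end CONT_

open CONT_ in
/-- CONT. -/
theorem p_CONT : T_CONT := by
  intro Q y X hQ hX
  obtain ⟨hs, hb⟩ := wt_sum X hX
  have hinj : Function.Injective (fun k : ℤ => y + (Q : ℤ) * k) := by
    intro a b hab
    have h1 : (Q : ℤ) * a = (Q : ℤ) * b := by simpa using hab
    have h2 : (Q : ℤ) ≠ 0 := by exact_mod_cast (by omega : Q ≠ 0)
    exact mul_left_cancel₀ h2 h1
  have hs' : Summable (fun k : ℤ => wt X (y + Q * k)) := hs.comp_injective hinj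
  refine ⟨?_, hs', ?_⟩
  · unfold th
    refine continuous_tsum (u := fun k : ℤ => wt X (y + Q * k)) ?_ hs' ?_
    · intro k
      unfold ex
      fun_prop
    · intro k α
      have hw : 0 ≤ wt X (y + Q * k) := (Real.exp_pos _).le
      rw [norm_mul, Complex.norm_real, Real.norm_of_nonneg hw]
      have : ‖ex (α * Tri (y + Q * k))‖ = 1 := by
        unfold ex
        rw [Complex.norm_exp]
        simp
      rw [this, mul_one]
  · exact (tsum_comp_le_tsum_of_inj hs (fun z => (Real.exp_pos _).le) hinj).trans hb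

end Pool.Agent.Tri5
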