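import Pool.Agent.Tri5.Defs

/-!
# Sums of two triangular numbers and two powers of 5: targets
(proofs in Blueprint.lean.txt)
-/

set_option autoImplicit false

open Finset

namespace Pool.Agent.Tri5

/-! ### Analytic part -/

/-- PAR: Parseval. -/
def T_PAR : Prop := ∀ (ι : Type) [Countable ι] (W : ι → ℝ) (v : ι → ℤ) (h : ℤ),
  (∀ i, 0 ≤ W i) → Summable W →
  (Summable (fun n : ℤ => (∑' i, if v i = n then W i else 0) ^ 2) ∧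
    ∑' n : ℤ, (∑' i, if v i = n then W i else 0) ^ 2 =
      ∫ α in (0 : ℝ)..1, ‖∑' i, (W i : ℂ) * ex (α * v i)‖ ^ 2) ∧
  Summable (fun n : ℤ => ((∑' i, if v i = n then W i else 0) -
    ∑' i, if v i = n + h then W i else 0) ^ 2) ∧
  ∑' n : ℤ, ((∑' i, if v i = n then W i else 0) - ∑' i, if v i = n + h then W i else 0) ^ 2 =
    ∫ α in (0 : ℝ)..1, ‖∑' i, (W i : ℂ) * ex (α * v i)‖ ^ 2 * ‖1 - ex (α * h)‖ ^ 2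

/-- FAC: the generating function factors. -/
def T_FAC : Prop := ∀ (Q L a b I : ℕ) (y z : ℤ) (X : ℝ), 1 ≤ Q → 1 ≤ X →
  Summable (wg Q y z X I) ∧ ∀ α : ℝ,
    ∑' x : Ix I, (wg Q y z X I x : ℂ) * ex (α * vl Q L a b I y z x) =
      th Q y X α * th Q z X α * (PP L a I α * PP L b I α)

/-- CONT: continuity and summability of the theta sum. -/
def T_CONT : Prop := ∀ (Q : ℕ) (y : ℤ) (X : ℝ), 1 ≤ Q → 1 ≤ X →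
  Continuous (th Q y X) ∧ Summable (fun k : ℤ => wt X (y + Q * k)) ∧
    ∑' k : ℤ, wt X (y + Q * k) ≤ 4 * Real.sqrt X

/-- JVE (from PAR, FAC): the mean square of the difference is the integral `JV`. -/
def T_JVE : Prop := ∀ (Q L a b I : ℕ) (y z : ℤ) (X : ℝ) (h : ℤ), 1 ≤ Q → 1 ≤ X →
  Summable (fun n : ℤ => (RR Q L a b I y z X n - RR Q L a b I y z X (n + h)) ^ 2) ∧
  ∑' n : ℤ, (RR Q L a b I y z X n - RR Q L a b I y z X (n + h)) ^ 2 = JV Q L a b I y z X h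

/-- GK: complete sums with a linear term. -/
def T_GK : Prop := ∀ (Q : ℕ) (y : ℤ) (q : ℕ) (c k : ℤ), 1 ≤ Q → 1 ≤ q →
  IsCoprime c (q : ℤ) →
  ‖∑ s ∈ range (2 * q), ex ((c : ℝ) * Tri (y + Q * s) / q + k * s / (2 * q))‖ ^ 2 ≤
    4 * q * Nat.gcd (Q ^ 2) q

/-- POI: Poisson summation for a progression. -/
def T_POI : Prop := ∀ (τ : ℂ) (m u : ℝ), 0 < τ.re → 0 < m →
  Summable (fun j : ℤ => Complex.exp (-(Real.pi * τ * ((u : ℂ) + m * j) ^ 2))) ∧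
  Summable (fun k : ℤ => Complex.exp (-(Real.pi * (k : ℂ) ^ 2 / ((m : ℂ) ^ 2 * τ)))) ∧
  ∑' j : ℤ, Complex.exp (-(Real.pi * τ * ((u : ℂ) + m * j) ^ 2)) =
    1 / ((m : ℂ) * τ ^ (1 / 2 : ℂ)) *
      ∑' k : ℤ, Complex.exp (-(Real.pi * (k : ℂ) ^ 2 / ((m : ℂ) ^ 2 * τ))) * ex (k * u / m)

/-- TAIL: a Gaussian sum. -/
def T_TAIL : Prop := ∀ σ : ℝ, 0 < σ →
  Summable (fun k : ℤ => Real.exp (-(Real.pi * (k : ℝ) ^ 2 * σ))) ∧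
  ∑' k : ℤ, (if k = 0 then 0 else Real.exp (-(Real.pi * (k : ℝ) ^ 2 * σ))) ≤ 1 / Real.sqrt σ

/-- APP (from GK, POI, TAIL): the theta sum near a fraction. -/
def T_APP : Prop := ∀ (Q : ℕ) (y : ℤ) (X : ℝ) (q : ℕ) (c : ℤ) (β : ℝ), 1 ≤ Q → 1 ≤ X → 1 ≤ q →
  IsCoprime c (q : ℤ) → (q : ℝ) ≤ Real.sqrt X → |β| ≤ 1 / (q * Real.sqrt X) →
  ∃ m : ℂ, ‖th Q y X (c / q + β) - m‖ ≤ 3 * Q * Real.sqrt (Real.sqrt X) ∧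
    ‖m‖ ^ 2 * (16 * q ^ 2 * Q ^ 2 * Real.sqrt (1 / X ^ 2 + β ^ 2 / 16)) ≤ ‖GG Q y q c‖ ^ 2

/-- GAU (from GK): the complete sums. -/
def T_GAU : Prop := ∀ (Q : ℕ) (y : ℤ) (q : ℕ) (c : ℤ), Squarefree Q → Odd Q → 1 ≤ q →
  IsCoprime c (q : ℤ) →
  ‖GG Q y q c‖ ^ 2 ≤ 4 * q * Nat.gcd (Q ^ 2) q ∧ (Even q → GG Q y q c = 0) ∧
  ∀ p : ℕ, p.Prime → p ∣ Q → p ^ 2 ∣ q → ¬ (p : ℤ) ∣ 2 * y + 1 → GG Q y q c = 0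

/-- QF: the modulus. -/
def T_QF : Prop := ∀ L : ℕ, 1 ≤ L →
  Squarefree (Qf L) ∧ Odd (Qf L) ∧ 5 ∣ Qf L ∧ 1 ≤ Qf L ∧
  (∀ p : ℕ, p.Prime → (p ∣ Qf L ↔ p ≠ 2 ∧ (p = 5 ∨ p ∣ 5 ^ L - 1))) ∧
  (∀ a i : ℕ, 1 ≤ a → (Qf L : ℤ) ∣ 5 ^ (a + L * i) - 5 ^ a) ∧
  ∀ y k : ℤ, (Qf L : ℤ) ∣ Tri (y + Qf L * k) - Tri y

/-- GAU2 (from GAU, QF): the product of two complete sums. -/
def T_GAU2 : Prop := ∀ (L a b : ℕ) (y z : ℤ) (q : ℕ) (c : ℤ), Dat L a b y z → 1 ≤ q →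
  IsCoprime c (q : ℤ) →
  GG (Qf L) y q c * GG (Qf L) z q c = 0 ∨ ∃ q₁ q₂ : ℕ, q = q₁ * q₂ ∧ q₁ ∣ Qf L ∧
    q₂.Coprime (2 * Qf L) ∧ (‖GG (Qf L) y q c‖ * ‖GG (Qf L) z q c‖) ^ 2 ≤ (4 * q * q₁) ^ 2

/-- One arc. -/
noncomputable def arc (X : ℝ) (q c : ℕ) (α : ℝ) : ℝ :=
  if |α - c / q| ≤ 1 / (q * Real.sqrt X) then 1 / (1 / X ^ 2 + (α - c / q) ^ 2 / 16) else 0

/-- The majorant. -/
noncomputable def MJ (Q : ℕ) (X α : ℝ) : ℝ :=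
  ∑ q₁ ∈ Q.divisors, ∑ q₂ ∈ (Icc 1 ⌊Real.sqrt X⌋₊).filter (fun q => q.Coprime (2 * Q)),
    ∑ c ∈ (range (q₁ * q₂ + 1)).filter (fun c => c.Coprime (q₁ * q₂)),
      arc X (q₁ * q₂) c α / (16 * q₂ ^ 2 * Q ^ 4)

/-- PT (from APP, GAU2, QF): pointwise bound. -/
def T_PT : Prop := ∀ (L a b : ℕ) (y z : ℤ) (X α : ℝ), Dat L a b y z → 1 ≤ X → 0 ≤ α → α ≤ 1 →
  ‖th (Qf L) y X α‖ ^ 2 * ‖th (Qf L) z X α‖ ^ 2 ≤ 2 * MJ (Qf L) X α +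
    6 * (3 * Qf L * Real.sqrt (Real.sqrt X)) ^ 2 * (‖th (Qf L) y X α‖ ^ 2 +
      ‖th (Qf L) z X α‖ ^ 2 + (3 * Qf L * Real.sqrt (Real.sqrt X)) ^ 2)

/-- WS (from QF): the sums over powers at the fractions. -/
def T_WS : Prop := ∀ (L a b I q₁ q₂ : ℕ) (β : ℝ), 1 ≤ L → 1 ≤ a → 1 ≤ b → q₁ ∣ Qf L → 1 ≤ q₂ →
  q₂.Coprime (2 * Qf L) →
  ∑ c ∈ (range (q₁ * q₂)).filter (fun c => c.Coprime (q₁ * q₂)),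
    ‖PP L a I ((c : ℝ) / ((q₁ * q₂ : ℕ) : ℝ) + β)‖ ^ 2 *
      ‖PP L b I ((c : ℝ) / ((q₁ * q₂ : ℕ) : ℝ) + β)‖ ^ 2 ≤
    Nat.totient q₁ * q₂ * Nq L a b I q₂

/-- INT: the Cauchy integral. -/
def T_INT : Prop := ∀ X : ℝ, 0 < X →
  MeasureTheory.Integrable (fun β : ℝ => 1 / (1 / X ^ 2 + β ^ 2 / 16)) ∧
  ∫ β : ℝ, 1 / (1 / X ^ 2 + β ^ 2 / 16) = 4 * Real.pi * X

/-- ARCA (from PT, CONT, QF). -/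
def T_ARCA : Prop := ∀ (L a b I : ℕ) (y z : ℤ) (X : ℝ) (h : ℤ), Dat L a b y z → 1 ≤ X →
  JV (Qf L) L a b I y z X h ≤
    2 * (∫ α in (0 : ℝ)..1, MJ (Qf L) X α *
      ((‖PP L a I α‖ ^ 2 * ‖PP L b I α‖ ^ 2) * ‖1 - ex (α * h)‖ ^ 2)) +
    24 * (3 * Qf L * Real.sqrt (Real.sqrt X)) ^ 2 * (J1 (Qf L) L a b I y X +
      J1 (Qf L) L a b I z X + (3 * Qf L * Real.sqrt (Real.sqrt X)) ^ 2 * J2 L a b I)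

/-- ARCB (from WS, INT): the arcs of one denominator. -/
def T_ARCB : Prop := ∀ (L a b I q₁ q₂ : ℕ) (X : ℝ), 1 ≤ L → 1 ≤ a → 1 ≤ b → q₁ ∣ Qf L →
  1 ≤ q₂ → q₂.Coprime (2 * Qf L) → 2 ≤ q₁ * q₂ → 1 ≤ X →
  ∑ c ∈ (range (q₁ * q₂ + 1)).filter (fun c => c.Coprime (q₁ * q₂)),
    (∫ α in (0 : ℝ)..1, arc X (q₁ * q₂) c α * (‖PP L a I α‖ ^ 2 * ‖PP L b I α‖ ^ 2)) ≤
    Nat.totient q₁ * q₂ * Nq L a b I q₂ * (4 * Real.pi * X)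

/-- ARCC (from INT): the arcs with denominator dividing the modulus. -/
def T_ARCC : Prop := ∀ (L a b I Q q c : ℕ) (X B η : ℝ) (h : ℤ), 1 ≤ Q → q ∣ Q → 1 ≤ X →
  0 < B → 0 ≤ η → |(Q : ℝ) * h| ≤ η * X →
  (∫ α in (0 : ℝ)..1, arc X q c α * ((‖PP L a I α‖ ^ 2 * ‖PP L b I α‖ ^ 2) *
    ‖1 - ex (α * (Q * h : ℤ))‖ ^ 2)) ≤
    (I : ℝ) ^ 4 * (16 * Real.pi ^ 3 * B ^ 2 * η ^ 2 * X + 128 * X / B)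

/-- ARC (from ARCA, ARCB, ARCC, QF): the bound of `JV`. -/
def T_ARC : Prop := ∀ (L a b I : ℕ) (y z : ℤ) (X B η : ℝ) (h : ℤ), Dat L a b y z → 1 ≤ X →
  0 < B → 0 ≤ η → |(Qf L : ℝ) * h| ≤ η * X →
  JV (Qf L) L a b I y z X (Qf L * h) ≤
    X / (Qf L : ℝ) ^ 3 * (2 * Real.pi * SI L a b I ⌊Real.sqrt X⌋₊ +
      (I : ℝ) ^ 4 * (32 / B + 4 * Real.pi ^ 3 * B ^ 2 * η ^ 2)) +
    24 * (3 * Qf L * Real.sqrt (Real.sqrt X)) ^ 2 * (J1 (Qf L) L a b I y X +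
      J1 (Qf L) L a b I z X + (3 * Qf L * Real.sqrt (Real.sqrt X)) ^ 2 * J2 L a b I)

/-- EQ: coincidences of sums of two powers. -/
def T_EQ : Prop := ∀ L a b I : ℕ, 1 ≤ L →
  ((quads I).filter (fun u => hh L a b u = 0)).card ≤ 2 * I ^ 2

/-- JJ (from EQ). -/
def T_JJ : Prop := ∀ L a b I : ℕ, 1 ≤ L → J2 L a b I ≤ 2 * (I : ℝ) ^ 2

/-- DIV: the divisor bound. -/
def T_DIV : Prop := ∃ C : ℝ, 0 < C ∧ ∀ n : ℕ, 1 ≤ n →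
  (n.divisors.card : ℝ) ≤ C * (n : ℝ) ^ ((1 : ℝ) / 4)

/-- HYP: representations of a nonzero number as a difference of triangular numbers. -/
def T_HYP : Prop := ∀ h : ℤ, h ≠ 0 → {w : ℤ × ℤ | Tri w.1 - Tri w.2 = h}.Finite ∧
  {w : ℤ × ℤ | Tri w.1 - Tri w.2 = h}.ncard ≤ 2 * (2 * h.natAbs).divisors.card

/-- J1E (from CONT): expansion of `J1`. -/
def T_J1E : Prop := ∀ (Q L a b I : ℕ) (y : ℤ) (X : ℝ), 1 ≤ Q → 1 ≤ X →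
  (∀ m : ℤ, Summable (fun w : ℤ × ℤ => if Tri (y + Q * w.1) - Tri (y + Q * w.2) = m then
    wt X (y + Q * w.1) * wt X (y + Q * w.2) else 0)) ∧
  J1 Q L a b I y X = ∑ u ∈ quads I, ∑' w : ℤ × ℤ,
    if Tri (y + Q * w.1) - Tri (y + Q * w.2) = - hh L a b u then
      wt X (y + Q * w.1) * wt X (y + Q * w.2) else 0

/-- JO (from J1E, HYP, EQ, DIV, CONT). -/
def T_JO : Prop := ∃ C : ℝ, 0 < C ∧ ∀ (Q L a b I : ℕ) (y : ℤ) (X : ℝ), 1 ≤ Q → 1 ≤ L → 1 ≤ X →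
  (5 : ℝ) ^ (a + L * I) ≤ X → (5 : ℝ) ^ (b + L * I) ≤ X →
  J1 Q L a b I y X ≤ C * ((I : ℝ) ^ 2 * Real.sqrt X + (I : ℝ) ^ 4 * X ^ ((1 : ℝ) / 4))

/-- EXP: expansion over squarefree divisors. -/
def T_EXP : Prop := ∀ (ι : Type) (U : Finset ι) (h : ι → ℤ) (S : Finset ℕ), (∀ p ∈ S, p.Prime) →
  ∑ u ∈ U, ∏ p ∈ S.filter (fun p : ℕ => (p : ℤ) ∣ h u), (1 + 1 / ((p : ℝ) - 1)) =
    ∑ d ∈ (∏ p ∈ S, p).divisors, (1 : ℝ) / Nat.totient d *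
      ((U.filter (fun u => (d : ℤ) ∣ h u)).card : ℝ)

/-- ND: number of quadruples in a residue class. -/
def T_ND : Prop := ∀ L a b I d : ℕ, 1 ≤ d → d.Coprime 5 →
  1 ≤ od L d ∧ (Nq L a b I d : ℝ) ≤ (I : ℝ) ^ 3 * (I / od L d + 1) ∧
  (od L d ∣ I → (Nq L a b I d : ℝ) ≤ (I : ℝ) ^ 4 / od L d)

/-- RO1: the reciprocals of the divisors of an integer. -/
def T_RO1 : Prop := ∀ (R I N : ℕ) (h : ℤ) (A : ℝ), 2 ≤ I → h ≠ 0 → |(h : ℝ)| ≤ Real.exp A →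
  ∑ q ∈ (Icc 1 N).filter (fun q : ℕ => q.Coprime R ∧ (q : ℤ) ∣ h), (1 : ℝ) / q ≤
    Real.exp (A / (I * Real.log I)) *
      ∏ p ∈ ((Icc 1 I).filter (fun p : ℕ => p.Prime ∧ ¬ p ∣ R)).filter (fun p : ℕ => (p : ℤ) ∣ h),
        (1 + 1 / ((p : ℝ) - 1))

/-- RO2 (from EXP, ND, QF). -/
def T_RO2 : Prop := ∀ (L a b I : ℕ) (g : ℝ), 1 ≤ L → 0 ≤ g → BG L g →
  ∑ u ∈ quads I, ∏ p ∈ ((Icc 1 I).filter (fun p : ℕ => p.Prime ∧ ¬ p ∣ 2 * Qf L)).filter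
    (fun p : ℕ => (p : ℤ) ∣ hh L a b u), (1 + 1 / ((p : ℝ) - 1)) ≤
    (1 + g) * (I : ℝ) ^ 4 + (I : ℝ) ^ 3 * (2 * Real.sqrt I)

/-- ROM (from EQ, RO1, RO2): the Romanoff type sum. -/
def T_ROM : Prop := ∀ (L a b : ℕ) (g C ε : ℝ), 1 ≤ L → 0 ≤ g → BG L g → 0 < ε →
  ∃ I₀ : ℕ, ∀ I : ℕ, I₀ ≤ I → ∀ N : ℕ, (N : ℝ) ≤ C * 5 ^ (L * I) →
    SI L a b I N ≤ (g + ε) * (I : ℝ) ^ 4

/-- VAR (from JVE, ARC, JO, JJ, ROM, QF): the mean square is small. -/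
def T_VAR : Prop := ∀ (L a b : ℕ) (y z : ℤ) (g δ η B κ : ℝ), Dat L a b y z → BG L g → 0 ≤ g →
  0 < δ → δ ≤ 1 → 0 < η → 0 < B →
  2 * Real.pi * g + 32 / B + 4 * Real.pi ^ 3 * B ^ 2 * η ^ 2 < κ →
  ∃ I₀ : ℕ, ∀ I : ℕ, I₀ ≤ I → ∀ x : ℝ, 8 * (5 : ℝ) ^ (L * (I + 1)) ≤ δ * x →
    δ * x ≤ 8 * (5 : ℝ) ^ (L * (I + 2)) → ∀ h : ℕ, (Qf L : ℝ) * h ≤ 8 * η * x →
    Summable (fun n : ℤ => (RR (Qf L) L a b I y z (8 * x) n -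
      RR (Qf L) L a b I y z (8 * x) (n + Qf L * h)) ^ 2) ∧
    ∑' n : ℤ, (RR (Qf L) L a b I y z (8 * x) n -
      RR (Qf L) L a b I y z (8 * x) (n + Qf L * h)) ^ 2 ≤
      κ * (8 * x) * (I : ℝ) ^ 4 / (Qf L : ℝ) ^ 3

/-- SUMF (from FAC): lower bound of local sums by a finite set of representations. -/
def T_SUMF : Prop := ∀ (Q L a b I : ℕ) (y z : ℤ) (X w : ℝ) (n : ℤ) (H : ℕ) (F : Finset (Ix I)),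
  1 ≤ Q → 1 ≤ X →
  (∀ x ∈ F, w ≤ wg Q y z X I x ∧ ∃ h ∈ Icc 1 H, vl Q L a b I y z x = n + Q * (h : ℤ)) →
  w * (F.card : ℝ) ≤ ∑ h ∈ Icc 1 H, RR Q L a b I y z X (n + Q * (h : ℤ))

/-- CNT: points of a progression in an interval. -/
def T_CNT : Prop := ∀ (Q : ℕ) (y : ℤ) (A B : ℝ), 1 ≤ Q →
  ∃ F : Finset ℤ, (∀ k ∈ F, A < ((y + Q * k : ℤ) : ℝ) ∧ ((y + Q * k : ℤ) : ℝ) ≤ B) ∧
    (B - A) / Q - 1 ≤ (F.card : ℝ)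

/-- LAT (from QF, SUMF, CNT): lower bound for local averages. -/
def T_LAT : Prop := ∀ (L a b : ℕ) (y z : ℤ) (δ η : ℝ), Dat L a b y z → 0 < δ → δ ≤ 1 → 0 < η →
  η ≤ 1 / 8 → ∃ I₀ : ℕ, ∀ I : ℕ, I₀ ≤ I → ∀ x : ℝ, 8 * (5 : ℝ) ^ (L * (I + 1)) ≤ δ * x →
    ∀ n : ℕ, δ * x ≤ n → (n : ℝ) ≤ x → (Qf L : ℤ) ∣ n - (Tri y + Tri z + 5 ^ a + 5 ^ b) →
    Real.sqrt δ * (I : ℝ) ^ 2 * ⌊8 * η * x / Qf L⌋₊ / (16 * Qf L) * Real.exp (-8) ≤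
      ∑ h ∈ Icc 1 ⌊8 * η * x / Qf L⌋₊, RR (Qf L) L a b I y z (8 * x) ((n : ℤ) + Qf L * (h : ℤ))

/-- REP: positive weight gives a representation. -/
def T_REP : Prop := ∀ (Q L a b I : ℕ) (y z : ℤ) (X : ℝ) (n : ℕ),
  RR Q L a b I y z X n ≠ 0 → Rep n

/-- EXC (from VAR, LAT, REP, QF): few exceptions in a class. -/
def T_EXC : Prop := ∀ (L a b : ℕ) (y z : ℤ) (g δ η B κ : ℝ), Dat L a b y z → BG L g → 0 ≤ g →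
  0 < δ → δ ≤ 1 → 0 < η → η ≤ 1 / 8 → 0 < B →
  2 * Real.pi * g + 32 / B + 4 * Real.pi ^ 3 * B ^ 2 * η ^ 2 < κ →
  ∃ x₀ : ℝ, ∀ x : ℝ, x₀ ≤ x →
    (Nat.card {n : ℕ // δ * x ≤ n ∧ (n : ℝ) ≤ x ∧
      (Qf L : ℤ) ∣ n - (Tri y + Tri z + 5 ^ a + 5 ^ b) ∧ ¬ Rep n} : ℝ) ≤
      2048 * Real.exp 16 * κ * x / (δ * Qf L)

/-- LOC0: solutions modulo a prime. -/
def T_LOC0 : Prop := ∀ (p : ℕ) (r : ℤ), p.Prime → p ≠ 2 → (p % 4 = 3 → ¬ (p : ℤ) ∣ r) →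
  ∃ y z : ℤ, (p : ℤ) ∣ (2 * y + 1) ^ 2 + (2 * z + 1) ^ 2 - 2 * r ∧
    ¬ ((p : ℤ) ∣ 2 * y + 1 ∧ (p : ℤ) ∣ 2 * z + 1)

/-- LOC (from QF, LOC0): local solutions. -/
def T_LOC : Prop := ∀ L n : ℕ, 1 ≤ L → Good L n → ∃ (a b : ℕ) (y z : ℤ), Dat L a b y z ∧
  0 ≤ y ∧ y < Qf L ∧ 0 ≤ z ∧ z < Qf L ∧ (Qf L : ℤ) ∣ n - (Tri y + Tri z + 5 ^ a + 5 ^ b)

/-- MER: a consequence of the theorem of Mertens. -/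
def T_MER : Prop := ∃ C : ℝ, 0 < C ∧ ∀ (k n : ℕ) (S : Finset ℕ), 2 ≤ k → k ≤ n → S.card ≤ n →
  (∀ p ∈ S, p.Prime ∧ k < p) →
  ∏ p ∈ S, (1 + 1 / ((p : ℝ) - 1)) ≤ C * Real.log n / Real.log k

/-- GS1: the terms of small order. -/
def T_GS1 : Prop := ∀ (L k : ℕ) (S : Finset ℕ), 1 ≤ L → 2 ≤ k →
  (∀ r : ℕ, r.Prime → r ≤ k → k ^ 4 < r ^ (L.factorization r + 1)) →
  (∀ p ∈ S, p.Prime ∧ ¬ p ∣ 2 * Qf L) →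
  ∑ d ∈ ((∏ p ∈ S, p).divisors.erase 1).filter (fun d => od L d ≤ k),
    (1 : ℝ) / (Nat.totient d * od L d) ≤
    Real.exp ((1 + Real.log (3 * L * k ^ 2)) / k ^ 3) - 1

/-- GS2 (from MER): the terms of large order. -/
def T_GS2 : Prop := ∃ C : ℝ, 0 < C ∧ ∀ (L k : ℕ) (S : Finset ℕ), 1 ≤ L → 2 ≤ k →
  (∀ p ∈ S, p.Prime ∧ ¬ p ∣ 2 * Qf L ∧ k < p) →
  ∑ d ∈ (∏ p ∈ S, p).divisors.filter (fun d => k < od L d),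
    (1 : ℝ) / (Nat.totient d * od L d) ≤
    C * (Real.log (3 * L) + Real.log k) / (k * Real.log k)

/-- LCM (from QF): the choice of `L`. -/
def T_LCM : Prop := ∃ C : ℝ, 0 < C ∧ ∀ k : ℕ, 5 ≤ k → ∃ L : ℕ, 1 ≤ L ∧ 30 ∣ L ∧
  Real.log L ≤ C * k ∧ (∀ r : ℕ, r.Prime → r ≤ k → k ^ 4 < r ^ (L.factorization r + 1)) ∧
  ∀ p : ℕ, p.Prime → p ≤ k → p ∣ 2 * Qf L

/-- GSM (from GS1, GS2, LCM): the Romanoff series can be made small. -/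
def T_GSM : Prop := ∀ ε : ℝ, 0 < ε → ∃ L : ℕ, 1 ≤ L ∧ 30 ∣ L ∧ BG L ε

/-- THM1 (from EXC, LOC, GSM, QF): the local-global principle for almost all integers. -/
def T_THM1 : Prop := ∀ ε : ℝ, 0 < ε → ∃ L : ℕ, 1 ≤ L ∧ 30 ∣ L ∧ ∃ x₀ : ℕ, ∀ x : ℕ, x₀ ≤ x →
  (Nat.card {n : ℕ // n < x ∧ Good L n ∧ ¬ Rep n} : ℝ) ≤ ε * x

/-! ### Numerical part -/

/-- The relevant primes. -/
def C3 (p : ℕ) : Prop := p.Prime ∧ p % 4 = 3 ∧ p ≠ 3 ∧ p ≠ 7 ∧ p ≠ 11 ∧ p ≠ 31 ∧ p ≠ 71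

/-- FIN: finite check. -/
def T_FIN : Prop := ∀ n : ℕ, ∃ a b : ℕ, 1 ≤ a ∧ a ≤ 30 ∧ 1 ≤ b ∧ b ≤ 30 ∧
  ∀ p ∈ ({3, 7, 11, 31, 71} : Finset ℕ), ¬ (p : ℤ) ∣ 4 * (n : ℤ) + 1 - 4 * 5 ^ a - 4 * 5 ^ b

/-- SM: second moment. -/
def T_SM : Prop := ∀ (ι : Type) (U : Finset ι) (v : ι → ℤ) (N₀ r : ℕ) (S : Finset ℕ), 1 ≤ N₀ →
  r < N₀ → (∀ p ∈ S, p.Prime ∧ 3 ≤ p ∧ p.Coprime N₀) →
  (((range (N₀ * ∏ p ∈ S, p)).filter (fun n => n % N₀ = r ∧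
    ∀ u ∈ U, ∃ p ∈ S, (p : ℤ) ∣ 4 * (n : ℤ) + 1 - v u)).card : ℝ) * (U.card : ℝ) ^ 2 ≤
  (∏ p ∈ S, (p : ℝ)) * (∑ w ∈ U ×ˢ U, ∏ p ∈ S.filter (fun p : ℕ => (p : ℤ) ∣ v w.1 - v w.2),
    (1 + 1 / ((p : ℝ) - 1)) - (U.card : ℝ) ^ 2)

/-- SC2 (from EXP, ND): the average over the quadruples. -/
def T_SC2 : Prop := ∀ (a b K : ℕ) (S : Finset ℕ), (∀ p ∈ S, C3 p ∧ p ∣ 5 ^ (30 * K) - 1) →
  1 ≤ K →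
  ∑ u ∈ quads K, ∏ p ∈ S.filter (fun p : ℕ => (p : ℤ) ∣ hh 30 a b u), (1 + 1 / ((p : ℝ) - 1)) ≤
    (K : ℝ) ^ 4 * (1 + GS 30 S)

/-- SEC (from FIN, SM, SC2): the density of the good numbers. -/
def T_SEC : Prop := ∀ (L : ℕ) (g : ℝ), 1 ≤ L → 30 ∣ L → 0 ≤ g →
  (∀ S : Finset ℕ, (∀ p ∈ S, C3 p) → GS 30 S ≤ g) →
  ∃ M : ℕ, 1 ≤ M ∧ (∀ n, Good L (n + M) ↔ Good L n) ∧
    (Nat.card {n : ℕ // n < M ∧ ¬ Good L n} : ℝ) ≤ g * M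

/-- One term of the majorant of the Romanoff series. -/
noncomputable def tm (S : Finset ℕ) (p : ℕ) : ℝ :=
  1 / (((p : ℝ) - 1) * od 30 p) * ∏ r ∈ S.filter (fun r => r < p), (1 + 1 / ((r : ℝ) - 1))

/-- NU1: the series is bounded by a sum over primes. -/
def T_NU1 : Prop := ∀ S : Finset ℕ, (∀ p ∈ S, C3 p) → GS 30 S ≤ ∑ p ∈ S, tm S p

/-- NU2: computation. -/
def T_NU2 : Prop := ∀ S : Finset ℕ, (∀ p ∈ S, C3 p ∧ p < 30000) →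
  ∑ p ∈ S, tm S p ≤ 497 / 10000 ∧ ∏ p ∈ S, (1 + 1 / ((p : ℝ) - 1)) ≤ 1833 / 1000

/-- N3A: the product over the large primes. -/
def T_N3A : Prop := ∀ (S : Finset ℕ) (p : ℕ), (∀ r ∈ S, C3 r ∧ 30000 < r) → p ∈ S →
  ∏ r ∈ S.filter (fun r => r < p), (1 + 1 / ((r : ℝ) - 1)) ≤
    (((p : ℝ) - 1) / 30000) ^ ((1 : ℝ) / 4)

/-- N3B: the primes with given odd part of the order. -/
def T_N3B : Prop := ∀ (t : ℕ) (J : Finset ℕ), Odd t →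
  (∀ p ∈ J, p.Prime ∧ p % 4 = 3 ∧ 30000 < p ∧ p ∣ 5 ^ (2 * t) - 1 ∧ t ∣ p - 1) →
  (J.card : ℝ) ≤ 313 / 1000 * t ∧
  ∑ p ∈ J, ((p : ℝ) - 1) ^ (-(3 : ℝ) / 4) ≤ 53 / 50 * (t : ℝ) ^ (-(1 : ℝ) / 2)

/-- N3C: the sum over the large odd parts. -/
def T_N3C : Prop := ∀ T : Finset ℕ, (∀ t ∈ T, Odd t ∧ 390 < t) →
  ∑ t ∈ T, (Nat.gcd t 15 : ℝ) * (t : ℝ) ^ (-(3 : ℝ) / 2) ≤ 3 / Real.sqrt 390

/-- N3D: the order of `5 ^ 30` modulo a prime. -/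
def T_N3D : Prop := ∀ p : ℕ, p.Prime → p % 4 = 3 → ∃ t : ℕ, Odd t ∧ p ∣ 5 ^ (2 * t) - 1 ∧
  t ∣ p - 1 ∧ od 30 p * Nat.gcd t 15 = t

/-- NU3 (from N3A, N3B, N3C, N3D): the tail. -/
def T_NU3 : Prop := ∀ S : Finset ℕ, (∀ p ∈ S, C3 p ∧ 30000 < p) → ∑ p ∈ S, tm S p ≤ 2 / 100

/-- NUM (from NU1, NU2, NU3). -/
def T_NUM : Prop := ∀ S : Finset ℕ, (∀ p ∈ S, C3 p) → GS 30 S ≤ 9 / 100

/-- THM2 (from THM1, SEC, NUM): lower density. -/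
def T_THM2 : Prop := ∃ x₀ : ℕ, ∀ x : ℕ, x₀ ≤ x →
  (9 : ℝ) / 10 * x ≤ Nat.card {n : ℕ // n < x ∧ Rep n}

end Pool.Agent.Tri5
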