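import Mathlib
import Pool.Agent.Tri5.Targets

/-!
DIV: the divisor bound.
-/

set_option autoImplicit false

open Finset

namespace Pool.Agent.Tri5

namespace DIV_

private lemma pow_bound (e : ℕ) : (e + 1) ^ 4 ≤ 41 * 2 ^ e := by
  rcases Nat.lt_or_ge e 5 with h | h
  · interval_cases e <;> norm_num
  · induction e, h using Nat.le_induction with
    | base => norm_num
    | succ k hk ih =>
      have h1 : (k + 1 + 1) ^ 4 ≤ 2 * (k + 1) ^ 4 := by
        obtain ⟨j, rfl⟩ := Nat.exists_eq_add_of_le hk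
        ring_nf
        nlinarith [sq_nonneg j, Nat.zero_le (j ^ 3), Nat.zero_le (j ^ 4), Nat.zero_le j]
      calc (k + 1 + 1) ^ 4 ≤ 2 * (k + 1) ^ 4 := h1
        _ ≤ 2 * (41 * 2 ^ k) := Nat.mul_le_mul_left _ ih
        _ = 41 * 2 ^ (k + 1) := by ring

private lemma two_pow_bound (e : ℕ) : (e + 1) ^ 4 ≤ 16 ^ e := by
  have h : e + 1 ≤ 2 ^ e := Nat.lt_two_pow_self
  calc (e + 1) ^ 4 ≤ (2 ^ e) ^ 4 := Nat.pow_le_pow_left h 4
    _ = 16 ^ e := by
      rw [← pow_mul, mul_comm, pow_mul]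
      norm_num

private lemma main (n : ℕ) (hn : n ≠ 0) : n.divisors.card ^ 4 ≤ 41 ^ 16 * n := by
  rw [Nat.card_divisors hn, ← Finset.prod_pow]
  have h1 : ∏ p ∈ n.primeFactors, (n.factorization p + 1) ^ 4 ≤
      ∏ p ∈ n.primeFactors, ((if p < 16 then 41 else 1) * p ^ n.factorization p) := by
    refine Finset.prod_le_prod' (fun p hp => ?_)
    have hp' := Nat.prime_of_mem_primeFactors hp
    split_ifs with h
    · exact (pow_bound _).trans (Nat.mul_le_mul_left _ (Nat.pow_le_pow_left hp'.two_le _))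
    · rw [one_mul]
      exact (two_pow_bound _).trans (Nat.pow_le_pow_left (not_lt.mp h) _)
  refine h1.trans ?_
  rw [Finset.prod_mul_distrib]
  have h2 : ∏ p ∈ n.primeFactors, p ^ n.factorization p = n :=
    Nat.prod_factorization_pow_eq_self hn
  rw [h2]
  refine Nat.mul_le_mul_right _ ?_
  rw [Finset.prod_ite, Finset.prod_const, Finset.prod_const_one, mul_one]
  refine Nat.pow_le_pow_right (by norm_num) ?_
  have h3 : (n.primeFactors.filter (fun p => p < 16)) ⊆ range 16 := by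
    intro p hp
    rw [Finset.mem_filter] at hp
    exact Finset.mem_range.mpr hp.2
  simpa using Finset.card_le_card h3

end DIV_

/-- DIV: the divisor bound. -/
theorem p_DIV : T_DIV := by
  refine ⟨41 ^ 4, by norm_num, fun n hn => ?_⟩
  have h := DIV_.main n (by omega)
  have h' : ((n.divisors.card : ℝ)) ^ 4 ≤ 41 ^ 16 * n := by exact_mod_cast h
  have h1 : (n.divisors.card : ℝ) = ((n.divisors.card : ℝ) ^ 4) ^ ((1 : ℝ) / 4) := by
    rw [← Real.rpow_natCast, ← Real.rpow_mul (by positivity)]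
    norm_num
  have h2 : (41 : ℝ) ^ 4 = ((41 : ℝ) ^ 16) ^ ((1 : ℝ) / 4) := by
    rw [← Real.rpow_natCast 41 16, ← Real.rpow_mul (by positivity), ← Real.rpow_natCast 41 4]
    norm_num
  rw [h1, h2, ← Real.mul_rpow (pow_nonneg (by norm_num) 16) (Nat.cast_nonneg n)]
  exact Real.rpow_le_rpow (pow_nonneg (Nat.cast_nonneg _) 4) h' (by norm_num)

end Pool.Agent.Tri5
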