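import Mathlib
import Pool.Agent.Tri5.Targets

/-!
# EQ: coincidences of sums of two powers of 5
-/

set_option autoImplicit false

namespace Pool.Agent.Tri5

namespace EQ_

open Finset

private theorem ordered {u v u' v' : ℕ} (h1 : u ≤ v) (h2 : u' ≤ v')
    (h : (5 : ℤ) ^ u + 5 ^ v = 5 ^ u' + 5 ^ v') : u = u' ∧ v = v' := by
  have key : ∀ {u v u' v' : ℕ}, u ≤ v → (5 : ℤ) ^ u + 5 ^ v = 5 ^ u' + 5 ^ v' → ¬ v < v' := by
    intro u v u' v' h1 h hlt
    have a1 : (5 : ℤ) ^ u ≤ 5 ^ v := pow_le_pow_right₀ (by norm_num) h1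
    have a2 : (5 : ℤ) ^ (v + 1) ≤ 5 ^ v' := pow_le_pow_right₀ (by norm_num) hlt
    have a3 : (0 : ℤ) < 5 ^ u' := by positivity
    have a4 : (0 : ℤ) < 5 ^ v := by positivity
    rw [pow_succ] at a2
    linarith
  have hv : v = v' := by
    rcases Nat.lt_trichotomy v v' with hlt | heq | hgt
    · exact absurd hlt (key h1 h)
    · exact heq
    · exact absurd hgt (key h2 h.symm)
  subst hv
  have h3 : (5 : ℤ) ^ u = 5 ^ u' := by linarith
  exact ⟨Int.pow_right_injective (by norm_num) h3, rfl⟩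

private theorem cases_eq {u v u' v' : ℕ} (h : (5 : ℤ) ^ u + 5 ^ v = 5 ^ u' + 5 ^ v') :
    (u = u' ∧ v = v') ∨ (u = v' ∧ v = u') := by
  rcases le_total u v with h1 | h1 <;> rcases le_total u' v' with h2 | h2
  · exact Or.inl (ordered h1 h2 h)
  · rw [add_comm ((5 : ℤ) ^ u')] at h
    exact Or.inr (ordered h1 h2 h)
  · rw [add_comm ((5 : ℤ) ^ u)] at h
    exact Or.inr (ordered h1 h2 h).symm
  · rw [add_comm ((5 : ℤ) ^ u), add_comm ((5 : ℤ) ^ u')] at h
    exact Or.inl (ordered h1 h2 h).symm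

private theorem step {L a b : ℕ} (hL : 1 ≤ L) {i j i' j' : ℕ}
    (h : hh L a b ((i, j), (i', j')) = 0) :
    (i' = i ∧ j' = j) ∨ (a + L * i = b + L * j' ∧ b + L * j = a + L * i') := by
  simp only [hh] at h
  rcases cases_eq (u := a + L * i) (v := b + L * j) (u' := a + L * i') (v' := b + L * j')
    (by linarith) with h1 | h1
  · left
    constructor
    · exact Nat.eq_of_mul_eq_mul_left hL (by omega)
    · exact Nat.eq_of_mul_eq_mul_left hL (by omega)
  · exact Or.inr h1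

end EQ_

open EQ_ Finset in
theorem p_EQ : T_EQ := by
  intro L a b I hL
  have hcard : ((range I ×ˢ range I) ×ˢ (univ : Finset Bool)).card = 2 * I ^ 2 := by
    rw [card_product, card_product, card_range]
    simp only [card_univ, Fintype.card_bool]
    ring
  rw [← hcard]
  apply Finset.card_le_card_of_injOn
    (fun u => (u.1, decide (u.2 = u.1)))
  · rintro ⟨⟨i, j⟩, ⟨i', j'⟩⟩ hu
    rw [mem_coe, mem_filter] at hu
    simp only [quads, mem_product] at hu
    simp only [coe_product, Set.mem_prod, mem_coe, mem_product, mem_univ, and_true]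
    exact hu.1.1
  · rintro ⟨⟨i, j⟩, ⟨i', j'⟩⟩ hu ⟨⟨k, l⟩, ⟨k', l'⟩⟩ hu' heq
    rw [mem_coe, mem_filter] at hu hu'
    simp only [Prod.mk.injEq, decide_eq_decide] at heq
    obtain ⟨⟨rfl, rfl⟩, hiff⟩ := heq
    have s1 := step hL hu.2
    have s2 := step hL hu'.2
    by_cases hc : i' = i ∧ j' = j
    · obtain ⟨rfl, rfl⟩ := hc
      obtain ⟨rfl, rfl⟩ := hiff.1 ⟨rfl, rfl⟩
      rfl
    · have hc' : ¬ (k' = i ∧ l' = j) := fun h => hc (hiff.2 h)
      obtain ⟨a1, a2⟩ := s1.resolve_left hc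
      obtain ⟨b1, b2⟩ := s2.resolve_left hc'
      have e1 : i' = k' := Nat.eq_of_mul_eq_mul_left hL (by omega)
      have e2 : j' = l' := Nat.eq_of_mul_eq_mul_left hL (by omega)
      rw [e1, e2]

end Pool.Agent.Tri5
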