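import Pool.Agent.Tri5.Targets

set_option autoImplicit false

open Finset

namespace Pool.Agent.Tri5

namespace EXC_

/-- the choice of `I` -/
theorem chooseI (L I₀ : ℕ) (hL : 1 ≤ L) (t : ℝ) (ht : 8 * (5 : ℝ) ^ (L * (I₀ + 1)) ≤ t) :
    ∃ I : ℕ, I₀ ≤ I ∧ 8 * (5 : ℝ) ^ (L * (I + 1)) ≤ t ∧ t ≤ 8 * (5 : ℝ) ^ (L * (I + 2)) := by
  have hc : (1 : ℝ) < (5 : ℝ) ^ L := one_lt_pow₀ (by norm_num) (by omega)
  have hp : (1 : ℝ) ≤ (5 : ℝ) ^ (L * (I₀ + 1)) := one_le_pow₀ (by norm_num)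
  have h1 : (1 : ℝ) ≤ t / 8 := by linarith
  obtain ⟨n, hn1, hn2⟩ := exists_nat_pow_near h1 hc
  rw [← pow_mul] at hn1 hn2
  have hlt : (5 : ℝ) ^ (L * (I₀ + 1)) < (5 : ℝ) ^ (L * (n + 1)) := by linarith
  have hlt' : L * (I₀ + 1) < L * (n + 1) := (pow_lt_pow_iff_right₀ (by norm_num)).mp hlt
  have hn : I₀ + 1 < n + 1 := lt_of_mul_lt_mul_left hlt' (Nat.zero_le _)
  refine ⟨n - 1, by omega, ?_, ?_⟩
  · have e : n - 1 + 1 = n := by omega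
    rw [e]
    linarith
  · have e : n - 1 + 2 = n + 1 := by omega
    rw [e]
    linarith

/-- Cauchy and double counting. -/
theorem count (E : Finset ℕ) (R : ℤ → ℝ) (Q H : ℕ) (m K : ℝ) (hH : 1 ≤ H) (hm : 0 ≤ m)
    (hE0 : ∀ n ∈ E, R n = 0)
    (hE : ∀ n ∈ E, m * H ≤ ∑ h ∈ Icc 1 H, R ((n : ℤ) + Q * (h : ℤ)))
    (hs : ∀ h ∈ Icc 1 H, Summable (fun n : ℤ => (R n - R (n + Q * (h : ℤ))) ^ 2) ∧
      ∑' n : ℤ, (R n - R (n + Q * (h : ℤ))) ^ 2 ≤ K) :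
    (E.card : ℝ) * m ^ 2 ≤ K := by
  have hH' : (0 : ℝ) < H := by exact_mod_cast hH
  -- lower bound for one n
  have h1 : ∀ n ∈ E, m ^ 2 * H ≤ ∑ h ∈ Icc 1 H, (R n - R ((n : ℤ) + Q * (h : ℤ))) ^ 2 := by
    intro n hn
    have hc := sq_sum_le_card_mul_sum_sq (s := Icc 1 H)
      (f := fun h : ℕ => R ((n : ℤ) + Q * (h : ℤ)))
    have hcard : ((Icc 1 H).card : ℝ) = H := by simp
    rw [hcard] at hc
    have h2 : (m * H) ^ 2 ≤ (∑ h ∈ Icc 1 H, R ((n : ℤ) + Q * (h : ℤ))) ^ 2 :=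
      pow_le_pow_left₀ (by positivity) (hE n hn) 2
    have h3 : ∑ h ∈ Icc 1 H, (R n - R ((n : ℤ) + Q * (h : ℤ))) ^ 2 =
        ∑ h ∈ Icc 1 H, (R ((n : ℤ) + Q * (h : ℤ))) ^ 2 := by
      refine sum_congr rfl fun h _ => ?_
      rw [hE0 n hn]
      ring
    rw [h3]
    have h4 : H * (m ^ 2 * H) ≤ H * ∑ h ∈ Icc 1 H, (R ((n : ℤ) + Q * (h : ℤ))) ^ 2 := by
      calc (H : ℝ) * (m ^ 2 * H) = (m * H) ^ 2 := by ring
        _ ≤ _ := h2
        _ ≤ _ := hc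
    exact le_of_mul_le_mul_left h4 hH'
  have h5 : (E.card : ℝ) * (m ^ 2 * H) ≤
      ∑ n ∈ E, ∑ h ∈ Icc 1 H, (R n - R ((n : ℤ) + Q * (h : ℤ))) ^ 2 := by
    rw [← nsmul_eq_mul]
    exact card_nsmul_le_sum E _ _ h1
  rw [sum_comm] at h5
  have h6 : ∑ h ∈ Icc 1 H, ∑ n ∈ E, (R n - R ((n : ℤ) + Q * (h : ℤ))) ^ 2 ≤
      ∑ _h ∈ Icc 1 H, K := by
    refine sum_le_sum fun h hh => ?_
    obtain ⟨hs1, hs2⟩ := hs h hh
    refine le_trans ?_ hs2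
    have e : ∑ n ∈ E, (R n - R ((n : ℤ) + Q * (h : ℤ))) ^ 2 =
        ∑ k ∈ E.map Nat.castEmbedding, (R k - R (k + Q * (h : ℤ))) ^ 2 := by
      rw [sum_map]
      rfl
    rw [e]
    exact hs1.sum_le_tsum _ (fun _ _ => sq_nonneg _)
  rw [sum_const, nsmul_eq_mul] at h6
  have hcard : ((Icc 1 H).card : ℝ) = H := by simp
  rw [hcard] at h6
  have h7 : H * ((E.card : ℝ) * m ^ 2) ≤ H * K := by
    calc (H : ℝ) * ((E.card : ℝ) * m ^ 2) = (E.card : ℝ) * (m ^ 2 * H) := by ring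
      _ ≤ _ := h5
      _ ≤ _ := h6
  exact le_of_mul_le_mul_left h7 hH'

end EXC_

/-- EXC: few exceptions in a class. -/
theorem p_EXC (h1 : T_VAR) (h2 : T_LAT) (h3 : T_REP) (h4 : T_QF) : T_EXC := by
  intro L a b y z g δ η B κ hD hBG hg hδ hδ1 hη hη8 hB hκ
  obtain ⟨I₁, hI₁⟩ := h1 L a b y z g δ η B κ hD hBG hg hδ hδ1 hη hB hκ
  obtain ⟨I₂, hI₂⟩ := h2 L a b y z δ η hD hδ hδ1 hη hη8
  have hQ1 : 1 ≤ Qf L := (h4 L hD.hL).2.2.2.1
  have hQ0 : (0 : ℝ) < Qf L := by exact_mod_cast hQ1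
  have hκ0 : 0 < κ := by
    have : 0 ≤ 2 * Real.pi * g + 32 / B + 4 * Real.pi ^ 3 * B ^ 2 * η ^ 2 := by positivity
    linarith
  set I₀ := max (max I₁ I₂) 1 with hI₀
  refine ⟨max (max (8 * (5 : ℝ) ^ (L * (I₀ + 1)) / δ) (Qf L / (8 * η))) 1, ?_⟩
  intro x hx
  have hx1 : 8 * (5 : ℝ) ^ (L * (I₀ + 1)) / δ ≤ x :=
    le_trans (le_trans (le_max_left _ _) (le_max_left _ _)) hx
  have hx2 : (Qf L : ℝ) / (8 * η) ≤ x :=
    le_trans (le_trans (le_max_right _ _) (le_max_left _ _)) hx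
  have hx3 : 1 ≤ x := le_trans (le_max_right _ _) hx
  have hx1' : 8 * (5 : ℝ) ^ (L * (I₀ + 1)) ≤ δ * x := by
    rw [div_le_iff₀ hδ] at hx1
    linarith
  obtain ⟨I, hI, hIa, hIb⟩ := EXC_.chooseI L I₀ hD.hL (δ * x) hx1'
  have hI1 : I₁ ≤ I := le_trans (le_trans (le_max_left _ _) (le_max_left _ _)) hI
  have hI2 : I₂ ≤ I := le_trans (le_trans (le_max_right _ _) (le_max_left _ _)) hI
  have hIpos : 1 ≤ I := le_trans (le_max_right _ _) hI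
  have hI0 : (0 : ℝ) < I := by exact_mod_cast hIpos
  set H := ⌊8 * η * x / Qf L⌋₊ with hHdef
  have hH : 1 ≤ H := by
    rw [hHdef, Nat.one_le_floor_iff]
    rw [le_div_iff₀ hQ0]
    rw [div_le_iff₀ (by positivity)] at hx2
    linarith
  have hHle : (H : ℝ) ≤ 8 * η * x / Qf L := Nat.floor_le (by positivity)
  classical
  set P : ℕ → Prop := fun n => δ * x ≤ n ∧ (n : ℝ) ≤ x ∧
      (Qf L : ℤ) ∣ n - (Tri y + Tri z + 5 ^ a + 5 ^ b) ∧ ¬ Rep n with hP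
  set E : Finset ℕ := (range (⌊x⌋₊ + 1)).filter P with hEdef
  have hcardE : Nat.card {n : ℕ // P n} = E.card := by
    refine Nat.subtype_card E ?_
    intro n
    rw [hEdef, mem_filter, mem_range]
    constructor
    · exact fun h => h.2
    · intro h
      refine ⟨?_, h⟩
      have := Nat.le_floor h.2.1
      omega
  have hgoal : (Nat.card {n : ℕ // δ * x ≤ n ∧ (n : ℝ) ≤ x ∧
      (Qf L : ℤ) ∣ n - (Tri y + Tri z + 5 ^ a + 5 ^ b) ∧ ¬ Rep n} : ℝ) = (E.card : ℝ) := by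
    exact_mod_cast hcardE
  rw [hgoal]
  set m : ℝ := Real.sqrt δ * (I : ℝ) ^ 2 / (16 * Qf L) * Real.exp (-8) with hm
  have hcount := EXC_.count E (fun n => RR (Qf L) L a b I y z (8 * x) n) (Qf L) H m
    (κ * (8 * x) * (I : ℝ) ^ 4 / (Qf L : ℝ) ^ 3) hH (by positivity) (by
      intro n hn
      have hn' := (mem_filter.mp hn).2
      by_contra hne
      exact hn'.2.2.2 (h3 (Qf L) L a b I y z (8 * x) n hne)) (by
      intro n hn
      have hn' := (mem_filter.mp hn).2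
      have := hI₂ I hI2 x hIa n hn'.1 hn'.2.1 hn'.2.2.1
      refine le_trans (le_of_eq ?_) this
      rw [hm]
      ring) (by
      intro h hh
      have hh' := (mem_Icc.mp hh).2
      refine hI₁ I hI1 x hIa hIb h ?_
      have : (h : ℝ) ≤ 8 * η * x / Qf L := le_trans (by exact_mod_cast hh') hHle
      rw [le_div_iff₀ hQ0] at this
      linarith)
  have hm2 : m ^ 2 = δ * (I : ℝ) ^ 4 / (256 * (Qf L : ℝ) ^ 2 * Real.exp 16) := by
    have he : Real.exp (-8) ^ 2 = 1 / Real.exp 16 := by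
      rw [← Real.exp_nat_mul, one_div, ← Real.exp_neg]
      congr 1
      norm_num
    have hs : Real.sqrt δ ^ 2 = δ := Real.sq_sqrt hδ.le
    calc m ^ 2 = (Real.sqrt δ ^ 2) * (I : ℝ) ^ 4 / (256 * (Qf L : ℝ) ^ 2) *
          (Real.exp (-8) ^ 2) := by rw [hm]; ring
      _ = _ := by
        rw [he, hs]
        field_simp
  rw [hm2] at hcount
  have hpos : 0 < δ * (I : ℝ) ^ 4 / (256 * (Qf L : ℝ) ^ 2 * Real.exp 16) := by positivity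
  rw [← le_div_iff₀ hpos] at hcount
  refine le_trans hcount (le_of_eq ?_)
  have hI4 : (I : ℝ) ≠ 0 := hI0.ne'
  have hQne : (Qf L : ℝ) ≠ 0 := hQ0.ne'
  have hδne : δ ≠ 0 := hδ.ne'
  have hen : Real.exp 16 ≠ 0 := (Real.exp_pos _).ne'
  field_simp
  ring

end Pool.Agent.Tri5
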