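import Pool.Agent.Tri5.Targets

/-!
# EXP: expansion over squarefree divisors
-/

set_option autoImplicit false

open Finset

namespace Pool.Agent.Tri5

namespace EXP_

/-- one term -/
noncomputable def F (Z : ℤ) (d : ℕ) : ℝ := if (d : ℤ) ∣ Z then (1 : ℝ) / Nat.totient d else 0

theorem sum_div {p P : ℕ} (hp : p.Prime) (hP : P ≠ 0) (hpP : ¬ p ∣ P) (f : ℕ → ℝ) :
    ∑ d ∈ (p * P).divisors, f d = ∑ d ∈ P.divisors, (f d + f (p * d)) := by
  have h1 : (p * P).divisors = P.divisors ∪ P.divisors.image (fun d => p * d) := by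
    ext d
    rw [Nat.mem_divisors, mem_union, Nat.mem_divisors, mem_image]
    constructor
    · rintro ⟨h2, _⟩
      by_cases hd : p ∣ d
      · obtain ⟨e, rfl⟩ := hd
        refine Or.inr ⟨e, Nat.mem_divisors.2 ⟨?_, hP⟩, rfl⟩
        exact Nat.dvd_of_mul_dvd_mul_left hp.pos h2
      · refine Or.inl ⟨?_, hP⟩
        have hc : Nat.Coprime d p := ((Nat.Prime.coprime_iff_not_dvd hp).2 hd).symm
        exact hc.dvd_of_dvd_mul_left h2
    · rintro (⟨h2, _⟩ | ⟨e, he, rfl⟩)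
      · exact ⟨Dvd.dvd.mul_left h2 p, mul_ne_zero hp.ne_zero hP⟩
      · exact ⟨Nat.mul_dvd_mul_left p (Nat.mem_divisors.1 he).1, mul_ne_zero hp.ne_zero hP⟩
  have h2 : Disjoint P.divisors (P.divisors.image (fun d => p * d)) := by
    rw [disjoint_left]
    intro d hd hd'
    obtain ⟨e, _, rfl⟩ := mem_image.1 hd'
    exact hpP (dvd_trans (dvd_mul_right p e) (Nat.mem_divisors.1 hd).1)
  rw [h1, sum_union h2, sum_image (fun a _ b _ h => Nat.eq_of_mul_eq_mul_left hp.pos h),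
    sum_add_distrib]

theorem F_mul {p d : ℕ} (hp : p.Prime) (hd : ¬ p ∣ d) (Z : ℤ) :
    F Z (p * d) = (if (p : ℤ) ∣ Z then 1 / ((p : ℝ) - 1) else 0) * F Z d := by
  have hc : Nat.Coprime p d := (Nat.Prime.coprime_iff_not_dvd hp).2 hd
  have h1 : ((p * d : ℕ) : ℤ) ∣ Z ↔ (p : ℤ) ∣ Z ∧ (d : ℤ) ∣ Z := by
    push_cast
    constructor
    · intro h
      exact ⟨dvd_trans (dvd_mul_right _ _) h, dvd_trans (dvd_mul_left _ _) h⟩
    · rintro ⟨h2, h3⟩
      exact (Nat.isCoprime_iff_coprime.2 hc).mul_dvd h2 h3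
  unfold F
  rw [Nat.totient_mul hc, Nat.totient_prime hp]
  by_cases h2 : (p : ℤ) ∣ Z
  · by_cases h3 : (d : ℤ) ∣ Z
    · rw [if_pos (h1.2 ⟨h2, h3⟩), if_pos h2, if_pos h3]
      have h4 : ((p - 1 : ℕ) : ℝ) = (p : ℝ) - 1 := by
        rw [Nat.cast_sub hp.one_lt.le, Nat.cast_one]
      rw [Nat.cast_mul, h4, one_div_mul_one_div]
    · rw [if_neg (fun h => h3 (h1.1 h).2), if_neg h3, mul_zero]
  · rw [if_neg (fun h => h2 (h1.1 h).1), if_neg h2, zero_mul]

theorem one_term (Z : ℤ) (S : Finset ℕ) : (∀ p ∈ S, p.Prime) →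
    ∏ p ∈ S.filter (fun p : ℕ => (p : ℤ) ∣ Z), (1 + 1 / ((p : ℝ) - 1)) =
      ∑ d ∈ (∏ p ∈ S, p).divisors, F Z d := by
  induction S using Finset.induction_on with
  | empty =>
    intro _
    rw [filter_empty, prod_empty, prod_empty, Nat.divisors_one, sum_singleton]
    unfold F
    rw [if_pos (by simp)]
    simp
  | insert p S hpS ih =>
    intro hS
    have hp : p.Prime := hS p (mem_insert_self _ _)
    have hS' : ∀ q ∈ S, q.Prime := fun q hq => hS q (mem_insert_of_mem hq)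
    have hP0 : (∏ q ∈ S, q) ≠ 0 := prod_ne_zero_iff.2 fun q hq => (hS' q hq).ne_zero
    have hpP : ¬ p ∣ ∏ q ∈ S, q := by
      intro h
      obtain ⟨q, hq, h2⟩ := (Prime.dvd_finsetProd_iff hp.prime _).1 h
      have h3 := (Nat.prime_dvd_prime_iff_eq hp (hS' q hq)).1 h2
      exact hpS (h3 ▸ hq)
    rw [prod_insert hpS, sum_div hp hP0 hpP]
    have h4 : ∀ d ∈ (∏ q ∈ S, q).divisors, F Z d + F Z (p * d) =
        (1 + if (p : ℤ) ∣ Z then 1 / ((p : ℝ) - 1) else 0) * F Z d := by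
      intro d hd
      rw [F_mul hp (fun h => hpP (dvd_trans h (Nat.mem_divisors.1 hd).1)), add_mul, one_mul]
    rw [sum_congr rfl h4, ← mul_sum, ← ih hS', filter_insert]
    by_cases h5 : (p : ℤ) ∣ Z
    · rw [if_pos h5, if_pos h5, prod_insert (fun h => hpS (mem_filter.1 h).1)]
    · rw [if_neg h5, if_neg h5, add_zero, one_mul]

end EXP_

open EXP_ in
/-- EXP -/
theorem p_EXP : T_EXP := by
  intro ι U h S hS
  rw [sum_congr rfl fun u _ => one_term (h u) S hS, sum_comm]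
  refine sum_congr rfl fun d _ => ?_
  unfold F
  rw [← sum_filter, sum_const, nsmul_eq_mul, mul_comm]

end Pool.Agent.Tri5
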