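import Mathlib
import Pool.Agent.Tri5.Targets

set_option autoImplicit false

open Finset

namespace Pool.Agent.Tri5

namespace FAC_

theorem ex_add (x y : ℝ) : ex (x + y) = ex x * ex y := by
  unfold ex
  rw [← Complex.exp_add]
  congr 1
  push_cast
  ring

theorem norm_ex (x : ℝ) : ‖ex x‖ = 1 := by
  unfold ex
  have h : (2 * Real.pi * x * Complex.I : ℂ) = ((2 * Real.pi * x : ℝ) : ℂ) * Complex.I := by
    push_cast
    ring
  rw [h, Complex.norm_exp_ofReal_mul_I]

theorem wt_pos (X : ℝ) (z : ℤ) : 0 ≤ wt X z := (Real.exp_pos _).le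

theorem wt_le (X : ℝ) (hX : 1 ≤ X) (z : ℤ) : wt X z ≤ Real.exp (-(Real.pi / X)) ^ z.natAbs := by
  unfold wt
  rw [← Real.exp_nat_mul]
  apply Real.exp_le_exp.mpr
  have h1 : (z.natAbs : ℤ) ≤ (2 * z + 1) ^ 2 := by
    have h2 : (z.natAbs : ℤ) ≤ |2 * z + 1| := by
      rw [Int.natCast_natAbs]
      rcases abs_cases z with h | h <;> rcases abs_cases (2 * z + 1) with h' | h' <;> omega
    have h3 : |2 * z + 1| ≤ (2 * z + 1) ^ 2 := by
      rw [← sq_abs]
      have h4 : 0 ≤ |2 * z + 1| := abs_nonneg _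
      rcases h4.eq_or_lt with h5 | h5
      · rw [← h5]; norm_num
      · nlinarith
    linarith
  have h2 : (z.natAbs : ℝ) ≤ (2 * (z : ℝ) + 1) ^ 2 := by
    have h2' : ((z.natAbs : ℤ) : ℝ) ≤ (((2 * z + 1) ^ 2 : ℤ) : ℝ) := Int.cast_le.mpr h1
    push_cast at h2'
    rw [Nat.cast_natAbs]
    push_cast
    exact h2'
  have h3 : 0 < Real.pi / X := div_pos Real.pi_pos (by linarith)
  have h4 : Real.pi * (2 * (z : ℝ) + 1) ^ 2 / X = (2 * (z : ℝ) + 1) ^ 2 * (Real.pi / X) := by ring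
  rw [h4]
  nlinarith [mul_le_mul_of_nonneg_right h2 h3.le]

theorem summable_wt (X : ℝ) (hX : 1 ≤ X) : Summable (wt X) := by
  have hr0 : 0 ≤ Real.exp (-(Real.pi / X)) := (Real.exp_pos _).le
  have hr1 : Real.exp (-(Real.pi / X)) < 1 := by
    rw [Real.exp_lt_one_iff]
    have : 0 < Real.pi / X := div_pos Real.pi_pos (by linarith)
    linarith
  have hg := summable_geometric_of_lt_one hr0 hr1
  have h : Summable (fun z : ℤ => Real.exp (-(Real.pi / X)) ^ z.natAbs) := by
    apply Summable.of_nat_of_neg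
    · simpa using hg
    · simpa using hg
  exact Summable.of_nonneg_of_le (wt_pos X) (wt_le X hX) h

theorem summable_wt' (Q : ℕ) (y : ℤ) (X : ℝ) (hQ : 1 ≤ Q) (hX : 1 ≤ X) :
    Summable (fun k : ℤ => wt X (y + Q * k)) := by
  apply (summable_wt X hX).comp_injective (i := fun k : ℤ => y + Q * k)
  intro k l h
  have hQ' : (Q : ℤ) ≠ 0 := by
    have : (1 : ℤ) ≤ Q := by exact_mod_cast hQ
    omega
  have h' : (Q : ℤ) * k = Q * l := by
    have h0 : y + (Q : ℤ) * k = y + Q * l := h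
    linarith
  exact mul_left_cancel₀ hQ' h'

theorem four {I : ℕ} {f g : ℤ → ℂ} (p q : Fin I → ℂ) (hf : Summable fun k => ‖f k‖)
    (hg : Summable fun k => ‖g k‖) :
    (∑' k, f k) * (∑' l, g l) * ((∑' i, p i) * ∑' j, q j) =
      ∑' x : (ℤ × ℤ) × (Fin I × Fin I), f x.1.1 * g x.1.2 * (p x.2.1 * q x.2.2) := by
  have hp : Summable fun i => ‖p i‖ := (hasSum_fintype _).summable
  have hq : Summable fun i => ‖q i‖ := (hasSum_fintype _).summable
  rw [tsum_mul_tsum_of_summable_norm hf hg, tsum_mul_tsum_of_summable_norm hp hq]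
  have s1 : Summable fun z : ℤ × ℤ => ‖f z.1 * g z.2‖ := Summable.mul_norm hf hg
  have s2 : Summable fun z : Fin I × Fin I => ‖p z.1 * q z.2‖ := (hasSum_fintype _).summable
  exact tsum_mul_tsum_of_summable_norm s1 s2

end FAC_

open FAC_ in
theorem p_FAC : T_FAC := by
  intro Q L a b I y z X hQ hX
  have hy := summable_wt' Q y X hQ hX
  have hz := summable_wt' Q z X hQ hX
  constructor
  · have h1 : Summable (fun p : ℤ × ℤ => wt X (y + Q * p.1) * wt X (z + Q * p.2)) :=
      hy.mul_of_nonneg hz (fun _ => wt_pos _ _) (fun _ => wt_pos _ _)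
    have h2 : Summable (fun _ : Fin I × Fin I => (1 : ℝ)) := (hasSum_fintype _).summable
    have h3 := h1.mul_of_nonneg h2 (fun _ => mul_nonneg (wt_pos _ _) (wt_pos _ _))
      (fun _ => zero_le_one)
    refine h3.congr ?_
    intro x
    simp [wg]
  · intro α
    have key : ∀ w : ℤ, Summable (fun k : ℤ => wt X (w + Q * k)) →
        Summable (fun k : ℤ => ‖(wt X (w + Q * k) : ℂ) * ex (α * Tri (w + Q * k))‖) := by
      intro w hw
      refine hw.congr ?_
      intro k
      rw [norm_mul, norm_ex, mul_one, Complex.norm_real, Real.norm_eq_abs,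
        abs_of_nonneg (wt_pos _ _)]
    have hP : ∀ c : ℕ, PP L c I α = ∑' i : Fin I, ex (α * 5 ^ (c + L * (i : ℕ))) := by
      intro c
      rw [tsum_fintype, PP, Finset.sum_range]
    rw [hP a, hP b, th, th, four _ _ (key y hy) (key z hz)]
    apply tsum_congr
    rintro ⟨⟨k, l⟩, ⟨i, j⟩⟩
    have h1 : (α * (vl Q L a b I y z ((k, l), (i, j)) : ℝ)) =
        α * (Tri (y + Q * k) : ℤ) + α * (Tri (z + Q * l) : ℤ) + α * 5 ^ (a + L * (i : ℕ)) +
          α * 5 ^ (b + L * (j : ℕ)) := by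
      simp only [vl]
      push_cast
      ring
    rw [h1, ex_add, ex_add, ex_add]
    simp only [wg]
    push_cast
    ring

end Pool.Agent.Tri5
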