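import Pool.Agent.Tri5.Targets

set_option autoImplicit false

open Finset

namespace Pool.Agent.Tri5.FIN_

theorem c1 : ∀ n ∈ range 651, ∃ a ∈ range 6, ∃ b ∈ range 6,
    (4 * n + 1) % 3 ≠ (4 * 5 ^ a + 4 * 5 ^ b) % 3 ∧ (4 * n + 1) % 7 ≠ (4 * 5 ^ a + 4 * 5 ^ b) % 7 ∧
    (4 * n + 1) % 31 ≠ (4 * 5 ^ a + 4 * 5 ^ b) % 31 := by
  decide +kernel

theorem c2 : ∀ n ∈ range 781, ∃ a ∈ range 5, ∃ b ∈ range 5,
    (4 * n + 1) % 11 ≠ (4 * 5 ^ a + 4 * 5 ^ b) % 11 ∧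
    (4 * n + 1) % 71 ≠ (4 * 5 ^ a + 4 * 5 ^ b) % 71 := by
  decide +kernel

theorem crt : ∀ u ∈ range 6, ∀ v ∈ range 5, ∃ a ∈ range 31, 1 ≤ a ∧ a % 6 = u ∧ a % 5 = v := by
  decide

theorem pw (p k a u : ℕ) (h1 : 5 ^ k % p = 1 % p) (h2 : a % k = u) :
    5 ^ a ≡ 5 ^ u [MOD p] := by
  have e : a = k * (a / k) + u := by rw [← h2]; exact (Nat.div_add_mod a k).symm
  rw [e, pow_add, pow_mul]
  have h3 : (5 ^ k) ^ (a / k) ≡ 1 ^ (a / k) [MOD p] := Nat.ModEq.pow _ h1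
  have h4 := h3.mul_right (5 ^ u)
  rwa [one_pow, one_mul] at h4

theorem nd (p k kk a b u v n M : ℕ) (hp : p ∣ M) (h1 : 5 ^ k % p = 1 % p) (hk : k ∣ kk)
    (ha : a % kk = u) (hb : b % kk = v)
    (h : (4 * (n % M) + 1) % p ≠ (4 * 5 ^ u + 4 * 5 ^ v) % p) :
    ¬ (p : ℤ) ∣ 4 * (n : ℤ) + 1 - 4 * 5 ^ a - 4 * 5 ^ b := by
  intro hd
  apply h
  obtain ⟨m, rfl⟩ := hk
  have h1' : 5 ^ (k * m) % p = 1 % p := by
    rw [pow_mul]
    have h3 : (5 ^ k) ^ m ≡ 1 ^ m [MOD p] := Nat.ModEq.pow _ h1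
    rwa [one_pow] at h3
  have e1 := pw p (k * m) a u h1' ha
  have e2 := pw p (k * m) b v h1' hb
  have e3 : 4 * (n % M) + 1 ≡ 4 * n + 1 [MOD p] := by
    have : n % M ≡ n [MOD p] := (Nat.mod_modEq n M).of_dvd hp
    exact (this.mul_left 4).add_right 1
  have e4 : 4 * n + 1 ≡ 4 * 5 ^ a + 4 * 5 ^ b [MOD p] := by
    have h5 : ((4 * 5 ^ a + 4 * 5 ^ b : ℕ) : ℤ) ≡ ((4 * n + 1 : ℕ) : ℤ) [ZMOD p] := by
      rw [Int.modEq_iff_dvd]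
      push_cast
      have : 4 * (n : ℤ) + 1 - (4 * 5 ^ a + 4 * 5 ^ b) = 4 * (n : ℤ) + 1 - 4 * 5 ^ a - 4 * 5 ^ b := by
        ring
      rw [this]
      exact hd
    exact ((Int.natCast_modEq_iff).1 h5).symm
  exact (e3.trans e4).trans ((e1.mul_left 4).add (e2.mul_left 4))

end Pool.Agent.Tri5.FIN_

namespace Pool.Agent.Tri5

open FIN_ in
theorem p_FIN : T_FIN := by
  intro n
  obtain ⟨u, hu, v, hv, h3, h7, h31⟩ := c1 (n % 651) (mem_range.2 (Nat.mod_lt _ (by norm_num)))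
  obtain ⟨u', hu', v', hv', h11, h71⟩ := c2 (n % 781) (mem_range.2 (Nat.mod_lt _ (by norm_num)))
  obtain ⟨a, ha, ha1, ha2, ha3⟩ := crt u hu u' hu'
  obtain ⟨b, hb, hb1, hb2, hb3⟩ := crt v hv v' hv'
  rw [mem_range] at ha hb
  refine ⟨a, b, ha1, by omega, hb1, by omega, ?_⟩
  intro p hp
  simp only [mem_insert, mem_singleton] at hp
  rcases hp with rfl | rfl | rfl | rfl | rfl
  · exact nd 3 2 6 a b u v n 651 (by norm_num) (by norm_num) (by norm_num) ha2 hb2 h3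
  · exact nd 7 6 6 a b u v n 651 (by norm_num) (by norm_num) (by norm_num) ha2 hb2 h7
  · exact nd 11 5 5 a b u' v' n 781 (by norm_num) (by norm_num) (by norm_num) ha3 hb3 h11
  · exact nd 31 3 6 a b u v n 651 (by norm_num) (by norm_num) (by norm_num) ha2 hb2 h31
  · exact nd 71 5 5 a b u' v' n 781 (by norm_num) (by norm_num) (by norm_num) ha3 hb3 h71

end Pool.Agent.Tri5
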