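import Pool.Agent.Tri5.Targets

/-!
# GAU: vanishing of the complete sums
-/

set_option autoImplicit false

open Finset

namespace Pool.Agent.Tri5

namespace GAU_

theorem ex_add (x y : ℝ) : ex (x + y) = ex x * ex y := by
  unfold ex
  rw [← Complex.exp_add]
  congr 1
  push_cast
  ring

theorem ex_int (n : ℤ) : ex (n : ℝ) = 1 := by
  unfold ex
  rw [Complex.exp_eq_one_iff]
  exact ⟨n, by push_cast; ring⟩

theorem ex_half : ex (1 / 2) = -1 := by
  unfold ex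
  have : (2 * (Real.pi : ℂ) * ((1 / 2 : ℝ) : ℂ) * Complex.I) = Real.pi * Complex.I := by
    push_cast; ring
  rw [this, Complex.exp_pi_mul_I]

theorem ex_frac_ne (m : ℤ) (p : ℕ) (hp : 0 < p) (h : ¬ (p : ℤ) ∣ m) : ex ((m : ℝ) / p) ≠ 1 := by
  unfold ex
  rw [Ne, Complex.exp_eq_one_iff]
  rintro ⟨n, hn⟩
  apply h
  have hpi : (Real.pi : ℂ) ≠ 0 := by exact_mod_cast Real.pi_ne_zero
  have h1 : (((m : ℝ) / p : ℝ) : ℂ) = (n : ℂ) := by
    have h2 : (2 * (Real.pi : ℂ) * Complex.I) * (((m : ℝ) / p : ℝ) : ℂ) =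
        (2 * (Real.pi : ℂ) * Complex.I) * (n : ℂ) := by
      calc (2 * (Real.pi : ℂ) * Complex.I) * (((m : ℝ) / p : ℝ) : ℂ)
          = 2 * (Real.pi : ℂ) * (((m : ℝ) / p : ℝ) : ℂ) * Complex.I := by ring
        _ = _ := by rw [hn]; ring
    exact mul_left_cancel₀ (by simp [hpi]) h2
  have h3 : (m : ℝ) / p = n := by exact_mod_cast h1
  have hp' : (p : ℝ) ≠ 0 := by exact_mod_cast hp.ne'
  rw [div_eq_iff hp'] at h3
  exact ⟨n, by rw [mul_comm]; exact_mod_cast h3⟩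

theorem tri_cast (z : ℤ) : ((Tri z : ℤ) : ℝ) = (z : ℝ) * (z + 1) / 2 := by
  have h : 2 * Tri z = z * (z + 1) := by
    unfold Tri
    exact Int.mul_ediv_cancel' (Int.even_mul_succ_self z).two_dvd
  have h' : (2 : ℝ) * ((Tri z : ℤ) : ℝ) = (z : ℝ) * (z + 1) := by exact_mod_cast h
  linarith

theorem shift_one (f : ℕ → ℂ) (n : ℕ) (h : ∀ s, f (s + n) = f s) :
    ∑ s ∈ range n, f (s + 1) = ∑ s ∈ range n, f s := by
  have h1 := Finset.sum_range_succ f n
  have h2 := Finset.sum_range_succ' f n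
  have h3 := h 0
  rw [zero_add] at h3
  rw [h1, h3] at h2
  exact (add_right_cancel h2).symm

theorem shift (f : ℕ → ℂ) (n : ℕ) (h : ∀ s, f (s + n) = f s) (t : ℕ) :
    ∑ s ∈ range n, f (s + t) = ∑ s ∈ range n, f s := by
  induction t with
  | zero => rfl
  | succ t ih =>
    rw [← ih]
    have := shift_one (fun s => f (s + t)) n (fun s => by
      change f (s + n + t) = f (s + t)
      rw [show s + n + t = (s + t) + n by ring]
      exact h _)
    rw [← this]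
    apply Finset.sum_congr rfl
    intro s _
    change f (s + (t + 1)) = f (s + 1 + t)
    congr 1
    ring

/-- the phase -/
noncomputable def ph (Q : ℕ) (y : ℤ) (q : ℕ) (c : ℤ) (s : ℕ) : ℝ :=
  (c : ℝ) * Tri (y + Q * s) / q

theorem ph_add (Q : ℕ) (y : ℤ) (q : ℕ) (c : ℤ) (s t : ℕ) :
    ph Q y q c (s + t) = ph Q y q c s +
      (c : ℝ) / q * ((Q : ℝ) * t * (2 * ((y : ℝ) + Q * s) + 1) / 2 + (Q : ℝ) ^ 2 * t ^ 2 / 2) := by
  unfold ph
  rw [tri_cast, tri_cast]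
  push_cast
  ring

theorem per (Q : ℕ) (y : ℤ) (q : ℕ) (c : ℤ) (hq : 1 ≤ q) (s : ℕ) :
    ex (ph Q y q c (s + 2 * q)) = ex (ph Q y q c s) := by
  have hq' : (q : ℝ) ≠ 0 := by
    have : 0 < q := hq
    exact_mod_cast this.ne'
  rw [ph_add, ex_add]
  have : (c : ℝ) / q * ((Q : ℝ) * ((2 * q : ℕ) : ℝ) * (2 * ((y : ℝ) + Q * s) + 1) / 2 +
      (Q : ℝ) ^ 2 * ((2 * q : ℕ) : ℝ) ^ 2 / 2) =
      ((c * (Q * (2 * (y + Q * s) + 1) + 2 * Q ^ 2 * q) : ℤ) : ℝ) := by
    push_cast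
    field_simp
  rw [this, ex_int, mul_one]

theorem gg_eq (Q : ℕ) (y : ℤ) (q : ℕ) (c : ℤ) :
    GG Q y q c = ∑ s ∈ range (2 * q), ex (ph Q y q c s) := rfl

theorem vanish (Q : ℕ) (y : ℤ) (q : ℕ) (c : ℤ) (hq : 1 ≤ q) (t : ℕ) (w : ℂ) (hw : w ≠ 1)
    (h : ∀ s, ex (ph Q y q c (s + t)) = w * ex (ph Q y q c s)) : GG Q y q c = 0 := by
  have h1 := shift (fun s => ex (ph Q y q c s)) (2 * q) (per Q y q c hq) t
  have h2 : ∑ s ∈ range (2 * q), ex (ph Q y q c (s + t)) = w * GG Q y q c := by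
    rw [gg_eq, Finset.mul_sum]
    exact Finset.sum_congr rfl (fun s _ => h s)
  rw [h2, ← gg_eq] at h1
  have h3 : (w - 1) * GG Q y q c = 0 := by
    rw [sub_mul, one_mul, h1, sub_self]
  rcases mul_eq_zero.1 h3 with h4 | h4
  · exact absurd (sub_eq_zero.1 h4) hw
  · exact h4

end GAU_

open GAU_

theorem p_GAU (h1 : T_GK) : T_GAU := by
  intro Q y q c hQ hQo hq hcop
  have hQ1 : 1 ≤ Q := Nat.one_le_iff_ne_zero.2 hQ.ne_zero
  have hq' : (q : ℝ) ≠ 0 := by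
    have : 0 < q := hq
    exact_mod_cast this.ne'
  refine ⟨?_, ?_, ?_⟩
  · have h := h1 Q y q c 0 hQ1 hq hcop
    have e : ∑ s ∈ range (2 * q), ex ((c : ℝ) * Tri (y + Q * s) / q + ((0 : ℤ) : ℝ) * s / (2 * q)) =
        GG Q y q c := by
      unfold GG
      apply Finset.sum_congr rfl
      intro s _
      congr 1
      simp
    rw [e] at h
    exact h
  · intro hqe
    obtain ⟨r, hr⟩ := hqe
    have hco : Odd c := by
      rw [← Int.not_even_iff_odd]
      intro hce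
      have h2 : IsUnit (2 : ℤ) := by
        apply hcop.isUnit_of_dvd' (even_iff_two_dvd.1 hce)
        rw [hr]
        push_cast
        exact ⟨r, by ring⟩
      rw [Int.isUnit_iff] at h2
      omega
    obtain ⟨c', hc'⟩ := hco
    obtain ⟨Q', hQ'⟩ := hQo
    apply vanish Q y q c hq q (-1) (by norm_num)
    intro s
    rw [ph_add, ex_add, mul_comm]
    congr 1
    have h3 : ∃ j : ℤ, c * Q * (2 * (y + Q * s) + 1) = 2 * j + 1 := by
      have : Odd (c * Q * (2 * (y + Q * s) + 1)) := by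
        apply Odd.mul
        · apply Odd.mul
          · exact ⟨c', hc'⟩
          · exact ⟨Q', by rw [hQ']; push_cast; ring⟩
        · exact ⟨_, rfl⟩
      exact this
    obtain ⟨j, hj⟩ := h3
    have hj' : (c : ℝ) * Q * (2 * ((y : ℝ) + Q * s) + 1) = 2 * j + 1 := by exact_mod_cast hj
    have hr' : (q : ℝ) = r + r := by exact_mod_cast hr
    have e1 : (c : ℝ) / q * ((Q : ℝ) * q * (2 * ((y : ℝ) + Q * s) + 1) / 2 +
        (Q : ℝ) ^ 2 * (q : ℝ) ^ 2 / 2) =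
        (((j + c * Q ^ 2 * r : ℤ)) : ℝ) + 1 / 2 := by
      have e2 : (c : ℝ) / q * ((Q : ℝ) * q * (2 * ((y : ℝ) + Q * s) + 1) / 2 +
        (Q : ℝ) ^ 2 * (q : ℝ) ^ 2 / 2) =
        ((c : ℝ) * Q * (2 * ((y : ℝ) + Q * s) + 1)) / 2 + c * (Q : ℝ) ^ 2 * q / 2 := by
        field_simp
      rw [e2, hj', hr']
      push_cast
      ring
    rw [e1, ex_add, ex_int, ex_half, one_mul]
  · intro p hp hpQ hpq hpy
    obtain ⟨q', hq2⟩ := hpq
    obtain ⟨Q', hQ'⟩ := hpQ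
    have hp0 : (p : ℝ) ≠ 0 := by exact_mod_cast hp.ne_zero
    have hpi : Prime (p : ℤ) := Nat.prime_iff_prime_int.1 hp
    have hnd : ¬ (p : ℤ) ∣ c * Q' * (2 * y + 1) := by
      intro hd
      rcases hpi.dvd_or_dvd hd with hd | hd
      · rcases hpi.dvd_or_dvd hd with hd | hd
        · have h2 : IsUnit (p : ℤ) := by
            apply hcop.isUnit_of_dvd' hd
            rw [hq2]
            push_cast
            exact ⟨p * q', by ring⟩
          exact hpi.not_unit h2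
        · have hd' : p ∣ Q' := by exact_mod_cast hd
          obtain ⟨R, hR⟩ := hd'
          have : IsUnit p := hQ p ⟨R, by rw [hQ', hR]; ring⟩
          exact hp.one_lt.ne' (Nat.isUnit_iff.1 this)
      · exact hpy hd
    apply vanish Q y q c hq (2 * q') (ex (((c * Q' * (2 * y + 1) : ℤ) : ℝ) / p))
      (ex_frac_ne _ p hp.pos hnd)
    intro s
    rw [ph_add, ex_add, mul_comm]
    congr 1
    have hq0 : (q' : ℝ) ≠ 0 := by
      intro h0
      apply hq'
      rw [hq2]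
      push_cast
      rw [h0]
      ring
    have e1 : (c : ℝ) / q * ((Q : ℝ) * ((2 * q' : ℕ) : ℝ) * (2 * ((y : ℝ) + Q * s) + 1) / 2 +
        (Q : ℝ) ^ 2 * ((2 * q' : ℕ) : ℝ) ^ 2 / 2) =
        ((c * Q' * (2 * y + 1) : ℤ) : ℝ) / p +
          ((2 * c * Q' ^ 2 * s + 2 * c * Q' ^ 2 * q' : ℤ) : ℝ) := by
      rw [hq2, hQ']
      push_cast
      field_simp
      ring
    rw [e1, ex_add, ex_int, mul_one]

end Pool.Agent.Tri5
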