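import Mathlib
import Pool.Agent.Tri5.Targets

/-!
GAU2: the product of two complete sums.
-/

set_option autoImplicit false

open Finset

namespace Pool.Agent.Tri5

namespace GAU2_

/-- The splitting of `q`. -/
private lemma split {Q q : ℕ} (hodd : Odd q)
    (h : ∀ p : ℕ, p.Prime → p ∣ Q → ¬ p ^ 2 ∣ q) :
    ∃ q₁ q₂ : ℕ, q = q₁ * q₂ ∧ q₁ ∣ Q ∧ q₂.Coprime (2 * Q) ∧ Nat.gcd (Q ^ 2) q = q₁ := by
  obtain ⟨q₂, hq₂⟩ := Nat.gcd_dvd_left q Q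
  have hcQ : q₂.Coprime Q := by
    refine Nat.Coprime.symm (Nat.coprime_of_dvd (fun p hp hpQ hp2 => ?_))
    have h1 : p ∣ q := by
      rw [hq₂]
      exact Dvd.dvd.mul_left hp2 _
    have h2 : p ∣ Nat.gcd q Q := Nat.dvd_gcd h1 hpQ
    apply h p hp hpQ
    rw [hq₂, sq]
    exact mul_dvd_mul h2 hp2
  have hc2 : q₂.Coprime 2 := by
    rw [Nat.coprime_two_right]
    rw [hq₂] at hodd
    exact (Nat.odd_mul.mp hodd).2
  refine ⟨Nat.gcd q Q, q₂, hq₂, Nat.gcd_dvd_right q Q, Nat.Coprime.mul_right hc2 hcQ, ?_⟩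
  have h3 : Nat.gcd (Q ^ 2) q = Nat.gcd (Q ^ 2) (Nat.gcd q Q * q₂) := by
    rw [← hq₂]
  rw [h3, Nat.Coprime.gcd_mul_right_cancel_right]
  · exact Nat.gcd_eq_right ((Nat.gcd_dvd_right q Q).trans (dvd_pow_self Q two_ne_zero))
  · exact hcQ.pow_right 2

end GAU2_

/-- GAU2: the product of two complete sums. -/
theorem p_GAU2 (h1 : T_GAU) (h2 : T_QF) : T_GAU2 := by
  intro L a b y z q c hD hq hc
  obtain ⟨hsq, hodd, _, _, _, _, _⟩ := h2 L hD.hL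
  obtain ⟨hy1, hy2, hy3⟩ := h1 (Qf L) y q c hsq hodd hq hc
  obtain ⟨hz1, hz2, hz3⟩ := h1 (Qf L) z q c hsq hodd hq hc
  by_cases h0 : GG (Qf L) y q c * GG (Qf L) z q c = 0
  · exact Or.inl h0
  right
  have hy0 : GG (Qf L) y q c ≠ 0 := left_ne_zero_of_mul h0
  have hz0 : GG (Qf L) z q c ≠ 0 := right_ne_zero_of_mul h0
  have hqo : Odd q := by
    rw [← Nat.not_even_iff_odd]
    exact fun he => hy0 (hy2 he)
  have hp : ∀ p : ℕ, p.Prime → p ∣ Qf L → ¬ p ^ 2 ∣ q := by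
    intro p hp hpQ hpq
    apply hD.nd p hp hpQ
    constructor
    · by_contra hcon
      exact hy0 (hy3 p hp hpQ hpq hcon)
    · by_contra hcon
      exact hz0 (hz3 p hp hpQ hpq hcon)
  obtain ⟨q₁, q₂, e1, e2, e3, e4⟩ := GAU2_.split hqo hp
  refine ⟨q₁, q₂, e1, e2, e3, ?_⟩
  rw [e4] at hy1 hz1
  rw [mul_pow, sq (4 * (q : ℝ) * q₁)]
  exact mul_le_mul hy1 hz1 (by positivity) (by positivity)

end Pool.Agent.Tri5
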