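import Pool.Agent.Tri5.Targets

/-!
# Tri5, target GK: complete sums with a linear term
-/

set_option autoImplicit false

open Finset

namespace Pool.Agent.Tri5

namespace GK_

lemma ex_add (x y : ℝ) : ex (x + y) = ex x * ex y := by
  unfold ex
  rw [← Complex.exp_add]
  congr 1
  push_cast
  ring

lemma ex_int (n : ℤ) : ex (n : ℝ) = 1 := by
  unfold ex
  rw [Complex.exp_eq_one_iff]
  exact ⟨n, by push_cast; ring⟩

lemma norm_ex (x : ℝ) : ‖ex x‖ = 1 := by
  unfold ex
  have : (2 * Real.pi * x * Complex.I : ℂ) = ((2 * Real.pi * x : ℝ) : ℂ) * Complex.I := by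
    push_cast; ring
  rw [this, Complex.norm_exp_ofReal_mul_I]

lemma ex_zero : ex 0 = 1 := by
  have := ex_int 0
  simpa using this

lemma ex_conj (x : ℝ) : (starRingEnd ℂ) (ex x) = ex (-x) := by
  unfold ex
  rw [← Complex.exp_conj]
  congr 1
  simp only [map_mul, Complex.conj_ofReal, Complex.conj_I, Complex.ofReal_neg]
  rw [show (starRingEnd ℂ) 2 = 2 from Complex.conj_ofNat 2]
  ring

lemma ex_mul_nat (x : ℝ) (n : ℕ) : ex (n * x) = ex x ^ n := by
  induction n with
  | zero => simp [ex_zero]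
  | succ n ih =>
    rw [pow_succ, ← ih, ← ex_add]
    congr 1
    push_cast
    ring

lemma ex_eq_one_iff (x : ℝ) : ex x = 1 ↔ ∃ n : ℤ, x = n := by
  constructor
  · intro h
    unfold ex at h
    rw [Complex.exp_eq_one_iff] at h
    obtain ⟨n, hn⟩ := h
    refine ⟨n, ?_⟩
    have h2 : (x : ℂ) = (n : ℂ) := by
      have h3 : (2 * (Real.pi : ℂ) * Complex.I) ≠ 0 := Complex.two_pi_I_ne_zero
      have h4 : (2 * (Real.pi : ℂ) * Complex.I) * (x : ℂ) =
          (2 * (Real.pi : ℂ) * Complex.I) * (n : ℂ) := by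
        linear_combination hn
      exact mul_left_cancel₀ h3 h4
    exact_mod_cast h2
  · rintro ⟨n, rfl⟩
    exact ex_int n

lemma two_tri (z : ℤ) : 2 * Tri z = z * (z + 1) := by
  unfold Tri
  exact Int.mul_ediv_cancel' (Int.even_mul_succ_self z).two_dvd

lemma tri_real (z : ℤ) : (Tri z : ℝ) = z * (z + 1) / 2 := by
  have := two_tri z
  have h : (2 : ℝ) * (Tri z : ℝ) = z * (z + 1) := by exact_mod_cast this
  linarith

/-- a geometric sum over the roots of unity -/
lemma geom (m : ℕ) (x : ℝ) (h1 : ex ((m : ℝ) * x) = 1) (h2 : ex x ≠ 1) :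
    ∑ s ∈ range m, ex ((s : ℝ) * x) = 0 := by
  have h3 : ∀ s ∈ range m, ex ((s : ℝ) * x) = ex x ^ s := fun s _ => ex_mul_nat x s
  rw [Finset.sum_congr rfl h3, geom_sum_eq h2, ← ex_mul_nat, h1]
  simp

lemma sum_range_zmod (m : ℕ) [NeZero m] (G : ℕ → ℂ) :
    ∑ s ∈ range m, G s = ∑ x : ZMod m, G x.val := by
  apply Finset.sum_bij' (s := range m) (t := (univ : Finset (ZMod m)))
    (i := fun (s : ℕ) _ => (s : ZMod m)) (j := fun (x : ZMod m) _ => x.val)
  · intro s _; exact Finset.mem_univ _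
  · intro x _; exact Finset.mem_range.mpr (ZMod.val_lt x)
  · intro s hs; exact ZMod.val_natCast_of_lt (Finset.mem_range.mp hs)
  · intro x _; exact ZMod.natCast_zmod_val x
  · intro s hs
    rw [ZMod.val_natCast_of_lt (Finset.mem_range.mp hs)]

end GK_

open GK_ in
theorem p_GK : T_GK := by
  intro Q y q c k hQ hq hc
  have hq0 : (q : ℝ) ≠ 0 := by positivity
  have : NeZero (2 * q) := ⟨by omega⟩
  -- the phase
  set φ : ℤ → ℝ := fun s => (c : ℝ) * Tri (y + Q * s) / q + k * s / (2 * q) with hφ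
  set f : ℤ → ℂ := fun s => ex (φ s) with hf
  -- difference of phases
  have hdiff : ∀ s t : ℤ, φ (s + t) = φ s + ((c : ℝ) * (Q : ℝ) ^ 2 * t * s / q) +
      ((c : ℝ) * (Tri (y + Q * t) - Tri y) / q + k * t / (2 * q)) := by
    intro s t
    simp only [hφ, tri_real]
    push_cast
    field_simp
    ring
  have hper : ∀ s : ℤ, f (s + (2 * q : ℕ)) = f s := by
    intro s
    simp only [hf]
    rw [hdiff]
    have e1 : (c : ℝ) * (Q : ℝ) ^ 2 * ((2 * q : ℕ) : ℤ) * s / q = ((c * Q ^ 2 * 2 * s : ℤ) : ℝ) := by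
      push_cast
      field_simp
    have e2 : (c : ℝ) * (Tri (y + Q * ((2 * q : ℕ) : ℤ)) - Tri y) / q +
        k * ((2 * q : ℕ) : ℤ) / (2 * q) = ((c * (Q * (2 * y + 1) + 2 * Q ^ 2 * q) + k : ℤ) : ℝ) := by
      rw [tri_real, tri_real]
      push_cast
      field_simp
      ring
    rw [e1, e2, ex_add, ex_add, ex_int, ex_int, mul_one, mul_one]
  have hperk : ∀ (n : ℤ) (s : ℤ), f (s + n * (2 * q : ℕ)) = f s := by
    intro n
    induction n using Int.induction_on with
    | zero => intro s; simp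
    | succ i ih =>
      intro s
      rw [← ih s, ← hper (s + i * (2 * q : ℕ))]
      congr 1
      ring
    | pred i ih =>
      intro s
      rw [← ih s, ← hper (s + (-i - 1) * (2 * q : ℕ))]
      congr 1
      ring
  have hcongr : ∀ s t : ℤ, (s : ZMod (2 * q)) = (t : ZMod (2 * q)) → f s = f t := by
    intro s t hst
    rw [ZMod.intCast_eq_intCast_iff_dvd_sub] at hst
    obtain ⟨n, hn⟩ := hst
    rw [← hperk n s]
    congr 1
    linarith [mul_comm n ((2 * q : ℕ) : ℤ)]
  -- the sum over `ZMod`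
  set F : ZMod (2 * q) → ℂ := fun x => f (x.val : ℤ) with hF
  have hFf : ∀ s : ℤ, F (s : ZMod (2 * q)) = f s := by
    intro s
    apply hcongr
    simp
  have hsum : ∑ s ∈ range (2 * q), ex ((c : ℝ) * Tri (y + Q * s) / q + k * s / (2 * q)) =
      ∑ x : ZMod (2 * q), F x := by
    rw [sum_range_zmod (2 * q)
      (fun s : ℕ => ex ((c : ℝ) * Tri (y + Q * s) / q + k * s / (2 * q)))]
    refine Finset.sum_congr rfl fun x _ => ?_
    simp [hF, hf, hφ]
  rw [hsum]
  -- the square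
  have hsq : ((‖∑ x : ZMod (2 * q), F x‖ ^ 2 : ℝ) : ℂ) =
      ∑ t : ZMod (2 * q), ∑ x : ZMod (2 * q), F (x + t) * (starRingEnd ℂ) (F x) := by
    rw [← Complex.normSq_eq_norm_sq, ← Complex.mul_conj, map_sum, Finset.sum_mul_sum]
    rw [Finset.sum_comm]
    rw [show ∑ t : ZMod (2 * q), ∑ x : ZMod (2 * q), F (x + t) * (starRingEnd ℂ) (F x) =
      ∑ x : ZMod (2 * q), ∑ t : ZMod (2 * q), F (x + t) * (starRingEnd ℂ) (F x) from
      Finset.sum_comm]
    refine Finset.sum_congr rfl fun x _ => ?_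
    exact (Equiv.sum_comp (Equiv.addLeft x) (fun u => F u * (starRingEnd ℂ) (F x))).symm
  have hterm : ∀ t x : ZMod (2 * q), F (x + t) * (starRingEnd ℂ) (F x) =
      ex ((c : ℝ) * (Tri (y + Q * (t.val : ℤ)) - Tri y) / q + k * (t.val : ℤ) / (2 * q)) *
        ex ((x.val : ℝ) * ((c : ℝ) * (Q : ℝ) ^ 2 * (t.val : ℤ) / q)) := by
    intro t x
    have h1 : F (x + t) = f ((x.val : ℤ) + (t.val : ℤ)) := by
      rw [← hFf]
      congr 1
      simp
    have h2 : F x = f (x.val : ℤ) := rfl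
    rw [h1, h2]
    simp only [hf]
    rw [hdiff, ex_add, ex_add, ex_conj]
    have h3 : ex (φ (x.val : ℤ)) * ex (-φ (x.val : ℤ)) = 1 := by
      rw [← ex_add, add_neg_cancel, ex_zero]
    have h4 : (c : ℝ) * (Q : ℝ) ^ 2 * ((t.val : ℤ) : ℝ) * ((x.val : ℤ) : ℝ) / q =
        (x.val : ℝ) * ((c : ℝ) * (Q : ℝ) ^ 2 * (t.val : ℤ) / q) := by
      push_cast
      ring
    rw [h4]
    linear_combination ex ((x.val : ℝ) * ((c : ℝ) * (Q : ℝ) ^ 2 * (t.val : ℤ) / q)) *
      ex ((c : ℝ) * (Tri (y + Q * (t.val : ℤ)) - Tri y) / q + k * (t.val : ℤ) / (2 * q)) * h3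
  -- the inner sum
  have hinner : ∀ t : ZMod (2 * q), ‖∑ x : ZMod (2 * q), F (x + t) * (starRingEnd ℂ) (F x)‖ ≤
      if q ∣ Q ^ 2 * t.val then (2 * q : ℝ) else 0 := by
    intro t
    have h1 : ∑ x : ZMod (2 * q), F (x + t) * (starRingEnd ℂ) (F x) =
        ex ((c : ℝ) * (Tri (y + Q * (t.val : ℤ)) - Tri y) / q + k * (t.val : ℤ) / (2 * q)) *
        ∑ s ∈ range (2 * q), ex ((s : ℝ) * ((c : ℝ) * (Q : ℝ) ^ 2 * (t.val : ℤ) / q)) := by
      rw [Finset.sum_congr rfl (fun x _ => hterm t x), ← Finset.mul_sum]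
      congr 1
      exact (sum_range_zmod (2 * q)
        (fun s : ℕ => ex ((s : ℝ) * ((c : ℝ) * (Q : ℝ) ^ 2 * (t.val : ℤ) / q)))).symm
    rw [h1, norm_mul, norm_ex, one_mul]
    split_ifs with hd
    · refine (norm_sum_le _ _).trans ?_
      rw [Finset.sum_congr rfl (fun s _ => norm_ex _), Finset.sum_const, Finset.card_range]
      simp
    · rw [geom, norm_zero]
      · rw [ex_eq_one_iff]
        refine ⟨c * Q ^ 2 * t.val * 2, ?_⟩
        push_cast
        field_simp
      · rw [Ne, ex_eq_one_iff]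
        rintro ⟨n, hn⟩
        apply hd
        have h2 : (c : ℝ) * (Q : ℝ) ^ 2 * (t.val : ℤ) = n * q := by
          field_simp at hn
          linarith
        have h3 : c * (Q : ℤ) ^ 2 * (t.val : ℤ) = n * q := by exact_mod_cast h2
        have h4 : (q : ℤ) ∣ c * ((Q : ℤ) ^ 2 * (t.val : ℤ)) :=
          ⟨n, by rw [← mul_assoc, h3]; ring⟩
        have h5 : (q : ℤ) ∣ (Q : ℤ) ^ 2 * (t.val : ℤ) := hc.symm.dvd_of_dvd_mul_left h4
        exact_mod_cast h5
  -- the number of `t`
  have hcount : ((univ : Finset (ZMod (2 * q))).filter (fun t => q ∣ Q ^ 2 * t.val)).card ≤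
      2 * Nat.gcd (Q ^ 2) q := by
    set g := Nat.gcd (Q ^ 2) q with hg
    have hg0 : 0 < g := Nat.gcd_pos_of_pos_right _ (by omega)
    obtain ⟨q', hq'⟩ : g ∣ q := Nat.gcd_dvd_right _ _
    have hq'0 : 0 < q' := by
      rcases Nat.eq_zero_or_pos q' with h | h
      · rw [h, mul_zero] at hq'; omega
      · exact h
    have hdvd : ∀ t : ℕ, q ∣ Q ^ 2 * t → q' ∣ t := by
      intro t ht
      obtain ⟨Q', hQ'⟩ : g ∣ Q ^ 2 := Nat.gcd_dvd_left _ _
      have hcop : Nat.Coprime q' Q' := by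
        have h6 := Nat.coprime_div_gcd_div_gcd (m := Q ^ 2) (n := q) (by rw [← hg]; exact hg0)
        rw [← hg, hQ'] at h6
        rw [Nat.mul_div_cancel_left _ hg0] at h6
        have h7 : q / g = q' := by rw [hq']; exact Nat.mul_div_cancel_left _ hg0
        rw [h7] at h6
        exact h6.symm
      rw [hQ', hq', mul_assoc] at ht
      have h8 : q' ∣ Q' * t := Nat.dvd_of_mul_dvd_mul_left hg0 ht
      exact hcop.dvd_of_dvd_mul_left h8
    calc ((univ : Finset (ZMod (2 * q))).filter (fun t => q ∣ Q ^ 2 * t.val)).card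
        ≤ (range (2 * g)).card := by
          apply Finset.card_le_card_of_injOn (fun t => t.val / q')
          · intro t ht
            rw [Finset.mem_coe, Finset.mem_range]
            apply Nat.div_lt_of_lt_mul
            have := ZMod.val_lt t
            calc t.val < 2 * q := this
              _ = q' * (2 * g) := by
                conv_lhs => rw [hq']
                ring
          · intro t ht t' ht' heq
            have h1 := hdvd _ (Finset.mem_filter.mp (Finset.mem_coe.mp ht)).2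
            have h2 := hdvd _ (Finset.mem_filter.mp (Finset.mem_coe.mp ht')).2
            apply ZMod.val_injective
            rw [← Nat.div_mul_cancel h1, ← Nat.div_mul_cancel h2]
            simp only at heq
            rw [heq]
      _ = 2 * g := Finset.card_range _
  -- conclusion
  have hle : ‖∑ x : ZMod (2 * q), F x‖ ^ 2 ≤ ∑ t : ZMod (2 * q),
      (if q ∣ Q ^ 2 * t.val then (2 * q : ℝ) else 0) := by
    have h1 : ‖∑ x : ZMod (2 * q), F x‖ ^ 2 =
        ‖∑ t : ZMod (2 * q), ∑ x : ZMod (2 * q), F (x + t) * (starRingEnd ℂ) (F x)‖ := by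
      rw [← hsq, Complex.norm_real, Real.norm_of_nonneg (by positivity)]
    rw [h1]
    exact (norm_sum_le _ _).trans (Finset.sum_le_sum fun t _ => hinner t)
  refine hle.trans ?_
  rw [← Finset.sum_filter, Finset.sum_const, nsmul_eq_mul]
  have h2 : (((univ : Finset (ZMod (2 * q))).filter (fun t => q ∣ Q ^ 2 * t.val)).card : ℝ) ≤
      2 * (Nat.gcd (Q ^ 2) q : ℝ) := by exact_mod_cast hcount
  have h3 : (0 : ℝ) ≤ 2 * q := by positivity
  calc _ ≤ 2 * (Nat.gcd (Q ^ 2) q : ℝ) * (2 * q) := mul_le_mul_of_nonneg_right h2 h3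
    _ = 4 * q * (Nat.gcd (Q ^ 2) q : ℝ) := by ring

end Pool.Agent.Tri5
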