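import Pool.Agent.Tri5.Targets

/-!
GS2: the terms of large order (project Tri5, MP_68fb2d_nt).
-/

set_option autoImplicit false

open Finset

namespace Pool.Agent.Tri5

namespace GS2_

/-- `1 / φ`. -/
noncomputable def fphi : ArithmeticFunction ℝ := ⟨fun n => 1 / (Nat.totient n : ℝ), by simp⟩

theorem fphi_apply (n : ℕ) : fphi n = 1 / (Nat.totient n : ℝ) := rfl

theorem fphi_mult : fphi.IsMultiplicative := by
  refine ⟨by simp [fphi_apply], fun {m n} h => ?_⟩
  rw [fphi_apply, fphi_apply, fphi_apply, Nat.totient_mul h, Nat.cast_mul]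
  field_simp

theorem squarefree_prod (S : Finset ℕ) (hS : ∀ p ∈ S, p.Prime) : Squarefree (∏ p ∈ S, p) := by
  refine Finset.squarefree_prod_of_pairwise_isCoprime (fun p hp q hq hpq => ?_) (fun p hp => ?_)
  · rw [Function.onFun, ← Nat.coprime_iff_isRelPrime]
    exact (Nat.coprime_primes (hS p hp) (hS q hq)).2 hpq
  · exact (hS p hp).prime.irreducible.squarefree

theorem sum_phi (S : Finset ℕ) (hS : ∀ p ∈ S, p.Prime) :
    ∑ d ∈ (∏ p ∈ S, p).divisors, (1 : ℝ) / Nat.totient d = ∏ p ∈ S, (1 + 1 / ((p : ℝ) - 1)) := by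
  have h := fphi_mult.prodPrimeFactors_one_add_of_squarefree (squarefree_prod S hS)
  rw [Nat.primeFactors_prod hS] at h
  simp only [fphi_apply] at h
  rw [← h]
  refine prod_congr rfl (fun p hp => ?_)
  rw [Nat.totient_prime (hS p hp), Nat.cast_sub (hS p hp).one_lt.le, Nat.cast_one]

/-- the primes with small order -/
def Sj (S : Finset ℕ) (L E : ℕ) : Finset ℕ :=
  S.filter (fun p => p ∣ ∏ e ∈ Icc 1 E, (5 ^ (L * e) - 1))

theorem dvd_of_od {L d p : ℕ} (hp : p ∣ d) : (p : ℕ) ∣ 5 ^ (L * od L d) - 1 := by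
  have h1 : ((5 : ZMod d) ^ L) ^ od L d = 1 := pow_orderOf_eq_one _
  have h2 : ((5 : ZMod p) ^ L) ^ od L d = 1 := by
    have := congrArg (ZMod.castHom hp (ZMod p)) h1
    rw [map_pow, map_pow, map_one, map_ofNat] at this
    exact this
  rw [← pow_mul] at h2
  have h3 : ((5 ^ (L * od L d) : ℕ) : ZMod p) = ((1 : ℕ) : ZMod p) := by
    push_cast
    exact h2
  have h4 := (ZMod.natCast_eq_natCast_iff _ _ _).1 h3
  exact (Nat.modEq_iff_dvd' (Nat.one_le_pow _ _ (by norm_num))).1 h4.symm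

theorem dvd_prod_Sj {S : Finset ℕ} (hS : ∀ p ∈ S, p.Prime) {L E d : ℕ}
    (hd : d ∣ ∏ p ∈ S, p) (h1 : 1 ≤ od L d) (h2 : od L d ≤ E) : d ∣ ∏ p ∈ Sj S L E, p := by
  have hsq : Squarefree d := (squarefree_prod S hS).squarefree_of_dvd hd
  have hd0 : (∏ p ∈ S, p) ≠ 0 := prod_ne_zero_iff.2 (fun p hp => (hS p hp).ne_zero)
  rw [← Nat.prod_primeFactors_of_squarefree hsq]
  refine prod_dvd_prod_of_subset _ _ _ (fun p hp => ?_)
  have hpp := Nat.prime_of_mem_primeFactors hp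
  have hpd := Nat.dvd_of_mem_primeFactors hp
  have hpS : p ∈ S := by
    have := Nat.primeFactors_mono hd hd0 hp
    rwa [Nat.primeFactors_prod hS] at this
  refine mem_filter.2 ⟨hpS, ?_⟩
  exact (dvd_of_od hpd).trans (dvd_prod_of_mem _ (mem_Icc.2 ⟨h1, h2⟩))

theorem prod_le (L E : ℕ) : ∏ e ∈ Icc 1 E, (5 ^ (L * e) - 1) ≤ 5 ^ (L * E ^ 2) := by
  calc ∏ e ∈ Icc 1 E, (5 ^ (L * e) - 1) ≤ ∏ e ∈ Icc 1 E, 5 ^ (L * E) := by
        refine prod_le_prod' (fun e he => ?_)
        refine (Nat.sub_le _ _).trans ?_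
        exact Nat.pow_le_pow_right (by norm_num) (Nat.mul_le_mul_left _ (mem_Icc.1 he).2)
    _ = 5 ^ (L * E ^ 2) := by
        rw [prod_const, Nat.card_Icc, ← pow_mul]
        congr 1
        rw [Nat.add_sub_cancel]
        ring

theorem card_Sj {S : Finset ℕ} (hS : ∀ p ∈ S, p.Prime) {L E : ℕ} (hL : 1 ≤ L) :
    (Sj S L E).card ≤ 3 * L * E ^ 2 := by
  have hpos : 0 < ∏ e ∈ Icc 1 E, (5 ^ (L * e) - 1) := by
    refine prod_pos (fun e he => ?_)
    have : 1 < 5 ^ (L * e) := Nat.one_lt_pow (by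
      have := (mem_Icc.1 he).1
      positivity) (by norm_num)
    omega
  have h1 : ∏ p ∈ Sj S L E, p ∣ ∏ e ∈ Icc 1 E, (5 ^ (L * e) - 1) :=
    Finset.prod_primes_dvd _ (fun p hp => (hS p (mem_filter.1 hp).1).prime)
      (fun p hp => (mem_filter.1 hp).2)
  have h2 : 2 ^ (Sj S L E).card ≤ ∏ p ∈ Sj S L E, p := by
    rw [← prod_const]
    exact prod_le_prod' (fun p hp => (hS p (mem_filter.1 hp).1).two_le)
  have h3 : 2 ^ (Sj S L E).card ≤ 2 ^ (3 * L * E ^ 2) := by
    calc 2 ^ (Sj S L E).card ≤ ∏ e ∈ Icc 1 E, (5 ^ (L * e) - 1) :=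
          h2.trans (Nat.le_of_dvd hpos h1)
      _ ≤ 5 ^ (L * E ^ 2) := prod_le L E
      _ ≤ 8 ^ (L * E ^ 2) := Nat.pow_le_pow_left (by norm_num) _
      _ = 2 ^ (3 * L * E ^ 2) := by
          rw [show (8 : ℕ) = 2 ^ 3 by norm_num, ← pow_mul]
          congr 1
          ring
  exact (Nat.pow_le_pow_iff_right (by norm_num)).1 h3

theorem geo1 (J : ℕ) : ∑ j ∈ range J, (1 : ℝ) / 2 ^ j ≤ 2 := by
  have : ∑ j ∈ range J, (1 : ℝ) / 2 ^ j = 2 - 2 / 2 ^ J := by
    induction J with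
    | zero => simp
    | succ n ih =>
      rw [sum_range_succ, ih]
      field_simp
      ring
  rw [this]
  have : (0 : ℝ) < 2 / 2 ^ J := by positivity
  linarith

theorem geo2 (J : ℕ) : ∑ j ∈ range J, ((j : ℝ) + 1) / 2 ^ j ≤ 4 := by
  have : ∑ j ∈ range J, ((j : ℝ) + 1) / 2 ^ j = 4 - (2 * J + 4) / 2 ^ J := by
    induction J with
    | zero => simp
    | succ n ih =>
      rw [sum_range_succ, ih]
      push_cast
      field_simp
      ring
  rw [this]
  have : (0 : ℝ) < (2 * J + 4) / 2 ^ J := by positivity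
  linarith

/-- the dyadic index -/
theorem exists_j {k m J : ℕ} (h : k < m) (hJ : m ≤ 2 ^ J * k) :
    ∃ j < J, 2 ^ j * k < m ∧ m ≤ 2 ^ (j + 1) * k := by
  induction J with
  | zero =>
    simp at hJ
    omega
  | succ n ih =>
    by_cases h1 : m ≤ 2 ^ n * k
    · obtain ⟨j, hj, hj'⟩ := ih h1
      exact ⟨j, by omega, hj'⟩
    · exact ⟨n, by omega, by omega, hJ⟩

end GS2_

open GS2_ in
theorem p_GS2 (h1 : T_MER) : T_GS2 := by
  obtain ⟨C0, hC0, hM⟩ := h1
  refine ⟨12 * C0, by positivity, ?_⟩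
  intro L k S hL hk hS
  have hSp : ∀ p ∈ S, p.Prime := fun p hp => (hS p hp).1
  set P := ∏ p ∈ S, p with hP
  have hk0 : (0 : ℝ) < k := by exact_mod_cast (by omega : 0 < k)
  have hL0 : (0 : ℝ) < L := by exact_mod_cast (by omega : 0 < L)
  have hlk : 0 < Real.log k := Real.log_pos (by exact_mod_cast (by omega : 1 < k))
  have hl2 : Real.log 2 ≤ Real.log k := Real.log_le_log (by norm_num) (by exact_mod_cast hk)
  -- a bound for the orders
  obtain ⟨J, hJ⟩ : ∃ J : ℕ, ∀ d ∈ P.divisors, od L d ≤ 2 ^ J * k := by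
    obtain ⟨M, hMb⟩ : ∃ M : ℕ, ∀ d ∈ P.divisors, od L d ≤ M :=
      ⟨P.divisors.sup (od L), fun d hd => Finset.le_sup (f := od L) hd⟩
    refine ⟨M, fun d hd => (hMb d hd).trans ?_⟩
    calc M ≤ 2 ^ M := Nat.lt_two_pow_self.le
      _ ≤ 2 ^ M * k := Nat.le_mul_of_pos_right _ (by omega)
  -- the sums over the small orders
  have hB : ∀ j : ℕ, ∑ d ∈ P.divisors.filter (fun d => 1 ≤ od L d ∧ od L d ≤ 2 ^ (j + 1) * k),
      (1 : ℝ) / Nat.totient d ≤
      C0 * (Real.log (3 * L) + 2 * Real.log k + 2 * (j + 1) * Real.log 2) / Real.log k := by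
    intro j
    set E := 2 ^ (j + 1) * k with hE
    have hEk : k ≤ E := Nat.le_mul_of_pos_left _ (by positivity)
    have hkn : k ≤ 3 * L * E ^ 2 := by
      calc k ≤ E := hEk
        _ ≤ E ^ 2 := Nat.le_self_pow (by norm_num) _
        _ ≤ 3 * L * E ^ 2 := Nat.le_mul_of_pos_left _ (by positivity)
    have hSj : ∀ p ∈ Sj S L E, p.Prime ∧ k < p := fun p hp =>
      ⟨(hS p (mem_filter.1 hp).1).1, (hS p (mem_filter.1 hp).1).2.2⟩
    have h2 := hM k (3 * L * E ^ 2) (Sj S L E) hk hkn (card_Sj hSp hL) hSj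
    rw [← sum_phi (Sj S L E) (fun p hp => (hSj p hp).1)] at h2
    have hlog : Real.log ((3 * L * E ^ 2 : ℕ) : ℝ) =
        Real.log (3 * L) + 2 * Real.log k + 2 * (j + 1) * Real.log 2 := by
      have hE' : (E : ℝ) = 2 ^ (j + 1) * k := by rw [hE]; push_cast; ring
      push_cast
      rw [Real.log_mul (by positivity) (by rw [hE']; positivity), Real.log_pow, hE',
        Real.log_mul (show ((2 : ℝ) ^ (j + 1)) ≠ 0 by positivity) hk0.ne', Real.log_pow]
      push_cast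
      ring
    rw [hlog] at h2
    refine le_trans (sum_le_sum_of_subset_of_nonneg (fun d hd => ?_)
      (fun d _ _ => by positivity)) h2
    obtain ⟨hd1, hd2, hd3⟩ := mem_filter.1 hd
    refine Nat.mem_divisors.2 ⟨dvd_prod_Sj hSp (Nat.dvd_of_mem_divisors hd1) hd2 hd3, ?_⟩
    exact prod_ne_zero_iff.2 (fun p hp => (hSj p hp).1.ne_zero)
  -- dyadic decomposition
  have key : ∑ d ∈ P.divisors.filter (fun d => k < od L d),
      (1 : ℝ) / (Nat.totient d * od L d) ≤
      ∑ j ∈ range J, 1 / (2 ^ j * (k : ℝ)) *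
        ∑ d ∈ P.divisors.filter (fun d => 1 ≤ od L d ∧ od L d ≤ 2 ^ (j + 1) * k),
          (1 : ℝ) / Nat.totient d := by
    have e1 : ∀ j ∈ range J, 1 / (2 ^ j * (k : ℝ)) *
        ∑ d ∈ P.divisors.filter (fun d => 1 ≤ od L d ∧ od L d ≤ 2 ^ (j + 1) * k),
          (1 : ℝ) / Nat.totient d =
        ∑ d ∈ P.divisors, if (1 ≤ od L d ∧ od L d ≤ 2 ^ (j + 1) * k) then
          1 / (2 ^ j * (k : ℝ)) * (1 / Nat.totient d) else 0 := by
      intro j _
      rw [mul_sum, sum_filter]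
    rw [sum_congr rfl e1, sum_comm, sum_filter]
    refine sum_le_sum (fun d hd => ?_)
    have hnn : ∀ j ∈ range J, (0 : ℝ) ≤ if (1 ≤ od L d ∧ od L d ≤ 2 ^ (j + 1) * k) then
        1 / (2 ^ j * (k : ℝ)) * (1 / Nat.totient d) else 0 := by
      intro j _
      split_ifs
      · positivity
      · exact le_rfl
    split_ifs with h
    · obtain ⟨j, hj, hj1, hj2⟩ := exists_j h (hJ d hd)
      refine le_trans ?_ (single_le_sum hnn (mem_range.2 hj))
      rw [if_pos ⟨by omega, hj2⟩]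
      have h3 : (2 : ℝ) ^ j * k ≤ od L d := by exact_mod_cast hj1.le
      have h4 : (0 : ℝ) < 2 ^ j * k := by positivity
      have h5 : (1 : ℝ) / (od L d) ≤ 1 / (2 ^ j * k) := one_div_le_one_div_of_le h4 h3
      have h6 : (0 : ℝ) ≤ 1 / Nat.totient d := by positivity
      calc (1 : ℝ) / (Nat.totient d * od L d) = 1 / Nat.totient d * (1 / od L d) := by
            rw [one_div_mul_one_div]
        _ ≤ 1 / Nat.totient d * (1 / (2 ^ j * k)) := mul_le_mul_of_nonneg_left h5 h6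
        _ = _ := mul_comm _ _
    · exact sum_nonneg hnn
  refine key.trans ?_
  have hl3 : 0 ≤ Real.log (3 * L) := Real.log_nonneg (by
    have : (1 : ℝ) ≤ L := by exact_mod_cast hL
    linarith)
  calc ∑ j ∈ range J, 1 / (2 ^ j * (k : ℝ)) *
        ∑ d ∈ P.divisors.filter (fun d => 1 ≤ od L d ∧ od L d ≤ 2 ^ (j + 1) * k),
          (1 : ℝ) / Nat.totient d
      ≤ ∑ j ∈ range J, 1 / (2 ^ j * (k : ℝ)) *
        (C0 * (Real.log (3 * L) + 2 * Real.log k + 2 * (j + 1) * Real.log 2) / Real.log k) :=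
        sum_le_sum (fun j _ => mul_le_mul_of_nonneg_left (hB j) (by positivity))
    _ = C0 / (k * Real.log k) * ((Real.log (3 * L) + 2 * Real.log k) *
          (∑ j ∈ range J, (1 : ℝ) / 2 ^ j) +
          2 * Real.log 2 * ∑ j ∈ range J, ((j : ℝ) + 1) / 2 ^ j) := by
        rw [mul_sum, mul_sum, ← sum_add_distrib, mul_sum]
        refine sum_congr rfl (fun j _ => ?_)
        field_simp
    _ ≤ C0 / (k * Real.log k) * ((Real.log (3 * L) + 2 * Real.log k) * 2 +
          2 * Real.log k * 4) := by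
        refine mul_le_mul_of_nonneg_left ?_ (by positivity)
        have g1 := geo1 J
        have g2 := geo2 J
        have g3 : 0 ≤ ∑ j ∈ range J, ((j : ℝ) + 1) / 2 ^ j :=
          sum_nonneg (fun j _ => by positivity)
        have h7 : (Real.log (3 * L) + 2 * Real.log k) * (∑ j ∈ range J, (1 : ℝ) / 2 ^ j) ≤
            (Real.log (3 * L) + 2 * Real.log k) * 2 :=
          mul_le_mul_of_nonneg_left g1 (by positivity)
        have h8 : 2 * Real.log 2 * ∑ j ∈ range J, ((j : ℝ) + 1) / 2 ^ j ≤ 2 * Real.log k * 4 :=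
          mul_le_mul (by linarith) g2 g3 (by positivity)
        linarith
    _ ≤ 12 * C0 * (Real.log (3 * L) + Real.log k) / (k * Real.log k) := by
        rw [div_mul_eq_mul_div]
        refine div_le_div_of_nonneg_right ?_ (by positivity)
        nlinarith

end Pool.Agent.Tri5
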