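import Pool.Agent.Tri5.Targets

/-!
GSM: the Romanoff series can be made small (project Tri5, MP_68fb2d_nt).
-/

set_option autoImplicit false

open Finset Filter Topology

namespace Pool.Agent.Tri5

theorem p_GSM (h1 : T_GS1) (h2 : T_GS2) (h3 : T_LCM) : T_GSM := by
  intro ε hε
  obtain ⟨C2, hC2, hG2⟩ := h2
  obtain ⟨C, hC, hL⟩ := h3
  have t1 : Tendsto (fun k : ℕ => Real.exp ((C + 7) / (k : ℝ)) - 1) atTop (𝓝 0) := by
    have h := (Real.continuous_exp.tendsto 0).comp (tendsto_const_div_atTop_nhds_zero_nat (C + 7))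
    rw [Real.exp_zero] at h
    simpa using h.sub_const 1
  have t2 : Tendsto (fun k : ℕ => C2 * (C + 4) / Real.log (k : ℝ)) atTop (𝓝 0) :=
    (Real.tendsto_log_atTop.comp tendsto_natCast_atTop_atTop).const_div_atTop _
  obtain ⟨k, hk5, hk1, hk2⟩ := ((eventually_ge_atTop 5).and
    (((t1.eventually (gt_mem_nhds (half_pos hε)))).and
      (t2.eventually (gt_mem_nhds (half_pos hε))))).exists
  obtain ⟨L, hL1, hL30, hLlog, hLr, hLp⟩ := hL k hk5
  refine ⟨L, hL1, hL30, fun S hS => ?_⟩
  have hk0 : (0 : ℝ) < k := by exact_mod_cast (by omega : 0 < k)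
  have hk1' : (1 : ℝ) ≤ k := by exact_mod_cast (by omega : 1 ≤ k)
  have hL0 : (0 : ℝ) < L := by exact_mod_cast (by omega : 0 < L)
  have hlk : 0 < Real.log k := Real.log_pos (by exact_mod_cast (by omega : 1 < k))
  have hlkk : Real.log k ≤ k := (Real.log_le_sub_one_of_pos hk0).trans (by linarith)
  have hl3 : Real.log 3 ≤ 2 := (Real.log_le_sub_one_of_pos (by norm_num)).trans (by norm_num)
  have g1 := h1 L k S hL1 (by omega) hLr hS
  have g2 := hG2 L k S hL1 (by omega) (fun p hp => by
    refine ⟨(hS p hp).1, (hS p hp).2, ?_⟩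
    by_contra hcon
    exact (hS p hp).2 (hLp p (hS p hp).1 (by omega)))
  have hsplit : GS L S ≤ ∑ d ∈ ((∏ p ∈ S, p).divisors.erase 1).filter (fun d => od L d ≤ k),
      (1 : ℝ) / (Nat.totient d * od L d) + ∑ d ∈ (∏ p ∈ S, p).divisors.filter
        (fun d => k < od L d), (1 : ℝ) / (Nat.totient d * od L d) := by
    rw [GS, ← sum_filter_add_sum_filter_not _ (fun d => od L d ≤ k)]
    refine add_le_add le_rfl ?_
    refine sum_le_sum_of_subset_of_nonneg (fun d hd => ?_) (fun d _ _ => by positivity)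
    obtain ⟨hd1, hd2⟩ := mem_filter.1 hd
    exact mem_filter.2 ⟨(mem_erase.1 hd1).2, not_le.1 hd2⟩
  have e1 : Real.exp ((1 + Real.log (3 * L * k ^ 2)) / k ^ 3) - 1 ≤
      Real.exp ((C + 7) / (k : ℝ)) - 1 := by
    refine sub_le_sub_right (Real.exp_le_exp.2 ?_) 1
    have : Real.log (3 * L * k ^ 2) = Real.log 3 + Real.log L + 2 * Real.log k := by
      rw [Real.log_mul (by positivity) (by positivity), Real.log_mul (by norm_num) hL0.ne',
        Real.log_pow]
      push_cast
      ring
    rw [this, div_le_div_iff₀ (by positivity) hk0]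
    have h4 : 1 + (Real.log 3 + Real.log L + 2 * Real.log k) ≤ (C + 7) * k := by nlinarith
    have h5 : (k : ℝ) ≤ k ^ 2 := by nlinarith
    calc (1 + (Real.log 3 + Real.log L + 2 * Real.log k)) * k ≤ (C + 7) * k * k :=
          mul_le_mul_of_nonneg_right h4 hk0.le
      _ = (C + 7) * k ^ 2 := by ring
      _ ≤ (C + 7) * k ^ 3 := by
          refine mul_le_mul_of_nonneg_left ?_ (by positivity)
          exact pow_le_pow_right₀ hk1' (by norm_num)
  have e2 : C2 * (Real.log (3 * L) + Real.log k) / (k * Real.log k) ≤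
      C2 * (C + 4) / Real.log (k : ℝ) := by
    rw [Real.log_mul (by norm_num) hL0.ne', div_le_div_iff₀ (by positivity) hlk]
    have h4 : Real.log 3 + Real.log L + Real.log k ≤ (C + 4) * k := by nlinarith
    calc C2 * (Real.log 3 + Real.log L + Real.log k) * Real.log k
        ≤ C2 * ((C + 4) * k) * Real.log k := by
          refine mul_le_mul_of_nonneg_right (mul_le_mul_of_nonneg_left h4 hC2.le) hlk.le
      _ = C2 * (C + 4) * (k * Real.log k) := by ring
  linarith

end Pool.Agent.Tri5
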