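import Pool.Agent.Tri5.Targets

set_option autoImplicit false

/-!
# HYP: representations of a nonzero number as a difference of triangular numbers
-/

namespace Pool.Agent.Tri5

namespace HYP_

lemma two_mul_tri (z : ℤ) : 2 * Tri z = z * (z + 1) := by
  have h : (2 : ℤ) ∣ z * (z + 1) := (Int.even_mul_succ_self z).two_dvd
  unfold Tri
  exact Int.mul_ediv_cancel' h

lemma fac (w : ℤ × ℤ) : (w.1 - w.2) * (w.1 + w.2 + 1) = 2 * (Tri w.1 - Tri w.2) := by
  have h1 := two_mul_tri w.1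
  have h2 := two_mul_tri w.2
  have h3 : 2 * (Tri w.1 - Tri w.2) = 2 * Tri w.1 - 2 * Tri w.2 := by ring
  rw [h3, h1, h2]
  ring

/-- The positive and negative divisors. -/
def sdiv (n : ℕ) : Finset ℤ :=
  n.divisors.image (fun d : ℕ => (d : ℤ)) ∪ n.divisors.image (fun d : ℕ => -(d : ℤ))

lemma card_sdiv (n : ℕ) : (sdiv n).card ≤ 2 * n.divisors.card := by
  unfold sdiv
  have h1 := Finset.card_union_le (n.divisors.image (fun d : ℕ => (d : ℤ)))
    (n.divisors.image (fun d : ℕ => -(d : ℤ)))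
  have h2 : (n.divisors.image (fun d : ℕ => (d : ℤ))).card ≤ n.divisors.card :=
    Finset.card_image_le
  have h3 : (n.divisors.image (fun d : ℕ => -(d : ℤ))).card ≤ n.divisors.card :=
    Finset.card_image_le
  omega

lemma mem_sdiv {n : ℕ} (hn : n ≠ 0) {z : ℤ} (hz : z.natAbs ∣ n) : z ∈ sdiv n := by
  unfold sdiv
  have hd : z.natAbs ∈ n.divisors := Nat.mem_divisors.2 ⟨hz, hn⟩
  rcases Int.natAbs_eq z with h | h
  · apply Finset.mem_union_left
    exact Finset.mem_image.2 ⟨z.natAbs, hd, h.symm⟩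
  · apply Finset.mem_union_right
    exact Finset.mem_image.2 ⟨z.natAbs, hd, h.symm⟩

end HYP_

open HYP_ in
theorem p_HYP : T_HYP := by
  intro h hh
  have hn : 2 * h.natAbs ≠ 0 := by
    have : h.natAbs ≠ 0 := Int.natAbs_ne_zero.2 hh
    omega
  have hmaps : Set.MapsTo (fun w : ℤ × ℤ => w.1 - w.2) {w : ℤ × ℤ | Tri w.1 - Tri w.2 = h}
      (sdiv (2 * h.natAbs) : Set ℤ) := by
    intro w hw
    simp only [Set.mem_ofPred_eq] at hw
    have h1 := fac w
    rw [hw] at h1
    have h2 : (w.1 - w.2).natAbs ∣ 2 * h.natAbs := by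
      have h3 : (w.1 - w.2) ∣ 2 * h := ⟨_, h1.symm⟩
      have h4 := Int.natAbs_dvd_natAbs.2 h3
      rwa [Int.natAbs_mul] at h4
    exact Finset.mem_coe.2 (mem_sdiv hn h2)
  have hinj : Set.InjOn (fun w : ℤ × ℤ => w.1 - w.2) {w : ℤ × ℤ | Tri w.1 - Tri w.2 = h} := by
    intro w hw v hv hwv
    simp only [Set.mem_ofPred_eq] at hw hv hwv
    have h1 := fac w
    have h2 := fac v
    rw [hw] at h1
    rw [hv] at h2
    have h3 : w.1 - w.2 ≠ 0 := by
      intro h0
      rw [h0, zero_mul] at h1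
      apply hh
      omega
    have h4 : (w.1 - w.2) * (w.1 + w.2 + 1) = (w.1 - w.2) * (v.1 + v.2 + 1) := by
      rw [h1, hwv, h2]
    have h5 := mul_left_cancel₀ h3 h4
    apply Prod.ext
    · omega
    · omega
  have hfin : {w : ℤ × ℤ | Tri w.1 - Tri w.2 = h}.Finite :=
    Set.Finite.of_injOn hmaps hinj (Finset.finite_toSet _)
  refine ⟨hfin, ?_⟩
  have h1 := Set.ncard_le_ncard_of_injOn (fun w : ℤ × ℤ => w.1 - w.2) hmaps hinj
    (Finset.finite_toSet _)
  rw [Set.ncard_coe_finset] at h1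
  exact h1.trans (card_sdiv _)

end Pool.Agent.Tri5
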