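import Mathlib
import Pool.Agent.Tri5.Targets

/-!
# INT: the Cauchy integral
-/

set_option autoImplicit false

namespace Pool.Agent.Tri5

open MeasureTheory in
theorem p_INT : T_INT := by
  intro X hX
  have hX0 : X ≠ 0 := hX.ne'
  have hfun : (fun β : ℝ => 1 / (1 / X ^ 2 + β ^ 2 / 16)) =
      fun β : ℝ => X ^ 2 * (fun x : ℝ => (1 + x ^ 2)⁻¹) (β * (X / 4)) := by
    funext β
    have h1 : 1 / X ^ 2 + β ^ 2 / 16 ≠ 0 := by positivity
    have h2 : 1 + (β * (X / 4)) ^ 2 ≠ 0 := by positivity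
    show 1 / (1 / X ^ 2 + β ^ 2 / 16) = X ^ 2 * (1 + (β * (X / 4)) ^ 2)⁻¹
    rw [div_eq_iff h1, mul_assoc, mul_comm ((1 + (β * (X / 4)) ^ 2)⁻¹), ← mul_assoc,
      ← div_eq_mul_inv, eq_div_iff h2]
    field_simp
    ring
  have hX4 : X / 4 ≠ 0 := by positivity
  rw [hfun]
  constructor
  · exact (Integrable.comp_mul_right' integrable_inv_one_add_sq hX4).const_mul _
  · rw [integral_const_mul, Measure.integral_comp_mul_right (fun x : ℝ => (1 + x ^ 2)⁻¹) (X / 4),
      integral_univ_inv_one_add_sq, abs_of_pos (by positivity), smul_eq_mul]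
    field_simp

end Pool.Agent.Tri5
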