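import Pool.Agent.Tri5.Targets

set_option autoImplicit false

open Finset MeasureTheory

namespace Pool.Agent.Tri5

namespace J1E_

private lemma ex_add (x y : ℝ) : ex (x + y) = ex x * ex y := by
  unfold ex
  rw [← Complex.exp_add]
  congr 1
  push_cast
  ring

private lemma ex_conj (x : ℝ) : (starRingEnd ℂ) (ex x) = ex (-x) := by
  unfold ex
  rw [← Complex.exp_conj]
  congr 1
  have h2 : (starRingEnd ℂ) 2 = 2 := by
    have := Complex.conj_ofReal 2
    exact_mod_cast this
  simp [h2]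

private lemma ex_norm (x : ℝ) : ‖ex x‖ = 1 := by
  unfold ex
  have : (2 * Real.pi * x * Complex.I : ℂ) = ((2 * Real.pi * x : ℝ) : ℂ) * Complex.I := by
    push_cast
    ring
  rw [this, Complex.norm_exp_ofReal_mul_I]

private lemma ex_cont : Continuous ex := by
  unfold ex
  fun_prop

private lemma int_ex (m : ℤ) : ∫ α in (0 : ℝ)..1, ex (α * m) = if m = 0 then 1 else 0 := by
  by_cases hm : m = 0
  · subst hm
    simp [ex]
  · rw [if_neg hm]
    have hc : (2 * Real.pi * m * Complex.I : ℂ) ≠ 0 := by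
      have h1 : (m : ℂ) ≠ 0 := by exact_mod_cast hm
      have h2 : (Real.pi : ℂ) ≠ 0 := by exact_mod_cast Real.pi_ne_zero
      simp [h1, h2]
    have h3 : ∀ α : ℝ, ex (α * m) = Complex.exp ((2 * Real.pi * m * Complex.I) * α) := by
      intro α
      unfold ex
      congr 1
      push_cast
      ring
    simp_rw [h3]
    rw [integral_exp_mul_complex hc]
    have h4 : Complex.exp ((2 * Real.pi * m * Complex.I) * ((1 : ℝ) : ℂ)) = 1 := by
      rw [Complex.exp_eq_one_iff]
      exact ⟨m, by push_cast; ring⟩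
    rw [h4]
    simp

private lemma wt_nonneg (X : ℝ) (z : ℤ) : 0 ≤ wt X z := by
  unfold wt
  positivity

/-- the coefficient -/
private noncomputable def cw (Q : ℕ) (y : ℤ) (X : ℝ) (w : ℤ × ℤ) : ℝ :=
  wt X (y + Q * w.1) * wt X (y + Q * w.2)

/-- the frequency -/
private def tw (Q : ℕ) (y : ℤ) (w : ℤ × ℤ) : ℤ := Tri (y + Q * w.1) - Tri (y + Q * w.2)

private lemma cw_nonneg (Q : ℕ) (y : ℤ) (X : ℝ) (w : ℤ × ℤ) : 0 ≤ cw Q y X w :=
  mul_nonneg (wt_nonneg _ _) (wt_nonneg _ _)

private lemma cw_summable (hC : T_CONT) (Q : ℕ) (y : ℤ) (X : ℝ) (hQ : 1 ≤ Q) (hX : 1 ≤ X) :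
    Summable (cw Q y X) := by
  have h := (hC Q y X hQ hX).2.1
  have := h.mul_of_nonneg h (fun k => wt_nonneg _ _) (fun k => wt_nonneg _ _)
  exact this

/-- the square of the theta sum -/
private lemma th_sq (hC : T_CONT) (Q : ℕ) (y : ℤ) (X : ℝ) (hQ : 1 ≤ Q) (hX : 1 ≤ X) (α : ℝ) :
    ((‖th Q y X α‖ ^ 2 : ℝ) : ℂ) = ∑' w : ℤ × ℤ, (cw Q y X w : ℂ) * ex (α * tw Q y w) := by
  have h := (hC Q y X hQ hX).2.1
  have hn : Summable (fun k : ℤ => ‖(wt X (y + Q * k) : ℂ) * ex (α * Tri (y + Q * k))‖) := by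
    refine h.congr ?_
    intro k
    rw [norm_mul, ex_norm, mul_one, Complex.norm_real, Real.norm_of_nonneg (wt_nonneg _ _)]
  have hn' : Summable (fun k : ℤ => ‖(starRingEnd ℂ)
      ((wt X (y + Q * k) : ℂ) * ex (α * Tri (y + Q * k)))‖) := by
    refine hn.congr ?_
    intro k
    exact (RCLike.norm_conj _).symm
  have hs : Summable (fun k : ℤ => (wt X (y + Q * k) : ℂ) * ex (α * Tri (y + Q * k))) :=
    hn.of_norm
  have h1 : ((‖th Q y X α‖ ^ 2 : ℝ) : ℂ) = th Q y X α * (starRingEnd ℂ) (th Q y X α) := by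
    rw [Complex.mul_conj, Complex.normSq_eq_norm_sq]
  rw [h1]
  have h2 : (starRingEnd ℂ) (th Q y X α) = ∑' k : ℤ, (starRingEnd ℂ)
      ((wt X (y + Q * k) : ℂ) * ex (α * Tri (y + Q * k))) := by
    unfold th
    exact Complex.conj_tsum _
  rw [h2]
  unfold th
  rw [tsum_mul_tsum_of_summable_norm hn hn']
  refine tsum_congr ?_
  rintro ⟨k, l⟩
  simp only [map_mul, Complex.conj_ofReal, ex_conj, cw, tw]
  have : ex (α * ((Tri (y + Q * k) - Tri (y + Q * l) : ℤ) : ℝ)) =
      ex (α * Tri (y + Q * k)) * ex (-(α * Tri (y + Q * l))) := by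
    rw [← ex_add]
    congr 1
    push_cast
    ring
  rw [this]
  push_cast
  ring

/-- the product of the squares of the sums over powers -/
private lemma pp_sq (L a b I : ℕ) (α : ℝ) :
    ((‖PP L a I α‖ ^ 2 * ‖PP L b I α‖ ^ 2 : ℝ) : ℂ) = ∑ u ∈ quads I, ex (α * hh L a b u) := by
  have h1 : ∀ c : ℕ, ((‖PP L c I α‖ ^ 2 : ℝ) : ℂ) = PP L c I α * (starRingEnd ℂ) (PP L c I α) := by
    intro c
    rw [Complex.mul_conj, Complex.normSq_eq_norm_sq]
  have h2 : ∀ c : ℕ, (starRingEnd ℂ) (PP L c I α) =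
      ∑ i ∈ range I, ex (-(α * 5 ^ (c + L * i))) := by
    intro c
    unfold PP
    rw [map_sum]
    exact Finset.sum_congr rfl (fun i _ => ex_conj _)
  rw [Complex.ofReal_mul, h1 a, h1 b, h2 a, h2 b]
  have h3 : PP L a I α * (∑ i ∈ range I, ex (-(α * 5 ^ (a + L * i)))) *
      (PP L b I α * (∑ i ∈ range I, ex (-(α * 5 ^ (b + L * i))))) =
      (PP L a I α * PP L b I α) * ((∑ i ∈ range I, ex (-(α * 5 ^ (a + L * i)))) *
        (∑ i ∈ range I, ex (-(α * 5 ^ (b + L * i))))) := by ring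
  rw [h3]
  unfold PP quads
  rw [Finset.sum_mul_sum, Finset.sum_mul_sum, ← Finset.sum_product', ← Finset.sum_product',
    Finset.sum_mul_sum, ← Finset.sum_product']
  refine Finset.sum_congr rfl ?_
  rintro ⟨⟨i, j⟩, ⟨i', j'⟩⟩ _
  simp only [hh]
  rw [← ex_add, ← ex_add, ← ex_add]
  congr 1
  push_cast
  ring

private lemma term_int (hC : T_CONT) (Q : ℕ) (y : ℤ) (X : ℝ) (hQ : 1 ≤ Q) (hX : 1 ≤ X) (h : ℤ) :
    ∫ α in (0 : ℝ)..1, (∑' w : ℤ × ℤ, (cw Q y X w : ℂ) * ex (α * ((tw Q y w + h : ℤ) : ℝ))) =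
      ((∑' w : ℤ × ℤ, if tw Q y w = -h then cw Q y X w else 0 : ℝ) : ℂ) := by
  have hsum := cw_summable hC Q y X hQ hX
  let f : ℤ × ℤ → C(ℝ, ℂ) := fun w => ⟨fun α => (cw Q y X w : ℂ) * ex (α * ((tw Q y w + h : ℤ) : ℝ)),
    continuous_const.mul (ex_cont.comp (continuous_id.mul continuous_const))⟩
  have hf : Summable (fun w : ℤ × ℤ => ‖(f w).restrict
      (⟨Set.uIcc (0 : ℝ) 1, isCompact_uIcc⟩ : TopologicalSpace.Compacts ℝ)‖) := by
    refine Summable.of_nonneg_of_le (fun w => norm_nonneg _) ?_ hsum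
    intro w
    rw [ContinuousMap.norm_le _ (cw_nonneg _ _ _ _)]
    intro x
    simp only [ContinuousMap.restrict_apply, f, ContinuousMap.coe_mk]
    rw [norm_mul, ex_norm, mul_one, Complex.norm_real, Real.norm_of_nonneg (cw_nonneg _ _ _ _)]
  have key := intervalIntegral.hasSum_intervalIntegral_of_summable_norm (a := (0 : ℝ)) (b := 1) hf
  have h1 : ∀ w, ∫ α in (0 : ℝ)..1, f w α =
      ((if tw Q y w = -h then cw Q y X w else 0 : ℝ) : ℂ) := by
    intro w
    simp only [f, ContinuousMap.coe_mk]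
    rw [intervalIntegral.integral_const_mul, int_ex]
    by_cases hw : tw Q y w = -h
    · have : tw Q y w + h = 0 := by omega
      simp [hw]
    · have : ¬ (tw Q y w + h = 0) := by omega
      simp [hw, this]
  have h2 := key.tsum_eq
  simp only [h1] at h2
  rw [← Complex.ofReal_tsum] at h2
  rw [h2]
  rfl

end J1E_

open J1E_ in
/-- J1E (from CONT): expansion of `J1`. -/
theorem p_J1E (h1 : T_CONT) : T_J1E := by
  intro Q L a b I y X hQ hX
  have hsum := cw_summable h1 Q y X hQ hX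
  refine ⟨?_, ?_⟩
  · intro m
    refine Summable.of_nonneg_of_le ?_ ?_ hsum
    · intro w
      split_ifs
      · exact cw_nonneg Q y X w
      · exact le_refl _
    · intro w
      split_ifs
      · exact le_refl _
      · exact cw_nonneg Q y X w
  · have hcast : ((J1 Q L a b I y X : ℝ) : ℂ) = ((∑ u ∈ quads I, ∑' w : ℤ × ℤ,
        if Tri (y + Q * w.1) - Tri (y + Q * w.2) = - hh L a b u then
        wt X (y + Q * w.1) * wt X (y + Q * w.2) else 0 : ℝ) : ℂ) := by
      unfold J1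
      rw [← intervalIntegral.integral_ofReal]
      have hterm : ∀ α : ℝ, ((‖th Q y X α‖ ^ 2 * (‖PP L a I α‖ ^ 2 * ‖PP L b I α‖ ^ 2) : ℝ) : ℂ) =
          ∑ u ∈ quads I, ∑' w : ℤ × ℤ,
            (cw Q y X w : ℂ) * ex (α * ((tw Q y w + hh L a b u : ℤ) : ℝ)) := by
        intro α
        rw [Complex.ofReal_mul, th_sq h1 Q y X hQ hX, pp_sq, Finset.mul_sum]
        refine Finset.sum_congr rfl ?_
        intro u _
        rw [← tsum_mul_right]
        refine tsum_congr ?_
        intro w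
        rw [mul_assoc, ← ex_add]
        congr 2
        push_cast
        ring
      simp_rw [hterm]
      rw [intervalIntegral.integral_finsetSum]
      · rw [Complex.ofReal_sum]
        refine Finset.sum_congr rfl ?_
        intro u _
        rw [term_int h1 Q y X hQ hX]
        rfl
      · intro u _
        apply Continuous.intervalIntegrable
        refine continuous_tsum (u := fun w => cw Q y X w) ?_ hsum ?_
        · intro w
          exact continuous_const.mul (ex_cont.comp (continuous_id.mul continuous_const))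
        · intro w α
          rw [norm_mul, ex_norm, mul_one, Complex.norm_real,
            Real.norm_of_nonneg (cw_nonneg _ _ _ _)]
    exact_mod_cast hcast

end Pool.Agent.Tri5
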