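import Pool.Agent.Tri5.Targets

set_option autoImplicit false

open Finset

namespace Pool.Agent.Tri5

namespace JJ_

lemma ex_add (x y : ℝ) : ex (x + y) = ex x * ex y := by
  unfold ex
  rw [← Complex.exp_add]
  congr 1
  push_cast
  ring

lemma conj_ex (x : ℝ) : (starRingEnd ℂ) (ex x) = ex (-x) := by
  unfold ex
  rw [← Complex.exp_conj]
  congr 1
  simp only [map_mul, Complex.conj_ofReal, Complex.conj_I, map_ofNat, Complex.ofReal_neg]
  ring

lemma cont_ex (h : ℝ) : Continuous fun α : ℝ => ex (α * h) := by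
  unfold ex
  fun_prop

lemma int_ex (h : ℤ) : ∫ α in (0 : ℝ)..1, ex (α * h) = if h = 0 then 1 else 0 := by
  split_ifs with h0
  · subst h0
    simp [ex]
  · have hc : (2 * Real.pi * h * Complex.I : ℂ) ≠ 0 := by
      have h1 : (h : ℂ) ≠ 0 := by exact_mod_cast h0
      have h2 : (Real.pi : ℂ) ≠ 0 := by exact_mod_cast Real.pi_ne_zero
      have h3 := Complex.I_ne_zero
      exact mul_ne_zero (mul_ne_zero (mul_ne_zero two_ne_zero h2) h1) h3
    have h4 : ∀ α : ℝ, ex (α * h) = Complex.exp ((2 * Real.pi * h * Complex.I : ℂ) * α) := by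
      intro α
      unfold ex
      congr 1
      push_cast
      ring
    simp only [h4]
    rw [integral_exp_mul_complex hc]
    have h5 : Complex.exp ((2 * Real.pi * h * Complex.I : ℂ) * ((1 : ℝ) : ℂ)) = 1 := by
      rw [Complex.ofReal_one, mul_one]
      have h6 := Complex.exp_int_mul_two_pi_mul_I h
      rw [← h6]
      congr 1
      ring
    rw [h5]
    simp

lemma sq_eq (L a b I : ℕ) (α : ℝ) :
    ((‖PP L a I α‖ ^ 2 * ‖PP L b I α‖ ^ 2 : ℝ) : ℂ) =
      ∑ u ∈ quads I, ex (α * ((hh L a b u : ℤ) : ℝ)) := by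
  have h1 : ∀ u : (ℕ × ℕ) × (ℕ × ℕ), ex (α * ((hh L a b u : ℤ) : ℝ)) =
      (ex (α * 5 ^ (a + L * u.1.1)) * ex (α * 5 ^ (b + L * u.1.2))) *
        ((starRingEnd ℂ) (ex (α * 5 ^ (a + L * u.2.1))) *
          (starRingEnd ℂ) (ex (α * 5 ^ (b + L * u.2.2)))) := by
    intro u
    rw [conj_ex, conj_ex, ← ex_add, ← ex_add, ← ex_add]
    congr 1
    unfold hh
    push_cast
    ring
  simp only [h1]
  unfold quads
  rw [Finset.sum_product]
  simp only
  rw [← Finset.sum_mul_sum, Finset.sum_product, Finset.sum_product]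
  simp only
  rw [← Finset.sum_mul_sum, ← Finset.sum_mul_sum, ← map_sum, ← map_sum]
  change _ = PP L a I α * PP L b I α * ((starRingEnd ℂ) (PP L a I α) *
    (starRingEnd ℂ) (PP L b I α))
  have h2 := Complex.mul_conj' (PP L a I α)
  have h3 := Complex.mul_conj' (PP L b I α)
  push_cast
  rw [← h2, ← h3]
  ring

end JJ_

open JJ_ in
theorem p_JJ (h1 : T_EQ) : T_JJ := by
  intro L a b I hL
  have h2 : ((J2 L a b I : ℝ) : ℂ) =
      (((quads I).filter (fun u => hh L a b u = 0)).card : ℂ) := by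
    unfold J2
    rw [← intervalIntegral.integral_ofReal]
    simp only [sq_eq]
    rw [intervalIntegral.integral_finsetSum
      (fun u _ => (cont_ex ((hh L a b u : ℤ) : ℝ)).intervalIntegrable 0 1)]
    simp only [int_ex]
    rw [Finset.sum_boole]
  have h3 : J2 L a b I = (((quads I).filter (fun u => hh L a b u = 0)).card : ℝ) := by
    exact_mod_cast h2
  rw [h3]
  exact_mod_cast h1 L a b I hL

end Pool.Agent.Tri5
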