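import Pool.Agent.Tri5.Targets

/-!
# TRI-JO: the bound of the mean square of one theta sum against the powers
-/

set_option autoImplicit false

open Finset

namespace Pool.Agent.Tri5

namespace JO_

theorem wt_nonneg (X : ℝ) (z : ℤ) : 0 ≤ wt X z := (Real.exp_pos _).le

theorem wt_le_one (X : ℝ) (hX : 1 ≤ X) (z : ℤ) : wt X z ≤ 1 := by
  unfold wt
  rw [Real.exp_le_one_iff, neg_nonpos]
  have : 0 < X := by linarith
  have := Real.pi_pos
  positivity

theorem two_mul_Tri (z : ℤ) : 2 * Tri z = z * (z + 1) := by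
  unfold Tri
  exact Int.mul_ediv_cancel' (Int.even_mul_succ_self z).two_dvd

theorem Tri_eq {A B : ℤ} (h : Tri A - Tri B = 0) : B = A ∨ B = -1 - A := by
  have h1 := two_mul_Tri A
  have h2 := two_mul_Tri B
  have h3 : (A - B) * (A + B + 1) = 0 := by
    have : A * (A + 1) = B * (B + 1) := by rw [← h1, ← h2]; linarith
    ring_nf at this ⊢
    linarith
  rcases mul_eq_zero.mp h3 with h4 | h4
  · left; linarith
  · right; linarith

/-- the diagonal case -/
theorem diag (h5 : T_CONT) (Q : ℕ) (y : ℤ) (X : ℝ) (hQ : 1 ≤ Q) (hX : 1 ≤ X)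
    (hs : Summable (fun w : ℤ × ℤ => if Tri (y + Q * w.1) - Tri (y + Q * w.2) = 0 then
      wt X (y + Q * w.1) * wt X (y + Q * w.2) else 0)) :
    ∑' w : ℤ × ℤ, (if Tri (y + Q * w.1) - Tri (y + Q * w.2) = 0 then
      wt X (y + Q * w.1) * wt X (y + Q * w.2) else 0) ≤ 8 * Real.sqrt X := by
  classical
  obtain ⟨-, hsw, hle⟩ := h5 Q y X hQ hX
  rw [hs.tsum_prod]
  have hin : ∀ k : ℤ, ∑' l : ℤ, (if Tri (y + Q * k) - Tri (y + Q * l) = 0 then
      wt X (y + Q * k) * wt X (y + Q * l) else 0) ≤ 2 * wt X (y + Q * k) := by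
    intro k
    have hQ0 : (Q : ℤ) ≠ 0 := by positivity
    have hz : ∀ l ∉ ({k, (-1 - 2 * y - Q * k) / Q} : Finset ℤ),
        (if Tri (y + Q * k) - Tri (y + Q * l) = 0 then
          wt X (y + Q * k) * wt X (y + Q * l) else 0) = 0 := by
      intro l hl
      rw [if_neg]
      intro h
      apply hl
      rw [Finset.mem_insert, Finset.mem_singleton]
      rcases Tri_eq h with h1 | h1
      · left
        have h2 : (Q : ℤ) * l = Q * k := by linarith
        exact mul_left_cancel₀ hQ0 h2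
      · right
        have h2 : -1 - 2 * y - Q * k = Q * l := by linarith
        rw [h2, Int.mul_ediv_cancel_left _ hQ0]
    rw [tsum_eq_sum hz]
    refine (Finset.sum_le_sum (g := fun _ => wt X (y + Q * k)) fun l _ => ?_).trans ?_
    · split_ifs
      · exact mul_le_of_le_one_right (wt_nonneg _ _) (wt_le_one X hX _)
      · exact wt_nonneg _ _
    · rw [Finset.sum_const, nsmul_eq_mul]
      refine mul_le_mul_of_nonneg_right ?_ (wt_nonneg _ _)
      exact_mod_cast Finset.card_le_two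
  refine (Summable.tsum_le_tsum hin hs.prod (hsw.mul_left 2)).trans ?_
  rw [tsum_mul_left]
  linarith

/-- the other cases -/
theorem offd (h2 : T_HYP) (Q : ℕ) (y : ℤ) (X : ℝ) (hQ : 1 ≤ Q) (hX : 1 ≤ X) (m : ℤ)
    (hm : m ≠ 0) :
    ∑' w : ℤ × ℤ, (if Tri (y + Q * w.1) - Tri (y + Q * w.2) = m then
      wt X (y + Q * w.1) * wt X (y + Q * w.2) else 0) ≤
      2 * ((2 * m.natAbs).divisors.card : ℝ) := by
  classical
  obtain ⟨hf, hc⟩ := h2 m hm
  have hQ0 : (Q : ℤ) ≠ 0 := by positivity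
  set φ : ℤ × ℤ → ℤ × ℤ := fun w => (y + Q * w.1, y + Q * w.2) with hφ
  have hφi : Function.Injective φ := by
    intro w w' h
    have e1 : y + Q * w.1 = y + Q * w'.1 := congrArg Prod.fst h
    have e2 : y + Q * w.2 = y + Q * w'.2 := congrArg Prod.snd h
    exact Prod.ext (mul_left_cancel₀ hQ0 (by linarith)) (mul_left_cancel₀ hQ0 (by linarith))
  have hfin : {w : ℤ × ℤ | Tri (y + Q * w.1) - Tri (y + Q * w.2) = m}.Finite :=
    hf.preimage (f := φ) hφi.injOn
  have hcard : hfin.toFinset.card ≤ 2 * (2 * m.natAbs).divisors.card := by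
    refine le_trans ?_ hc
    rw [Set.ncard_eq_toFinset_card _ hf, ← Finset.card_image_of_injective _ hφi]
    refine Finset.card_le_card ?_
    intro x hx
    rw [Finset.mem_image] at hx
    obtain ⟨w, hw, rfl⟩ := hx
    rw [Set.Finite.mem_toFinset] at hw ⊢
    exact hw
  have hz : ∀ w ∉ hfin.toFinset, (if Tri (y + Q * w.1) - Tri (y + Q * w.2) = m then
      wt X (y + Q * w.1) * wt X (y + Q * w.2) else 0) = 0 := by
    intro w hw
    rw [Set.Finite.mem_toFinset] at hw
    exact if_neg hw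
  rw [tsum_eq_sum hz]
  refine (Finset.sum_le_sum (g := fun _ => (1 : ℝ)) fun w _ => ?_).trans ?_
  · split_ifs
    · exact mul_le_one₀ (wt_le_one X hX _) (wt_nonneg _ _) (wt_le_one X hX _)
    · norm_num
  · rw [Finset.sum_const, nsmul_eq_mul, mul_one]
    exact_mod_cast hcard

theorem hh_le (L a b I : ℕ) (X : ℝ) (ha : (5 : ℝ) ^ (a + L * I) ≤ X)
    (hb : (5 : ℝ) ^ (b + L * I) ≤ X) (u : (ℕ × ℕ) × (ℕ × ℕ)) (hu : u ∈ quads I) :
    ((2 * (hh L a b u).natAbs : ℕ) : ℝ) ≤ 4 * X := by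
  have hmon : ∀ c i : ℕ, i < I → (5 : ℝ) ^ (c + L * I) ≤ X → (5 : ℝ) ^ (c + L * i) ≤ X := by
    intro c i hi h
    refine le_trans (pow_le_pow_right₀ (by norm_num) ?_) h
    have := Nat.mul_le_mul_left L hi.le
    omega
  rw [quads, Finset.mem_product, Finset.mem_product, Finset.mem_product, Finset.mem_range,
    Finset.mem_range, Finset.mem_range, Finset.mem_range] at hu
  obtain ⟨⟨u1, u2⟩, u3, u4⟩ := hu
  have e1 := hmon a _ u1 ha
  have e2 := hmon b _ u2 hb
  have e3 := hmon a _ u3 ha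
  have e4 := hmon b _ u4 hb
  have p1 : (0 : ℝ) < 5 ^ (a + L * u.1.1) := by positivity
  have p2 : (0 : ℝ) < 5 ^ (b + L * u.1.2) := by positivity
  have p3 : (0 : ℝ) < 5 ^ (a + L * u.2.1) := by positivity
  have p4 : (0 : ℝ) < 5 ^ (b + L * u.2.2) := by positivity
  have e5 : ((2 * (hh L a b u).natAbs : ℕ) : ℝ) = 2 * |((hh L a b u : ℤ) : ℝ)| := by
    push_cast
    rw [Nat.cast_natAbs, Int.cast_abs]
  rw [e5]
  have e6 : |((hh L a b u : ℤ) : ℝ)| ≤ 2 * X := by
    unfold hh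
    push_cast
    rw [abs_le]
    constructor <;> linarith
  linarith

end JO_

open JO_ in
theorem p_JO (h1 : T_J1E) (h2 : T_HYP) (h3 : T_EQ) (h4 : T_DIV) (h5 : T_CONT) : T_JO := by
  classical
  obtain ⟨C, hC, hdiv⟩ := h4
  refine ⟨16 + 4 * C, by positivity, ?_⟩
  intro Q L a b I y X hQ hL hX ha hb
  have hX0 : 0 < X := by linarith
  obtain ⟨hs, hJ⟩ := h1 Q L a b I y X hQ hX
  rw [hJ]
  have hu : ∀ u ∈ quads I, (∑' w : ℤ × ℤ,
      if Tri (y + Q * w.1) - Tri (y + Q * w.2) = - hh L a b u then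
        wt X (y + Q * w.1) * wt X (y + Q * w.2) else 0) ≤
      (if hh L a b u = 0 then 8 * Real.sqrt X else 0) + 4 * C * X ^ ((1 : ℝ) / 4) := by
    intro u hu
    by_cases h0 : hh L a b u = 0
    · rw [if_pos h0]
      have e1 := hs 0
      have e2 := diag h5 Q y X hQ hX e1
      have e3 : (0 : ℝ) ≤ 4 * C * X ^ ((1 : ℝ) / 4) := by positivity
      rw [h0, neg_zero]
      linarith
    · rw [if_neg h0, zero_add]
      refine (offd h2 Q y X hQ hX _ (neg_ne_zero.mpr h0)).trans ?_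
      rw [Int.natAbs_neg]
      have e1 : 1 ≤ 2 * (hh L a b u).natAbs := by
        have := Int.natAbs_pos.mpr h0
        omega
      have e2 := hdiv _ e1
      have e3 := hh_le L a b I X ha hb u hu
      have e4 : (((2 * (hh L a b u).natAbs : ℕ)) : ℝ) ^ ((1 : ℝ) / 4) ≤
          (4 * X) ^ ((1 : ℝ) / 4) := Real.rpow_le_rpow (by positivity) e3 (by norm_num)
      have e5 : (4 * X) ^ ((1 : ℝ) / 4) ≤ 2 * X ^ ((1 : ℝ) / 4) := by
        rw [Real.mul_rpow (by norm_num) hX0.le]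
        refine mul_le_mul_of_nonneg_right ?_ (by positivity)
        calc (4 : ℝ) ^ ((1 : ℝ) / 4) ≤ (16 : ℝ) ^ ((1 : ℝ) / 4) :=
              Real.rpow_le_rpow (by norm_num) (by norm_num) (by norm_num)
          _ = 2 := by
            rw [show (16 : ℝ) = 2 ^ (4 : ℝ) by norm_num, ← Real.rpow_mul (by norm_num)]
            norm_num
      have e6 : C * (((2 * (hh L a b u).natAbs : ℕ)) : ℝ) ^ ((1 : ℝ) / 4) ≤
          C * (2 * X ^ ((1 : ℝ) / 4)) := mul_le_mul_of_nonneg_left (e4.trans e5) hC.le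
      linarith
  refine (Finset.sum_le_sum hu).trans ?_
  rw [Finset.sum_add_distrib, ← Finset.sum_filter, Finset.sum_const, Finset.sum_const,
    nsmul_eq_mul, nsmul_eq_mul]
  have hc1 : (((quads I).filter (fun u => hh L a b u = 0)).card : ℝ) ≤ 2 * (I : ℝ) ^ 2 := by
    exact_mod_cast h3 L a b I hL
  have hc2 : ((quads I).card : ℝ) = (I : ℝ) ^ 4 := by
    rw [quads, Finset.card_product, Finset.card_product, Finset.card_range]
    push_cast; ring
  rw [hc2]
  have e1 : (((quads I).filter (fun u => hh L a b u = 0)).card : ℝ) * (8 * Real.sqrt X) ≤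
      2 * (I : ℝ) ^ 2 * (8 * Real.sqrt X) := mul_le_mul_of_nonneg_right hc1 (by positivity)
  have e2 : (0 : ℝ) ≤ (I : ℝ) ^ 2 * Real.sqrt X := by positivity
  have e3 : (0 : ℝ) ≤ (I : ℝ) ^ 4 * X ^ ((1 : ℝ) / 4) := by positivity
  nlinarith [mul_nonneg hC.le e2]

end Pool.Agent.Tri5
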