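import Mathlib
import Pool.Agent.Tri5.Targets

/-!
# Sums of two triangular numbers and two powers of 5: the mean square as an integral
-/

set_option autoImplicit false

open Finset

namespace Pool.Agent.Tri5

namespace JVE_

/-- The weights are nonnegative. -/
theorem wg_nonneg (Q : ℕ) (y z : ℤ) (X : ℝ) (I : ℕ) (x : Ix I) : 0 ≤ wg Q y z X I x :=
  mul_nonneg (Real.exp_pos _).le (Real.exp_pos _).le

end JVE_

theorem p_JVE (h1 : T_PAR) (h2 : T_FAC) : T_JVE := by
  intro Q L a b I y z X h hQ hX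
  obtain ⟨hs, hf⟩ := h2 Q L a b I y z X hQ hX
  obtain ⟨-, hb, hc⟩ := h1 (Ix I) (wg Q y z X I) (vl Q L a b I y z) h
    (JVE_.wg_nonneg Q y z X I) hs
  refine ⟨hb, hc.trans ?_⟩
  unfold JV
  refine intervalIntegral.integral_congr fun α _ => ?_
  rw [hf α, norm_mul, norm_mul, norm_mul]
  ring

end Pool.Agent.Tri5
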