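import Pool.Agent.Tri5.Targets

/-!
# Sums of two triangular numbers and two powers of 5: lower bound for local averages
-/

set_option autoImplicit false

open Finset

namespace Pool.Agent.Tri5

namespace LAT_

theorem tri8 (z : ℤ) : 8 * Tri z + 1 = (2 * z + 1) ^ 2 := by
  unfold Tri
  have h : z * (z + 1) / 2 * 2 = z * (z + 1) := Int.ediv_mul_cancel (Int.even_mul_succ_self z).two_dvd
  nlinarith

theorem tri_nonneg (z : ℤ) : 0 ≤ Tri z := by
  have h := tri8 z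
  have h1 : 1 ≤ (2 * z + 1) ^ 2 := by
    have : (2 * z + 1) ≠ 0 := by omega
    have := sq_pos_of_ne_zero this
    linarith [this]
  omega

/-- The number of the `l`. -/
theorem cnt_bound {S u G Q H : ℝ} (hS : 1 ≤ S) (hQ : 1 ≤ Q) (hG : G = Q * H) (hH : 5 * S ≤ H)
    (hu : 0 ≤ u) (huS : u + 8 * G ≤ 16 * S ^ 2 + 1) :
    H / (4 * S) ≤ ((Real.sqrt (u + 8 * G) - 1) / 2 - (Real.sqrt u - 1) / 2) / Q - 1 := by
  have hH0 : 0 < H := by linarith
  have hG0 : 0 < G := by rw [hG]; positivity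
  set p := Real.sqrt (u + 8 * G) with hp
  set r := Real.sqrt u with hr
  have hp0 : 0 ≤ p := Real.sqrt_nonneg _
  have hr0 : 0 ≤ r := Real.sqrt_nonneg _
  have hp2 : p ^ 2 = u + 8 * G := Real.sq_sqrt (by linarith)
  have hr2 : r ^ 2 = u := Real.sq_sqrt hu
  have hrp : r ≤ p := Real.sqrt_le_sqrt (by linarith)
  have hp3 : p ≤ 33 / 8 * S := by
    rw [hp]
    apply Real.sqrt_le_iff.mpr
    constructor
    · positivity
    · nlinarith
  have hsum : p + r ≤ 33 / 4 * S := by linarith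
  have hprod : (p - r) * (p + r) = 8 * G := by nlinarith
  have hd : 8 * G ≤ (p - r) * (33 / 4 * S) := by
    rw [← hprod]
    exact mul_le_mul_of_nonneg_left hsum (by linarith)
  have hd2 : 16 / 33 * H / S ≤ (p - r) / (2 * Q) := by
    rw [div_le_div_iff₀ (by linarith) (by linarith)]
    rw [hG] at hd
    nlinarith
  have h1 : 1 ≤ H / (5 * S) := by
    rw [le_div_iff₀ (by linarith)]; linarith
  have h2 : ((p - 1) / 2 - (r - 1) / 2) / Q = (p - r) / (2 * Q) := by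
    field_simp
    ring
  rw [h2]
  have h3 : H / (4 * S) + H / (5 * S) ≤ 16 / 33 * H / S := by
    have : H / (4 * S) + H / (5 * S) = 9 / 20 * H / S := by
      field_simp
      ring
    rw [this]
    apply div_le_div_of_nonneg_right _ (by linarith)
    nlinarith
  linarith

/-- The weight. -/
theorem wt_bound {X x : ℝ} (hx : 1 ≤ x) (hX : X = 8 * x) (u v : ℤ)
    (h : ((2 * u + 1) ^ 2 + (2 * v + 1) ^ 2 : ℝ) ≤ 16 * x + 2) :
    Real.exp (-8) ≤ wt X u * wt X v := by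
  unfold wt
  rw [← Real.exp_add]
  apply Real.exp_le_exp.mpr
  have hX0 : 0 < X := by rw [hX]; linarith
  have h1 : -(Real.pi * (2 * (u : ℝ) + 1) ^ 2 / X) + -(Real.pi * (2 * (v : ℝ) + 1) ^ 2 / X) =
      -(Real.pi * ((2 * (u : ℝ) + 1) ^ 2 + (2 * (v : ℝ) + 1) ^ 2) / X) := by
    ring
  rw [h1]
  have h2 : Real.pi * ((2 * (u : ℝ) + 1) ^ 2 + (2 * (v : ℝ) + 1) ^ 2) / X ≤ 8 := by
    rw [div_le_iff₀ hX0, hX]
    have hpi : Real.pi ≤ 3.15 := Real.pi_lt_d2.le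
    have hpi0 : 0 ≤ Real.pi := Real.pi_pos.le
    calc Real.pi * ((2 * (u : ℝ) + 1) ^ 2 + (2 * (v : ℝ) + 1) ^ 2)
        ≤ Real.pi * (16 * x + 2) := mul_le_mul_of_nonneg_left h hpi0
      _ ≤ 3.15 * (16 * x + 2) := mul_le_mul_of_nonneg_right hpi (by linarith)
      _ ≤ 8 * (8 * x) := by nlinarith
  linarith

end LAT_

open LAT_

theorem p_LAT (hQF : T_QF) (hSF : T_SUMF) (hC : T_CNT) : T_LAT := by
  classical
  intro L a b y z δ η hD hδ hδ1 hη hη8
  obtain ⟨-, -, -, hQ1, -, hpow, htri⟩ := hQF L hD.hL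
  have hQr : (1 : ℝ) ≤ (Qf L : ℝ) := by exact_mod_cast hQ1
  set Q : ℕ := Qf L with hQdef
  set M : ℝ := max 1 (max ((6 * Q / (8 * η)) ^ 2) (16 / 9 * (Q : ℝ) ^ 2 / δ)) with hM
  refine ⟨⌈M⌉₊, ?_⟩
  intro I hI x hx n hn1 hn2 hdiv
  have hpow0 : (0 : ℝ) < 5 ^ (L * (I + 1)) := by positivity
  have hx0 : 0 < x := by
    by_contra hcon
    push Not at hcon
    nlinarith
  have hδx : δ * x ≤ x := by nlinarith
  have hxI : (I : ℝ) ≤ x := by
    have h1 : I < 5 ^ I := Nat.lt_pow_self (by norm_num)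
    have h2 : 5 ^ I ≤ 5 ^ (L * (I + 1)) := by
      apply Nat.pow_le_pow_right (by norm_num)
      have := hD.hL
      nlinarith
    have h3 : (I : ℝ) ≤ (5 : ℝ) ^ (L * (I + 1)) := by
      exact_mod_cast (h1.le.trans h2)
    linarith
  have hxM : M ≤ x := by
    have h1 : M ≤ (⌈M⌉₊ : ℝ) := Nat.le_ceil M
    have h2 : ((⌈M⌉₊ : ℕ) : ℝ) ≤ (I : ℝ) := by exact_mod_cast hI
    linarith
  have hx1 : 1 ≤ x := (le_max_left _ _).trans hxM
  have hxa : (6 * Q / (8 * η)) ^ 2 ≤ x := ((le_max_left _ _).trans (le_max_right _ _)).trans hxM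
  have hxb : 16 / 9 * (Q : ℝ) ^ 2 / δ ≤ x := ((le_max_right _ _).trans (le_max_right _ _)).trans hxM
  set S : ℝ := Real.sqrt x with hSdef
  have hS2 : S ^ 2 = x := Real.sq_sqrt hx0.le
  have hS0 : 0 ≤ S := Real.sqrt_nonneg x
  have hS1 : 1 ≤ S := by
    rw [hSdef]; exact Real.one_le_sqrt.mpr hx1
  have hSa : 6 * Q / (8 * η) ≤ S := Real.le_sqrt_of_sq_le hxa
  set D : ℝ := Real.sqrt δ with hDdef
  have hD0 : 0 < D := Real.sqrt_pos.mpr hδ
  have hD2 : D ^ 2 = δ := Real.sq_sqrt hδ.le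
  have hDS : 4 / 3 * (Q : ℝ) ≤ D * S := by
    have h1 : 16 / 9 * (Q : ℝ) ^ 2 ≤ δ * x := by
      rw [div_le_iff₀ hδ] at hxb; linarith
    have h2 : (4 / 3 * (Q : ℝ)) ^ 2 ≤ (D * S) ^ 2 := by
      rw [mul_pow D S, hD2, hS2]; nlinarith
    exact le_of_sq_le_sq h2 (by positivity)
  set H : ℕ := ⌊8 * η * x / Q⌋₊ with hHdef
  have hH1 : (H : ℝ) ≤ 8 * η * x / Q := Nat.floor_le (by positivity)
  have hH2 : 8 * η * x / Q < H + 1 := Nat.lt_floor_add_one _
  have hQpos : (0 : ℝ) < Q := by linarith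
  have hQH : (Q : ℝ) * H ≤ x := by
    rw [le_div_iff₀ hQpos] at hH1
    nlinarith
  have hH5 : 5 * S ≤ H := by
    have h1 : 6 * (Q : ℝ) ≤ S * (8 * η) := by
      rw [div_le_iff₀ (by positivity)] at hSa; exact hSa
    have h2 : 6 * S ≤ 8 * η * x / Q := by
      rw [le_div_iff₀ hQpos, ← hS2]
      nlinarith
    linarith
  obtain ⟨F1, hF1a, hF1b⟩ := hC Q y (-(D * S) / 2 - 1 / 2) (D * S / 2 - 1 / 2) hQ1
  choose F2 hF2a hF2b using fun (m : ℤ) => hC Q z ((Real.sqrt (8 * (m : ℝ) + 1) - 1) / 2)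
    ((Real.sqrt (8 * (m : ℝ) + 1 + 8 * ((Q : ℝ) * H)) - 1) / 2) hQ1
  let mm : Fin I → Fin I → ℤ → ℤ := fun i j k =>
    (n : ℤ) - 5 ^ (a + L * (i : ℕ)) - 5 ^ (b + L * (j : ℕ)) - Tri (y + Q * k)
  -- the powers
  have hpw : ∀ (c : ℕ) (i : Fin I), c ≤ L → ((5 : ℝ) ^ (c + L * (i : ℕ))) ≤ δ * x / 40 := by
    intro c i hc
    have h1 : c + L * (i : ℕ) + 1 ≤ L * (I + 1) := by
      have h2 : (i : ℕ) + 1 ≤ I := i.2
      have h3 := hD.hL
      have h4 : L * ((i : ℕ) + 1) ≤ L * I := Nat.mul_le_mul_left L h2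
      nlinarith
    have h2 : (5 : ℝ) ^ (c + L * (i : ℕ) + 1) ≤ 5 ^ (L * (I + 1)) :=
      pow_le_pow_right₀ (by norm_num) h1
    rw [pow_succ] at h2
    linarith
  have hF1c : ∀ k ∈ F1, 8 * (Tri (y + Q * k) : ℝ) + 1 ≤ δ * x := by
    intro k hk
    obtain ⟨h1, h2⟩ := hF1a k hk
    have h3 : ((8 * Tri (y + Q * k) + 1 : ℤ) : ℝ) = ((2 * (y + Q * k) + 1 : ℤ) : ℝ) ^ 2 := by
      rw [tri8]; push_cast; ring
    have h4 : (8 * (Tri (y + Q * k) : ℝ) + 1) = (2 * ((y + Q * k : ℤ) : ℝ) + 1) ^ 2 := by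
      push_cast at h3 ⊢; linarith
    rw [h4, ← hD2, ← hS2, ← mul_pow]
    apply sq_le_sq'
    · linarith
    · linarith
  have hmm1 : ∀ (i j : Fin I) (k : ℤ), k ∈ F1 → δ * x / 2 ≤ (mm i j k : ℝ) := by
    intro i j k hk
    have h1 := hF1c k hk
    have h2 := hpw a i hD.ha'
    have h3 := hpw b j hD.hb'
    have h4 : (mm i j k : ℝ) = (n : ℝ) - 5 ^ (a + L * (i : ℕ)) - 5 ^ (b + L * (j : ℕ)) -
        (Tri (y + Q * k) : ℝ) := by
      simp only [mm]; push_cast; ring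
    rw [h4]
    have h5 : 0 < δ * x := by positivity
    linarith
  have hmm2 : ∀ (i j : Fin I) (k : ℤ), (mm i j k : ℝ) ≤ x := by
    intro i j k
    have h4 : (mm i j k : ℝ) = (n : ℝ) - 5 ^ (a + L * (i : ℕ)) - 5 ^ (b + L * (j : ℕ)) -
        (Tri (y + Q * k) : ℝ) := by
      simp only [mm]; push_cast; ring
    have h5 : (0 : ℝ) ≤ (Tri (y + Q * k) : ℝ) := by exact_mod_cast tri_nonneg _
    have h6 : (0 : ℝ) < 5 ^ (a + L * (i : ℕ)) := by positivity
    have h7 : (0 : ℝ) < 5 ^ (b + L * (j : ℕ)) := by positivity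
    rw [h4]
    linarith
  -- the set of representations
  let e : (Σ _ : ℤ × (Fin I × Fin I), ℤ) → Ix I := fun q => ((q.1.1, q.2), q.1.2)
  have he : Function.Injective e := by
    rintro ⟨⟨k, ij⟩, l⟩ ⟨⟨k', ij'⟩, l'⟩ h
    simp only [e, Prod.mk.injEq] at h
    obtain ⟨⟨h1, h2⟩, h3⟩ := h
    subst h1; subst h2; subst h3
    rfl
  let F : Finset (Ix I) := ((F1 ×ˢ (univ : Finset (Fin I × Fin I))).sigma
    (fun p => F2 (mm p.2.1 p.2.2 p.1))).map ⟨e, he⟩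
  have hFcard : (F1.card : ℝ) * (I : ℝ) ^ 2 * (H / (4 * S)) ≤ (F.card : ℝ) := by
    have h1 : F.card = ∑ p ∈ F1 ×ˢ (univ : Finset (Fin I × Fin I)),
        (F2 (mm p.2.1 p.2.2 p.1)).card := by
      simp only [F, Finset.card_map, Finset.card_sigma]
    rw [h1]
    push_cast
    have h2 : ∀ p ∈ F1 ×ˢ (univ : Finset (Fin I × Fin I)),
        (H : ℝ) / (4 * S) ≤ ((F2 (mm p.2.1 p.2.2 p.1)).card : ℝ) := by
      intro p hp
      have hk : p.1 ∈ F1 := (Finset.mem_product.mp hp).1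
      refine le_trans ?_ (hF2b (mm p.2.1 p.2.2 p.1))
      have h3 := hmm1 p.2.1 p.2.2 p.1 hk
      have h4 := hmm2 p.2.1 p.2.2 p.1
      have h5 : 0 < δ * x := by positivity
      refine cnt_bound hS1 hQr rfl hH5 (by linarith) ?_
      rw [hS2]
      linarith
    have h3 := Finset.card_nsmul_le_sum _ _ _ h2
    have h4 : ((F1 ×ˢ (univ : Finset (Fin I × Fin I))).card : ℝ) = (F1.card : ℝ) * (I : ℝ) ^ 2 := by
      rw [Finset.card_product]
      simp [Fintype.card_prod, sq]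
    rw [nsmul_eq_mul, h4] at h3
    exact h3
  have hF : ∀ t ∈ F, Real.exp (-8) ≤ wg Q y z (8 * x) I t ∧
      ∃ h ∈ Icc 1 H, vl Q L a b I y z t = (n : ℤ) + Q * (h : ℤ) := by
    intro t ht
    simp only [F, Finset.mem_map, Finset.mem_sigma, Finset.mem_product, Finset.mem_univ,
      and_true, Function.Embedding.coeFn_mk] at ht
    obtain ⟨⟨⟨k, i, j⟩, l⟩, ⟨hk, hl⟩, rfl⟩ := ht
    simp only at hk hl
    obtain ⟨hl1, hl2⟩ := hF2a (mm i j k) l hl
    have hm1 := hmm1 i j k hk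
    have hm2 := hmm2 i j k
    have h5 : 0 < δ * x := by positivity
    set m := mm i j k with hmdef
    have hm0 : (0 : ℝ) ≤ 8 * (m : ℝ) + 1 := by linarith
    have hz1 : Real.sqrt (8 * (m : ℝ) + 1) < 2 * ((z + Q * l : ℤ) : ℝ) + 1 := by linarith
    have hz2 : 2 * ((z + Q * l : ℤ) : ℝ) + 1 ≤
        Real.sqrt (8 * (m : ℝ) + 1 + 8 * ((Q : ℝ) * H)) := by linarith
    have hz3 : (8 * (Tri (z + Q * l) : ℝ) + 1) = (2 * ((z + Q * l : ℤ) : ℝ) + 1) ^ 2 := by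
      have h3 : ((8 * Tri (z + Q * l) + 1 : ℤ) : ℝ) = ((2 * (z + Q * l) + 1 : ℤ) : ℝ) ^ 2 := by
        rw [tri8]; push_cast; ring
      push_cast at h3 ⊢; linarith
    have hy3 : (8 * (Tri (y + Q * k) : ℝ) + 1) = (2 * ((y + Q * k : ℤ) : ℝ) + 1) ^ 2 := by
      have h3 : ((8 * Tri (y + Q * k) + 1 : ℤ) : ℝ) = ((2 * (y + Q * k) + 1 : ℤ) : ℝ) ^ 2 := by
        rw [tri8]; push_cast; ring
      push_cast at h3 ⊢; linarith
    have hsq0 : 0 ≤ Real.sqrt (8 * (m : ℝ) + 1) := Real.sqrt_nonneg _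
    have hT1 : (m : ℝ) < (Tri (z + Q * l) : ℝ) := by
      have h6 : 8 * (m : ℝ) + 1 < (2 * ((z + Q * l : ℤ) : ℝ) + 1) ^ 2 := by
        have h7 : Real.sqrt (8 * (m : ℝ) + 1) ^ 2 = 8 * (m : ℝ) + 1 := Real.sq_sqrt hm0
        rw [← h7]
        exact pow_lt_pow_left₀ hz1 hsq0 (by norm_num)
      linarith
    have hT2 : (Tri (z + Q * l) : ℝ) ≤ (m : ℝ) + Q * H := by
      have h8 : (0 : ℝ) ≤ 8 * (m : ℝ) + 1 + 8 * ((Q : ℝ) * H) := by positivity
      have h6 : (2 * ((z + Q * l : ℤ) : ℝ) + 1) ^ 2 ≤ 8 * (m : ℝ) + 1 + 8 * ((Q : ℝ) * H) := by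
        have h7 : Real.sqrt (8 * (m : ℝ) + 1 + 8 * ((Q : ℝ) * H)) ^ 2 =
            8 * (m : ℝ) + 1 + 8 * ((Q : ℝ) * H) := Real.sq_sqrt h8
        rw [← h7]
        exact pow_le_pow_left₀ (by linarith) hz2 2
      linarith
    constructor
    · show Real.exp (-8) ≤ wt (8 * x) (y + Q * k) * wt (8 * x) (z + Q * l)
      refine wt_bound hx1 rfl _ _ ?_
      rw [← hy3, ← hz3]
      have h6 : (m : ℝ) = (n : ℝ) - 5 ^ (a + L * (i : ℕ)) - 5 ^ (b + L * (j : ℕ)) -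
          (Tri (y + Q * k) : ℝ) := by
        rw [hmdef]; simp only [mm]; push_cast; ring
      have h7 : (0 : ℝ) < 5 ^ (a + L * (i : ℕ)) := by positivity
      have h8 : (0 : ℝ) < 5 ^ (b + L * (j : ℕ)) := by positivity
      linarith
    · have hT1' : m < Tri (z + Q * l) := by exact_mod_cast hT1
      have hT2' : Tri (z + Q * l) ≤ m + Q * (H : ℤ) := by exact_mod_cast hT2
      have hdv : (Q : ℤ) ∣ Tri (z + Q * l) - m := by
        have e1 := htri y k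
        have e2 := htri z l
        have e3 := hpow a (i : ℕ) hD.ha
        have e4 := hpow b (j : ℕ) hD.hb
        have e5 : Tri (z + Q * l) - m = (Tri (z + Q * l) - Tri z) + (Tri (y + Q * k) - Tri y) +
            (5 ^ (a + L * (i : ℕ)) - 5 ^ a) + (5 ^ (b + L * (j : ℕ)) - 5 ^ b) -
            ((n : ℤ) - (Tri y + Tri z + 5 ^ a + 5 ^ b)) := by
          rw [hmdef]; simp only [mm]; ring
        rw [e5]
        exact dvd_sub (dvd_add (dvd_add (dvd_add e2 e1) e3) e4) hdiv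
      obtain ⟨c, hc⟩ := hdv
      have hQz : (0 : ℤ) < Q := by exact_mod_cast hQ1
      have hc1 : 0 < c := by
        by_contra hcon
        push Not at hcon
        nlinarith
      have hc2 : c ≤ H := by
        by_contra hcon
        push Not at hcon
        nlinarith
      refine ⟨c.toNat, ?_, ?_⟩
      · rw [Finset.mem_Icc]
        constructor
        · omega
        · omega
      · have h9 : ((c.toNat : ℕ) : ℤ) = c := Int.toNat_of_nonneg hc1.le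
        rw [h9]
        show Tri (y + Q * k) + Tri (z + Q * l) + 5 ^ (a + L * (i : ℕ)) + 5 ^ (b + L * (j : ℕ)) =
          (n : ℤ) + Q * c
        rw [← hc, hmdef]
        simp only [mm]
        ring
  have hfin := hSF Q L a b I y z (8 * x) (Real.exp (-8)) n H F hQ1 (by linarith) hF
  refine le_trans ?_ hfin
  have hc1 : D * S / (4 * Q) ≤ (F1.card : ℝ) := by
    refine le_trans ?_ hF1b
    have h1 : (D * S / 2 - 1 / 2 - (-(D * S) / 2 - 1 / 2)) / (Q : ℝ) - 1 = D * S / Q - 1 := by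
      ring
    rw [h1]
    have h2 : D * S / (4 * Q) = D * S / Q - 3 / 4 * (D * S / Q) := by
      field_simp
      ring
    have h3 : 4 / 3 ≤ D * S / Q := by
      rw [le_div_iff₀ hQpos]; exact hDS
    rw [h2]
    linarith
  have hc2 : D * (I : ℝ) ^ 2 * H / (16 * Q) ≤ (F.card : ℝ) := by
    refine le_trans ?_ hFcard
    have h1 : D * S / (4 * Q) * (I : ℝ) ^ 2 * (H / (4 * S)) ≤
        (F1.card : ℝ) * (I : ℝ) ^ 2 * (H / (4 * S)) := by
      gcongr
    refine le_trans (le_of_eq ?_) h1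
    have hSne : S ≠ 0 := by linarith
    field_simp
    ring
  rw [mul_comm (Real.exp (-8)) (F.card : ℝ)]
  exact mul_le_mul_of_nonneg_right hc2 (Real.exp_pos _).le

end Pool.Agent.Tri5
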