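import Pool.Agent.Tri5.Targets
import Mathlib

set_option autoImplicit false

open Finset

namespace Pool.Agent.Tri5

namespace LCM_

lemma dvd_lcmUpto {k m : ℕ} (h1 : 1 ≤ m) (h2 : m ≤ k) : m ∣ Nat.lcmUpto k :=
  Finset.dvd_lcm (f := id) (Finset.mem_Icc.2 ⟨h1, h2⟩)

lemma thirty {k : ℕ} (hk : 5 ≤ k) : 30 ∣ Nat.lcmUpto k := by
  have h2 : 2 ∣ Nat.lcmUpto k := dvd_lcmUpto (by norm_num) (by omega)
  have h3 : 3 ∣ Nat.lcmUpto k := dvd_lcmUpto (by norm_num) (by omega)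
  have h5 : 5 ∣ Nat.lcmUpto k := dvd_lcmUpto (by norm_num) (by omega)
  omega

lemma log_le (k : ℕ) : Real.log ((Nat.lcmUpto k ^ 8 : ℕ) : ℝ) ≤ 8 * (Real.log 4 + 4) * k := by
  have h1 := Chebyshev.psi_le_const_mul_self (x := (k : ℝ)) (Nat.cast_nonneg k)
  rw [Chebyshev.psi_eq_log_lcmUpto] at h1
  rw [Nat.cast_pow, Real.log_pow]
  push_cast
  linarith

lemma pow_lt {k r : ℕ} (hr : r.Prime) (hrk : r ≤ k) :
    k ^ 4 < r ^ ((Nat.lcmUpto k ^ 8).factorization r + 1) := by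
  rw [Nat.factorization_pow, Finsupp.smul_apply, Nat.factorization_lcmUpto k hr, smul_eq_mul]
  have h1 : k < r ^ (Nat.log r k + 1) := Nat.lt_pow_succ_log_self hr.one_lt k
  have h2 : 1 ≤ Nat.log r k := (Nat.le_log_iff_pow_le hr.one_lt (by
    have := hr.pos
    omega)).2 (by simpa using hrk)
  calc k ^ 4 < (r ^ (Nat.log r k + 1)) ^ 4 := Nat.pow_lt_pow_left h1 (by norm_num)
    _ = r ^ ((Nat.log r k + 1) * 4) := (pow_mul _ _ _).symm
    _ ≤ r ^ (8 * Nat.log r k + 1) := Nat.pow_le_pow_right hr.pos (by omega)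

lemma prime_dvd {k p : ℕ} (hp : p.Prime) (hpk : p ≤ k) (h5 : p ≠ 5) :
    p ∣ 5 ^ (Nat.lcmUpto k ^ 8) - 1 := by
  have := Fact.mk hp
  rcases Nat.lt_or_ge p 2 with h2 | h2
  · exact absurd hp.two_le (by omega)
  have h1 : p - 1 ∣ Nat.lcmUpto k ^ 8 :=
    dvd_pow (dvd_lcmUpto (by omega) (by omega)) (by norm_num)
  obtain ⟨m, hm⟩ := h1
  have h3 : (5 : ZMod p) ≠ 0 := by
    intro h0
    have h4 : ((5 : ℕ) : ZMod p) = 0 := by exact_mod_cast h0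
    rw [ZMod.natCast_eq_zero_iff] at h4
    exact h5 ((Nat.prime_dvd_prime_iff_eq hp Nat.prime_five).1 h4)
  have h4 : (5 : ZMod p) ^ (Nat.lcmUpto k ^ 8) = 1 := by
    rw [hm, pow_mul, ZMod.pow_card_sub_one_eq_one h3, one_pow]
  rw [← ZMod.natCast_eq_zero_iff, Nat.cast_sub (Nat.one_le_pow _ _ (by norm_num))]
  push_cast
  rw [h4, sub_self]

end LCM_

theorem p_LCM (h1 : T_QF) : T_LCM := by
  refine ⟨8 * (Real.log 4 + 4), ?_, ?_⟩
  · have := Real.log_nonneg (by norm_num : (1 : ℝ) ≤ 4)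
    linarith
  · intro k hk
    have hpos : 1 ≤ Nat.lcmUpto k ^ 8 := Nat.one_le_pow _ _ (Nat.lcmUpto_pos k)
    refine ⟨Nat.lcmUpto k ^ 8, hpos, dvd_pow (LCM_.thirty hk) (by norm_num), LCM_.log_le k,
      fun r hr hrk => LCM_.pow_lt hr hrk, ?_⟩
    intro p hp hpk
    rcases eq_or_ne p 2 with h2 | h2
    · rw [h2]
      exact Dvd.intro _ rfl
    · apply dvd_mul_of_dvd_right
      rw [(h1 _ hpos).2.2.2.2.1 p hp]
      refine ⟨h2, ?_⟩
      rcases eq_or_ne p 5 with h5 | h5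
      · exact Or.inl h5
      · exact Or.inr (LCM_.prime_dvd hp hpk h5)

end Pool.Agent.Tri5
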