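import Pool.Agent.Tri5.Targets

set_option autoImplicit false

/-!
# LOC: local solutions modulo `Qf L`
-/

open Finset

namespace Pool.Agent.Tri5

namespace LOC_

lemma two_mul_tri (z : ℤ) : 2 * Tri z = z * (z + 1) := by
  have h : (2 : ℤ) ∣ z * (z + 1) := (Int.even_mul_succ_self z).two_dvd
  unfold Tri
  exact Int.mul_ediv_cancel' h

/-- Chinese remainders over the primes of `Q`. -/
lemma crt (Q : ℕ) (hQ : 1 ≤ Q) (f : ℕ → ℤ) :
    ∃ y : ℤ, 0 ≤ y ∧ y < Q ∧ ∀ p : ℕ, p.Prime → p ∣ Q → (p : ℤ) ∣ y - f p := by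
  have hcop : Set.Pairwise (Q.primeFactors : Set ℕ) (Function.onFun Nat.Coprime (fun p => p)) := by
    intro p hp q hq hpq
    have hp' : p.Prime := Nat.prime_of_mem_primeFactors (Finset.mem_coe.1 hp)
    have hq' : q.Prime := Nat.prime_of_mem_primeFactors (Finset.mem_coe.1 hq)
    exact (Nat.coprime_primes hp' hq').2 hpq
  obtain ⟨k, hk⟩ := Nat.chineseRemainderOfFinset (fun p => (f p % p).toNat) (fun p => p)
    Q.primeFactors (fun p hp => (Nat.prime_of_mem_primeFactors hp).ne_zero) hcop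
  refine ⟨((k % Q : ℕ) : ℤ), Int.natCast_nonneg _, ?_, ?_⟩
  · exact_mod_cast Nat.mod_lt k hQ
  · intro p hp hpQ
    have h1 := hk p (Nat.mem_primeFactors.2 ⟨hp, hpQ, by omega⟩)
    have h2 : (k % Q) ≡ k [MOD p] := (Nat.mod_modEq k Q).of_dvd hpQ
    have h3 := h2.trans h1
    have hp0 : (p : ℤ) ≠ 0 := by exact_mod_cast hp.ne_zero
    have h4 : (((f p % p).toNat : ℕ) : ℤ) = f p % p := Int.toNat_of_nonneg (Int.emod_nonneg _ hp0)
    have h5 : (p : ℤ) ∣ ((k % Q : ℕ) : ℤ) - (((f p % p).toNat : ℕ) : ℤ) := by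
      have h6 := (Nat.modEq_iff_dvd.1 h3)
      have h7 := dvd_neg.2 h6
      rwa [neg_sub] at h7
    rw [h4] at h5
    have h8 : (p : ℤ) ∣ f p % p - f p := by
      have h9 : f p % p - f p = -((p : ℤ) * (f p / p)) := by
        have := Int.emod_add_mul_ediv (f p) (p : ℤ)
        linarith
      rw [h9]
      exact dvd_neg.2 (dvd_mul_right _ _)
    have h10 := dvd_add h5 h8
    have h11 : ((k % Q : ℕ) : ℤ) - f p % p + (f p % p - f p) = ((k % Q : ℕ) : ℤ) - f p := by ring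
    rwa [h11] at h10

/-- A squarefree number divides what all its primes divide. -/
lemma sqf_dvd {Q : ℕ} (hQ : Squarefree Q) {M : ℤ}
    (h : ∀ p : ℕ, p.Prime → p ∣ Q → (p : ℤ) ∣ M) : (Q : ℤ) ∣ M := by
  rw [← Int.dvd_natAbs, Int.natCast_dvd_natCast]
  rw [← Nat.prod_primeFactors_of_squarefree hQ]
  apply Finset.prod_primes_dvd
  · intro p hp
    exact (Nat.prime_of_mem_primeFactors hp).prime
  · intro p hp
    have h1 := h p (Nat.prime_of_mem_primeFactors hp) (Nat.dvd_of_mem_primeFactors hp)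
    rwa [← Int.dvd_natAbs, Int.natCast_dvd_natCast] at h1

/-- Reduction of the exponent. -/
lemma red {L : ℕ} (hL : 1 ≤ L) {a : ℕ} (ha : 1 ≤ a)
    (h : ∀ a i : ℕ, 1 ≤ a → (Qf L : ℤ) ∣ 5 ^ (a + L * i) - 5 ^ a) :
    ∃ a' : ℕ, 1 ≤ a' ∧ a' ≤ L ∧ (Qf L : ℤ) ∣ 5 ^ a - 5 ^ a' := by
  refine ⟨(a - 1) % L + 1, by omega, ?_, ?_⟩
  · have := Nat.mod_lt (a - 1) hL
    omega
  · have h1 := h ((a - 1) % L + 1) ((a - 1) / L) (by omega)
    have h2 : (a - 1) % L + 1 + L * ((a - 1) / L) = a := by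
      have := Nat.mod_add_div (a - 1) L
      omega
    rwa [h2] at h1

end LOC_

open LOC_ in
theorem p_LOC (h1 : T_QF) (h2 : T_LOC0) : T_LOC := by
  intro L n hL hG
  obtain ⟨hsq, hodd, h5Q, hQ1, hQp, hQpow, hQtri⟩ := h1 L hL
  obtain ⟨a, b, ha, hb, hab⟩ := hG
  obtain ⟨a', ha1, haL, ha'⟩ := red hL ha hQpow
  obtain ⟨b', hb1, hbL, hb'⟩ := red hL hb hQpow
  -- local solutions
  have hloc : ∀ p : ℕ, ∃ yz : ℤ × ℤ, p.Prime → p ∣ Qf L →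
      (p : ℤ) ∣ (2 * yz.1 + 1) ^ 2 + (2 * yz.2 + 1) ^ 2 -
        2 * (4 * (n : ℤ) + 1 - 4 * 5 ^ a - 4 * 5 ^ b) ∧
      ¬ ((p : ℤ) ∣ 2 * yz.1 + 1 ∧ (p : ℤ) ∣ 2 * yz.2 + 1) := by
    intro p
    by_cases hp : p.Prime ∧ p ∣ Qf L
    · obtain ⟨hp, hpQ⟩ := hp
      have h3 := (hQp p hp).1 hpQ
      obtain ⟨y, z, h4, h5⟩ := h2 p (4 * (n : ℤ) + 1 - 4 * 5 ^ a - 4 * 5 ^ b) hp h3.1 (by
        intro hp3
        rcases h3.2 with h6 | h6
        · omega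
        · exact hab p hp hp3 h6)
      exact ⟨(y, z), fun _ _ => ⟨h4, h5⟩⟩
    · exact ⟨(0, 0), fun h3 h4 => absurd ⟨h3, h4⟩ hp⟩
  choose F hF using hloc
  obtain ⟨y, hy0, hyQ, hy⟩ := crt (Qf L) hQ1 (fun p => (F p).1)
  obtain ⟨z, hz0, hzQ, hz⟩ := crt (Qf L) hQ1 (fun p => (F p).2)
  have hnd : ∀ p : ℕ, p.Prime → p ∣ Qf L → ¬ ((p : ℤ) ∣ 2 * y + 1 ∧ (p : ℤ) ∣ 2 * z + 1) := by
    intro p hp hpQ ⟨h3, h4⟩
    apply (hF p hp hpQ).2
    constructor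
    · have h5 := dvd_sub h3 (dvd_mul_of_dvd_right (hy p hp hpQ) 2)
      have h6 : 2 * y + 1 - 2 * (y - (F p).1) = 2 * (F p).1 + 1 := by ring
      rwa [h6] at h5
    · have h5 := dvd_sub h4 (dvd_mul_of_dvd_right (hz p hp hpQ) 2)
      have h6 : 2 * z + 1 - 2 * (z - (F p).2) = 2 * (F p).2 + 1 := by ring
      rwa [h6] at h5
  have hM : (Qf L : ℤ) ∣ n - (Tri y + Tri z + 5 ^ a + 5 ^ b) := by
    apply sqf_dvd hsq
    intro p hp hpQ
    have h3 := (hF p hp hpQ).1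
    have h4 : (p : ℤ) ∣ (2 * y + 1) ^ 2 - (2 * (F p).1 + 1) ^ 2 := by
      have h5 : (2 * y + 1) ^ 2 - (2 * (F p).1 + 1) ^ 2 =
        (y - (F p).1) * (2 * (2 * y + 2 * (F p).1 + 2)) := by ring
      rw [h5]
      exact dvd_mul_of_dvd_left (hy p hp hpQ) _
    have h4' : (p : ℤ) ∣ (2 * z + 1) ^ 2 - (2 * (F p).2 + 1) ^ 2 := by
      have h5 : (2 * z + 1) ^ 2 - (2 * (F p).2 + 1) ^ 2 =
        (z - (F p).2) * (2 * (2 * z + 2 * (F p).2 + 2)) := by ring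
      rw [h5]
      exact dvd_mul_of_dvd_left (hz p hp hpQ) _
    have h5 := dvd_neg.2 (dvd_add (dvd_add h3 h4) h4')
    have h6 : -((2 * (F p).1 + 1) ^ 2 + (2 * (F p).2 + 1) ^ 2 -
        2 * (4 * (n : ℤ) + 1 - 4 * 5 ^ a - 4 * 5 ^ b) +
        ((2 * y + 1) ^ 2 - (2 * (F p).1 + 1) ^ 2) + ((2 * z + 1) ^ 2 - (2 * (F p).2 + 1) ^ 2)) =
        8 * ((n : ℤ) - (Tri y + Tri z + 5 ^ a + 5 ^ b)) := by
      have e1 := two_mul_tri y
      have e2 := two_mul_tri z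
      linear_combination 4 * e1 + 4 * e2
    rw [h6] at h5
    have hp2 : p ≠ 2 := ((hQp p hp).1 hpQ).1
    have hpp : Prime (p : ℤ) := Nat.prime_iff_prime_int.1 hp
    rcases hpp.dvd_or_dvd h5 with h7 | h7
    · exfalso
      have h8 : p ∣ 8 := by exact_mod_cast h7
      have h9 : p ∣ 2 ^ 3 := by
        have : (8 : ℕ) = 2 ^ 3 := by norm_num
        rwa [this] at h8
      exact hp2 ((Nat.prime_dvd_prime_iff_eq hp Nat.prime_two).1 (hp.dvd_of_dvd_pow h9))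
    · exact h7
  refine ⟨a', b', y, z, ⟨hL, ha1, haL, hb1, hbL, hnd⟩, hy0, hyQ, hz0, hzQ, ?_⟩
  have h3 := dvd_add (dvd_add hM ha') hb'
  have h4 : (n : ℤ) - (Tri y + Tri z + 5 ^ a + 5 ^ b) + (5 ^ a - 5 ^ a') + (5 ^ b - 5 ^ b') =
      (n : ℤ) - (Tri y + Tri z + 5 ^ a' + 5 ^ b') := by ring
  rwa [h4] at h3

end Pool.Agent.Tri5
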