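import Mathlib
import Pool.Agent.Tri5.Targets

/-!
# Sums of two triangular numbers and two powers of 5: solutions modulo a prime
-/

set_option autoImplicit false

namespace Pool.Agent.Tri5

namespace LOC0_

theorem lift (p : ℕ) [Fact p.Prime] (hp2 : p ≠ 2) (u : ZMod p) :
    ∃ y : ℤ, ((2 * y + 1 : ℤ) : ZMod p) = u := by
  have h2 : (2 : ZMod p) ≠ 0 := by
    intro h
    have h1 : ((2 : ℕ) : ZMod p) = 0 := by exact_mod_cast h
    rw [ZMod.natCast_eq_zero_iff] at h1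
    exact hp2 ((Nat.prime_dvd_prime_iff_eq (Fact.out) Nat.prime_two).1 h1)
  obtain ⟨y, hy⟩ := ZMod.intCast_surjective ((u - 1) / 2 : ZMod p)
  refine ⟨y, ?_⟩
  push_cast
  rw [hy]
  field_simp
  ring

end LOC0_

open LOC0_ in
theorem p_LOC0 : T_LOC0 := by
  intro p r hp hp2 hr
  haveI : Fact p.Prime := ⟨hp⟩
  have key : ∃ u v : ZMod p, u ^ 2 + v ^ 2 = 2 * (r : ZMod p) ∧ ¬ (u = 0 ∧ v = 0) := by
    by_cases h0 : ((r : ℤ) : ZMod p) = 0
    · have hd : (p : ℤ) ∣ r := (ZMod.intCast_zmod_eq_zero_iff_dvd r p).1 h0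
      have h3 : p % 4 ≠ 3 := fun h => hr h hd
      obtain ⟨i, hi⟩ := (ZMod.exists_sq_eq_neg_one_iff (p := p)).2 h3
      refine ⟨1, i, ?_, ?_⟩
      · rw [h0, pow_two i, ← hi]
        ring
      · rintro ⟨h, -⟩
        exact one_ne_zero h
    · obtain ⟨u, v, huv⟩ := ZMod.sq_add_sq p (2 * (r : ZMod p))
      refine ⟨u, v, huv, ?_⟩
      rintro ⟨rfl, rfl⟩
      have h2 : (2 : ZMod p) ≠ 0 := by
        intro h
        have h1 : ((2 : ℕ) : ZMod p) = 0 := by exact_mod_cast h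
        rw [ZMod.natCast_eq_zero_iff] at h1
        exact hp2 ((Nat.prime_dvd_prime_iff_eq hp Nat.prime_two).1 h1)
      have h3 : (2 : ZMod p) * (r : ZMod p) = 0 := by
        rw [← huv]
        ring
      rcases mul_eq_zero.1 h3 with h | h
      · exact h2 h
      · exact h0 h
  obtain ⟨u, v, huv, hne⟩ := key
  obtain ⟨y, hy⟩ := lift p hp2 u
  obtain ⟨z, hz⟩ := lift p hp2 v
  refine ⟨y, z, ?_, ?_⟩
  · rw [← ZMod.intCast_zmod_eq_zero_iff_dvd]
    push_cast at hy hz ⊢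
    rw [hy, hz, huv]
    ring
  · rintro ⟨h1, h2⟩
    rw [← ZMod.intCast_zmod_eq_zero_iff_dvd] at h1 h2
    exact hne ⟨hy ▸ h1, hz ▸ h2⟩

end Pool.Agent.Tri5
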