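import Mathlib
import Pool.Agent.Tri5.Targets
import Pool.Agent.QTw.MERT

/-!
# MER: a consequence of the theorem of Mertens
-/

set_option autoImplicit false

namespace Pool.Agent.Tri5

namespace MER_

open Finset

/-- the sum of `log p / p` over the primes up to `n` -/
private noncomputable def AA (n : ℕ) : ℝ :=
  ∑ p ∈ (Finset.range (n + 1)).filter Nat.Prime, Real.log p / p

/-- the sum of `1 / p` over the primes in `(k, n]` -/
private noncomputable def TT (k n : ℕ) : ℝ :=
  ∑ p ∈ (Finset.range (n + 1)).filter (fun p => p.Prime ∧ k < p), 1 / (p : ℝ)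

private theorem AA_succ (n : ℕ) :
    AA (n + 1) = AA n + (if (n + 1).Prime then Real.log ((n + 1 : ℕ) : ℝ) / ((n + 1 : ℕ) : ℝ)
      else 0) := by
  unfold AA
  rw [Finset.range_add_one, Finset.filter_insert]
  split_ifs with h
  · rw [Finset.sum_insert (by simp), add_comm]
  · rw [add_zero]

private theorem TT_succ {k n : ℕ} (h : k ≤ n) :
    TT k (n + 1) = TT k n + (if (n + 1).Prime then 1 / ((n + 1 : ℕ) : ℝ) else 0) := by
  unfold TT
  rw [Finset.range_add_one, Finset.filter_insert]
  by_cases hp : (n + 1).Prime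
  · rw [if_pos ⟨hp, by omega⟩, Finset.sum_insert (by simp), add_comm, if_pos hp]
  · rw [if_neg (fun h => hp h.1), if_neg hp, add_zero]

private theorem TT_self (k : ℕ) : TT k k = 0 := by
  unfold TT
  apply Finset.sum_eq_zero
  intro p hp
  rw [Finset.mem_filter, Finset.mem_range] at hp
  omega

private theorem AA_nonneg (n : ℕ) : 0 ≤ AA n :=
  Finset.sum_nonneg (fun p _ => div_nonneg (Real.log_natCast_nonneg p) (Nat.cast_nonneg p))

private theorem abel {B : ℝ} (hB : ∀ X : ℕ, 1 ≤ X → AA X ≤ Real.log X + B) (k : ℕ)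
    (hk : 2 ≤ k) : ∀ n : ℕ, k ≤ n → TT k n ≤ AA n / Real.log n +
      (Real.log (Real.log n) - Real.log (Real.log k)) + B * (1 / Real.log k - 1 / Real.log n) := by
  intro n hn
  induction n, hn using Nat.le_induction with
  | base =>
    rw [TT_self, sub_self, sub_self, mul_zero, add_zero, add_zero]
    exact div_nonneg (AA_nonneg k) (Real.log_natCast_nonneg k)
  | succ n hn ih =>
    have hn2 : (2 : ℝ) ≤ n := by exact_mod_cast hk.trans hn
    have hl : 0 < Real.log (n : ℝ) := Real.log_pos (by linarith)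
    have hl' : Real.log (n : ℝ) ≤ Real.log ((n + 1 : ℕ) : ℝ) :=
      Real.log_le_log (by linarith) (by push_cast; linarith)
    have hl1 : 0 < Real.log ((n + 1 : ℕ) : ℝ) := lt_of_lt_of_le hl hl'
    set a := Real.log (n : ℝ) with ha
    set b := Real.log ((n + 1 : ℕ) : ℝ) with hb
    have h1 : TT k (n + 1) = TT k n + (AA (n + 1) - AA n) / b := by
      rw [TT_succ hn, AA_succ]
      congr 1
      split_ifs with hp
      · rw [add_sub_cancel_left, ← hb]
        field_simp
      · simp
    have h2 : AA n ≤ a + B := hB n (by omega)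
    have h3 : 1 - a / b ≤ Real.log b - Real.log a := by
      have h4 := Real.one_sub_inv_le_log_of_pos (x := b / a) (by positivity)
      rw [Real.log_div hl1.ne' hl.ne', inv_div] at h4
      exact h4
    have h5 : 0 ≤ 1 / a - 1 / b := by
      rw [sub_nonneg]
      exact one_div_le_one_div_of_le hl hl'
    have h6 : AA n * (1 / a - 1 / b) ≤ (1 - a / b) + B * (1 / a - 1 / b) := by
      calc AA n * (1 / a - 1 / b) ≤ (a + B) * (1 / a - 1 / b) :=
            mul_le_mul_of_nonneg_right h2 h5
        _ = _ := by field_simp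
    rw [h1]
    have h7 : (AA (n + 1) - AA n) / b = AA (n + 1) / b - AA n / a + AA n * (1 / a - 1 / b) := by
      field_simp
      ring
    rw [h7]
    have h8 : B * (1 / Real.log k - 1 / b) = B * (1 / Real.log k - 1 / a) +
      B * (1 / a - 1 / b) := by ring
    rw [h8]
    linarith

/-- the telescoping sum -/
private theorem tele (n : ℕ) (S : Finset ℕ) (h : ∀ p ∈ S, 2 ≤ p ∧ p ≤ n) :
    ∑ p ∈ S, (1 / ((p : ℝ) - 1) - 1 / (p : ℝ)) ≤ 1 := by
  have h1 : ∀ m : ℕ, 1 ≤ m → ∑ p ∈ Finset.Icc 2 m, (1 / ((p : ℝ) - 1) - 1 / (p : ℝ)) =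
      1 - 1 / (m : ℝ) := by
    intro m hm
    induction m, hm using Nat.le_induction with
    | base => simp
    | succ m hm ih =>
      rw [Finset.sum_Icc_succ_top (by omega), ih]
      push_cast
      ring
  have h2 : S ⊆ Finset.Icc 2 (n + 1) := fun p hp => by
    have := h p hp
    rw [Finset.mem_Icc]; omega
  refine le_trans (Finset.sum_le_sum_of_subset_of_nonneg h2 ?_) ?_
  · intro p hp _
    rw [Finset.mem_Icc] at hp
    have hp2 : (2 : ℝ) ≤ p := by exact_mod_cast hp.1
    rw [sub_nonneg]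
    exact one_div_le_one_div_of_le (by linarith) (by linarith)
  · rw [h1 (n + 1) (by omega)]
    have : (0 : ℝ) ≤ 1 / ((n + 1 : ℕ) : ℝ) := by positivity
    linarith

end MER_

open MER_ Finset in
theorem p_MER : T_MER := by
  obtain ⟨B₀, hB₀⟩ := Pool.Agent.QTw.p_MERT
  set B : ℝ := max B₀ 0 with hBdef
  have hB0 : 0 ≤ B := le_max_right _ _
  have hB : ∀ X : ℕ, 1 ≤ X → AA X ≤ Real.log X + B := fun X hX =>
    (hB₀ X hX).trans (by have := le_max_left B₀ 0; rw [← hBdef] at this; linarith)
  have hlog2 : 0 < Real.log 2 := Real.log_pos (by norm_num)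
  refine ⟨Real.exp (3 + 2 * B / Real.log 2), Real.exp_pos _, ?_⟩
  intro k n S hk hkn hcard hS
  have hkR : (2 : ℝ) ≤ k := by exact_mod_cast hk
  have hnR : (2 : ℝ) ≤ n := by exact_mod_cast hk.trans hkn
  have hlk : Real.log 2 ≤ Real.log k := Real.log_le_log (by norm_num) hkR
  have hln : Real.log 2 ≤ Real.log n := Real.log_le_log (by norm_num) hnR
  have hlk0 : 0 < Real.log k := lt_of_lt_of_le hlog2 hlk
  have hln0 : 0 < Real.log n := lt_of_lt_of_le hlog2 hln
  have hp2 : ∀ p ∈ S, (2 : ℝ) ≤ p := fun p hp => by exact_mod_cast (hS p hp).1.two_le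
  have hprod : ∏ p ∈ S, (1 + 1 / ((p : ℝ) - 1)) ≤ Real.exp (∑ p ∈ S, 1 / ((p : ℝ) - 1)) := by
    rw [Real.exp_sum]
    apply Finset.prod_le_prod
    · intro p hp
      have := hp2 p hp
      have : (0 : ℝ) ≤ 1 / ((p : ℝ) - 1) := div_nonneg zero_le_one (by linarith)
      linarith
    · intro p _
      have := Real.add_one_le_exp (1 / ((p : ℝ) - 1))
      linarith
  have hsplit : ∑ p ∈ S, 1 / ((p : ℝ) - 1) =
      ∑ p ∈ S.filter (fun p => p ≤ n), 1 / ((p : ℝ) - 1) +
      ∑ p ∈ S.filter (fun p => ¬ p ≤ n), 1 / ((p : ℝ) - 1) :=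
    (Finset.sum_filter_add_sum_filter_not S (fun p => p ≤ n) _).symm
  have hlarge : ∑ p ∈ S.filter (fun p => ¬ p ≤ n), 1 / ((p : ℝ) - 1) ≤ 1 := by
    calc ∑ p ∈ S.filter (fun p => ¬ p ≤ n), 1 / ((p : ℝ) - 1)
        ≤ ∑ p ∈ S.filter (fun p => ¬ p ≤ n), 1 / (n : ℝ) := by
          apply Finset.sum_le_sum
          intro p hp
          rw [Finset.mem_filter] at hp
          have : (n : ℝ) + 1 ≤ p := by exact_mod_cast (not_le.1 hp.2)
          exact one_div_le_one_div_of_le (by linarith) (by linarith)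
      _ = ((S.filter (fun p => ¬ p ≤ n)).card : ℝ) * (1 / (n : ℝ)) := by
          rw [Finset.sum_const, nsmul_eq_mul]
      _ ≤ (n : ℝ) * (1 / (n : ℝ)) := by
          apply mul_le_mul_of_nonneg_right _ (by positivity)
          exact_mod_cast (Finset.card_filter_le _ _).trans hcard
      _ = 1 := by field_simp
  have hsmall : ∑ p ∈ S.filter (fun p => p ≤ n), 1 / ((p : ℝ) - 1) ≤ TT k n + 1 := by
    have h1 := tele n (S.filter (fun p => p ≤ n)) (fun p hp => by
      rw [Finset.mem_filter] at hp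
      exact ⟨(hS p hp.1).1.two_le, hp.2⟩)
    rw [Finset.sum_sub_distrib] at h1
    have h2 : ∑ p ∈ S.filter (fun p => p ≤ n), 1 / (p : ℝ) ≤ TT k n := by
      unfold TT
      apply Finset.sum_le_sum_of_subset_of_nonneg
      · intro p hp
        rw [Finset.mem_filter] at hp
        rw [Finset.mem_filter, Finset.mem_range]
        exact ⟨by omega, hS p hp.1⟩
      · intro p _ _
        positivity
    linarith
  have habel := abel hB k hk n hkn
  have h1 : AA n / Real.log n ≤ 1 + B / Real.log 2 := by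
    have h2 := hB n (by omega)
    calc AA n / Real.log n ≤ (Real.log n + B) / Real.log n :=
          div_le_div_of_nonneg_right h2 hln0.le
      _ = 1 + B / Real.log n := by rw [add_div, div_self hln0.ne']
      _ ≤ 1 + B / Real.log 2 := by
          have := div_le_div_of_nonneg_left hB0 hlog2 hln
          linarith
  have h2 : B * (1 / Real.log k - 1 / Real.log n) ≤ B / Real.log 2 := by
    have h3 : 1 / Real.log k ≤ 1 / Real.log 2 := one_div_le_one_div_of_le hlog2 hlk
    have h4 : 0 ≤ 1 / Real.log (n : ℝ) := by positivity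
    calc B * (1 / Real.log k - 1 / Real.log n) ≤ B * (1 / Real.log 2) :=
          mul_le_mul_of_nonneg_left (by linarith) hB0
      _ = B / Real.log 2 := by ring
  have h3 : ∑ p ∈ S, 1 / ((p : ℝ) - 1) ≤ (3 + 2 * B / Real.log 2) +
      (Real.log (Real.log n) - Real.log (Real.log k)) := by
    rw [hsplit]
    have : 2 * B / Real.log 2 = B / Real.log 2 + B / Real.log 2 := by ring
    linarith
  calc ∏ p ∈ S, (1 + 1 / ((p : ℝ) - 1)) ≤ Real.exp (∑ p ∈ S, 1 / ((p : ℝ) - 1)) := hprod
    _ ≤ Real.exp ((3 + 2 * B / Real.log 2) +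
      (Real.log (Real.log n) - Real.log (Real.log k))) := Real.exp_le_exp.2 h3
    _ = Real.exp (3 + 2 * B / Real.log 2) * Real.log n / Real.log k := by
        rw [Real.exp_add, Real.exp_sub, Real.exp_log hln0, Real.exp_log hlk0]
        ring

end Pool.Agent.Tri5
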