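import Pool.Agent.Tri5.Targets

/-!
# N3A: the product over the large primes
-/

set_option autoImplicit false

open Finset

namespace Pool.Agent.Tri5

namespace N3A_

lemma four (r : ℝ) (hr : 30000 < r) : (1 + 1 / (r - 1)) ^ 4 ≤ (r + 1) / (r - 3) := by
  have h1 : (0 : ℝ) < r - 1 := by linarith
  have h3 : (0 : ℝ) < r - 3 := by linarith
  have h2 : 1 + 1 / (r - 1) = r / (r - 1) := by
    field_simp
    ring
  rw [h2, div_pow, div_le_div_iff₀ (by positivity) h3]
  have h4 : (r + 1) * (r - 1) ^ 4 - r ^ 4 * (r - 3) = 2 * r ^ 3 + 2 * r ^ 2 - 3 * r + 1 := by ring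
  nlinarith [sq_nonneg r, pow_pos (by linarith : (0 : ℝ) < r) 3]

lemma tele (A : Finset ℕ) : ∀ N : ℕ, N % 4 = 3 → 30003 ≤ N →
    (∀ r ∈ A, r % 4 = 3 ∧ 30000 < r ∧ r < N) →
    ∏ r ∈ A, (((r : ℝ) + 1) / ((r : ℝ) - 3)) ≤ ((N : ℝ) - 3) / 30000 := by
  induction A using Finset.induction_on_max with
  | empty =>
    intro N _ hN2 _
    rw [Finset.prod_empty, le_div_iff₀ (by norm_num)]
    have : (30003 : ℝ) ≤ N := by exact_mod_cast hN2
    linarith
  | insert a A hmax ih =>
    intro N hN1 hN2 hA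
    have ha := hA a (Finset.mem_insert_self _ _)
    rw [Finset.prod_insert (fun h => lt_irrefl _ (hmax a h))]
    have h1 := ih a ha.1 (by omega) (fun r hr => by
      have := hA r (Finset.mem_insert_of_mem hr)
      exact ⟨this.1, this.2.1, hmax r hr⟩)
    have h2 : (30000 : ℝ) < a := by exact_mod_cast ha.2.1
    have h3 : (0 : ℝ) < (a : ℝ) - 3 := by linarith
    have h4 : a + 4 ≤ N := by omega
    have h5 : (a : ℝ) + 4 ≤ N := by exact_mod_cast h4
    calc ((a : ℝ) + 1) / ((a : ℝ) - 3) * ∏ r ∈ A, (((r : ℝ) + 1) / ((r : ℝ) - 3))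
        ≤ ((a : ℝ) + 1) / ((a : ℝ) - 3) * (((a : ℝ) - 3) / 30000) :=
          mul_le_mul_of_nonneg_left h1 (by positivity)
      _ = ((a : ℝ) + 1) / 30000 := by field_simp
      _ ≤ ((N : ℝ) - 3) / 30000 := by
        apply div_le_div_of_nonneg_right _ (by norm_num)
        linarith

end N3A_

open N3A_ in
/-- N3A: the product over the large primes. -/
theorem p_N3A : T_N3A := by
  intro S p hS hp
  have hC : ∀ r ∈ S, r % 4 = 3 := fun r hr => by
    have h := (hS r hr).1
    unfold C3 at h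
    exact h.2.1
  have hp1 := hC p hp
  have hp2 := (hS p hp).2
  have hpR : (30000 : ℝ) < p := by exact_mod_cast hp2
  have h1 := tele (S.filter (fun r => r < p)) p hp1 (by omega) (fun r hr => by
    rw [Finset.mem_filter] at hr
    exact ⟨hC r hr.1, (hS r hr.1).2, hr.2⟩)
  set x : ℝ := ∏ r ∈ S.filter (fun r => r < p), (1 + 1 / ((r : ℝ) - 1)) with hx
  have hx0 : 0 ≤ x := by
    apply Finset.prod_nonneg
    intro r hr
    have h2 : (30000 : ℝ) < r := by
      exact_mod_cast (hS r (Finset.mem_filter.mp hr).1).2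
    have h3 : (0 : ℝ) < (r : ℝ) - 1 := by linarith
    positivity
  have hx4 : x ^ 4 ≤ ((p : ℝ) - 1) / 30000 := by
    rw [hx, ← Finset.prod_pow]
    refine (Finset.prod_le_prod (fun r hr => ?_) (fun r hr => ?_)).trans (h1.trans ?_)
    · positivity
    · exact four r (by exact_mod_cast (hS r (Finset.mem_filter.mp hr).1).2)
    · apply div_le_div_of_nonneg_right _ (by norm_num)
      linarith
  have h5 : x = (x ^ 4) ^ ((1 : ℝ) / 4) := by
    rw [← Real.rpow_natCast, ← Real.rpow_mul hx0]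
    norm_num
  rw [h5]
  exact Real.rpow_le_rpow (by positivity) hx4 (by norm_num)

end Pool.Agent.Tri5
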