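import Pool.Agent.Tri5.Targets
import Mathlib

/-!
# N3B: the primes with given odd part of the order
-/

set_option autoImplicit false

open Finset

namespace Pool.Agent.Tri5

namespace N3B_

lemma rp4 (x s : ℝ) (hx : 0 ≤ x) : (x ^ (s / 4)) ^ 4 = x ^ s := by
  rw [← Real.rpow_natCast, ← Real.rpow_mul hx]
  congr 1
  push_cast
  ring

lemma key (x : ℝ) (hx : 1 ≤ x) :
    x ^ (-(3 : ℝ) / 4) ≤ 2 * ((x + 1) ^ ((1 : ℝ) / 4) - (x - 1) ^ ((1 : ℝ) / 4)) := by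
  have hx0 : 0 < x := by linarith
  have hw : 0 < x ^ ((1 : ℝ) / 4) := Real.rpow_pos_of_pos hx0 _
  have hu : 0 < (x + 1) ^ ((1 : ℝ) / 4) := Real.rpow_pos_of_pos (by linarith) _
  have hv : 0 ≤ (x - 1) ^ ((1 : ℝ) / 4) := Real.rpow_nonneg (by linarith) _
  have hw4 : (x ^ ((1 : ℝ) / 4)) ^ 4 = x := by rw [rp4 x 1 hx0.le, Real.rpow_one]
  have hu4 : ((x + 1) ^ ((1 : ℝ) / 4)) ^ 4 = x + 1 := by
    rw [rp4 (x + 1) 1 (by linarith), Real.rpow_one]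
  have hv4 : ((x - 1) ^ ((1 : ℝ) / 4)) ^ 4 = x - 1 := by
    rw [rp4 (x - 1) 1 (by linarith), Real.rpow_one]
  have hw3 : x ^ (-(3 : ℝ) / 4) = ((x ^ ((1 : ℝ) / 4)) ^ 3)⁻¹ := by
    rw [← Real.rpow_natCast, ← Real.rpow_mul hx0.le, ← Real.rpow_neg hx0.le]
    congr 1
    push_cast
    ring
  rw [hw3]
  set w := x ^ ((1 : ℝ) / 4) with hwd
  set u := (x + 1) ^ ((1 : ℝ) / 4) with hud
  set v := (x - 1) ^ ((1 : ℝ) / 4) with hvd
  -- power means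
  have h1 : (u ^ 2 + v ^ 2) / 2 ≤ w ^ 2 := by
    have : ((u ^ 2 + v ^ 2) / 2) ^ 2 ≤ (w ^ 2) ^ 2 := by
      have h2 : (w ^ 2) ^ 2 = (u ^ 4 + v ^ 4) / 2 := by
        rw [hu4, hv4]
        calc (w ^ 2) ^ 2 = w ^ 4 := by ring
          _ = x := hw4
          _ = _ := by ring
      rw [h2]
      nlinarith [sq_nonneg (u ^ 2 - v ^ 2)]
    exact le_of_sq_le_sq this (by positivity)
  have h2 : (u + v) / 2 ≤ w := by
    have : ((u + v) / 2) ^ 2 ≤ w ^ 2 := by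
      nlinarith [sq_nonneg (u - v)]
    exact le_of_sq_le_sq this hw.le
  have h3 : (u + v) * (u ^ 2 + v ^ 2) ≤ 4 * w ^ 3 := by
    have h4 : (u + v) / 2 * ((u ^ 2 + v ^ 2) / 2) ≤ w * w ^ 2 :=
      mul_le_mul h2 h1 (by positivity) hw.le
    nlinarith
  have h5 : (u - v) * ((u + v) * (u ^ 2 + v ^ 2)) = 2 := by
    calc (u - v) * ((u + v) * (u ^ 2 + v ^ 2)) = u ^ 4 - v ^ 4 := by ring
      _ = 2 := by rw [hu4, hv4]; ring
  have h6 : 0 < u - v := by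
    by_contra hcon
    have hcon' : u - v ≤ 0 := not_lt.1 hcon
    have h7 : 0 ≤ (u + v) * (u ^ 2 + v ^ 2) := by positivity
    have h8 := mul_nonneg (neg_nonneg.2 hcon') h7
    rw [neg_mul, h5] at h8
    linarith
  have hw3' : 0 < w ^ 3 := by positivity
  rw [inv_le_iff_one_le_mul₀ hw3']
  nlinarith [mul_le_mul_of_nonneg_left h3 h6.le]

lemma card_odd (K : Finset ℕ) (m : ℕ) (hK : ∀ j ∈ K, Odd j ∧ j ≤ m) : K.card ≤ (m + 1) / 2 := by
  have h : K ⊆ (range ((m + 1) / 2)).image (fun i => 2 * i + 1) := by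
    intro j hj
    obtain ⟨⟨i, hi⟩, h2⟩ := hK j hj
    rw [Finset.mem_image]
    exact ⟨i, Finset.mem_range.2 (by omega), hi.symm⟩
  calc K.card ≤ ((range ((m + 1) / 2)).image (fun i => 2 * i + 1)).card := Finset.card_le_card h
    _ ≤ (range ((m + 1) / 2)).card := Finset.card_image_le
    _ = (m + 1) / 2 := Finset.card_range _

lemma sum_odd : ∀ (n : ℕ) (K : Finset ℕ), K.card = n → (∀ j ∈ K, Odd j) →
    ∑ j ∈ K, (j : ℝ) ^ (-(3 : ℝ) / 4) ≤ 2 * (2 * (n : ℝ)) ^ ((1 : ℝ) / 4) := by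
  intro n
  induction n with
  | zero =>
    intro K hK _
    rw [Finset.card_eq_zero] at hK
    subst hK
    simp
  | succ n ih =>
    intro K hK hodd
    have hne : K.Nonempty := Finset.card_pos.1 (by omega)
    set m := K.max' hne with hm
    have hmK : m ∈ K := Finset.max'_mem K hne
    have h1 : (K.erase m).card = n := by rw [Finset.card_erase_of_mem hmK, hK]; rfl
    have h2 := ih (K.erase m) h1 (fun j hj => hodd j (Finset.mem_of_mem_erase hj))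
    have h3 : K.card ≤ (m + 1) / 2 :=
      card_odd K m (fun j hj => ⟨hodd j hj, Finset.le_max' K j hj⟩)
    have h4 : 2 * n + 1 ≤ m := by omega
    have h4' : (2 * (n : ℝ) + 1) ≤ m := by exact_mod_cast h4
    rw [← Finset.add_sum_erase K _ hmK]
    have h5 : (m : ℝ) ^ (-(3 : ℝ) / 4) ≤ (2 * (n : ℝ) + 1) ^ (-(3 : ℝ) / 4) :=
      Real.rpow_le_rpow_of_nonpos (by positivity) h4' (by norm_num)
    have h6 := key (2 * (n : ℝ) + 1) (by linarith [Nat.cast_nonneg (α := ℝ) n])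
    have h7 : (2 * (n : ℝ) + 1) + 1 = 2 * ((n + 1 : ℕ) : ℝ) := by push_cast; ring
    have h8 : (2 * (n : ℝ) + 1) - 1 = 2 * (n : ℝ) := by ring
    rw [h7, h8] at h6
    linarith

lemma num : (5 : ℕ) ^ 2000 ≤ 30000 ^ 313 := by decide +kernel

lemma card_bd (t : ℕ) (J : Finset ℕ) (ht : 0 < t)
    (hJ : ∀ p ∈ J, p.Prime ∧ 30000 < p ∧ p ∣ 5 ^ (2 * t) - 1) : 1000 * J.card ≤ 313 * t := by
  have h1 : ∏ p ∈ J, p ∣ 5 ^ (2 * t) - 1 := Finset.prod_primes_dvd _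
    (fun p hp => (hJ p hp).1.prime) (fun p hp => (hJ p hp).2.2)
  have h5 : 1 < 5 ^ (2 * t) := Nat.one_lt_pow (by omega) (by norm_num)
  have h2 : ∏ p ∈ J, p ≤ 5 ^ (2 * t) - 1 := Nat.le_of_dvd (by omega) h1
  have h3 : 30000 ^ J.card ≤ ∏ p ∈ J, p := by
    rw [← Finset.prod_const]
    exact Finset.prod_le_prod' (fun p hp => (hJ p hp).2.1.le)
  have h4 : 30000 ^ J.card ≤ 5 ^ (2 * t) := by omega
  have h6 : 30000 ^ (1000 * J.card) ≤ 30000 ^ (313 * t) := by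
    calc 30000 ^ (1000 * J.card) = (30000 ^ J.card) ^ 1000 := by rw [← pow_mul]; ring_nf
      _ ≤ (5 ^ (2 * t)) ^ 1000 := Nat.pow_le_pow_left h4 _
      _ = (5 ^ 2000) ^ t := by rw [← pow_mul, ← pow_mul]; congr 1; ring
      _ ≤ (30000 ^ 313) ^ t := Nat.pow_le_pow_left num _
      _ = 30000 ^ (313 * t) := by rw [← pow_mul]
  exact (Nat.pow_le_pow_iff_right (by norm_num)).1 h6

lemma const : 2 * (2 : ℝ) ^ (-(3 : ℝ) / 4) * (313 / 500 : ℝ) ^ ((1 : ℝ) / 4) ≤ 53 / 50 := by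
  have ha : ((2 : ℝ) ^ (-(3 : ℝ) / 4)) ^ 4 = 1 / 8 := by
    rw [rp4 2 (-3) (by norm_num), Real.rpow_neg (by norm_num)]
    norm_num
  have hb : ((313 / 500 : ℝ) ^ ((1 : ℝ) / 4)) ^ 4 = 313 / 500 := by
    rw [rp4 _ 1 (by norm_num), Real.rpow_one]
  have h : (2 * (2 : ℝ) ^ (-(3 : ℝ) / 4) * (313 / 500 : ℝ) ^ ((1 : ℝ) / 4)) ^ 4 ≤
      (53 / 50 : ℝ) ^ 4 := by
    rw [mul_pow, mul_pow, ha, hb]
    norm_num
  exact le_of_pow_le_pow_left₀ (by norm_num) (by norm_num) h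

end N3B_

open N3B_ in
theorem p_N3B : T_N3B := by
  classical
  intro t J ht hJ
  have ht0 : 0 < t := ht.pos
  have htr : (0 : ℝ) < t := by exact_mod_cast ht0
  have hc : 1000 * J.card ≤ 313 * t :=
    card_bd t J ht0 (fun p hp => ⟨(hJ p hp).1, (hJ p hp).2.2.1, (hJ p hp).2.2.2.1⟩)
  have hcr : (J.card : ℝ) ≤ 313 / 1000 * t := by
    have : (1000 : ℝ) * J.card ≤ 313 * t := by exact_mod_cast hc
    linarith
  refine ⟨hcr, ?_⟩
  -- the quotients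
  have hq : ∀ p ∈ J, p = 2 * t * ((p - 1) / (2 * t)) + 1 ∧ Odd ((p - 1) / (2 * t)) := by
    intro p hp
    obtain ⟨h1, h2, h3, _, h5⟩ := hJ p hp
    have h6 : 2 * t ∣ p - 1 := by
      have hcop : Nat.Coprime 2 t := (Nat.coprime_two_left).2 ht
      exact hcop.mul_dvd_of_dvd_of_dvd (by omega) h5
    obtain ⟨j, hj⟩ := h6
    have h7 : (p - 1) / (2 * t) = j := by rw [hj]; exact Nat.mul_div_cancel_left j (by omega)
    rw [h7]
    refine ⟨by omega, ?_⟩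
    by_contra hcon
    rw [Nat.not_odd_iff_even] at hcon
    obtain ⟨r, hr⟩ := hcon
    have h8 : p - 1 = 4 * (t * r) := by rw [hj, hr]; ring
    omega
  have hinj : Set.InjOn (fun p => (p - 1) / (2 * t)) (J : Set ℕ) := by
    intro a ha b hb hab
    have h1 := (hq a ha).1
    have h2 := (hq b hb).1
    simp only at hab
    rw [h1, h2, hab]
  set K := J.image (fun p => (p - 1) / (2 * t)) with hK
  have hKc : K.card = J.card := Finset.card_image_of_injOn hinj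
  have hKo : ∀ j ∈ K, Odd j := by
    intro j hj
    rw [hK, Finset.mem_image] at hj
    obtain ⟨p, hp, rfl⟩ := hj
    exact (hq p hp).2
  have hs := sum_odd J.card K hKc hKo
  have h1 : ∑ p ∈ J, ((p : ℝ) - 1) ^ (-(3 : ℝ) / 4) =
      (2 * (t : ℝ)) ^ (-(3 : ℝ) / 4) * ∑ j ∈ K, (j : ℝ) ^ (-(3 : ℝ) / 4) := by
    rw [hK, Finset.sum_image hinj, Finset.mul_sum]
    refine Finset.sum_congr rfl (fun p hp => ?_)
    have h2 := (hq p hp).1
    have h3 : (p : ℝ) - 1 = (2 * (t : ℝ)) * (((p - 1) / (2 * t) : ℕ) : ℝ) := by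
      have : (p : ℝ) = ((2 * t * ((p - 1) / (2 * t)) + 1 : ℕ) : ℝ) := by exact_mod_cast h2
      rw [this]
      push_cast
      ring
    rw [h3, Real.mul_rpow (by positivity) (by positivity)]
  rw [h1]
  have hA : (0 : ℝ) ≤ (2 * (t : ℝ)) ^ (-(3 : ℝ) / 4) := Real.rpow_nonneg (by positivity) _
  refine le_trans (mul_le_mul_of_nonneg_left hs hA) ?_
  have h2 : (2 * (J.card : ℝ)) ^ ((1 : ℝ) / 4) ≤
      (313 / 500 : ℝ) ^ ((1 : ℝ) / 4) * (t : ℝ) ^ ((1 : ℝ) / 4) := by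
    rw [← Real.mul_rpow (by norm_num) htr.le]
    exact Real.rpow_le_rpow (by positivity) (by linarith) (by norm_num)
  have h3 : (2 * (t : ℝ)) ^ (-(3 : ℝ) / 4) =
      (2 : ℝ) ^ (-(3 : ℝ) / 4) * (t : ℝ) ^ (-(3 : ℝ) / 4) :=
    Real.mul_rpow (by norm_num) htr.le
  have h4 : (t : ℝ) ^ (-(3 : ℝ) / 4) * (t : ℝ) ^ ((1 : ℝ) / 4) = (t : ℝ) ^ (-(1 : ℝ) / 2) := by
    rw [← Real.rpow_add htr]
    congr 1
    norm_num
  calc (2 * (t : ℝ)) ^ (-(3 : ℝ) / 4) * (2 * (2 * (J.card : ℝ)) ^ ((1 : ℝ) / 4))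
      ≤ (2 * (t : ℝ)) ^ (-(3 : ℝ) / 4) *
        (2 * ((313 / 500 : ℝ) ^ ((1 : ℝ) / 4) * (t : ℝ) ^ ((1 : ℝ) / 4))) := by
        exact mul_le_mul_of_nonneg_left (by linarith) hA
    _ = (2 * (2 : ℝ) ^ (-(3 : ℝ) / 4) * (313 / 500 : ℝ) ^ ((1 : ℝ) / 4)) *
        (t : ℝ) ^ (-(1 : ℝ) / 2) := by
        rw [h3, ← h4]
        ring
    _ ≤ 53 / 50 * (t : ℝ) ^ (-(1 : ℝ) / 2) :=
        mul_le_mul_of_nonneg_right const (Real.rpow_nonneg htr.le _)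

end Pool.Agent.Tri5
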