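import Mathlib
import Pool.Agent.Tri5.Targets

set_option autoImplicit false

namespace Pool.Agent.Tri5

namespace N3C_

open Finset

theorem rp (t : ℝ) (ht : 0 < t) : t ^ (-(3 : ℝ) / 2) = (t * Real.sqrt t)⁻¹ := by
  rw [show (-(3 : ℝ) / 2) = -(1 + 1 / 2) by norm_num, Real.rpow_neg ht.le,
    Real.rpow_add ht, Real.rpow_one, Real.sqrt_eq_rpow]

theorem step (t : ℝ) (ht : 1 < t) :
    t ^ (-(3 : ℝ) / 2) ≤ (Real.sqrt (t - 1))⁻¹ - (Real.sqrt (t + 1))⁻¹ := by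
  rw [rp t (by linarith)]
  set a := Real.sqrt (t - 1) with ha
  set b := Real.sqrt (t + 1) with hb
  set c := Real.sqrt t with hc
  have ha0 : 0 < a := Real.sqrt_pos.mpr (by linarith)
  have hb0 : 0 < b := Real.sqrt_pos.mpr (by linarith)
  have hc0 : 0 < c := Real.sqrt_pos.mpr (by linarith)
  have ha2 : a ^ 2 = t - 1 := Real.sq_sqrt (by linarith)
  have hb2 : b ^ 2 = t + 1 := Real.sq_sqrt (by linarith)
  have hc2 : c ^ 2 = t := Real.sq_sqrt (by linarith)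
  have hab : a * b ≤ t := by nlinarith [sq_nonneg (a - b)]
  have hsum : a + b ≤ 2 * c := by
    apply le_of_sq_le_sq _ (by positivity)
    nlinarith
  have e : a⁻¹ - b⁻¹ = 2 / (a * b * (a + b)) := by
    field_simp
    nlinarith
  rw [e, inv_eq_one_div, div_le_div_iff₀ (by positivity) (by positivity)]
  have : a * b * (a + b) ≤ t * (2 * c) :=
    mul_le_mul hab hsum (by positivity) (by linarith)
  linarith

theorem tele (M m : ℕ) (hM : 0 < M) :
    ∑ j ∈ range m, (((M + 2 * j + 1 : ℕ) : ℝ)) ^ (-(3 : ℝ) / 2) ≤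
      (Real.sqrt M)⁻¹ - (Real.sqrt ((M + 2 * m : ℕ) : ℝ))⁻¹ := by
  induction m with
  | zero => simp
  | succ m ih =>
    rw [Finset.sum_range_succ]
    have h := step ((M + 2 * m + 1 : ℕ) : ℝ) (by
      have : 1 < M + 2 * m + 1 := by omega
      exact_mod_cast this)
    have e1 : ((M + 2 * m + 1 : ℕ) : ℝ) - 1 = ((M + 2 * m : ℕ) : ℝ) := by push_cast; ring
    have e2 : ((M + 2 * m + 1 : ℕ) : ℝ) + 1 = ((M + 2 * (m + 1) : ℕ) : ℝ) := by push_cast; ring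
    rw [e1, e2] at h
    linarith

theorem oddsum (M : ℕ) (hM : 0 < M) (hM2 : Even M) (T : Finset ℕ)
    (hT : ∀ t ∈ T, Odd t ∧ M < t) :
    ∑ t ∈ T, (t : ℝ) ^ (-(3 : ℝ) / 2) ≤ (Real.sqrt M)⁻¹ := by
  have hsub : T ⊆ (range (T.sup id + 1)).image (fun j => M + 2 * j + 1) := by
    intro t ht
    obtain ⟨h1, h2⟩ := hT t ht
    obtain ⟨u, hu⟩ := h1
    obtain ⟨w, hw⟩ := hM2
    rw [Finset.mem_image]
    have h3 : t ≤ T.sup id := Finset.le_sup (f := id) ht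
    refine ⟨u - w, ?_, ?_⟩
    · rw [Finset.mem_range]; omega
    · omega
  calc ∑ t ∈ T, (t : ℝ) ^ (-(3 : ℝ) / 2)
      ≤ ∑ t ∈ (range (T.sup id + 1)).image (fun j => M + 2 * j + 1), (t : ℝ) ^ (-(3 : ℝ) / 2) :=
        Finset.sum_le_sum_of_subset_of_nonneg hsub (fun _ _ _ => by positivity)
    _ = ∑ j ∈ range (T.sup id + 1), (((M + 2 * j + 1 : ℕ) : ℝ)) ^ (-(3 : ℝ) / 2) := by
        rw [Finset.sum_image]
        intro x _ y _ hxy
        simp only at hxy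
        omega
    _ ≤ (Real.sqrt M)⁻¹ - (Real.sqrt ((M + 2 * (T.sup id + 1) : ℕ) : ℝ))⁻¹ := tele M _ hM
    _ ≤ (Real.sqrt M)⁻¹ := by
        have : 0 ≤ (Real.sqrt ((M + 2 * (T.sup id + 1) : ℕ) : ℝ))⁻¹ := by positivity
        linarith

theorem mult (e M : ℕ) (he : 0 < e) (hM : 0 < M) (hM2 : Even M) (heM : e * M = 390)
    (T : Finset ℕ) (hT : ∀ t ∈ T, Odd t ∧ 390 < t) :
    ∑ t ∈ T.filter (fun t => e ∣ t), (t : ℝ) ^ (-(3 : ℝ) / 2) ≤ 1 / e * (Real.sqrt 390)⁻¹ := by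
  have he' : (0 : ℝ) < e := by exact_mod_cast he
  have h1 : ∀ t ∈ T.filter (fun t => e ∣ t), (t : ℝ) ^ (-(3 : ℝ) / 2) =
      (e : ℝ) ^ (-(3 : ℝ) / 2) * ((t / e : ℕ) : ℝ) ^ (-(3 : ℝ) / 2) := by
    intro t ht
    rw [Finset.mem_filter] at ht
    rw [← Real.mul_rpow (by positivity) (by positivity)]
    congr 1
    rw [← Nat.cast_mul, Nat.mul_div_cancel' ht.2]
  rw [Finset.sum_congr rfl h1, ← Finset.mul_sum]
  have h2 : ∑ t ∈ T.filter (fun t => e ∣ t), ((t / e : ℕ) : ℝ) ^ (-(3 : ℝ) / 2) =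
      ∑ s ∈ (T.filter (fun t => e ∣ t)).image (fun t => t / e), (s : ℝ) ^ (-(3 : ℝ) / 2) := by
    rw [Finset.sum_image]
    intro x hx y hy hxy
    simp only [Finset.coe_filter, Set.mem_ofPred_eq] at hx hy
    simp only at hxy
    rw [← Nat.mul_div_cancel' hx.2, ← Nat.mul_div_cancel' hy.2, hxy]
  rw [h2]
  have h3 := oddsum M hM hM2 ((T.filter (fun t => e ∣ t)).image (fun t => t / e)) (by
    intro s hs
    rw [Finset.mem_image] at hs
    obtain ⟨t, ht, rfl⟩ := hs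
    rw [Finset.mem_filter] at ht
    obtain ⟨ht1, u, rfl⟩ := ht
    have h4 := hT _ ht1
    rw [Nat.mul_div_cancel_left _ he]
    refine ⟨(Nat.odd_mul.mp h4.1).2, ?_⟩
    by_contra hc
    push Not at hc
    have := Nat.mul_le_mul_left e hc
    omega)
  have h5 : (e : ℝ) ^ (-(3 : ℝ) / 2) * (Real.sqrt M)⁻¹ = 1 / e * (Real.sqrt 390)⁻¹ := by
    rw [rp _ he']
    have h6 : Real.sqrt 390 = Real.sqrt e * Real.sqrt M := by
      rw [← Real.sqrt_mul he'.le]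
      congr 1
      exact_mod_cast heM.symm
    rw [h6]
    have h7 : 0 < Real.sqrt e := Real.sqrt_pos.mpr he'
    have h8 : 0 < Real.sqrt M := Real.sqrt_pos.mpr (by exact_mod_cast hM)
    field_simp
  rw [← h5]
  exact mul_le_mul_of_nonneg_left h3 (by positivity)

theorem gcd15 (t : ℕ) : Nat.gcd t 15 = 1 + 2 * (if 3 ∣ t then 1 else 0) +
    4 * (if 5 ∣ t then 1 else 0) + 8 * (if 15 ∣ t then 1 else 0) := by
  have h : ∀ r < 15, Nat.gcd r 15 = 1 + 2 * (if 3 ∣ r then 1 else 0) +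
    4 * (if 5 ∣ r then 1 else 0) + 8 * (if 15 ∣ r then 1 else 0) := by decide
  have h1 := h (t % 15) (Nat.mod_lt _ (by norm_num))
  have h2 : Nat.gcd t 15 = Nat.gcd (t % 15) 15 := by
    rw [Nat.gcd_comm, Nat.gcd_rec]
  rw [h2, h1]
  simp only [Nat.dvd_mod_iff (show 3 ∣ 15 by norm_num), Nat.dvd_mod_iff (show 5 ∣ 15 by norm_num),
    Nat.dvd_mod_iff (show 15 ∣ 15 by norm_num)]

end N3C_

open N3C_ Finset in
theorem p_N3C : T_N3C := by
  intro T hT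
  have e1 : ∀ t ∈ T, (Nat.gcd t 15 : ℝ) * (t : ℝ) ^ (-(3 : ℝ) / 2) =
      (t : ℝ) ^ (-(3 : ℝ) / 2) + 2 * (if 3 ∣ t then (t : ℝ) ^ (-(3 : ℝ) / 2) else 0) +
      4 * (if 5 ∣ t then (t : ℝ) ^ (-(3 : ℝ) / 2) else 0) +
      8 * (if 15 ∣ t then (t : ℝ) ^ (-(3 : ℝ) / 2) else 0) := by
    intro t _
    rw [gcd15]
    push_cast
    split_ifs <;> ring
  rw [Finset.sum_congr rfl e1, Finset.sum_add_distrib, Finset.sum_add_distrib,
    Finset.sum_add_distrib, ← Finset.mul_sum, ← Finset.mul_sum, ← Finset.mul_sum,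
    ← Finset.sum_filter, ← Finset.sum_filter, ← Finset.sum_filter]
  have h1 := oddsum 390 (by norm_num) (by decide) T hT
  have h3 := mult 3 130 (by norm_num) (by norm_num) (by decide) (by norm_num) T hT
  have h5 := mult 5 78 (by norm_num) (by norm_num) (by decide) (by norm_num) T hT
  have h15 := mult 15 26 (by norm_num) (by norm_num) (by decide) (by norm_num) T hT
  push_cast at h1 h3 h5 h15
  have e2 : 3 / Real.sqrt 390 = 3 * (Real.sqrt 390)⁻¹ := div_eq_mul_inv _ _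
  rw [e2]
  linarith

end Pool.Agent.Tri5
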