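import Mathlib
import Pool.Agent.Tri5.Targets

/-!
# Sums of two triangular numbers and two powers of 5: quadruples in a residue class
-/

set_option autoImplicit false

open Finset

namespace Pool.Agent.Tri5

namespace ND_

/-- A set of numbers below `I` which are all congruent modulo `e` has at most `K` elements when
`I ≤ e * K`. -/
theorem card_class (P : ℕ → Prop) [DecidablePred P] (e I K : ℕ) (_ : 0 < e)
    (hP : ∀ j j', P j → P j' → j ≡ j' [MOD e]) (hK : I ≤ e * K) :
    ((range I).filter P).card ≤ K := by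
  have h : Set.InjOn (fun j => j / e) ((range I).filter P : Finset ℕ) := by
    intro j hj j' hj' hjj
    rw [mem_coe, mem_filter] at hj hj'
    have h1 := hP j j' hj.2 hj'.2
    have h2 : j % e = j' % e := h1
    have h3 : j / e = j' / e := hjj
    rw [← Nat.div_add_mod j e, ← Nat.div_add_mod j' e, h2, h3]
  rw [← Finset.card_image_of_injOn h]
  have h4 : ((range I).filter P).image (fun j => j / e) ⊆ range K := by
    intro k hk
    rw [mem_image] at hk
    obtain ⟨j, hj, rfl⟩ := hk
    rw [mem_filter, mem_range] at hj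
    rw [mem_range]
    exact Nat.div_lt_of_lt_mul (hj.1.trans_le hK)
  calc _ ≤ (range K).card := Finset.card_le_card h4
    _ = K := Finset.card_range K

/-- `5` is a unit. -/
theorem five_unit (d : ℕ) (hd : d.Coprime 5) : IsUnit (5 : ZMod d) := by
  have h := (ZMod.isUnit_iff_coprime 5 d).mpr hd.symm
  exact_mod_cast h

theorem od_pos (L d : ℕ) (h1 : 1 ≤ d) (hd : d.Coprime 5) : 0 < od L d := by
  have : NeZero d := ⟨by omega⟩
  obtain ⟨u, hu⟩ := (five_unit d hd).pow L
  unfold od
  rw [← hu, orderOf_units]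
  exact orderOf_pos u

/-- Two admissible values of the last index are congruent. -/
theorem congr_last (L a b i j i' d : ℕ) (hd : d.Coprime 5) (s t : ℕ)
    (hs : (d : ℤ) ∣ hh L a b ((i, j), (i', s))) (ht : (d : ℤ) ∣ hh L a b ((i, j), (i', t))) :
    s ≡ t [MOD od L d] := by
  rw [← ZMod.intCast_zmod_eq_zero_iff_dvd] at hs ht
  unfold hh at hs ht
  push_cast at hs ht
  have h1 : (5 : ZMod d) ^ (b + L * s) = 5 ^ (b + L * t) := by
    linear_combination ht - hs
  rw [pow_add, pow_add, pow_mul, pow_mul] at h1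
  have h2 := ((five_unit d hd).pow b).mul_left_cancel h1
  obtain ⟨u, hu⟩ := (five_unit d hd).pow L
  unfold od
  rw [← hu] at h2 ⊢
  rw [orderOf_units]
  rw [← pow_eq_pow_iff_modEq]
  ext
  push_cast
  exact h2

theorem Nq_le (L a b I d K : ℕ) (h1 : 1 ≤ d) (hd : d.Coprime 5) (hK : I ≤ od L d * K) :
    Nq L a b I d ≤ I ^ 3 * K := by
  unfold Nq quads
  rw [Finset.card_filter, Finset.sum_product]
  have h2 : ∀ u ∈ range I ×ˢ range I, ∑ v ∈ range I ×ˢ range I,
      (if (d : ℤ) ∣ hh L a b (u, v) then 1 else 0) ≤ I * K := by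
    intro u _
    rw [Finset.sum_product]
    have h3 : ∀ i' ∈ range I, ∑ j' ∈ range I,
        (if (d : ℤ) ∣ hh L a b (u, (i', j')) then 1 else 0) ≤ K := by
      intro i' _
      rw [← Finset.card_filter]
      exact card_class _ (od L d) I K (od_pos L d h1 hd)
        (fun s t hs ht => congr_last L a b u.1 u.2 i' d hd s t hs ht) hK
    calc _ ≤ ∑ i' ∈ range I, K := Finset.sum_le_sum h3
      _ = I * K := by simp
  calc _ ≤ ∑ u ∈ range I ×ˢ range I, I * K := Finset.sum_le_sum h2
    _ = I ^ 3 * K := by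
      rw [Finset.sum_const, Finset.card_product, Finset.card_range, smul_eq_mul]
      ring

end ND_

theorem p_ND : T_ND := by
  intro L a b I d h1 hd
  have h0 := ND_.od_pos L d h1 hd
  refine ⟨h0, ?_, ?_⟩
  · have h2 := ND_.Nq_le L a b I d (I / od L d + 1) h1 hd
      (by have := Nat.lt_mul_div_succ I h0; omega)
    have h3 : ((Nq L a b I d : ℕ) : ℝ) ≤ ((I ^ 3 * (I / od L d + 1) : ℕ) : ℝ) := by
      exact_mod_cast h2
    refine h3.trans ?_
    push_cast
    have h4 : ((I / od L d : ℕ) : ℝ) ≤ (I : ℝ) / od L d := Nat.cast_div_le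
    have h5 : (0 : ℝ) ≤ (I : ℝ) ^ 3 := by positivity
    exact mul_le_mul_of_nonneg_left (by linarith) h5
  · intro hdv
    have h2 := ND_.Nq_le L a b I d (I / od L d) h1 hd (Nat.mul_div_cancel' hdv).ge
    have h3 : ((Nq L a b I d : ℕ) : ℝ) ≤ ((I ^ 3 * (I / od L d) : ℕ) : ℝ) := by
      exact_mod_cast h2
    refine h3.trans (le_of_eq ?_)
    have h4 : ((od L d : ℕ) : ℝ) ≠ 0 := by exact_mod_cast h0.ne'
    rw [Nat.cast_mul, Nat.cast_div hdv h4]
    push_cast
    field_simp

end Pool.Agent.Tri5
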