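import Pool.Agent.Tri5.Targets

/-!
# NU1: the Romanoff series is bounded by a sum over the largest prime factor
-/

set_option autoImplicit false

open Finset

namespace Pool.Agent.Tri5

namespace NU1_

/-- the divisors of `p * n` -/
lemma sum_div (p n : ℕ) (hp : p.Prime) (h : p.Coprime n) (f : ℕ → ℝ) :
    ∑ d ∈ (p * n).divisors, f d = ∑ d ∈ n.divisors, f d + ∑ d ∈ n.divisors, f (p * d) := by
  classical
  have h1 : (p * n).divisors = (p.divisors ×ˢ n.divisors).image (fun x => x.1 * x.2) := by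
    rw [Nat.divisors_mul, Finset.mul_def]
  rw [h1, Finset.sum_image (fun a ha b hb hab => h.mul_injOn_divisors ha hb hab),
    Finset.sum_product, hp.divisors, Finset.sum_pair hp.one_lt.ne]
  simp only [one_mul]

lemma cop (p : ℕ) (S : Finset ℕ) (hp : p.Prime) (hS : ∀ r ∈ S, r.Prime) (hpS : p ∉ S) :
    p.Coprime (∏ r ∈ S, r) :=
  Nat.Coprime.prod_right fun r hr => (Nat.coprime_primes hp (hS r hr)).2
    (fun h => hpS (h ▸ hr))

/-- the sum of `1 / φ` -/
lemma sum_phi (S : Finset ℕ) (hS : ∀ r ∈ S, r.Prime) :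
    ∑ d ∈ (∏ r ∈ S, r).divisors, (1 : ℝ) / Nat.totient d = ∏ r ∈ S, (1 + 1 / ((r : ℝ) - 1)) := by
  classical
  induction S using Finset.induction_on with
  | empty => simp
  | insert p S hpS ih =>
    have hp : p.Prime := hS p (Finset.mem_insert_self _ _)
    have hS' : ∀ r ∈ S, r.Prime := fun r hr => hS r (Finset.mem_insert_of_mem hr)
    have hc := cop p S hp hS' hpS
    rw [Finset.prod_insert hpS, Finset.prod_insert hpS, sum_div p _ hp hc, ← ih hS', add_mul,
      one_mul, Finset.mul_sum]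
    congr 1
    refine Finset.sum_congr rfl fun d hd => ?_
    rw [Nat.totient_mul (hc.coprime_dvd_right (Nat.dvd_of_mem_divisors hd)),
      Nat.totient_prime hp, Nat.cast_mul, Nat.cast_sub hp.one_le, Nat.cast_one, one_div_mul_one_div]

/-- the order is monotone -/
lemma od_dvd (L p d : ℕ) : od L p ∣ od L (p * d) := by
  unfold od
  have h := orderOf_map_dvd (ZMod.castHom (Dvd.intro d rfl : p ∣ p * d) (ZMod p)).toMonoidHom
    ((5 : ZMod (p * d)) ^ L)
  have h2 : (ZMod.castHom (Dvd.intro d rfl : p ∣ p * d) (ZMod p)).toMonoidHom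
    ((5 : ZMod (p * d)) ^ L) = (5 : ZMod p) ^ L := by
    show (ZMod.castHom (Dvd.intro d rfl : p ∣ p * d) (ZMod p)) ((5 : ZMod (p * d)) ^ L) = _
    rw [map_pow, map_ofNat]
  rw [h2] at h
  exact h

lemma term (L p d : ℕ) (hp : p.Prime) (hc : p.Coprime d) :
    (1 : ℝ) / (Nat.totient (p * d) * od L (p * d)) ≤
      1 / (((p : ℝ) - 1) * od L p) * (1 / Nat.totient d) := by
  have hp1 : (0 : ℝ) < (p : ℝ) - 1 := by
    have : (1 : ℝ) < p := by exact_mod_cast hp.one_lt
    linarith
  rw [Nat.totient_mul hc, Nat.totient_prime hp, Nat.cast_mul, Nat.cast_sub hp.one_le, Nat.cast_one]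
  rcases Nat.eq_zero_or_pos (od L (p * d)) with h0 | h0
  · rw [h0, Nat.cast_zero, mul_zero, div_zero]
    positivity
  · have h1 : od L p ≤ od L (p * d) := Nat.le_of_dvd h0 (od_dvd L p d)
    have h2 : 0 < od L p := Nat.pos_of_ne_zero fun h => by
      have h3 := od_dvd L p d
      rw [h, zero_dvd_iff] at h3
      omega
    have h1' : (od L p : ℝ) ≤ od L (p * d) := by exact_mod_cast h1
    have h2' : (0 : ℝ) < od L p := by exact_mod_cast h2
    rw [one_div_mul_one_div]
    rcases Nat.eq_zero_or_pos (Nat.totient d) with h4 | h4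
    · rw [h4]; simp
    · have h4' : (0 : ℝ) < Nat.totient d := by exact_mod_cast h4
      refine one_div_le_one_div_of_le (by positivity) ?_
      calc ((p : ℝ) - 1) * od L p * Nat.totient d = ((p : ℝ) - 1) * Nat.totient d * od L p := by
            ring
        _ ≤ _ := mul_le_mul_of_nonneg_left h1' (by positivity)

end NU1_

open NU1_ in
theorem p_NU1 : T_NU1 := by
  classical
  intro S
  induction S using Finset.induction_on_max with
  | empty =>
    intro _
    unfold GS
    simp
  | insert p S hlt ih =>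
    intro hS
    have hpS : p ∉ S := fun h => lt_irrefl _ (hlt p h)
    have hp : p.Prime := (hS p (Finset.mem_insert_self _ _)).1
    have hS' : ∀ r ∈ S, C3 r := fun r hr => hS r (Finset.mem_insert_of_mem hr)
    have hSp : ∀ r ∈ S, r.Prime := fun r hr => (hS' r hr).1
    have hc := cop p S hp hSp hpS
    have h1 := ih hS'
    have hpos : (∏ r ∈ S, r) ≠ 0 := Finset.prod_ne_zero_iff.2 fun r hr => (hSp r hr).ne_zero
    have hpos' : p * (∏ r ∈ S, r) ≠ 0 := mul_ne_zero hp.ne_zero hpos
    have e1 : GS 30 (insert p S) + 1 / ((Nat.totient 1 : ℕ) * od 30 1 : ℝ) =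
        (GS 30 S + 1 / ((Nat.totient 1 : ℕ) * od 30 1 : ℝ)) +
          ∑ d ∈ (∏ r ∈ S, r).divisors, (1 : ℝ) / (Nat.totient (p * d) * od 30 (p * d)) := by
      unfold GS
      rw [Finset.prod_insert hpS, Finset.sum_erase_add _ _ (Nat.one_mem_divisors.2 hpos'),
        Finset.sum_erase_add _ _ (Nat.one_mem_divisors.2 hpos), sum_div p _ hp hc]
    have e2 : ∑ d ∈ (∏ r ∈ S, r).divisors, (1 : ℝ) / (Nat.totient (p * d) * od 30 (p * d)) ≤
        1 / (((p : ℝ) - 1) * od 30 p) * ∏ r ∈ S, (1 + 1 / ((r : ℝ) - 1)) := by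
      rw [← sum_phi S hSp, Finset.mul_sum]
      exact Finset.sum_le_sum fun d hd =>
        term 30 p d hp (hc.coprime_dvd_right (Nat.dvd_of_mem_divisors hd))
    rw [Finset.sum_insert hpS]
    have e3 : tm (insert p S) p =
        1 / (((p : ℝ) - 1) * od 30 p) * ∏ r ∈ S, (1 + 1 / ((r : ℝ) - 1)) := by
      unfold tm
      congr 2
      ext r
      rw [Finset.mem_filter, Finset.mem_insert]
      constructor
      · rintro ⟨h | h, h2⟩
        · omega
        · exact h
      · intro h
        exact ⟨Or.inr h, hlt r h⟩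
    have e4 : ∑ r ∈ S, tm (insert p S) r = ∑ r ∈ S, tm S r := by
      refine Finset.sum_congr rfl fun r hr => ?_
      unfold tm
      congr 2
      ext s
      rw [Finset.mem_filter, Finset.mem_filter, Finset.mem_insert]
      constructor
      · rintro ⟨h | h, h2⟩
        · have := hlt r hr
          omega
        · exact ⟨h, h2⟩
      · rintro ⟨h, h2⟩
        exact ⟨Or.inr h, h2⟩
    rw [e3, e4]
    linarith

end Pool.Agent.Tri5
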