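import Pool.Agent.Tri5.Targets

set_option autoImplicit false

open Finset

namespace Pool.Agent.Tri5.NU2_

/-- Counts the powers of `b` modulo `m` until the first power equal to `1`. -/
def ordc (m b fuel : ℕ) : ℕ → ℕ → ℕ :=
  Nat.rec (motive := fun _ => ℕ → ℕ → ℕ) (fun _ j => j)
    (fun _ ih c j => cond (Nat.beq c 1) j (ih (Nat.mod (Nat.mul c b) m) (Nat.succ j))) fuel

/-- Skipped numbers. -/
def skip (R m : ℕ) : Bool :=
  cond (Nat.ble m 173) (or (or (Nat.beq m 31) (Nat.beq m 71)) (Nat.ble 2 (Nat.gcd m 30030)))
    (Nat.ble 2 (Nat.gcd m R))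

/-- The lower bound of the order. -/
def xo (m : ℕ) : ℕ := ordc m (Nat.mod (Nat.pow 5 30) m) 99 (Nat.mod (Nat.pow 5 30) m) 1

/-- The update of the product. -/
def uV (m V : ℕ) : ℕ := Nat.succ (Nat.div (Nat.mul V m) (Nat.pred m))

/-- The update of the sum. -/
def uG (m V G : ℕ) : ℕ := Nat.succ (Nat.add G (Nat.div V (Nat.mul (Nat.pred m) (xo m))))

/-- The main recursion. -/
def loop (R vm gm fuel : ℕ) : ℕ → ℕ → ℕ → Bool :=
  Nat.rec (motive := fun _ => ℕ → ℕ → ℕ → Bool) (fun _ _ _ => true)
    (fun _ ih m V G => cond (skip R m) (ih (Nat.add m 4) V G)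
      (cond (and (Nat.ble (uV m V) vm) (Nat.ble (uG m V G) gm))
        (ih (Nat.add m 4) (uV m V) (uG m V G)) false)) fuel

set_option maxRecDepth 1000000 in
theorem run : loop 36927733697396923753829554635211962404299715564140382424433649868278555214296659802052327860953228596413291334931704037143411082635200789592708437910693220744422451783693904122568819692138717826140678603271725989637483256524946200711557865266227200777205900363920166407372800000000000000000000000000000000000000000 1833000000000 49700000000 7496 19 1000000000000 0 = true := by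
  decide +kernel

set_option maxRecDepth 1000000 in
theorem fac : Nat.factorial 173 = 36927733697396923753829554635211962404299715564140382424433649868278555214296659802052327860953228596413291334931704037143411082635200789592708437910693220744422451783693904122568819692138717826140678603271725989637483256524946200711557865266227200777205900363920166407372800000000000000000000000000000000000000000 := by decide +kernel

theorem ordc_spec (m b : ℕ) : ∀ (fuel c j : ℕ), c = b ^ j % m → 1 ≤ j →
    j ≤ ordc m b fuel c j ∧ ∀ i, j ≤ i → i < ordc m b fuel c j → b ^ i % m ≠ 1 := by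
  intro fuel
  induction fuel with
  | zero =>
    intro c j hc hj
    refine ⟨le_refl _, fun i h1 h2 => ?_⟩
    change i < j at h2
    omega
  | succ k ih =>
    intro c j hc hj
    have e : ordc m b (k + 1) c j =
        cond (Nat.beq c 1) j (ordc m b k (Nat.mod (Nat.mul c b) m) (Nat.succ j)) := rfl
    by_cases h1 : c = 1
    · have : Nat.beq c 1 = true := by rw [h1]; rfl
      rw [e, this]
      refine ⟨le_refl _, fun i h1 h2 => ?_⟩
      change i < j at h2
      omega
    · have hb : Nat.beq c 1 = false := by
        cases h : Nat.beq c 1 with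
        | false => rfl
        | true => exact absurd (Nat.eq_of_beq_eq_true h) h1
      rw [e, hb]
      have hc' : Nat.mod (Nat.mul c b) m = b ^ (Nat.succ j) % m := by
        change (c * b) % m = _
        rw [hc, pow_succ, Nat.mod_mul_mod]
      obtain ⟨h2, h3⟩ := ih (Nat.mod (Nat.mul c b) m) (Nat.succ j) hc' (by omega)
      change j ≤ ordc m b k (Nat.mod (Nat.mul c b) m) (Nat.succ j) ∧ ∀ i, j ≤ i →
        i < ordc m b k (Nat.mod (Nat.mul c b) m) (Nat.succ j) → b ^ i % m ≠ 1
      refine ⟨by omega, fun i hi1 hi2 => ?_⟩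
      rcases Nat.eq_or_lt_of_le hi1 with h | h
      · rw [← h, ← hc]; exact h1
      · exact h3 i (by omega) hi2

theorem xo_pos (m : ℕ) : 1 ≤ xo m := by
  have := (ordc_spec m (5 ^ 30 % m) 99 (5 ^ 30 % m) 1 (by rw [pow_one, Nat.mod_mod]) (le_refl _)).1
  exact this

theorem xo_le (p : ℕ) (hp : p.Prime) (h5 : p ≠ 5) (h2 : 2 < p) : xo p ≤ od 30 p := by
  have : Fact p.Prime := ⟨hp⟩
  unfold od
  have hne : ((5 : ZMod p) ^ 30) ≠ 0 := by
    apply pow_ne_zero
    intro h
    have : ((5 : ℕ) : ZMod p) = 0 := by exact_mod_cast h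
    rw [ZMod.natCast_eq_zero_iff] at this
    exact h5 ((Nat.prime_dvd_prime_iff_eq hp Nat.prime_five).1 this)
  have hpos : 0 < orderOf ((5 : ZMod p) ^ 30) := by
    rw [orderOf_pos_iff]
    exact isOfFinOrder_iff_pow_eq_one.2 ⟨p - 1, by have := hp.two_le; omega,
      ZMod.pow_card_sub_one_eq_one hne⟩
  by_contra hlt
  push Not at hlt
  have hlt' : orderOf ((5 : ZMod p) ^ 30) < ordc p (5 ^ 30 % p) 99 (5 ^ 30 % p) 1 := hlt
  have h := (ordc_spec p (5 ^ 30 % p) 99 (5 ^ 30 % p) 1 (by rw [pow_one, Nat.mod_mod])
    (le_refl _)).2 (orderOf ((5 : ZMod p) ^ 30)) hpos hlt'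
  apply h
  have h1 : ((5 : ZMod p) ^ 30) ^ (orderOf ((5 : ZMod p) ^ 30)) = 1 := pow_orderOf_eq_one _
  have h3 : (((5 ^ 30 % p) ^ (orderOf ((5 : ZMod p) ^ 30)) : ℕ) : ZMod p) = ((1 : ℕ) : ZMod p) := by
    rw [Nat.cast_pow, ZMod.natCast_mod, Nat.cast_pow, Nat.cast_one]
    exact h1
  have h4 := (ZMod.natCast_eq_natCast_iff' _ _ _).1 h3
  rw [h4]
  exact Nat.mod_eq_of_lt (by omega)

theorem skip_spec (m : ℕ) (h : skip 36927733697396923753829554635211962404299715564140382424433649868278555214296659802052327860953228596413291334931704037143411082635200789592708437910693220744422451783693904122568819692138717826140678603271725989637483256524946200711557865266227200777205900363920166407372800000000000000000000000000000000000000000 m = true) : ¬ (C3 m ∧ 19 ≤ m) := by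
  rintro ⟨⟨hp, h4, h3, h7, h11, h31, h71⟩, h19⟩
  unfold skip at h
  by_cases hm : m ≤ 173
  · rw [Nat.ble_eq_true_of_le hm] at h
    simp only [cond_true, Bool.or_eq_true] at h
    rcases h with (h | h) | h
    · exact h31 (Nat.eq_of_beq_eq_true h)
    · exact h71 (Nat.eq_of_beq_eq_true h)
    · have h2 := Nat.le_of_ble_eq_true h
      have hd : m ∣ 30030 := by
        rcases (Nat.dvd_prime hp).1 (Nat.gcd_dvd_left m 30030) with h | h
        · omega
        · rw [← h]; exact Nat.gcd_dvd_right m 30030
      have : m ∣ 2 * 3 * 5 * 7 * 11 * 13 := by norm_num; exact hd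
      have h13 : m ∣ Nat.factorial 13 := this.trans (by decide)
      have := (hp.dvd_factorial).1 h13
      omega
  · have hb : Nat.ble m 173 = false := by
      cases h' : Nat.ble m 173 with
      | false => rfl
      | true => exact absurd (Nat.le_of_ble_eq_true h') hm
    rw [hb] at h
    simp only [cond_false] at h
    have h2 := Nat.le_of_ble_eq_true h
    rw [← fac] at h2
    have hd : m ∣ Nat.factorial 173 := by
      rcases (Nat.dvd_prime hp).1 (Nat.gcd_dvd_left m (Nat.factorial 173)) with h | h
      · omega
      · rw [← h]; exact Nat.gcd_dvd_right m (Nat.factorial 173)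
    have := (hp.dvd_factorial).1 hd
    omega

instance decC3 : DecidablePred C3 := fun p => by unfold C3; infer_instance

/-- The relevant primes below `n`. -/
def PS (n : ℕ) : Finset ℕ := (range n).filter C3

/-- The product. -/
noncomputable def A (n : ℕ) : ℝ := ∏ p ∈ PS n, (1 + 1 / ((p : ℝ) - 1))

/-- The sum. -/
noncomputable def B (n : ℕ) : ℝ := ∑ p ∈ PS n, 1 / (((p : ℝ) - 1) * od 30 p) * A p

theorem mem_PS (n p : ℕ) : p ∈ PS n ↔ p < n ∧ C3 p := by
  unfold PS; rw [mem_filter, mem_range]

theorem PS_step (m : ℕ) (hm : m % 4 = 3) (h : ¬ C3 m) : PS (m + 4) = PS m := by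
  ext p
  rw [mem_PS, mem_PS]
  constructor
  · rintro ⟨h1, h2⟩
    refine ⟨?_, h2⟩
    have := h2.2.1
    by_contra h3
    have : p = m := by omega
    exact h (this ▸ h2)
  · rintro ⟨h1, h2⟩
    exact ⟨by omega, h2⟩

theorem PS_step' (m : ℕ) (hm : m % 4 = 3) (h : C3 m) : PS (m + 4) = insert m (PS m) := by
  ext p
  rw [mem_insert, mem_PS, mem_PS]
  constructor
  · rintro ⟨h1, h2⟩
    have := h2.2.1
    by_cases h3 : p < m
    · exact Or.inr ⟨h3, h2⟩
    · exact Or.inl (by omega)
  · rintro (h1 | ⟨h1, h2⟩)
    · exact ⟨by omega, h1 ▸ h⟩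
    · exact ⟨by omega, h2⟩

theorem nmem_PS (m : ℕ) : m ∉ PS m := by
  rw [mem_PS]; omega

theorem A_nonneg (n : ℕ) : 0 ≤ A n := by
  apply prod_nonneg
  intro p hp
  rw [mem_PS] at hp
  have : (2 : ℝ) ≤ p := by exact_mod_cast hp.2.1.two_le
  have : (0 : ℝ) < (p : ℝ) - 1 := by linarith
  positivity

theorem one_le_term (p : ℕ) (hp : p.Prime) : (1 : ℝ) ≤ 1 + 1 / ((p : ℝ) - 1) := by
  have : (2 : ℝ) ≤ p := by exact_mod_cast hp.two_le
  have : (0 : ℝ) < (p : ℝ) - 1 := by linarith
  have : 0 ≤ 1 / ((p : ℝ) - 1) := by positivity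
  linarith

theorem term_eq (m : ℕ) (hm : 2 ≤ m) : (1 : ℝ) + 1 / ((m : ℝ) - 1) = m / ((m - 1 : ℕ) : ℝ) := by
  rw [Nat.cast_sub (by omega : 1 ≤ m)]
  have : (2 : ℝ) ≤ m := by exact_mod_cast hm
  have : (m : ℝ) - 1 ≠ 0 := by linarith
  push_cast
  field_simp
  ring

theorem div_lt (a b : ℕ) (hb : 0 < b) : (a : ℝ) / b ≤ ((a / b + 1 : ℕ) : ℝ) := by
  rw [div_le_iff₀ (by exact_mod_cast hb)]
  have := Nat.lt_mul_div_succ a hb
  have h2 : a ≤ (a / b + 1) * b := by rw [mul_comm]; exact this.le
  exact_mod_cast h2

theorem main (vm gm : ℕ) : ∀ (fuel m V G : ℕ), m % 4 = 3 → 19 ≤ m → V ≤ vm → G ≤ gm →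
    A m ≤ (V : ℝ) / 10 ^ 12 → B m ≤ (G : ℝ) / 10 ^ 12 →
    loop 36927733697396923753829554635211962404299715564140382424433649868278555214296659802052327860953228596413291334931704037143411082635200789592708437910693220744422451783693904122568819692138717826140678603271725989637483256524946200711557865266227200777205900363920166407372800000000000000000000000000000000000000000 vm gm fuel m V G = true →
    A (m + 4 * fuel) ≤ (vm : ℝ) / 10 ^ 12 ∧ B (m + 4 * fuel) ≤ (gm : ℝ) / 10 ^ 12 := by
  intro fuel
  induction fuel with
  | zero =>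
    intro m V G _ _ hV hG hA hB _
    have h1 : (V : ℝ) ≤ vm := by exact_mod_cast hV
    have h2 : (G : ℝ) ≤ gm := by exact_mod_cast hG
    refine ⟨hA.trans ?_, hB.trans ?_⟩ <;> gcongr
  | succ k ih =>
    intro m V G hm h19 hV hG hA hB hl
    have e : loop 36927733697396923753829554635211962404299715564140382424433649868278555214296659802052327860953228596413291334931704037143411082635200789592708437910693220744422451783693904122568819692138717826140678603271725989637483256524946200711557865266227200777205900363920166407372800000000000000000000000000000000000000000 vm gm (k + 1) m V G = cond (skip 36927733697396923753829554635211962404299715564140382424433649868278555214296659802052327860953228596413291334931704037143411082635200789592708437910693220744422451783693904122568819692138717826140678603271725989637483256524946200711557865266227200777205900363920166407372800000000000000000000000000000000000000000 m) (loop 36927733697396923753829554635211962404299715564140382424433649868278555214296659802052327860953228596413291334931704037143411082635200789592708437910693220744422451783693904122568819692138717826140678603271725989637483256524946200711557865266227200777205900363920166407372800000000000000000000000000000000000000000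 vm gm k (Nat.add m 4) V G)
      (cond (and (Nat.ble (uV m V) vm) (Nat.ble (uG m V G) gm))
        (loop 36927733697396923753829554635211962404299715564140382424433649868278555214296659802052327860953228596413291334931704037143411082635200789592708437910693220744422451783693904122568819692138717826140678603271725989637483256524946200711557865266227200777205900363920166407372800000000000000000000000000000000000000000 vm gm k (Nat.add m 4) (uV m V) (uG m V G)) false) := rfl
    rw [e] at hl
    have e2 : m + 4 * (k + 1) = (m + 4) + 4 * k := by ring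
    rw [e2]
    cases hs : skip 36927733697396923753829554635211962404299715564140382424433649868278555214296659802052327860953228596413291334931704037143411082635200789592708437910693220744422451783693904122568819692138717826140678603271725989637483256524946200711557865266227200777205900363920166407372800000000000000000000000000000000000000000 m with
    | true =>
      rw [hs] at hl
      have hn : ¬ C3 m := fun h => skip_spec m hs ⟨h, h19⟩
      have h1 : A (m + 4) = A m := by unfold A; rw [PS_step m hm hn]
      have h2 : B (m + 4) = B m := by unfold B; rw [PS_step m hm hn]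
      exact ih (m + 4) V G (by omega) (by omega) hV hG (h1 ▸ hA) (h2 ▸ hB) hl
    | false =>
      rw [hs] at hl
      simp only [cond_false] at hl
      cases hc : (and (Nat.ble (uV m V) vm) (Nat.ble (uG m V G) gm)) with
      | false => rw [hc] at hl; simp at hl
      | true =>
        rw [hc] at hl
        simp only [cond_true] at hl
        rw [Bool.and_eq_true] at hc
        have hV' := Nat.le_of_ble_eq_true hc.1
        have hG' := Nat.le_of_ble_eq_true hc.2
        have hpos : 0 < m - 1 := by omega
        have hx := xo_pos m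
        have bV : A m * (m / ((m - 1 : ℕ) : ℝ)) ≤ ((uV m V : ℕ) : ℝ) / 10 ^ 12 := by
          have h1 := div_lt (V * m) (m - 1) hpos
          have h2 : ((uV m V : ℕ) : ℝ) = ((V * m / (m - 1) + 1 : ℕ) : ℝ) := rfl
          rw [h2]
          have h3 : A m * (m / ((m - 1 : ℕ) : ℝ)) ≤ (V : ℝ) / 10 ^ 12 * (m / ((m - 1 : ℕ) : ℝ)) := by
            gcongr
          refine h3.trans ?_
          rw [le_div_iff₀ (by positivity)]
          refine le_trans (le_of_eq ?_) h1
          push_cast
          have : ((m - 1 : ℕ) : ℝ) ≠ 0 := by exact_mod_cast hpos.ne'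
          field_simp
        have bG : B m + A m / (((m - 1 : ℕ) : ℝ) * (xo m : ℝ)) ≤ ((uG m V G : ℕ) : ℝ) / 10 ^ 12 := by
          have h1 := div_lt V ((m - 1) * xo m) (Nat.mul_pos hpos hx)
          have h2 : ((uG m V G : ℕ) : ℝ) = (G : ℝ) + ((V / ((m - 1) * xo m) + 1 : ℕ) : ℝ) := by
            have : uG m V G = G + (V / ((m - 1) * xo m) + 1) := rfl
            rw [this]; push_cast; ring
          rw [h2, add_div]
          refine add_le_add hB ?_
          rw [le_div_iff₀ (by positivity)]
          refine le_trans ?_ h1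
          push_cast
          rw [div_mul_eq_mul_div]
          gcongr
          have := (le_div_iff₀ (by positivity : (0 : ℝ) < 10 ^ 12)).1 hA
          exact this
        have hmR : (2 : ℝ) ≤ m := by exact_mod_cast (by omega : 2 ≤ m)
        by_cases hC : C3 m
        · have h1 : A (m + 4) = A m * (m / ((m - 1 : ℕ) : ℝ)) := by
            unfold A
            rw [PS_step' m hm hC, prod_insert (nmem_PS m), term_eq m (by omega), mul_comm]
          have h2 : B (m + 4) ≤ B m + A m / (((m - 1 : ℕ) : ℝ) * (xo m : ℝ)) := by
            unfold B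
            rw [PS_step' m hm hC, sum_insert (nmem_PS m), add_comm]
            refine add_le_add (le_refl _) ?_
            rw [one_div, inv_mul_eq_div]
            have hm1 : ((m - 1 : ℕ) : ℝ) = (m : ℝ) - 1 := by
              rw [Nat.cast_sub (by omega : 1 ≤ m)]; simp
            rw [hm1]
            have h5 : m ≠ 5 := by omega
            have hxl : (xo m : ℝ) ≤ od 30 m := by exact_mod_cast xo_le m hC.1 h5 (by omega)
            have hx' : (0 : ℝ) < xo m := by exact_mod_cast hx
            have : (0 : ℝ) < (m : ℝ) - 1 := by linarith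
            apply div_le_div_of_nonneg_left (A_nonneg m) (by positivity)
            gcongr
          exact ih (m + 4) (uV m V) (uG m V G) (by omega) (by omega) hV' hG'
            (h1 ▸ bV) (h2.trans bG) hl
        · have h1 : A (m + 4) = A m := by unfold A; rw [PS_step m hm hC]
          have h2 : B (m + 4) = B m := by unfold B; rw [PS_step m hm hC]
          have hf : (1 : ℝ) ≤ m / ((m - 1 : ℕ) : ℝ) := by
            rw [← term_eq m (by omega)]
            have : (0 : ℝ) < (m : ℝ) - 1 := by linarith
            have : 0 ≤ 1 / ((m : ℝ) - 1) := by positivity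
            linarith
          refine ih (m + 4) (uV m V) (uG m V G) (by omega) (by omega) hV' hG' ?_ ?_ hl
          · rw [h1]
            refine le_trans ?_ bV
            have := A_nonneg m
            nlinarith
          · rw [h2]
            refine le_trans ?_ bG
            have := A_nonneg m
            have : 0 ≤ A m / (((m - 1 : ℕ) : ℝ) * (xo m : ℝ)) := by positivity
            linarith

theorem start : PS 19 = ∅ := by
  rw [eq_empty_iff_forall_notMem]
  intro p hp
  rw [mem_PS] at hp
  obtain ⟨h1, hp, h4, h3, h7, h11, -, -⟩ := hp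
  have : p = 15 := by omega
  rw [this] at hp
  exact absurd hp (by norm_num)

theorem fin : A 30003 ≤ 1833 / 1000 ∧ B 30003 ≤ 497 / 10000 := by
  have h := main 1833000000000 49700000000 7496 19 1000000000000 0 (by norm_num) (by norm_num)
    (by norm_num) (by norm_num) (by unfold A; rw [start]; norm_num)
    (by unfold B; rw [start]; norm_num) run
  norm_num at h ⊢
  exact h

theorem A_mono_sub (S T : Finset ℕ) (h : S ⊆ T) (hT : ∀ p ∈ T, p.Prime) :
    ∏ p ∈ S, (1 + 1 / ((p : ℝ) - 1)) ≤ ∏ p ∈ T, (1 + 1 / ((p : ℝ) - 1)) := by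
  rw [← prod_sdiff h]
  have h1 : (1 : ℝ) ≤ ∏ p ∈ T \ S, (1 + 1 / ((p : ℝ) - 1)) := by
    have h0 : ∏ _p ∈ T \ S, (1 : ℝ) ≤ ∏ p ∈ T \ S, (1 + 1 / ((p : ℝ) - 1)) := by
      apply prod_le_prod
      · intro p _; norm_num
      · intro p hp; exact one_le_term p (hT p (mem_sdiff.1 hp).1)
    rwa [prod_const_one] at h0
  have h2 : (0 : ℝ) ≤ ∏ p ∈ S, (1 + 1 / ((p : ℝ) - 1)) := by
    apply prod_nonneg
    intro p hp
    have := one_le_term p (hT p (h hp))
    linarith
  nlinarith

theorem PS_prime (n p : ℕ) (h : p ∈ PS n) : p.Prime := ((mem_PS n p).1 h).2.1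

end Pool.Agent.Tri5.NU2_

namespace Pool.Agent.Tri5

open NU2_ in
theorem p_NU2 : T_NU2 := by
  intro S hS
  have hsub : S ⊆ PS 30003 := by
    intro p hp
    rw [mem_PS]
    have := hS p hp
    exact ⟨by omega, this.1⟩
  refine ⟨?_, (A_mono_sub S (PS 30003) hsub (PS_prime 30003)).trans fin.1⟩
  refine le_trans ?_ fin.2
  unfold B
  have h1 : ∑ p ∈ S, tm S p ≤ ∑ p ∈ S, 1 / (((p : ℝ) - 1) * od 30 p) * A p := by
    apply sum_le_sum
    intro p hp
    unfold tm
    have hp1 := (hS p hp).1.1
    have : (2 : ℝ) ≤ p := by exact_mod_cast hp1.two_le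
    have : (0 : ℝ) < (p : ℝ) - 1 := by linarith
    apply mul_le_mul_of_nonneg_left _ (by positivity)
    apply A_mono_sub _ _ _ (PS_prime p)
    intro r hr
    rw [mem_filter] at hr
    rw [mem_PS]
    exact ⟨hr.2, (hS r hr.1).1⟩
  refine h1.trans (sum_le_sum_of_subset_of_nonneg hsub ?_)
  intro p hp _
  have hp1 := PS_prime _ _ hp
  have : (2 : ℝ) ≤ p := by exact_mod_cast hp1.two_le
  have : (0 : ℝ) < (p : ℝ) - 1 := by linarith
  have := A_nonneg p
  positivity

end Pool.Agent.Tri5
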