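import Pool.Agent.Tri5.Targets

/-!
# NU3: the tail of the Romanoff series
-/

set_option autoImplicit false

open Finset

namespace Pool.Agent.Tri5

namespace NU3_

theorem gcdsum : ∑ t ∈ (range 391).filter Odd, Nat.gcd t 15 = 585 := by decide +kernel

/-- the constant `30000 ^ (-1/4)` -/
theorem cle : (30000 : ℝ) ^ (-(1 : ℝ) / 4) ≤ 8 / 100 := by
  have h1 : ((8 : ℝ) / 100) = (((8 : ℝ) / 100) ^ (4 : ℝ)) ^ ((1 : ℝ) / 4) := by
    rw [← Real.rpow_mul (by norm_num)]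
    norm_num
  have h2 : (30000 : ℝ) ^ (-(1 : ℝ) / 4) = ((30000 : ℝ)⁻¹) ^ ((1 : ℝ) / 4) := by
    rw [Real.inv_rpow (by norm_num), ← Real.rpow_neg (by norm_num)]
    norm_num
  rw [h1, h2]
  apply Real.rpow_le_rpow (by norm_num) _ (by norm_num)
  rw [show (4 : ℝ) = ((4 : ℕ) : ℝ) by norm_num, Real.rpow_natCast]
  norm_num

theorem sq390 : 3 / Real.sqrt 390 ≤ 30 / 197 := by
  have h1 : (197 : ℝ) / 10 ≤ Real.sqrt 390 := by
    apply Real.le_sqrt_of_sq_le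
    norm_num
  rw [div_le_div_iff₀ (by positivity) (by norm_num)]
  linarith

theorem split1 (P : ℝ) (hP : 0 < P) : 1 / P * (P / 30000) ^ ((1 : ℝ) / 4) =
    (30000 : ℝ) ^ (-(1 : ℝ) / 4) * P ^ (-(3 : ℝ) / 4) := by
  rw [Real.div_rpow hP.le (by norm_num)]
  have h1 : P ^ (-(3 : ℝ) / 4) = P ^ ((1 : ℝ) / 4) * P⁻¹ := by
    rw [← Real.rpow_neg_one P, ← Real.rpow_add hP]
    norm_num
  have h2 : (30000 : ℝ) ^ (-(1 : ℝ) / 4) = ((30000 : ℝ) ^ ((1 : ℝ) / 4))⁻¹ := by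
    rw [← Real.rpow_neg (by norm_num)]
    norm_num
  rw [h1, h2]
  ring

end NU3_

open NU3_ in
open Classical in
theorem p_NU3 (h1 : T_N3A) (h2 : T_N3B) (h3 : T_N3C) (h4 : T_N3D) : T_NU3 := by
  intro S hS
  have hch : ∀ p : ℕ, ∃ t : ℕ, p ∈ S → (Odd t ∧ p ∣ 5 ^ (2 * t) - 1 ∧ t ∣ p - 1 ∧
      od 30 p * Nat.gcd t 15 = t) := by
    intro p
    by_cases hp : p ∈ S
    · obtain ⟨t, ht⟩ := h4 p (hS p hp).1.1 (hS p hp).1.2.1
      exact ⟨t, fun _ => ht⟩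
    · exact ⟨0, fun h => absurd h hp⟩
  choose t ht using hch
  obtain ⟨c, hc⟩ : ∃ c : ℝ, c = (30000 : ℝ) ^ (-(1 : ℝ) / 4) := ⟨_, rfl⟩
  have hc0 : 0 < c := by rw [hc]; positivity
  have hc1 : c ≤ 8 / 100 := by rw [hc]; exact cle
  have hP : ∀ p ∈ S, (30000 : ℝ) ≤ (p : ℝ) - 1 := by
    intro p hp
    have : 30001 ≤ p := (hS p hp).2
    have : (30001 : ℝ) ≤ p := by exact_mod_cast this
    linarith
  have hterm : ∀ p ∈ S, tm S p ≤
      c * (((Nat.gcd (t p) 15 : ℕ) : ℝ) / (t p)) * ((p : ℝ) - 1) ^ (-(3 : ℝ) / 4) := by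
    intro p hp
    obtain ⟨hodd, -, -, hod⟩ := ht p hp
    have hP0 : 0 < (p : ℝ) - 1 := by linarith [hP p hp]
    have ht0 : 0 < t p := hodd.pos
    have hod0 : 0 < od 30 p := by
      apply Nat.pos_of_ne_zero
      intro h
      rw [h, zero_mul] at hod
      omega
    have hodr : (0 : ℝ) < od 30 p := by exact_mod_cast hod0
    have htr : (0 : ℝ) < t p := by exact_mod_cast ht0
    have e1 : ((Nat.gcd (t p) 15 : ℕ) : ℝ) / (t p) = 1 / od 30 p := by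
      have : (od 30 p : ℝ) * ((Nat.gcd (t p) 15 : ℕ) : ℝ) = t p := by exact_mod_cast hod
      rw [div_eq_div_iff htr.ne' hodr.ne']
      linarith
    have h5 := h1 S p (fun r hr => hS r hr) hp
    unfold tm
    calc 1 / (((p : ℝ) - 1) * od 30 p) * ∏ r ∈ S.filter (fun r => r < p), (1 + 1 / ((r : ℝ) - 1))
        ≤ 1 / (((p : ℝ) - 1) * od 30 p) * (((p : ℝ) - 1) / 30000) ^ ((1 : ℝ) / 4) :=
          mul_le_mul_of_nonneg_left h5 (by positivity)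
      _ = (1 / od 30 p) * (1 / ((p : ℝ) - 1) * (((p : ℝ) - 1) / 30000) ^ ((1 : ℝ) / 4)) := by
          rw [one_div, mul_inv]
          ring
      _ = c * (((Nat.gcd (t p) 15 : ℕ) : ℝ) / (t p)) * ((p : ℝ) - 1) ^ (-(3 : ℝ) / 4) := by
          rw [split1 _ hP0, e1, ← hc]
          ring
  -- grouping
  have hgr : ∑ p ∈ S, tm S p ≤ ∑ τ ∈ S.image t, ∑ p ∈ S.filter (fun p => t p = τ),
      c * (((Nat.gcd τ 15 : ℕ) : ℝ) / τ) * ((p : ℝ) - 1) ^ (-(3 : ℝ) / 4) := by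
    rw [← Finset.sum_fiberwise_of_maps_to (fun p hp => mem_image_of_mem t hp)]
    refine Finset.sum_le_sum fun τ _ => Finset.sum_le_sum fun p hp => ?_
    rw [mem_filter] at hp
    rw [← hp.2]
    exact hterm p hp.1
  have hτ : ∀ τ ∈ S.image t, ∑ p ∈ S.filter (fun p => t p = τ),
      c * (((Nat.gcd τ 15 : ℕ) : ℝ) / τ) * ((p : ℝ) - 1) ^ (-(3 : ℝ) / 4) ≤
      if τ ≤ 390 then 313 / 1000 * ((Nat.gcd τ 15 : ℕ) : ℝ) / 30000
      else c * (53 / 50) * ((Nat.gcd τ 15 : ℕ) * (τ : ℝ) ^ (-(3 : ℝ) / 2)) := by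
    intro τ hτ
    obtain ⟨p₀, hp₀, hpt⟩ := mem_image.mp hτ
    have hodd : Odd τ := by rw [← hpt]; exact (ht p₀ hp₀).1
    have hτ0 : (0 : ℝ) < τ := by exact_mod_cast hodd.pos
    obtain ⟨b1, b2⟩ := h2 τ (S.filter (fun p => t p = τ)) hodd (by
      intro p hp
      rw [mem_filter] at hp
      obtain ⟨hpS, hpt'⟩ := hp
      obtain ⟨-, c2, c3, -⟩ := ht p hpS
      rw [hpt'] at c2 c3
      exact ⟨(hS p hpS).1.1, (hS p hpS).1.2.1, (hS p hpS).2, c2, c3⟩)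
    rw [← Finset.mul_sum]
    have hg0 : (0 : ℝ) ≤ c * (((Nat.gcd τ 15 : ℕ) : ℝ) / τ) := by positivity
    split_ifs with h390
    · have b3 : ∑ p ∈ S.filter (fun p => t p = τ), ((p : ℝ) - 1) ^ (-(3 : ℝ) / 4) ≤
          (313 / 1000 * τ) * (30000 : ℝ) ^ (-(3 : ℝ) / 4) := by
        calc ∑ p ∈ S.filter (fun p => t p = τ), ((p : ℝ) - 1) ^ (-(3 : ℝ) / 4)
            ≤ ∑ p ∈ S.filter (fun p => t p = τ), (30000 : ℝ) ^ (-(3 : ℝ) / 4) := by
              refine Finset.sum_le_sum fun p hp => ?_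
              exact Real.rpow_le_rpow_of_nonpos (by norm_num) (hP p (mem_filter.mp hp).1)
                (by norm_num)
          _ = ((S.filter (fun p => t p = τ)).card : ℝ) * (30000 : ℝ) ^ (-(3 : ℝ) / 4) := by
              rw [Finset.sum_const, nsmul_eq_mul]
          _ ≤ _ := mul_le_mul_of_nonneg_right b1 (by positivity)
      have e1 : c * (30000 : ℝ) ^ (-(3 : ℝ) / 4) = 1 / 30000 := by
        rw [hc, ← Real.rpow_add (by norm_num)]
        norm_num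
      calc c * (((Nat.gcd τ 15 : ℕ) : ℝ) / τ) *
            ∑ p ∈ S.filter (fun p => t p = τ), ((p : ℝ) - 1) ^ (-(3 : ℝ) / 4)
          ≤ c * (((Nat.gcd τ 15 : ℕ) : ℝ) / τ) * ((313 / 1000 * τ) * (30000 : ℝ) ^ (-(3 : ℝ) / 4)) :=
            mul_le_mul_of_nonneg_left b3 hg0
        _ = (c * (30000 : ℝ) ^ (-(3 : ℝ) / 4)) * (313 / 1000) * ((Nat.gcd τ 15 : ℕ) : ℝ) := by
            field_simp
        _ = 313 / 1000 * ((Nat.gcd τ 15 : ℕ) : ℝ) / 30000 := by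
            rw [e1]
            ring
    · have e1 : (τ : ℝ) ^ (-(3 : ℝ) / 2) = (τ : ℝ)⁻¹ * (τ : ℝ) ^ (-(1 : ℝ) / 2) := by
        rw [← Real.rpow_neg_one (τ : ℝ), ← Real.rpow_add hτ0]
        norm_num
      calc c * (((Nat.gcd τ 15 : ℕ) : ℝ) / τ) *
            ∑ p ∈ S.filter (fun p => t p = τ), ((p : ℝ) - 1) ^ (-(3 : ℝ) / 4)
          ≤ c * (((Nat.gcd τ 15 : ℕ) : ℝ) / τ) * (53 / 50 * (τ : ℝ) ^ (-(1 : ℝ) / 2)) :=
            mul_le_mul_of_nonneg_left b2 hg0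
        _ = c * (53 / 50) * ((Nat.gcd τ 15 : ℕ) * (τ : ℝ) ^ (-(3 : ℝ) / 2)) := by
            rw [e1]
            ring
  have hoddT : ∀ τ ∈ S.image t, Odd τ := by
    intro τ hτ'
    obtain ⟨p₀, hp₀, hpt⟩ := mem_image.mp hτ'
    rw [← hpt]
    exact (ht p₀ hp₀).1
  refine (hgr.trans (Finset.sum_le_sum hτ)).trans ?_
  rw [Finset.sum_ite]
  have s1 : ∑ τ ∈ (S.image t).filter (fun τ => τ ≤ 390),
      313 / 1000 * ((Nat.gcd τ 15 : ℕ) : ℝ) / 30000 ≤ 313 / 1000 * 585 / 30000 := by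
    have hsub : (S.image t).filter (fun τ => τ ≤ 390) ⊆ (range 391).filter Odd := by
      intro τ hτ'
      rw [mem_filter] at hτ' ⊢
      exact ⟨mem_range.mpr (by omega), hoddT τ hτ'.1⟩
    refine (Finset.sum_le_sum_of_subset_of_nonneg hsub (fun _ _ _ => by positivity)).trans ?_
    rw [← Finset.sum_div, ← Finset.mul_sum]
    have : ∑ τ ∈ (range 391).filter Odd, ((Nat.gcd τ 15 : ℕ) : ℝ) = 585 := by
      exact_mod_cast gcdsum
    rw [this]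
  have s2 : ∑ τ ∈ (S.image t).filter (fun τ => ¬ τ ≤ 390),
      c * (53 / 50) * ((Nat.gcd τ 15 : ℕ) * (τ : ℝ) ^ (-(3 : ℝ) / 2)) ≤
      c * (53 / 50) * (3 / Real.sqrt 390) := by
    rw [← Finset.mul_sum]
    apply mul_le_mul_of_nonneg_left _ (by positivity)
    apply h3
    intro τ hτ'
    rw [mem_filter] at hτ'
    exact ⟨hoddT τ hτ'.1, by omega⟩
  have s3 : c * (53 / 50) * (3 / Real.sqrt 390) ≤ 8 / 100 * (53 / 50) * (30 / 197) := by
    apply mul_le_mul _ sq390 (by positivity) (by norm_num)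
    exact mul_le_mul_of_nonneg_right hc1 (by norm_num)
  have s4 : (313 : ℝ) / 1000 * 585 / 30000 + 8 / 100 * (53 / 50) * (30 / 197) ≤ 2 / 100 := by
    norm_num
  linarith

end Pool.Agent.Tri5
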