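import Pool.Agent.Tri5.Targets

set_option autoImplicit false

open Finset

namespace Pool.Agent.Tri5

theorem p_NUM (h1 : T_NU1) (h2 : T_NU2) (h3 : T_NU3) : T_NUM := by
  intro S hS
  set S1 := S.filter (fun p => p < 30000) with hS1
  set S2 := S.filter (fun p => ¬ p < 30000) with hS2
  have e1 : ∀ p ∈ S1, tm S p = tm S1 p := by
    intro p hp
    have hp' := (mem_filter.1 hp).2
    unfold tm
    congr 1
    apply prod_congr _ fun _ _ => rfl
    ext r
    simp only [hS1, mem_filter]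
    constructor
    · rintro ⟨a, b⟩
      exact ⟨⟨a, by omega⟩, b⟩
    · rintro ⟨⟨a, _⟩, b⟩
      exact ⟨a, b⟩
  have e2 : ∀ p ∈ S2, tm S p = (∏ r ∈ S1, (1 + 1 / ((r : ℝ) - 1))) * tm S2 p := by
    intro p hp
    have hp' := (mem_filter.1 hp).2
    unfold tm
    have e3 : S.filter (fun r => r < p) = S1 ∪ S2.filter (fun r => r < p) := by
      ext r
      simp only [hS1, hS2, mem_filter, mem_union]
      constructor
      · rintro ⟨a, b⟩
        by_cases h : r < 30000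
        · exact Or.inl ⟨a, h⟩
        · exact Or.inr ⟨⟨a, h⟩, b⟩
      · rintro (⟨a, b⟩ | ⟨⟨a, _⟩, b⟩)
        · exact ⟨a, by omega⟩
        · exact ⟨a, b⟩
    have e4 : Disjoint S1 (S2.filter (fun r => r < p)) := by
      rw [Finset.disjoint_left]
      intro r hr hr'
      exact (mem_filter.1 (mem_filter.1 hr').1).2 (mem_filter.1 hr).2
    rw [e3, prod_union e4]
    ring
  have hC1 : ∀ p ∈ S1, C3 p ∧ p < 30000 := fun p hp =>
    ⟨hS p (mem_filter.1 hp).1, (mem_filter.1 hp).2⟩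
  have hC2 : ∀ p ∈ S2, C3 p ∧ 30000 < p := by
    intro p hp
    have hc := hS p (mem_filter.1 hp).1
    refine ⟨hc, lt_of_le_of_ne (not_lt.1 (mem_filter.1 hp).2) ?_⟩
    intro h
    have := hc.1
    rw [← h] at this
    norm_num at this
  obtain ⟨a1, a2⟩ := h2 S1 hC1
  have a3 := h3 S2 hC2
  have a4 : (0 : ℝ) ≤ ∏ r ∈ S1, (1 + 1 / ((r : ℝ) - 1)) := by
    apply prod_nonneg
    intro r hr
    have h5 : (2 : ℝ) ≤ r := by exact_mod_cast (hC1 r hr).1.1.two_le
    have h6 : (0 : ℝ) ≤ 1 / ((r : ℝ) - 1) := by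
      apply div_nonneg (by norm_num)
      linarith
    linarith
  have hsum : ∑ p ∈ S, tm S p =
      ∑ p ∈ S1, tm S1 p + (∏ r ∈ S1, (1 + 1 / ((r : ℝ) - 1))) * ∑ p ∈ S2, tm S2 p := by
    rw [← sum_filter_add_sum_filter_not S (fun p => p < 30000), sum_congr rfl e1,
      sum_congr rfl e2, mul_sum]
  refine (h1 S hS).trans ?_
  rw [hsum]
  have h7 : (∏ r ∈ S1, (1 + 1 / ((r : ℝ) - 1))) * ∑ p ∈ S2, tm S2 p ≤
      (∏ r ∈ S1, (1 + 1 / ((r : ℝ) - 1))) * (2 / 100) := mul_le_mul_of_nonneg_left a3 a4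
  have h8 : (∏ r ∈ S1, (1 + 1 / ((r : ℝ) - 1))) * (2 / 100) ≤ 1833 / 1000 * (2 / 100 : ℝ) :=
    mul_le_mul_of_nonneg_right a2 (by norm_num)
  linarith

end Pool.Agent.Tri5
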