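import Mathlib
import Pool.Agent.Tri5.Targets

set_option autoImplicit false

/-!
# PAR: Parseval for absolutely convergent exponential sums
-/

open Finset

namespace Pool.Agent.Tri5

namespace PAR_

lemma ex_add (x y : ℝ) : ex (x + y) = ex x * ex y := by
  unfold ex
  rw [← Complex.exp_add]
  congr 1
  push_cast
  ring

lemma ex_neg (x : ℝ) : ex (-x) = (starRingEnd ℂ) (ex x) := by
  unfold ex
  rw [← Complex.exp_conj]
  congr 1
  simp only [map_mul, Complex.conj_ofReal, Complex.conj_I, map_ofNat]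
  push_cast
  ring

lemma ex_sub (x y : ℝ) : ex (x - y) = ex x * (starRingEnd ℂ) (ex y) := by
  rw [sub_eq_add_neg, ex_add, ex_neg]

lemma norm_ex (x : ℝ) : ‖ex x‖ = 1 := by
  unfold ex
  have : (2 * (Real.pi : ℂ) * (x : ℂ) * Complex.I) = ((2 * Real.pi * x : ℝ) : ℂ) * Complex.I := by
    push_cast
    ring
  rw [this, Complex.norm_exp_ofReal_mul_I]

lemma cont_ex (k : ℝ) : Continuous (fun α : ℝ => ex (α * k)) := by
  unfold ex
  fun_prop

lemma int_ex (k : ℤ) : (∫ α in (0 : ℝ)..1, ex (α * k)) = if k = 0 then 1 else 0 := by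
  split_ifs with h
  · subst h
    simp [ex]
  · have hk : (2 * (Real.pi : ℂ) * (k : ℂ) * Complex.I) ≠ 0 := by
      have h1 : (Real.pi : ℂ) ≠ 0 := by exact_mod_cast Real.pi_ne_zero
      have h2 : (k : ℂ) ≠ 0 := by exact_mod_cast h
      have h3 := Complex.I_ne_zero
      simp [h1, h2, h3]
    have h1 : ∀ α : ℝ, ex (α * k) = Complex.exp ((2 * (Real.pi : ℂ) * (k : ℂ) * Complex.I) * α) := by
      intro α
      unfold ex
      congr 1
      push_cast
      ring
    simp only [h1]
    rw [integral_exp_mul_complex hk]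
    have h2 : Complex.exp ((2 * (Real.pi : ℂ) * (k : ℂ) * Complex.I) * ((1 : ℝ) : ℂ)) = 1 := by
      rw [Complex.exp_eq_one_iff]
      exact ⟨k, by push_cast; ring⟩
    rw [h2]
    simp

/-- Parseval. -/
lemma pars (c : ℤ → ℂ) (hc : Summable (fun n => ‖c n‖)) :
    Summable (fun n => ‖c n‖ ^ 2) ∧
    ∑' n, ‖c n‖ ^ 2 = ∫ α in (0 : ℝ)..1, ‖∑' n : ℤ, c n * ex (α * n)‖ ^ 2 := by
  have hprod : Summable (fun p : ℤ × ℤ => ‖c p.1‖ * ‖c p.2‖) :=
    hc.mul_of_nonneg hc (fun _ => norm_nonneg _) (fun _ => norm_nonneg _)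
  let f : ℤ × ℤ → C(ℝ, ℂ) := fun p =>
    ⟨fun α => c p.1 * (starRingEnd ℂ) (c p.2) * ex (α * ((p.1 - p.2 : ℤ) : ℝ)),
      continuous_const.mul (cont_ex _)⟩
  have hf : Summable fun p => ‖(f p).restrict
      (⟨Set.uIcc (0 : ℝ) 1, isCompact_uIcc⟩ : TopologicalSpace.Compacts ℝ)‖ := by
    refine Summable.of_nonneg_of_le (fun _ => norm_nonneg _) (fun p => ?_) hprod
    rw [ContinuousMap.norm_le _ (by positivity)]
    intro x
    show ‖c p.1 * (starRingEnd ℂ) (c p.2) * ex ((x : ℝ) * ((p.1 - p.2 : ℤ) : ℝ))‖ ≤ _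
    rw [norm_mul, norm_mul, norm_ex, mul_one, RCLike.norm_conj]
  have h1 := intervalIntegral.hasSum_intervalIntegral_of_summable_norm hf
  have hF : ∀ α : ℝ, Summable (fun n : ℤ => ‖c n * ex (α * n)‖) := by
    intro α
    simpa [norm_mul, norm_ex] using hc
  have h2 : ∀ α : ℝ, ∑' p, f p α = ((‖∑' n : ℤ, c n * ex (α * n)‖ ^ 2 : ℝ) : ℂ) := by
    intro α
    have hconj : Summable (fun n : ℤ => ‖(starRingEnd ℂ) (c n * ex (α * n))‖) := by
      simpa only [RCLike.norm_conj] using hF α
    have h3 : ((‖∑' n : ℤ, c n * ex (α * n)‖ ^ 2 : ℝ) : ℂ) =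
        (∑' n : ℤ, c n * ex (α * n)) * (∑' n : ℤ, (starRingEnd ℂ) (c n * ex (α * n))) := by
      rw [← Complex.conj_tsum, Complex.mul_conj, Complex.normSq_eq_norm_sq]
    rw [h3, tsum_mul_tsum_of_summable_norm (hF α) hconj]
    refine tsum_congr fun p => ?_
    show c p.1 * (starRingEnd ℂ) (c p.2) * ex (α * ((p.1 - p.2 : ℤ) : ℝ)) = _
    have : α * ((p.1 - p.2 : ℤ) : ℝ) = α * p.1 - α * p.2 := by push_cast; ring
    rw [this, ex_sub, map_mul]
    ring
  have h4 : ∀ p : ℤ × ℤ, (∫ α in (0 : ℝ)..1, f p α) =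
      if p.1 = p.2 then ((‖c p.1‖ ^ 2 : ℝ) : ℂ) else 0 := by
    intro p
    show (∫ α in (0 : ℝ)..1, c p.1 * (starRingEnd ℂ) (c p.2) * ex (α * ((p.1 - p.2 : ℤ) : ℝ))) = _
    rw [intervalIntegral.integral_const_mul, int_ex]
    by_cases h : p.1 = p.2
    · rw [if_pos (by omega), if_pos h, mul_one, ← h, Complex.mul_conj, Complex.normSq_eq_norm_sq]
    · rw [if_neg (by omega), if_neg h, mul_zero]
  simp only [h4, h2] at h1
  rw [intervalIntegral.integral_ofReal] at h1
  have hinj : Function.Injective (fun n : ℤ => (n, n)) := fun a b h => congrArg Prod.fst h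
  have h5 := (hinj.hasSum_iff (f := fun p : ℤ × ℤ =>
    if p.1 = p.2 then ((‖c p.1‖ ^ 2 : ℝ) : ℂ) else 0)
    (a := (((∫ α in (0 : ℝ)..1, ‖∑' n : ℤ, c n * ex (α * n)‖ ^ 2) : ℝ) : ℂ)) (by
      intro x hx
      apply if_neg
      intro h
      exact hx ⟨x.1, Prod.ext rfl h⟩)).mpr h1
  have h6 : HasSum (fun n : ℤ => ((‖c n‖ ^ 2 : ℝ) : ℂ))
      (((∫ α in (0 : ℝ)..1, ‖∑' n : ℤ, c n * ex (α * n)‖ ^ 2) : ℝ) : ℂ) := by
    convert h5 using 2 with n
    simp
  have h7 := Complex.hasSum_ofReal.mp h6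
  exact ⟨h7.summable, h7.tsum_eq⟩

end PAR_

open PAR_ in
theorem p_PAR : T_PAR := by
  intro ι _ W v h hW hsum
  set R : ℤ → ℝ := fun n => ∑' i, if v i = n then W i else 0 with hR
  have hs : Summable (fun p : ι × ℤ => if v p.1 = p.2 then W p.1 else 0) := by
    rw [summable_prod_of_nonneg (fun p => by
      show 0 ≤ if v p.1 = p.2 then W p.1 else 0
      split_ifs
      · exact hW _
      · exact le_rfl)]
    constructor
    · intro i
      have := (hasSum_ite_eq (v i) (W i)).summable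
      simpa only [eq_comm] using this
    · have : ∀ i : ι, ∑' n : ℤ, (if v i = n then W i else 0) = W i := by
        intro i
        have := tsum_ite_eq (v i) (fun _ : ℤ => W i)
        simpa only [eq_comm] using this
      simpa only [this] using hsum
  have hs' : Summable (fun p : ℤ × ι => if v p.2 = p.1 then W p.2 else 0) := hs.prod_symm
  have hR0 : ∀ n, 0 ≤ R n := fun n => tsum_nonneg fun i => by
    split_ifs
    · exact hW _
    · exact le_rfl
  have hRs : Summable R := hs'.prod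
  have hF : ∀ α : ℝ, ∑' i, (W i : ℂ) * ex (α * v i) = ∑' n : ℤ, (R n : ℂ) * ex (α * n) := by
    intro α
    have hc : Summable (Function.uncurry
        (fun (n : ℤ) (i : ι) => if v i = n then (W i : ℂ) * ex (α * n) else 0)) := by
      apply Summable.of_norm
      refine hs'.congr fun p => ?_
      simp only [Function.uncurry]
      split_ifs
      · rw [norm_mul, norm_ex, mul_one, Complex.norm_real, Real.norm_of_nonneg (hW _)]
      · simp
    have h1 := hc.tsum_comm
    have h2 : ∀ i : ι, ∑' n : ℤ, (if v i = n then (W i : ℂ) * ex (α * n) else 0) =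
        (W i : ℂ) * ex (α * v i) := by
      intro i
      have := tsum_ite_eq (v i) (fun n : ℤ => (W i : ℂ) * ex (α * n))
      simpa only [eq_comm] using this
    have h3 : ∀ n : ℤ, ∑' i : ι, (if v i = n then (W i : ℂ) * ex (α * n) else 0) =
        (R n : ℂ) * ex (α * n) := by
      intro n
      rw [hR]
      simp only
      rw [Complex.ofReal_tsum, ← tsum_mul_right]
      refine tsum_congr fun i => ?_
      split_ifs
      · rfl
      · simp
    rw [← tsum_congr h2, h1, tsum_congr h3]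
  have hRn : Summable (fun n => ‖(R n : ℂ)‖) := by
    simpa only [Complex.norm_real, Real.norm_of_nonneg (hR0 _)] using hRs
  have hRh : Summable (fun n => R (n + h)) := (Equiv.addRight h).summable_iff.mpr hRs
  have hRhn : Summable (fun n => ‖(R (n + h) : ℂ)‖) := by
    simpa only [Complex.norm_real, Real.norm_of_nonneg (hR0 _)] using hRh
  constructor
  · have := pars (fun n => (R n : ℂ)) hRn
    simp only [Complex.norm_real, Real.norm_eq_abs, sq_abs] at this
    simp only [hF]
    exact this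
  · have hd : Summable (fun n => ‖((R n - R (n + h) : ℝ) : ℂ)‖) := by
      refine Summable.of_nonneg_of_le (fun _ => norm_nonneg _) (fun n => ?_) (hRn.add hRhn)
      push_cast
      exact norm_sub_le _ _
    have := pars (fun n => ((R n - R (n + h) : ℝ) : ℂ)) hd
    simp only [Complex.norm_real, Real.norm_eq_abs, sq_abs] at this
    refine ⟨this.1, this.2.trans ?_⟩
    congr 1
    funext α
    rw [hF α]
    have e1 : Summable (fun n : ℤ => (R n : ℂ) * ex (α * n)) := by
      apply Summable.of_norm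
      simpa only [norm_mul, norm_ex, mul_one] using hRn
    have e2 : Summable (fun n : ℤ => (R (n + h) : ℂ) * ex (α * n)) := by
      apply Summable.of_norm
      simpa only [norm_mul, norm_ex, mul_one] using hRhn
    have e3 : ∑' n : ℤ, ((R n - R (n + h) : ℝ) : ℂ) * ex (α * n) =
        ∑' n : ℤ, (R n : ℂ) * ex (α * n) - ∑' n : ℤ, (R (n + h) : ℂ) * ex (α * n) := by
      rw [← e1.tsum_sub e2]
      refine tsum_congr fun n => ?_
      push_cast
      ring
    have e4 : ∑' n : ℤ, (R (n + h) : ℂ) * ex (α * n) =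
        (∑' n : ℤ, (R n : ℂ) * ex (α * n)) * ex (-(α * h)) := by
      rw [← (Equiv.addRight h).tsum_eq (fun n : ℤ => (R n : ℂ) * ex (α * n)), ← tsum_mul_right]
      refine tsum_congr fun n => ?_
      rw [mul_assoc, ← ex_add]
      simp only [Equiv.coe_addRight]
      congr 2
      push_cast
      ring
    have e5 : ‖1 - ex (α * h)‖ = ‖1 - ex (-(α * h))‖ := by
      rw [ex_neg, ← RCLike.norm_conj (1 - ex (α * h)), map_sub, map_one]
    rw [e3, e4, e5, ← mul_pow, ← norm_mul]
    congr 2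
    ring

end Pool.Agent.Tri5
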