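import Pool.Agent.Tri5.Targets

/-!
# Tri5, target POI: Poisson summation for a progression
-/

set_option autoImplicit false

open Finset

namespace Pool.Agent.Tri5

namespace POI_

private lemma cpow_half (m : ℝ) (τ : ℂ) (hm : 0 < m) (hτ : τ ≠ 0) :
    ((m : ℂ) ^ 2 * τ) ^ (1 / 2 : ℂ) = (m : ℂ) * τ ^ (1 / 2 : ℂ) := by
  have hm2 : (0 : ℝ) < m ^ 2 := by positivity
  have hmC : (m : ℂ) ≠ 0 := by exact_mod_cast hm.ne'
  have h1 : ((m : ℂ) ^ 2 * τ) = ((m ^ 2 : ℝ) : ℂ) * τ := by push_cast; ring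
  rw [h1, Complex.cpow_def_of_ne_zero (mul_ne_zero (by exact_mod_cast hm2.ne') hτ),
    Complex.cpow_def_of_ne_zero hτ, Complex.log_ofReal_mul hm2 hτ, add_mul, Complex.exp_add]
  congr 1
  rw [Real.log_pow]
  have h2 : ((((2 : ℕ) : ℝ) * Real.log m : ℝ) : ℂ) * (1 / 2 : ℂ) = ((Real.log m : ℝ) : ℂ) := by
    push_cast
    ring
  rw [h2, ← Complex.ofReal_exp, Real.exp_log hm]

end POI_

open POI_ in
theorem p_POI : T_POI := by
  intro τ m u hτ hm
  have hτ0 : τ ≠ 0 := by
    rintro rfl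
    simp at hτ
  have hmC : (m : ℂ) ≠ 0 := by exact_mod_cast hm.ne'
  have hm2 : (0 : ℝ) < m ^ 2 := by positivity
  set a : ℂ := (m : ℂ) ^ 2 * τ with ha
  have ha0 : a ≠ 0 := mul_ne_zero (pow_ne_zero 2 hmC) hτ0
  have hare : 0 < a.re := by
    have : a = ((m ^ 2 : ℝ) : ℂ) * τ := by rw [ha]; push_cast; ring
    rw [this, Complex.re_ofReal_mul]
    exact mul_pos hm2 hτ
  have hinv : 0 < (1 / a).re := by
    rw [one_div, Complex.inv_re]
    exact div_pos hare (Complex.normSq_pos.mpr ha0)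
  refine ⟨?_, ?_, ?_⟩
  · -- first summability
    have h1 : Summable (fun j : ℤ => jacobiTheta₂_term j (Complex.I * τ * u * m)
        (Complex.I * a)) := by
      rw [summable_jacobiTheta₂_term_iff]
      simpa using hare
    have h2 := h1.mul_left (Complex.exp (-(Real.pi * τ * (u : ℂ) ^ 2)))
    refine h2.congr fun j => ?_
    unfold jacobiTheta₂_term
    rw [← Complex.exp_add]
    congr 1
    rw [ha]
    linear_combination (2 * Real.pi * j * τ * u * m + Real.pi * j ^ 2 * (m : ℂ) ^ 2 * τ) *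
      Complex.I_sq
  · -- second summability
    have h1 : Summable (fun k : ℤ => jacobiTheta₂_term k 0 (Complex.I * (1 / a))) := by
      rw [summable_jacobiTheta₂_term_iff]
      rw [Complex.I_mul_im]
      exact hinv
    refine h1.congr fun k => ?_
    unfold jacobiTheta₂_term
    congr 1
    field_simp
    linear_combination ((k : ℂ) ^ 2) * Complex.I_sq
  · -- the identity
    have h := Complex.tsum_exp_neg_quadratic hare (-(u * m * τ))
    have hL : ∑' j : ℤ, Complex.exp (-(Real.pi * τ * ((u : ℂ) + m * j) ^ 2)) =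
        Complex.exp (-(Real.pi * τ * (u : ℂ) ^ 2)) *
          ∑' n : ℤ, Complex.exp (-Real.pi * a * n ^ 2 + 2 * Real.pi * (-(u * m * τ)) * n) := by
      rw [← tsum_mul_left]
      refine tsum_congr fun j => ?_
      rw [← Complex.exp_add]
      congr 1
      rw [ha]
      ring
    have hR : ∑' n : ℤ, Complex.exp (-Real.pi / a * (n + Complex.I * (-(u * m * τ))) ^ 2) =
        Complex.exp (Real.pi * τ * (u : ℂ) ^ 2) *
          ∑' k : ℤ, Complex.exp (-(Real.pi * (k : ℂ) ^ 2 / a)) * ex (k * u / m) := by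
      rw [← tsum_mul_left]
      refine tsum_congr fun n => ?_
      unfold ex
      rw [← Complex.exp_add, ← Complex.exp_add]
      congr 1
      rw [ha]
      push_cast
      field_simp
      linear_combination (-(u : ℂ) ^ 2 * m ^ 2 * τ ^ 2) * Complex.I_sq
    rw [hL, h, hR, ← cpow_half m τ hm hτ0, ← ha]
    have h3 : Complex.exp (-(Real.pi * τ * (u : ℂ) ^ 2)) *
        Complex.exp (Real.pi * τ * (u : ℂ) ^ 2) = 1 := by
      rw [← Complex.exp_add]
      simp
    calc Complex.exp (-(Real.pi * τ * (u : ℂ) ^ 2)) * (1 / a ^ (1 / 2 : ℂ) *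
        (Complex.exp (Real.pi * τ * (u : ℂ) ^ 2) *
          ∑' k : ℤ, Complex.exp (-(Real.pi * (k : ℂ) ^ 2 / a)) * ex (k * u / m)))
        = (Complex.exp (-(Real.pi * τ * (u : ℂ) ^ 2)) *
          Complex.exp (Real.pi * τ * (u : ℂ) ^ 2)) * (1 / a ^ (1 / 2 : ℂ) *
          ∑' k : ℤ, Complex.exp (-(Real.pi * (k : ℂ) ^ 2 / a)) * ex (k * u / m)) := by ring
      _ = _ := by rw [h3, one_mul]

end Pool.Agent.Tri5
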