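import Pool.Agent.Tri5.Targets

/-!
PT: the pointwise bound on the major arcs.
-/

set_option autoImplicit false

open Finset

namespace Pool.Agent.Tri5

namespace PT_

theorem ineq {f g m m' : ℂ} {E : ℝ} (h1 : ‖f - m‖ ≤ E) (h2 : ‖g - m'‖ ≤ E) :
    ‖f‖ ^ 2 * ‖g‖ ^ 2 ≤ 2 * (‖m‖ ^ 2 * ‖m'‖ ^ 2) + 6 * E ^ 2 * (‖f‖ ^ 2 + ‖g‖ ^ 2 + E ^ 2) := by
  have hE : 0 ≤ E := (norm_nonneg _).trans h1
  have e0 : f * g = m * m' + (f * (g - m') + (f - m) * g - (f - m) * (g - m')) := by ring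
  have e1 : ‖f * g‖ ≤ ‖m‖ * ‖m'‖ + (‖f‖ * E + E * ‖g‖ + E * E) := by
    rw [e0]
    have n1 := norm_add_le (m * m') (f * (g - m') + (f - m) * g - (f - m) * (g - m'))
    have n2 := norm_sub_le (f * (g - m') + (f - m) * g) ((f - m) * (g - m'))
    have n3 := norm_add_le (f * (g - m')) ((f - m) * g)
    rw [norm_mul m m'] at n1
    rw [norm_mul (f - m) (g - m')] at n2
    rw [norm_mul f, norm_mul _ g] at n3
    have n4 : ‖f‖ * ‖g - m'‖ ≤ ‖f‖ * E := mul_le_mul_of_nonneg_left h2 (norm_nonneg _)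
    have n5 : ‖f - m‖ * ‖g‖ ≤ E * ‖g‖ := mul_le_mul_of_nonneg_right h1 (norm_nonneg _)
    have n6 : ‖f - m‖ * ‖g - m'‖ ≤ E * E := mul_le_mul h1 h2 (norm_nonneg _) hE
    linarith
  rw [norm_mul] at e1
  have p1 := norm_nonneg f
  have p2 := norm_nonneg g
  have p3 : 0 ≤ ‖m‖ * ‖m'‖ := by positivity
  have e2 : (‖f‖ * ‖g‖) ^ 2 ≤ (‖m‖ * ‖m'‖ + (‖f‖ * E + E * ‖g‖ + E * E)) ^ 2 :=
    pow_le_pow_left₀ (by positivity) e1 2
  have e3 : (‖m‖ * ‖m'‖ + (‖f‖ * E + E * ‖g‖ + E * E)) ^ 2 ≤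
      2 * (‖m‖ * ‖m'‖) ^ 2 + 2 * (‖f‖ * E + E * ‖g‖ + E * E) ^ 2 := by
    nlinarith [sq_nonneg (‖m‖ * ‖m'‖ - (‖f‖ * E + E * ‖g‖ + E * E))]
  have e4 : (‖f‖ * E + E * ‖g‖ + E * E) ^ 2 ≤ 3 * E ^ 2 * (‖f‖ ^ 2 + ‖g‖ ^ 2 + E ^ 2) := by
    have : (‖f‖ * E + E * ‖g‖ + E * E) ^ 2 = E ^ 2 * (‖f‖ + ‖g‖ + E) ^ 2 := by ring
    rw [this]
    have h3 : (‖f‖ + ‖g‖ + E) ^ 2 ≤ 3 * (‖f‖ ^ 2 + ‖g‖ ^ 2 + E ^ 2) := by
      nlinarith [sq_nonneg (‖f‖ - ‖g‖), sq_nonneg (‖f‖ - E), sq_nonneg (‖g‖ - E)]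
    have := mul_le_mul_of_nonneg_left h3 (sq_nonneg E)
    linarith
  have e5 : (‖f‖ * ‖g‖) ^ 2 = ‖f‖ ^ 2 * ‖g‖ ^ 2 := by ring
  have e6 : (‖m‖ * ‖m'‖) ^ 2 = ‖m‖ ^ 2 * ‖m'‖ ^ 2 := by ring
  rw [e5] at e2
  rw [e6] at e3
  linarith

theorem arc_nonneg (X : ℝ) (q c : ℕ) (α : ℝ) : 0 ≤ arc X q c α := by
  unfold arc
  split_ifs
  · positivity
  · exact le_refl _

theorem MJ_nonneg (Q : ℕ) (X α : ℝ) : 0 ≤ MJ Q X α := by
  unfold MJ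
  refine Finset.sum_nonneg fun q₁ _ => Finset.sum_nonneg fun q₂ _ => Finset.sum_nonneg fun c _ => ?_
  have := arc_nonneg X (q₁ * q₂) c α
  positivity

theorem MJ_ge (Q : ℕ) (X α : ℝ) (q₁ q₂ c : ℕ) (h1 : q₁ ∈ Q.divisors)
    (h2 : q₂ ∈ (Icc 1 ⌊Real.sqrt X⌋₊).filter (fun q => q.Coprime (2 * Q)))
    (h3 : c ∈ (range (q₁ * q₂ + 1)).filter (fun c => c.Coprime (q₁ * q₂))) :
    arc X (q₁ * q₂) c α / (16 * q₂ ^ 2 * Q ^ 4) ≤ MJ Q X α := by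
  have pos : ∀ a b d : ℕ, (0 : ℝ) ≤ arc X (a * b) d α / (16 * b ^ 2 * Q ^ 4) := by
    intro a b d
    have := arc_nonneg X (a * b) d α
    positivity
  unfold MJ
  refine le_trans ?_ (Finset.single_le_sum (f := fun q₁ =>
    ∑ q₂ ∈ (Icc 1 ⌊Real.sqrt X⌋₊).filter (fun q => q.Coprime (2 * Q)),
    ∑ c ∈ (range (q₁ * q₂ + 1)).filter (fun c => c.Coprime (q₁ * q₂)),
      arc X (q₁ * q₂) c α / (16 * q₂ ^ 2 * Q ^ 4))
    (fun a _ => Finset.sum_nonneg fun b _ => Finset.sum_nonneg fun d _ => pos a b d) h1)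
  refine le_trans ?_ (Finset.single_le_sum (f := fun q₂ =>
    ∑ c ∈ (range (q₁ * q₂ + 1)).filter (fun c => c.Coprime (q₁ * q₂)),
      arc X (q₁ * q₂) c α / (16 * q₂ ^ 2 * Q ^ 4))
    (fun b _ => Finset.sum_nonneg fun d _ => pos q₁ b d) h2)
  exact Finset.single_le_sum (f := fun c => arc X (q₁ * q₂) c α / (16 * q₂ ^ 2 * Q ^ 4))
    (fun d _ => pos q₁ q₂ d) h3

end PT_

/-- PT: the pointwise bound on the major arcs. -/
theorem p_PT (h1 : T_APP) (h2 : T_GAU2) (h3 : T_QF) : T_PT := by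
  intro L a b y z X α hD hX hα0 hα1
  obtain ⟨-, -, -, hQ1, -⟩ := h3 L hD.hL
  obtain ⟨Q, hQ⟩ : ∃ Q, Q = Qf L := ⟨_, rfl⟩
  have hsX : 1 ≤ Real.sqrt X := Real.one_le_sqrt.2 hX
  have hsX0 : 0 < Real.sqrt X := by linarith
  have hNpos : 0 < ⌊Real.sqrt X⌋₊ := Nat.floor_pos.2 hsX
  obtain ⟨r, hr1, hr2⟩ := Real.exists_rat_abs_sub_le_and_den_le α hNpos
  obtain ⟨q, hq⟩ : ∃ q : ℕ, q = r.den := ⟨_, rfl⟩
  obtain ⟨c, hc⟩ : ∃ c : ℤ, c = r.num := ⟨_, rfl⟩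
  have hq0 : 0 < q := by rw [hq]; exact r.den_pos
  have hqR : (0 : ℝ) < q := by exact_mod_cast hq0
  have hrr : (r : ℝ) = (c : ℝ) / q := by
    rw [hq, hc]
    exact Rat.cast_def r
  have hcop : Nat.Coprime c.natAbs q := by
    rw [hq, hc]
    exact r.reduced
  have hcop' : IsCoprime c (q : ℤ) := by
    rw [Int.isCoprime_iff_gcd_eq_one]
    exact hcop
  rw [← hq, hrr] at hr1
  rw [← hq] at hr2
  have hqN : (q : ℝ) ≤ Real.sqrt X :=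
    le_trans (by exact_mod_cast hr2) (Nat.floor_le hsX0.le)
  have hβ1 : |α - c / q| ≤ 1 / (q * Real.sqrt X) := by
    refine hr1.trans ?_
    apply one_div_le_one_div_of_le (by positivity)
    rw [mul_comm]
    exact mul_le_mul_of_nonneg_right (Nat.lt_floor_add_one _).le hqR.le
  have hβ2 : |α - c / q| < 1 / q := by
    refine hr1.trans_lt ?_
    apply one_div_lt_one_div_of_lt hqR
    have : (1 : ℝ) ≤ (⌊Real.sqrt X⌋₊ : ℝ) := by exact_mod_cast hNpos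
    nlinarith
  -- the range of c
  have hc0 : 0 ≤ c := by
    by_contra h
    have h4 : c ≤ -1 := by omega
    have h5 : (c : ℝ) ≤ -1 := by exact_mod_cast h4
    have h6 : (c : ℝ) / q ≤ -(1 / q) := by
      rw [← neg_div]
      exact div_le_div_of_nonneg_right h5 hqR.le
    have h7 := (abs_lt.1 hβ2).2
    linarith
  have hcq : c ≤ q := by
    by_contra h
    have h4 : (q : ℤ) + 1 ≤ c := by omega
    have h5 : (q : ℝ) + 1 ≤ c := by exact_mod_cast h4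
    have h6 : 1 + 1 / (q : ℝ) ≤ (c : ℝ) / q := by
      rw [show 1 + 1 / (q : ℝ) = ((q : ℝ) + 1) / q by field_simp]
      exact div_le_div_of_nonneg_right h5 hqR.le
    have h7 := (abs_lt.1 hβ2).1
    linarith
  obtain ⟨c', hc'⟩ : ∃ c' : ℕ, c = c' := ⟨c.toNat, (Int.toNat_of_nonneg hc0).symm⟩
  have hc'q : c' ≤ q := by
    rw [hc'] at hcq
    exact_mod_cast hcq
  have hcop2 : c'.Coprime q := by
    rw [hc', Int.natAbs_natCast] at hcop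
    exact hcop
  have hcR : (c : ℝ) = (c' : ℝ) := by
    rw [hc']
    norm_cast
  -- the approximations
  obtain ⟨m, hm1, hm2⟩ := h1 Q y X q c (α - c / q) (by rw [hQ]; exact hQ1) hX hq0 hcop' hqN hβ1
  obtain ⟨m', hm1', hm2'⟩ := h1 Q z X q c (α - c / q) (by rw [hQ]; exact hQ1) hX hq0 hcop' hqN hβ1
  rw [add_sub_cancel] at hm1 hm1'
  rw [← hQ]
  have hmain : ‖m‖ ^ 2 * ‖m'‖ ^ 2 ≤ MJ Q X α := by
    have hX0 : 0 < X := by linarith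
    have hQR : (0 : ℝ) < Q := by
      have : 0 < Q := by rw [hQ]; exact hQ1
      exact_mod_cast this
    have hτ : 0 < 1 / X ^ 2 + (α - c / q) ^ 2 / 16 := by positivity
    obtain ⟨D, hD'⟩ : ∃ D : ℝ, D = 16 * (q : ℝ) ^ 2 * (Q : ℝ) ^ 2 *
      Real.sqrt (1 / X ^ 2 + (α - c / q) ^ 2 / 16) := ⟨_, rfl⟩
    have hD0 : 0 < D := by
      rw [hD']
      have := Real.sqrt_pos.2 hτ
      positivity
    rw [← hD'] at hm2 hm2'
    have hD2 : D ^ 2 = 256 * (q : ℝ) ^ 4 * (Q : ℝ) ^ 4 * (1 / X ^ 2 + (α - c / q) ^ 2 / 16) := by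
      rw [hD', mul_pow, Real.sq_sqrt hτ.le]
      ring
    have hprod : ‖m‖ ^ 2 * ‖m'‖ ^ 2 * D ^ 2 ≤ ‖GG Q y q c‖ ^ 2 * ‖GG Q z q c‖ ^ 2 := by
      have := mul_le_mul hm2 hm2' (by positivity) (by positivity)
      calc ‖m‖ ^ 2 * ‖m'‖ ^ 2 * D ^ 2 = ‖m‖ ^ 2 * D * (‖m'‖ ^ 2 * D) := by ring
        _ ≤ _ := this
    rcases h2 L a b y z q c hD hq0 hcop' with h0 | ⟨q₁, q₂, hq12, hd, hcp, hG⟩
    · rw [← hQ] at h0
      have h4 : ‖GG Q y q c‖ ^ 2 * ‖GG Q z q c‖ ^ 2 = 0 := by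
        rw [← mul_pow, ← norm_mul, h0, norm_zero]
        ring
      rw [h4] at hprod
      have h5 : 0 < D ^ 2 := by positivity
      have h6 : ‖m‖ ^ 2 * ‖m'‖ ^ 2 ≤ 0 := by
        by_contra h
        push Not at h
        have := mul_pos h h5
        linarith
      exact h6.trans (PT_.MJ_nonneg Q X α)
    · rw [← hQ] at hd hcp hG
      have hq1 : 0 < q₁ := Nat.pos_of_ne_zero (by rintro rfl; simp at hq12; omega)
      have hq2 : 0 < q₂ := Nat.pos_of_ne_zero (by rintro rfl; simp at hq12; omega)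
      have hq1R : (0 : ℝ) < q₁ := by exact_mod_cast hq1
      have hq2R : (0 : ℝ) < q₂ := by exact_mod_cast hq2
      have hqq : (q : ℝ) = q₁ * q₂ := by exact_mod_cast hq12
      have h4 := PT_.MJ_ge Q X α q₁ q₂ c' (Nat.mem_divisors.2 ⟨hd, by
          have : 0 < Q := by rw [hQ]; exact hQ1
          omega⟩) (by
          rw [Finset.mem_filter, Finset.mem_Icc]
          refine ⟨⟨hq2, le_trans ?_ hr2⟩, hcp⟩
          rw [hq12]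
          exact Nat.le_mul_of_pos_left q₂ hq1) (by
          rw [Finset.mem_filter, Finset.mem_range, ← hq12]
          exact ⟨by omega, hcop2⟩)
      refine le_trans ?_ h4
      have h5 : arc X (q₁ * q₂) c' α = 1 / (1 / X ^ 2 + (α - c / q) ^ 2 / 16) := by
        unfold arc
        rw [← hq12, ← hcR, if_pos hβ1]
      rw [h5, div_div, le_div_iff₀ (by positivity)]
      have h6 : ‖m‖ ^ 2 * ‖m'‖ ^ 2 * D ^ 2 ≤ (4 * q * q₁) ^ 2 := by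
        refine hprod.trans ?_
        rw [← mul_pow]
        exact hG
      rw [hD2] at h6
      have h7 : (0 : ℝ) < 16 * q ^ 2 * q₁ ^ 2 := by positivity
      have h8 : (16 * (q : ℝ) ^ 2 * q₁ ^ 2) * (‖m‖ ^ 2 * ‖m'‖ ^ 2 *
          ((1 / X ^ 2 + (α - c / q) ^ 2 / 16) * (16 * (q₂ : ℝ) ^ 2 * (Q : ℝ) ^ 4))) ≤
          (16 * (q : ℝ) ^ 2 * q₁ ^ 2) * 1 := by
        calc (16 * (q : ℝ) ^ 2 * q₁ ^ 2) * (‖m‖ ^ 2 * ‖m'‖ ^ 2 *
          ((1 / X ^ 2 + (α - c / q) ^ 2 / 16) * (16 * (q₂ : ℝ) ^ 2 * (Q : ℝ) ^ 4))) =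
            ‖m‖ ^ 2 * ‖m'‖ ^ 2 * (256 * (q : ℝ) ^ 2 * ((q₁ : ℝ) * q₂) ^ 2 * (Q : ℝ) ^ 4 *
              (1 / X ^ 2 + (α - c / q) ^ 2 / 16)) := by ring
          _ = ‖m‖ ^ 2 * ‖m'‖ ^ 2 * (256 * (q : ℝ) ^ 4 * (Q : ℝ) ^ 4 *
              (1 / X ^ 2 + (α - c / q) ^ 2 / 16)) := by
            rw [← hqq]
            ring
          _ ≤ (4 * q * q₁) ^ 2 := h6
          _ = _ := by ring
      exact le_of_mul_le_mul_left h8 h7
  have hfin := PT_.ineq hm1 hm1'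
  linarith

end Pool.Agent.Tri5
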