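import Pool.Agent.Tri5.Targets

set_option autoImplicit false

open Finset

namespace Pool.Agent.Tri5

namespace QF_

private lemma pow_sub_pos {L : ℕ} (hL : 1 ≤ L) : 0 < 5 ^ L - 1 := by
  have : 5 ^ 1 ≤ 5 ^ L := Nat.pow_le_pow_right (by norm_num) hL
  omega

private lemma big_ne {L : ℕ} (hL : 1 ≤ L) : 5 * (5 ^ L - 1) ≠ 0 := by
  have := pow_sub_pos hL
  omega

private lemma prime_mem {L : ℕ} {p : ℕ} (hp : p ∈ (5 * (5 ^ L - 1)).primeFactors.erase 2) :
    p.Prime := Nat.prime_of_mem_primeFactors (Finset.mem_of_mem_erase hp)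

private lemma sqf (s : Finset ℕ) (hs : ∀ p ∈ s, p.Prime) : Squarefree (∏ p ∈ s, p) := by
  classical
  induction s using Finset.induction_on with
  | empty => simp
  | insert a s ha ih =>
    rw [Finset.prod_insert ha]
    have h1 : ∀ p ∈ s, p.Prime := fun p hp => hs p (Finset.mem_insert_of_mem hp)
    have h2 : a.Prime := hs a (Finset.mem_insert_self _ _)
    have hcop : Nat.Coprime a (∏ p ∈ s, p) := by
      refine Nat.Coprime.prod_right ?_
      intro p hp
      rw [Nat.coprime_primes h2 (h1 p hp)]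
      rintro rfl
      exact ha hp
    rw [Nat.squarefree_mul hcop]
    exact ⟨h2.prime.squarefree, ih h1⟩

private lemma dvd_iff (L : ℕ) (hL : 1 ≤ L) (p : ℕ) (hp : p.Prime) :
    p ∣ Qf L ↔ p ≠ 2 ∧ (p = 5 ∨ p ∣ 5 ^ L - 1) := by
  unfold Qf
  rw [Prime.dvd_finsetProd_iff hp.prime]
  constructor
  · rintro ⟨r, hr, hpr⟩
    have hr' : r.Prime := prime_mem hr
    have hpr' : p = r := (Nat.prime_dvd_prime_iff_eq hp hr').mp hpr
    subst hpr'
    refine ⟨(Finset.mem_erase.mp hr).1, ?_⟩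
    have h3 := Nat.dvd_of_mem_primeFactors (Finset.mem_of_mem_erase hr)
    rcases (Nat.Prime.dvd_mul hp).mp h3 with h | h
    · left
      exact (Nat.prime_dvd_prime_iff_eq hp Nat.prime_five).mp h
    · right
      exact h
  · rintro ⟨h2, h⟩
    refine ⟨p, ?_, dvd_rfl⟩
    rw [Finset.mem_erase]
    refine ⟨h2, ?_⟩
    rw [Nat.mem_primeFactors]
    refine ⟨hp, ?_, big_ne hL⟩
    rcases h with h | h
    · rw [h]
      exact Dvd.intro _ rfl
    · exact Dvd.dvd.mul_left h 5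

private lemma sqfQ (L : ℕ) : Squarefree (Qf L) := by
  unfold Qf
  exact sqf _ (fun p hp => prime_mem hp)

/-- a squarefree number divides `N` if each of its primes does -/
private lemma dvd_of_primes (L : ℕ) (N : ℤ)
    (h : ∀ p : ℕ, p.Prime → p ∣ Qf L → (p : ℤ) ∣ N) : (Qf L : ℤ) ∣ N := by
  rw [Int.natCast_dvd]
  unfold Qf at h ⊢
  refine Finset.prod_primes_dvd _ (fun p hp => (prime_mem hp).prime) ?_
  intro p hp
  have h1 := h p (prime_mem hp) (Finset.dvd_prod_of_mem _ hp)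
  rwa [Int.natCast_dvd] at h1

end QF_

open QF_ in
/-- QF: the modulus. -/
theorem p_QF : T_QF := by
  intro L hL
  have hodd : Odd (Qf L) := by
    rw [← Nat.not_even_iff_odd, even_iff_two_dvd]
    intro h
    exact ((dvd_iff L hL 2 Nat.prime_two).mp h).1 rfl
  have hsq := sqfQ L
  refine ⟨hsq, hodd, ?_, ?_, fun p hp => dvd_iff L hL p hp, ?_, ?_⟩
  · exact (dvd_iff L hL 5 Nat.prime_five).mpr ⟨by norm_num, Or.inl rfl⟩
  · exact Nat.one_le_iff_ne_zero.mpr hsq.ne_zero
  · intro a i ha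
    refine dvd_of_primes L _ ?_
    intro p hp hpd
    rcases (dvd_iff L hL p hp).mp hpd with ⟨_, h | h⟩
    · subst h
      have h1 : (5 : ℤ) ∣ 5 ^ (a + L * i) := dvd_pow_self 5 (by omega)
      have h2 : (5 : ℤ) ∣ 5 ^ a := dvd_pow_self 5 (by omega)
      have := dvd_sub h1 h2
      exact_mod_cast this
    · have h1 : (p : ℤ) ∣ 5 ^ L - 1 := by
        have h5 : 1 ≤ 5 ^ L := Nat.one_le_pow _ _ (by norm_num)
        have h6 : ((5 ^ L - 1 : ℕ) : ℤ) = 5 ^ L - 1 := by
          rw [Nat.cast_sub h5]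
          push_cast
          ring
        rw [← h6]
        exact_mod_cast h
      have h2 : (5 : ℤ) ^ L - 1 ∣ (5 ^ L) ^ i - 1 := by
        have := sub_dvd_pow_sub_pow ((5 : ℤ) ^ L) 1 i
        simpa using this
      have h3 : (5 : ℤ) ^ (a + L * i) - 5 ^ a = 5 ^ a * ((5 ^ L) ^ i - 1) := by
        rw [pow_add, pow_mul]
        ring
      rw [h3]
      exact Dvd.dvd.mul_left (h1.trans h2) _
  · intro y k
    obtain ⟨c, hc⟩ := hodd
    have hcz : (Qf L : ℤ) = 2 * c + 1 := by exact_mod_cast hc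
    have key : Tri (y + Qf L * k) - Tri y =
        ((Qf L : ℤ) * (k * (2 * y + 1 + Qf L * k))) / 2 := by
      unfold Tri
      have e1 : (2 : ℤ) ∣ y * (y + 1) := by
        exact (Int.even_mul_succ_self y).two_dvd
      have e2 : (2 : ℤ) ∣ (y + Qf L * k) * (y + Qf L * k + 1) :=
        (Int.even_mul_succ_self _).two_dvd
      rw [← Int.sub_ediv_of_dvd _ e1]
      congr 1
      ring
    have h2 : (2 : ℤ) ∣ k * (2 * y + 1 + Qf L * k) := by
      rw [hcz]
      rcases Int.even_or_odd k with ⟨j, hj⟩ | ⟨j, hj⟩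
      · exact Dvd.dvd.mul_right ⟨j, by rw [hj]; ring⟩ _
      · refine Dvd.dvd.mul_left ⟨y + 1 + c * k + j, ?_⟩ _
        rw [hj]
        ring
    rw [key, Int.mul_ediv_assoc _ h2]
    exact Dvd.intro _ rfl

end Pool.Agent.Tri5
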