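import Pool.Agent.Tri5.Targets
import Mathlib

/-!
# REP: positive weight gives a representation
-/

set_option autoImplicit false

open Finset

namespace Pool.Agent.Tri5

namespace REP_

lemma tri_nat (a : ℕ) : Tri (a : ℤ) = ((a * (a + 1) / 2 : ℕ) : ℤ) := by
  unfold Tri
  push_cast
  rfl

lemma tri_ex (z : ℤ) : ∃ a : ℕ, Tri z = ((a * (a + 1) / 2 : ℕ) : ℤ) := by
  rcases le_total 0 z with h | h
  · refine ⟨z.toNat, ?_⟩
    rw [← tri_nat, Int.toNat_of_nonneg h]
  · rcases eq_or_lt_of_le h with h0 | h0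
    · exact ⟨0, by simp [h0, Tri]⟩
    · refine ⟨(-1 - z).toNat, ?_⟩
      rw [← tri_nat, Int.toNat_of_nonneg (by omega)]
      unfold Tri
      congr 1
      ring

end REP_

open REP_ in
theorem p_REP : T_REP := by
  intro Q L a b I y z X n h
  have h1 : ∃ x : Ix I, vl Q L a b I y z x = n := by
    by_contra hc
    push Not at hc
    apply h
    unfold RR
    have : ∀ x : Ix I, (if vl Q L a b I y z x = n then wg Q y z X I x else 0) = 0 := fun x =>
      if_neg (hc x)
    simp only [this, tsum_zero]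
  obtain ⟨x, hx⟩ := h1
  obtain ⟨s, hs⟩ := tri_ex (y + Q * x.1.1)
  obtain ⟨t, ht⟩ := tri_ex (z + Q * x.1.2)
  refine ⟨s, t, a + L * (x.2.1 : ℕ), b + L * (x.2.2 : ℕ), ?_⟩
  unfold vl at hx
  rw [hs, ht] at hx
  exact_mod_cast hx.symm

end Pool.Agent.Tri5
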