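import Pool.Agent.Tri5.Targets
import Mathlib

/-!
# RO1: the reciprocals of the divisors of an integer
-/

set_option autoImplicit false

open Finset

namespace Pool.Agent.Tri5

namespace RO1_

/-- The completely multiplicative function `n ↦ 1 / n`. -/
noncomputable def invHom : ℕ →*₀ ℝ where
  toFun n := ((n : ℝ))⁻¹
  map_zero' := by simp
  map_one' := by simp
  map_mul' a b := by simp [mul_comm]

lemma invHom_apply (n : ℕ) : invHom n = ((n : ℝ))⁻¹ := rfl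

lemma invHom_lt {p : ℕ} (hp : p.Prime) : ‖invHom p‖ < 1 := by
  rw [invHom_apply, norm_inv, Real.norm_natCast]
  have : (1 : ℝ) < p := by exact_mod_cast hp.one_lt
  exact inv_lt_one_of_one_lt₀ this

lemma sum_le (T D : Finset ℕ) (hT : ∀ p ∈ T, p.Prime) (hD : ∀ q ∈ D, q ∈ Nat.factoredNumbers T) :
    ∑ q ∈ D, (1 : ℝ) / q ≤ ∏ p ∈ T, (1 + 1 / ((p : ℝ) - 1)) := by
  classical
  obtain ⟨_, h2⟩ := EulerProduct.summable_and_hasSum_factoredNumbers_prod_filter_prime_geometric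
    (f := (invHom : ℕ →* ℝ)) (fun {p} hp => invHom_lt hp) T
  have h3 : ∏ p ∈ T with p.Prime, (1 - (invHom : ℕ →* ℝ) p)⁻¹ =
      ∏ p ∈ T, (1 + 1 / ((p : ℝ) - 1)) := by
    rw [Finset.filter_true_of_mem hT]
    refine Finset.prod_congr rfl (fun p hp => ?_)
    have h1 : (1 : ℝ) < p := by exact_mod_cast (hT p hp).one_lt
    have h4 : ((invHom : ℕ →* ℝ) p) = ((p : ℝ))⁻¹ := rfl
    rw [h4]
    have h5 : (p : ℝ) ≠ 0 := by positivity
    have h6 : (p : ℝ) - 1 ≠ 0 := ne_of_gt (sub_pos.2 h1)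
    field_simp
    ring
  rw [h3] at h2
  -- the finite sum is over a subset
  let E : Finset (Nat.factoredNumbers T) := D.attach.map
    ⟨fun q => ⟨q.1, hD q.1 q.2⟩, fun a b hab => Subtype.ext (congrArg (fun z => z.1) hab)⟩
  have h7 : ∑ q ∈ D, (1 : ℝ) / q = ∑ m ∈ E, (invHom : ℕ →* ℝ) (m : ℕ) := by
    rw [Finset.sum_map]
    rw [← Finset.sum_attach D]
    refine Finset.sum_congr rfl (fun q _ => ?_)
    rw [one_div]
    rfl
  rw [h7]
  exact sum_le_hasSum E (fun m _ => by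
    change (0 : ℝ) ≤ ((m : ℕ) : ℝ)⁻¹
    positivity) h2

lemma large (I : ℕ) (V : Finset ℕ) (m : ℕ) (A : ℝ) (hI : 2 ≤ I) (hm : m ≠ 0)
    (hA : (m : ℝ) ≤ Real.exp A) (hV : ∀ p ∈ V, p.Prime ∧ I < p ∧ p ∣ m) :
    ∏ p ∈ V, (1 + 1 / ((p : ℝ) - 1)) ≤ Real.exp (A / (I * Real.log I)) := by
  have hIr : (2 : ℝ) ≤ I := by exact_mod_cast hI
  have hlog : 0 < Real.log I := Real.log_pos (by linarith)
  have h1 : ∏ p ∈ V, (1 + 1 / ((p : ℝ) - 1)) ≤ ∏ _p ∈ V, Real.exp (1 / (I : ℝ)) := by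
    refine Finset.prod_le_prod (fun p hp => ?_) (fun p hp => ?_)
    · have : (1 : ℝ) < p := by exact_mod_cast (hV p hp).1.one_lt
      have h2 : 0 < (p : ℝ) - 1 := by linarith
      positivity
    · have h3 : (I : ℝ) + 1 ≤ p := by exact_mod_cast (hV p hp).2.1
      have h4 : 1 / ((p : ℝ) - 1) ≤ 1 / (I : ℝ) := by
        apply one_div_le_one_div_of_le
        · linarith
        · linarith
      have h5 := Real.add_one_le_exp (1 / (I : ℝ))
      linarith
  refine le_trans h1 ?_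
  rw [Finset.prod_const, ← Real.exp_nat_mul]
  apply Real.exp_le_exp.2
  -- card bound
  have h6 : (I : ℝ) ^ V.card ≤ m := by
    have h7 : ∏ p ∈ V, p ∣ m := Finset.prod_primes_dvd m
      (fun p hp => (hV p hp).1.prime) (fun p hp => (hV p hp).2.2)
    have h8 : ∏ p ∈ V, p ≤ m := Nat.le_of_dvd (Nat.pos_of_ne_zero hm) h7
    have h9 : I ^ V.card ≤ ∏ p ∈ V, p := by
      rw [← Finset.prod_const]
      exact Finset.prod_le_prod' (fun p hp => (hV p hp).2.1.le)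
    exact_mod_cast le_trans h9 h8
  have h10 : (V.card : ℝ) * Real.log I ≤ A := by
    have h11 : (I : ℝ) ^ V.card ≤ Real.exp A := le_trans h6 hA
    have h12 := Real.log_le_log (by positivity) h11
    rw [Real.log_pow, Real.log_exp] at h12
    exact h12
  rw [mul_one_div, div_le_div_iff₀ (by linarith) (by positivity)]
  nlinarith

end RO1_

open RO1_ in
theorem p_RO1 : T_RO1 := by
  classical
  intro R I N h A hI hh hA
  have hm : h.natAbs ≠ 0 := Int.natAbs_ne_zero.2 hh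
  have hA' : ((h.natAbs : ℕ) : ℝ) ≤ Real.exp A := by
    rw [Nat.cast_natAbs, Int.cast_abs]
    exact hA
  set T : Finset ℕ := h.natAbs.primeFactors.filter (fun p => ¬ p ∣ R) with hTdef
  have hT : ∀ p ∈ T, p.Prime := fun p hp =>
    Nat.prime_of_mem_primeFactors (Finset.mem_filter.1 hp).1
  have h1 : ∑ q ∈ (Icc 1 N).filter (fun q : ℕ => q.Coprime R ∧ (q : ℤ) ∣ h), (1 : ℝ) / q ≤
      ∏ p ∈ T, (1 + 1 / ((p : ℝ) - 1)) := by
    refine sum_le T _ hT (fun q hq => ?_)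
    rw [Finset.mem_filter, Finset.mem_Icc] at hq
    obtain ⟨⟨hq1, _⟩, hq2, hq3⟩ := hq
    rw [Nat.mem_factoredNumbers']
    intro p hp hpq
    rw [hTdef, Finset.mem_filter, Nat.mem_primeFactors]
    have hqm : q ∣ h.natAbs := Int.natCast_dvd.1 hq3
    refine ⟨⟨hp, hpq.trans hqm, hm⟩, fun hpR => ?_⟩
    have := Nat.dvd_gcd hpq hpR
    rw [hq2] at this
    exact hp.one_lt.ne' (Nat.dvd_one.1 this)
  refine le_trans h1 ?_
  rw [← Finset.prod_filter_mul_prod_filter_not T (fun p => I < p)]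
  have h2 : T.filter (fun p => ¬ I < p) =
      ((Icc 1 I).filter (fun p : ℕ => p.Prime ∧ ¬ p ∣ R)).filter (fun p : ℕ => (p : ℤ) ∣ h) := by
    ext p
    simp only [hTdef, Finset.mem_filter, Nat.mem_primeFactors, Finset.mem_Icc, not_lt]
    constructor
    · rintro ⟨⟨⟨a1, a2, a3⟩, a4⟩, a5⟩
      exact ⟨⟨⟨a1.one_lt.le, a5⟩, a1, a4⟩, Int.natCast_dvd.2 a2⟩
    · rintro ⟨⟨⟨a1, a5⟩, a2, a4⟩, a3⟩
      exact ⟨⟨⟨a2, Int.natCast_dvd.1 a3, hm⟩, a4⟩, a5⟩
  rw [h2]
  refine mul_le_mul_of_nonneg_right ?_ ?_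
  · refine large I _ h.natAbs A hI hm hA' (fun p hp => ?_)
    rw [Finset.mem_filter, hTdef, Finset.mem_filter, Nat.mem_primeFactors] at hp
    exact ⟨hp.1.1.1, hp.2, hp.1.1.2.1⟩
  · refine Finset.prod_nonneg (fun p hp => ?_)
    rw [Finset.mem_filter, Finset.mem_filter] at hp
    have : (1 : ℝ) < p := by exact_mod_cast hp.1.2.1.one_lt
    have h2 : 0 < (p : ℝ) - 1 := by linarith
    positivity

end Pool.Agent.Tri5
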