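import Pool.Agent.Tri5.Targets

/-!
# RO2: the average of the Romanoff product
-/

set_option autoImplicit false

open Finset

namespace Pool.Agent.Tri5

namespace RO2_

/-- The product over the primes up to `n` which do not divide `R`. -/
noncomputable def F (R n : ℕ) : ℝ :=
  ∏ p ∈ (Icc 1 n).filter (fun p : ℕ => p.Prime ∧ ¬ p ∣ R), (1 + 1 / ((p : ℝ) - 1))

theorem F_zero (R : ℕ) : F R 0 = 1 := by simp [F]

theorem F_succ (R n : ℕ) : F R (n + 1) = F R n *
    (if (n + 1).Prime ∧ ¬ (n + 1) ∣ R then (1 + 1 / (((n + 1 : ℕ) : ℝ) - 1)) else 1) := by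
  unfold F
  rw [Finset.prod_filter, Finset.prod_filter, Finset.prod_Icc_succ_top (by omega)]

theorem F_nonneg (R n : ℕ) : 0 ≤ F R n := by
  unfold F
  apply Finset.prod_nonneg
  intro p hp
  have hp' := (Finset.mem_filter.1 hp).2.1.two_le
  have : (2 : ℝ) ≤ p := by exact_mod_cast hp'
  have : (0 : ℝ) ≤ 1 / ((p : ℝ) - 1) := div_nonneg zero_le_one (by linarith)
  linarith

theorem F_sq (R : ℕ) (hR : 2 ∣ R) (n : ℕ) :
    (Odd (n + 1) → F R (n + 1) ^ 2 ≤ n + 1) ∧ (Even (n + 1) → F R (n + 1) ^ 2 ≤ n) := by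
  induction n with
  | zero =>
    constructor
    · intro _
      rw [F_succ, F_zero]
      simp [Nat.not_prime_one]
    · intro h
      exact absurd h (by decide)
  | succ n ih =>
    constructor
    · intro ho
      have he : Even (n + 1) := by
        rcases Nat.even_or_odd (n + 1) with h | h
        · exact h
        · exact absurd (h.add_odd odd_one) (Nat.not_even_iff_odd.2 ho)
      have h1 := ih.2 he
      have hn : 1 ≤ n := by
        rcases Nat.eq_zero_or_pos n with h0 | h0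
        · subst h0
          exact absurd he (by decide)
        · exact h0
      have hn' : (1 : ℝ) ≤ n := by exact_mod_cast hn
      rw [F_succ, mul_pow]
      have h2 : (if (n + 1 + 1).Prime ∧ ¬ (n + 1 + 1) ∣ R then
          (1 + 1 / (((n + 1 + 1 : ℕ) : ℝ) - 1)) else 1) ^ 2 ≤ (1 + 1 / ((n : ℝ) + 1)) ^ 2 := by
        split_ifs
        · push_cast
          rw [show (n : ℝ) + 1 + 1 - 1 = n + 1 by ring]
        · apply pow_le_pow_left₀ (by norm_num)
          have : (0 : ℝ) ≤ 1 / ((n : ℝ) + 1) := by positivity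
          linarith
      calc F R (n + 1) ^ 2 * (if (n + 1 + 1).Prime ∧ ¬ (n + 1 + 1) ∣ R then
          (1 + 1 / (((n + 1 + 1 : ℕ) : ℝ) - 1)) else 1) ^ 2
          ≤ (n : ℝ) * (1 + 1 / ((n : ℝ) + 1)) ^ 2 := by
            apply mul_le_mul h1 h2 (by positivity) (by positivity)
        _ ≤ ((n + 1 : ℕ) : ℝ) + 1 := by
            have h3 : (0 : ℝ) < (n : ℝ) + 1 := by positivity
            have h4 : (1 + 1 / ((n : ℝ) + 1)) = ((n : ℝ) + 2) / (n + 1) := by
              field_simp; ring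
            rw [h4, div_pow, mul_div_assoc', div_le_iff₀ (by positivity)]
            push_cast
            nlinarith
    · intro he
      have ho : Odd (n + 1) := by
        rcases Nat.even_or_odd (n + 1) with h | h
        · exact absurd he (Nat.not_even_iff_odd.2 (h.add_odd odd_one))
        · exact h
      have h1 := ih.1 ho
      rw [F_succ]
      have h2 : ¬ ((n + 1 + 1).Prime ∧ ¬ (n + 1 + 1) ∣ R) := by
        rintro ⟨hp, hd⟩
        rcases hp.eq_two_or_odd' with h | h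
        · rw [h] at hd
          exact hd hR
        · exact absurd he (Nat.not_even_iff_odd.2 h)
      rw [if_neg h2, mul_one]
      push_cast
      exact h1

theorem F_le (R : ℕ) (hR : 2 ∣ R) (n : ℕ) (hn : 1 ≤ n) : F R n ≤ 2 * Real.sqrt n := by
  obtain ⟨m, rfl⟩ : ∃ m, n = m + 1 := ⟨n - 1, by omega⟩
  have h := F_sq R hR m
  have h1 : F R (m + 1) ^ 2 ≤ ((m + 1 : ℕ) : ℝ) := by
    push_cast
    rcases Nat.even_or_odd (m + 1) with he | ho
    · have := h.2 he
      linarith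
    · exact h.1 ho
  have h2 : F R (m + 1) ≤ Real.sqrt ((m + 1 : ℕ) : ℝ) := Real.le_sqrt_of_sq_le h1
  have h3 : 0 ≤ Real.sqrt ((m + 1 : ℕ) : ℝ) := Real.sqrt_nonneg _
  linarith

theorem od_one (L : ℕ) : od L 1 = 1 := by
  unfold od
  rw [orderOf_eq_one_iff]
  exact Subsingleton.elim _ _

end RO2_

open RO2_

theorem p_RO2 (h1 : T_EXP) (h2 : T_ND) (h3 : T_QF) : T_RO2 := by
  intro L a b I g hL hg hBG
  obtain ⟨_, _, h5Q, hQ1, _, _, _⟩ := h3 L hL
  set S := (Icc 1 I).filter (fun p : ℕ => p.Prime ∧ ¬ p ∣ 2 * Qf L) with hS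
  have hSp : ∀ p ∈ S, p.Prime := fun p hp => (Finset.mem_filter.1 hp).2.1
  have hSp' : ∀ p ∈ S, p.Prime ∧ ¬ p ∣ 2 * Qf L := fun p hp => (Finset.mem_filter.1 hp).2
  have hGS := hBG S hSp'
  rcases Nat.eq_zero_or_pos I with hI | hI
  · subst hI
    have : quads 0 = ∅ := by
      unfold quads
      simp
    rw [this]
    simp
  have hprod0 : ∏ p ∈ S, p ≠ 0 := Finset.prod_ne_zero_iff.2 (fun p hp => (hSp p hp).ne_zero)
  have hcop5 : (∏ p ∈ S, p).Coprime 5 := by
    apply Nat.Coprime.prod_left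
    intro p hp
    rw [Nat.coprime_primes (hSp p hp) Nat.prime_five]
    intro h
    apply (hSp' p hp).2
    rw [h]
    exact dvd_mul_of_dvd_right h5Q 2
  have hdc : ∀ d ∈ (∏ p ∈ S, p).divisors, 1 ≤ d ∧ d.Coprime 5 := by
    intro d hd
    have hd' := Nat.dvd_of_mem_divisors hd
    exact ⟨Nat.pos_of_mem_divisors hd, Nat.Coprime.coprime_dvd_left hd' hcop5⟩
  have e1 := h1 ((ℕ × ℕ) × (ℕ × ℕ)) (quads I) (hh L a b) S hSp
  have e2 := h1 Unit {()} (fun _ => 0) S hSp
  have e3 : ∑ d ∈ (∏ p ∈ S, p).divisors, (1 : ℝ) / Nat.totient d = F (2 * Qf L) I := by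
    have e4 : ∑ u ∈ ({()} : Finset Unit), ∏ p ∈ S.filter (fun p : ℕ => (p : ℤ) ∣ 0),
        (1 + 1 / ((p : ℝ) - 1)) = F (2 * Qf L) I := by
      simp [F, hS]
    rw [← e4, e2]
    apply Finset.sum_congr rfl
    intro d _
    simp
  have e5 : ∑ d ∈ (∏ p ∈ S, p).divisors, (1 : ℝ) / (Nat.totient d * od L d) = 1 + GS L S := by
    unfold GS
    rw [← Finset.add_sum_erase _ _ (Nat.one_mem_divisors.2 hprod0)]
    rw [od_one]
    simp
  calc ∑ u ∈ quads I, ∏ p ∈ S.filter (fun p : ℕ => (p : ℤ) ∣ hh L a b u), (1 + 1 / ((p : ℝ) - 1))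
      = ∑ d ∈ (∏ p ∈ S, p).divisors, (1 : ℝ) / Nat.totient d *
        (((quads I).filter (fun u => (d : ℤ) ∣ hh L a b u)).card : ℝ) := e1
    _ ≤ ∑ d ∈ (∏ p ∈ S, p).divisors, ((I : ℝ) ^ 4 * (1 / (Nat.totient d * od L d)) +
        (I : ℝ) ^ 3 * (1 / Nat.totient d)) := by
      apply Finset.sum_le_sum
      intro d hd
      obtain ⟨hd1, hd5⟩ := hdc d hd
      obtain ⟨ho, hN, _⟩ := h2 L a b I d hd1 hd5
      have hN' : (((quads I).filter (fun u => (d : ℤ) ∣ hh L a b u)).card : ℝ) ≤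
          (I : ℝ) ^ 3 * (I / od L d + 1) := hN
      have hphi : (0 : ℝ) < Nat.totient d := by exact_mod_cast Nat.totient_pos.2 hd1
      have hod : (0 : ℝ) < od L d := by exact_mod_cast ho
      calc (1 : ℝ) / Nat.totient d *
          (((quads I).filter (fun u => (d : ℤ) ∣ hh L a b u)).card : ℝ)
          ≤ (1 : ℝ) / Nat.totient d * ((I : ℝ) ^ 3 * (I / od L d + 1)) :=
            mul_le_mul_of_nonneg_left hN' (by positivity)
        _ = (I : ℝ) ^ 4 * (1 / (Nat.totient d * od L d)) + (I : ℝ) ^ 3 * (1 / Nat.totient d) := by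
            field_simp
    _ = (I : ℝ) ^ 4 * (1 + GS L S) + (I : ℝ) ^ 3 * F (2 * Qf L) I := by
      rw [Finset.sum_add_distrib, ← Finset.mul_sum, ← Finset.mul_sum, e3, e5]
    _ ≤ (1 + g) * (I : ℝ) ^ 4 + (I : ℝ) ^ 3 * (2 * Real.sqrt I) := by
      have h6 : F (2 * Qf L) I ≤ 2 * Real.sqrt I := F_le _ ⟨Qf L, rfl⟩ I hI
      have h7 : (I : ℝ) ^ 3 * F (2 * Qf L) I ≤ (I : ℝ) ^ 3 * (2 * Real.sqrt I) :=
        mul_le_mul_of_nonneg_left h6 (by positivity)
      have h8 : (I : ℝ) ^ 4 * (1 + GS L S) ≤ (1 + g) * (I : ℝ) ^ 4 := by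
        rw [mul_comm]
        apply mul_le_mul_of_nonneg_right _ (by positivity)
        linarith
      linarith

end Pool.Agent.Tri5
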