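import Pool.Agent.Tri5.Targets

/-!
ROM: the Romanoff type sum (project Tri5, MP_68fb2d_nt).
-/

set_option autoImplicit false

open Finset Filter Topology

namespace Pool.Agent.Tri5

namespace ROM_

theorem card_quads (I : ℕ) : (quads I).card = I ^ 4 := by
  rw [quads, card_product, card_product, card_range]
  ring

theorem hh_abs (L a b I : ℕ) (u : (ℕ × ℕ) × (ℕ × ℕ)) (hu : u ∈ quads I) :
    |hh L a b u| ≤ 2 * 5 ^ (a + b + L * I) := by
  simp only [quads, mem_product, mem_range] at hu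
  obtain ⟨⟨h1, h2⟩, h3, h4⟩ := hu
  have key : ∀ c i : ℕ, c ≤ a + b → i < I → (5 : ℤ) ^ (c + L * i) ≤ 5 ^ (a + b + L * I) := by
    intro c i hc hi
    refine pow_le_pow_right₀ (by norm_num) ?_
    have : L * i ≤ L * I := Nat.mul_le_mul_left _ hi.le
    omega
  have p1 := key a u.1.1 (by omega) h1
  have p2 := key b u.1.2 (by omega) h2
  have p3 := key a u.2.1 (by omega) h3
  have p4 := key b u.2.2 (by omega) h4
  have q1 : (0 : ℤ) < 5 ^ (a + L * u.1.1) := by positivity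
  have q2 : (0 : ℤ) < 5 ^ (b + L * u.1.2) := by positivity
  have q3 : (0 : ℤ) < 5 ^ (a + L * u.2.1) := by positivity
  have q4 : (0 : ℤ) < 5 ^ (b + L * u.2.2) := by positivity
  rw [hh, abs_le]
  constructor <;> linarith

theorem log5 : Real.log 5 ≤ 2 := by
  rw [Real.log_le_iff_le_exp (by norm_num)]
  have h1 := Real.add_one_le_exp (1 : ℝ)
  have h2 : Real.exp 2 = Real.exp 1 * Real.exp 1 := by rw [← Real.exp_add]; norm_num
  have h3 := Real.exp_one_gt_d9
  rw [h2]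
  nlinarith

theorem harm (N : ℕ) : ∑ q ∈ Icc 1 N, (1 : ℝ) / q ≤ 1 + Real.log N := by
  have h := harmonic_le_one_add_log N
  have e : ((harmonic N : ℚ) : ℝ) = ∑ q ∈ Icc 1 N, (1 : ℝ) / q := by
    rw [harmonic_eq_sum_Icc]
    push_cast
    exact sum_congr rfl (fun q _ => by rw [one_div])
  rw [← e]
  exact h

end ROM_

open ROM_ in
theorem p_ROM (h1 : T_EQ) (h2 : T_RO1) (h3 : T_RO2) : T_ROM := by
  intro L a b g C ε hL hg hBG hε
  set K : ℝ := |Real.log C| with hK
  set c : ℝ := 1 + 2 * a + 2 * b + 2 * L with hc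
  have hc0 : 0 < c := by positivity
  have hK0 : 0 ≤ K := abs_nonneg _
  have tlog : Tendsto (fun I : ℕ => Real.log (I : ℝ)) atTop atTop :=
    Real.tendsto_log_atTop.comp tendsto_natCast_atTop_atTop
  have tsq : Tendsto (fun I : ℕ => Real.sqrt (I : ℝ)) atTop atTop :=
    Real.tendsto_sqrt_atTop.comp tendsto_natCast_atTop_atTop
  have t1 : Tendsto (fun I : ℕ => (2 * (1 + K) + 2 + 4 * L) / (I : ℝ) +
      Real.exp (c / Real.log I) * (1 + g + 2 / Real.sqrt I) - 1) atTop (𝓝 g) := by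
    have e1 : Tendsto (fun I : ℕ => (2 * (1 + K) + 2 + 4 * L) / (I : ℝ)) atTop (𝓝 0) :=
      tendsto_const_div_atTop_nhds_zero_nat _
    have e2 : Tendsto (fun I : ℕ => Real.exp (c / Real.log I)) atTop (𝓝 1) := by
      have := (Real.continuous_exp.tendsto 0).comp (tlog.const_div_atTop c)
      rw [Real.exp_zero] at this
      exact this
    have e3 : Tendsto (fun I : ℕ => 1 + g + 2 / Real.sqrt (I : ℝ)) atTop (𝓝 (1 + g + 0)) :=
      (tsq.const_div_atTop 2).const_add _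
    have e4 := (e1.add (e2.mul e3)).sub_const 1
    have : (0 : ℝ) + 1 * (1 + g + 0) - 1 = g := by ring
    rw [this] at e4
    exact e4
  obtain ⟨I₀, hI₀⟩ := eventually_atTop.1
    ((eventually_ge_atTop 2).and (t1.eventually (gt_mem_nhds (by linarith : g < g + ε))))
  refine ⟨I₀, fun I hI N hN => ?_⟩
  obtain ⟨hI2, hI3⟩ := hI₀ I hI
  have hIr : (2 : ℝ) ≤ I := by exact_mod_cast hI2
  have hI0 : (0 : ℝ) < I := by linarith
  have hIl : 0 < Real.log I := Real.log_pos (by linarith)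
  rcases Nat.eq_zero_or_pos N with hN0 | hNpos
  · have : SI L a b I N = 0 := by
      rw [SI, hN0]
      simp
    rw [this]
    positivity
  -- the sum over the quadruples
  have hswap : SI L a b I N = ∑ u ∈ quads I,
      ∑ q ∈ (Icc 2 N).filter (fun q : ℕ => q.Coprime (2 * Qf L) ∧ (q : ℤ) ∣ hh L a b u),
        (1 : ℝ) / q := by
    have e1 : ∀ q ∈ (Icc 2 N).filter (fun q => q.Coprime (2 * Qf L)),
        (Nq L a b I q : ℝ) / q = ∑ u ∈ quads I, if (q : ℤ) ∣ hh L a b u then (1 : ℝ) / q else 0 := by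
      intro q _
      rw [Nq, ← sum_filter, sum_const, nsmul_eq_mul, mul_one_div]
    rw [SI, sum_congr rfl e1, sum_comm]
    refine sum_congr rfl (fun u _ => ?_)
    rw [← sum_filter, filter_filter]
  -- the product
  set P : (ℕ × ℕ) × (ℕ × ℕ) → ℝ := fun u =>
    ∏ p ∈ ((Icc 1 I).filter (fun p : ℕ => p.Prime ∧ ¬ p ∣ 2 * Qf L)).filter
      (fun p : ℕ => (p : ℤ) ∣ hh L a b u), (1 + 1 / ((p : ℝ) - 1)) with hP
  have hP0 : ∀ u, 0 ≤ P u := by
    intro u
    refine prod_nonneg (fun p hp => ?_)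
    have hpp := (mem_filter.1 (mem_filter.1 hp).1).2.1
    have : (2 : ℝ) ≤ p := by exact_mod_cast hpp.two_le
    have : (0 : ℝ) ≤ 1 / ((p : ℝ) - 1) := by
      apply one_div_nonneg.2
      linarith
    linarith
  have hR2 : ∑ u ∈ quads I, P u ≤ (1 + g) * (I : ℝ) ^ 4 + (I : ℝ) ^ 3 * (2 * Real.sqrt I) :=
    h3 L a b I g hL hg hBG
  set E := Real.exp (c / Real.log I) with hE
  have hE0 : 0 < E := Real.exp_pos _
  -- nonzero differences
  have hne : ∀ u ∈ quads I, hh L a b u ≠ 0 →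
      ∑ q ∈ (Icc 2 N).filter (fun q : ℕ => q.Coprime (2 * Qf L) ∧ (q : ℤ) ∣ hh L a b u),
        (1 : ℝ) / q ≤ E * P u - 1 := by
    intro u hu h0
    have hA : |((hh L a b u : ℤ) : ℝ)| ≤ Real.exp (c * I) := by
      have e1 : |((hh L a b u : ℤ) : ℝ)| ≤ 2 * 5 ^ (a + b + L * I) := by
        have := hh_abs L a b I u hu
        exact_mod_cast this
      refine e1.trans ?_
      have e2 : (2 : ℝ) * 5 ^ (a + b + L * I) =
          Real.exp (Real.log 2 + (a + b + L * I) * Real.log 5) := by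
        rw [Real.exp_add, Real.exp_log (by norm_num)]
        congr 1
        have : ((a : ℝ) + b + L * I) * Real.log 5 = Real.log ((5 : ℝ) ^ (a + b + L * I)) := by
          rw [Real.log_pow]
          push_cast
          ring
        rw [this, Real.exp_log (by positivity)]
      rw [e2]
      refine Real.exp_le_exp.2 ?_
      have hl2 : Real.log 2 ≤ 1 := (Real.log_le_sub_one_of_pos (by norm_num)).trans (by norm_num)
      have hl5 := log5
      have hab : ((a : ℝ) + b + L * I) * Real.log 5 ≤ (a + b + L * I) * 2 :=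
        mul_le_mul_of_nonneg_left hl5 (by positivity)
      have h5 : (1 + 2 * (a : ℝ) + 2 * b) * 1 ≤ (1 + 2 * (a : ℝ) + 2 * b) * I :=
        mul_le_mul_of_nonneg_left (by linarith) (by positivity)
      rw [hc]
      nlinarith
    have h5 := h2 (2 * Qf L) I N (hh L a b u) (c * I) hI2 h0 hA
    have h6 : c * (I : ℝ) / (I * Real.log I) = c / Real.log I := by
      field_simp
    rw [h6] at h5
    have h7 : ∑ q ∈ (Icc 1 N).filter (fun q : ℕ => q.Coprime (2 * Qf L) ∧
        (q : ℤ) ∣ hh L a b u), (1 : ℝ) / q = 1 + ∑ q ∈ (Icc 2 N).filter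
        (fun q : ℕ => q.Coprime (2 * Qf L) ∧ (q : ℤ) ∣ hh L a b u), (1 : ℝ) / q := by
      have : (Icc 1 N).filter (fun q : ℕ => q.Coprime (2 * Qf L) ∧ (q : ℤ) ∣ hh L a b u) =
          insert 1 ((Icc 2 N).filter
            (fun q : ℕ => q.Coprime (2 * Qf L) ∧ (q : ℤ) ∣ hh L a b u)) := by
        ext q
        simp only [mem_filter, mem_Icc, mem_insert]
        constructor
        · rintro ⟨⟨hq1, hq2⟩, hq3⟩
          by_cases hq : q = 1
          · exact Or.inl hq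
          · exact Or.inr ⟨⟨by omega, hq2⟩, hq3⟩
        · rintro (rfl | ⟨⟨hq1, hq2⟩, hq3⟩)
          · exact ⟨⟨le_rfl, hNpos⟩, by simp, by simp⟩
          · exact ⟨⟨by omega, hq2⟩, hq3⟩
      rw [this, sum_insert (by simp)]
      simp
    rw [h7] at h5
    linarith
  -- zero differences
  have hlogN : Real.log N ≤ K + 2 * L * I := by
    have hNr : (0 : ℝ) < N := by exact_mod_cast hNpos
    have hC : 0 < C := by
      by_contra hcon
      have : C * 5 ^ (L * I) ≤ 0 := mul_nonpos_of_nonpos_of_nonneg (not_lt.1 hcon) (by positivity)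
      linarith
    calc Real.log N ≤ Real.log (C * 5 ^ (L * I)) := Real.log_le_log hNr hN
      _ = Real.log C + (L * I) * Real.log 5 := by
          rw [Real.log_mul hC.ne' (by positivity), Real.log_pow]
          push_cast
          ring
      _ ≤ K + (L * I) * 2 := add_le_add (le_abs_self _)
          (mul_le_mul_of_nonneg_left log5 (by positivity))
      _ = K + 2 * L * I := by ring
  have hze : ∀ u ∈ quads I, hh L a b u = 0 →
      ∑ q ∈ (Icc 2 N).filter (fun q : ℕ => q.Coprime (2 * Qf L) ∧ (q : ℤ) ∣ hh L a b u),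
        (1 : ℝ) / q ≤ 1 + K + 2 * L * I := by
    intro u _ _
    calc ∑ q ∈ (Icc 2 N).filter (fun q : ℕ => q.Coprime (2 * Qf L) ∧ (q : ℤ) ∣ hh L a b u),
        (1 : ℝ) / q ≤ ∑ q ∈ Icc 1 N, (1 : ℝ) / q := by
          refine sum_le_sum_of_subset_of_nonneg (fun q hq => ?_) (fun q _ _ => by positivity)
          have := (mem_Icc.1 (mem_filter.1 hq).1)
          exact mem_Icc.2 ⟨by omega, this.2⟩
      _ ≤ 1 + Real.log N := harm N
      _ ≤ 1 + K + 2 * L * I := by linarith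
  have hEQ : (((quads I).filter (fun u => hh L a b u = 0)).card : ℝ) ≤ 2 * (I : ℝ) ^ 2 := by
    exact_mod_cast h1 L a b I hL
  have hcardne : (I : ℝ) ^ 4 - 2 * (I : ℝ) ^ 2 ≤
      (((quads I).filter (fun u => ¬ hh L a b u = 0)).card : ℝ) := by
    have := card_filter_add_card_filter_not (s := quads I) (fun u => hh L a b u = 0)
    rw [card_quads] at this
    have h : (((quads I).filter (fun u => hh L a b u = 0)).card : ℝ) +
        (((quads I).filter (fun u => ¬ hh L a b u = 0)).card : ℝ) = (I : ℝ) ^ 4 := by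
      exact_mod_cast this
    linarith
  have hmain : SI L a b I N ≤ 2 * (I : ℝ) ^ 2 * (1 + K + 2 * L * I) +
      (E * ((1 + g) * (I : ℝ) ^ 4 + (I : ℝ) ^ 3 * (2 * Real.sqrt I)) -
        ((I : ℝ) ^ 4 - 2 * (I : ℝ) ^ 2)) := by
    rw [hswap, ← sum_filter_add_sum_filter_not (quads I) (fun u => hh L a b u = 0)]
    refine add_le_add ?_ ?_
    · calc ∑ u ∈ (quads I).filter (fun u => hh L a b u = 0),
          ∑ q ∈ (Icc 2 N).filter (fun q : ℕ => q.Coprime (2 * Qf L) ∧ (q : ℤ) ∣ hh L a b u),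
            (1 : ℝ) / q ≤ ∑ u ∈ (quads I).filter (fun u => hh L a b u = 0),
              (1 + K + 2 * L * I) :=
            sum_le_sum (fun u hu => hze u (mem_filter.1 hu).1 (mem_filter.1 hu).2)
        _ = (((quads I).filter (fun u => hh L a b u = 0)).card : ℝ) * (1 + K + 2 * L * I) := by
            rw [sum_const, nsmul_eq_mul]
        _ ≤ 2 * (I : ℝ) ^ 2 * (1 + K + 2 * L * I) :=
            mul_le_mul_of_nonneg_right hEQ (by positivity)
    · calc ∑ u ∈ (quads I).filter (fun u => ¬ hh L a b u = 0),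
          ∑ q ∈ (Icc 2 N).filter (fun q : ℕ => q.Coprime (2 * Qf L) ∧ (q : ℤ) ∣ hh L a b u),
            (1 : ℝ) / q ≤ ∑ u ∈ (quads I).filter (fun u => ¬ hh L a b u = 0), (E * P u - 1) :=
            sum_le_sum (fun u hu => hne u (mem_filter.1 hu).1 (mem_filter.1 hu).2)
        _ = E * (∑ u ∈ (quads I).filter (fun u => ¬ hh L a b u = 0), P u) -
            (((quads I).filter (fun u => ¬ hh L a b u = 0)).card : ℝ) := by
            rw [sum_sub_distrib, mul_sum, sum_const, nsmul_eq_mul, mul_one]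
        _ ≤ E * ((1 + g) * (I : ℝ) ^ 4 + (I : ℝ) ^ 3 * (2 * Real.sqrt I)) -
            ((I : ℝ) ^ 4 - 2 * (I : ℝ) ^ 2) := by
            refine sub_le_sub (mul_le_mul_of_nonneg_left ?_ hE0.le) hcardne
            refine le_trans ?_ hR2
            exact sum_le_sum_of_subset_of_nonneg (filter_subset _ _) (fun u _ _ => hP0 u)
  have e5 : (I : ℝ) ^ 3 * (2 * Real.sqrt I) = (I : ℝ) ^ 4 * (2 / Real.sqrt I) := by
    calc (I : ℝ) ^ 3 * (2 * Real.sqrt I) = (I : ℝ) ^ 3 * (2 * (I / Real.sqrt I)) := by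
          rw [Real.div_sqrt]
      _ = (I : ℝ) ^ 4 * (2 / Real.sqrt I) := by ring
  have e6 : 2 * (I : ℝ) ^ 2 * (1 + K + 2 * L * I) + 2 * (I : ℝ) ^ 2 ≤
      (I : ℝ) ^ 4 * ((2 * (1 + K) + 2 + 4 * L) / (I : ℝ)) := by
    have e7 : (I : ℝ) ^ 4 * ((2 * (1 + K) + 2 + 4 * L) / (I : ℝ)) =
        (I : ℝ) ^ 3 * (2 * (1 + K) + 2 + 4 * L) := by
      field_simp
    rw [e7]
    have e8 : (I : ℝ) ^ 2 * (2 * (1 + K) + 2) ≤ (I : ℝ) ^ 3 * (2 * (1 + K) + 2) :=
      mul_le_mul_of_nonneg_right (pow_le_pow_right₀ (by linarith) (by norm_num)) (by positivity)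
    calc 2 * (I : ℝ) ^ 2 * (1 + K + 2 * L * I) + 2 * (I : ℝ) ^ 2
        = (I : ℝ) ^ 2 * (2 * (1 + K) + 2) + (I : ℝ) ^ 3 * (4 * L) := by ring
      _ ≤ (I : ℝ) ^ 3 * (2 * (1 + K) + 2) + (I : ℝ) ^ 3 * (4 * L) := by linarith
      _ = (I : ℝ) ^ 3 * (2 * (1 + K) + 2 + 4 * L) := by ring
  have hfin : SI L a b I N ≤ (I : ℝ) ^ 4 * ((2 * (1 + K) + 2 + 4 * L) / (I : ℝ) +
      E * (1 + g + 2 / Real.sqrt I) - 1) := by
    refine hmain.trans ?_
    rw [e5]
    calc 2 * (I : ℝ) ^ 2 * (1 + K + 2 * L * I) +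
          (E * ((1 + g) * (I : ℝ) ^ 4 + (I : ℝ) ^ 4 * (2 / Real.sqrt I)) -
            ((I : ℝ) ^ 4 - 2 * (I : ℝ) ^ 2))
        = (2 * (I : ℝ) ^ 2 * (1 + K + 2 * L * I) + 2 * (I : ℝ) ^ 2) +
          (E * ((1 + g) * (I : ℝ) ^ 4 + (I : ℝ) ^ 4 * (2 / Real.sqrt I)) - (I : ℝ) ^ 4) := by ring
      _ ≤ (I : ℝ) ^ 4 * ((2 * (1 + K) + 2 + 4 * L) / (I : ℝ)) +
          (E * ((1 + g) * (I : ℝ) ^ 4 + (I : ℝ) ^ 4 * (2 / Real.sqrt I)) - (I : ℝ) ^ 4) := by
          linarith
      _ = _ := by ring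
  refine hfin.trans ?_
  rw [mul_comm]
  exact mul_le_mul_of_nonneg_right hI3.le (by positivity)

end Pool.Agent.Tri5
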