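import Mathlib
import Pool.Agent.Tri5.Targets

/-!
# Sums of two triangular numbers and two powers of 5: SC2, the average over the quadruples
-/

set_option autoImplicit false

open Finset

namespace Pool.Agent.Tri5

namespace SC2_

lemma cop5 (m : ℕ) (hm : 1 ≤ m) : Nat.Coprime (5 ^ m - 1) 5 := by
  apply Nat.Coprime.symm
  rw [Nat.Prime.coprime_iff_not_dvd (by norm_num)]
  rintro ⟨c, hc⟩
  obtain ⟨j, rfl⟩ := Nat.exists_eq_add_of_le hm
  have h1 : 5 ^ (1 + j) = 5 * 5 ^ j := by rw [pow_add, pow_one]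
  have h2 : 0 < 5 ^ j := by positivity
  rw [h1] at hc
  omega

lemma od_dvd (K d : ℕ) (hd : d ∣ 5 ^ (30 * K) - 1) : od 30 d ∣ K := by
  unfold od
  apply orderOf_dvd_of_pow_eq_one
  rw [← pow_mul]
  have h1 : ((5 ^ (30 * K) - 1 : ℕ) : ZMod d) = 0 := (ZMod.natCast_eq_zero_iff _ _).2 hd
  rw [Nat.cast_sub (Nat.one_le_pow _ _ (by norm_num))] at h1
  push_cast at h1
  exact sub_eq_zero.1 h1

lemma card_quads (K : ℕ) : ((quads K).card : ℝ) = (K : ℝ) ^ 4 := by
  unfold quads
  rw [card_product, card_product, card_range]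
  push_cast
  ring

end SC2_

open SC2_ in
theorem p_SC2 (h1 : T_EXP) (h2 : T_ND) : T_SC2 := by
  intro a b K S hS hK
  have hp : ∀ p ∈ S, p.Prime := fun p hp => (hS p hp).1.1
  rw [h1 _ (quads K) (hh 30 a b) S hp]
  have hprod : ∏ p ∈ S, p ∣ 5 ^ (30 * K) - 1 := by
    apply Finset.prod_primes_dvd
    · intro p hpS
      exact (hp p hpS).prime
    · intro p hpS
      exact (hS p hpS).2
  have hne : ∏ p ∈ S, p ≠ 0 := by
    rw [Finset.prod_ne_zero_iff]
    intro p hpS
    exact (hp p hpS).ne_zero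
  have hone : 1 ∈ (∏ p ∈ S, p).divisors := Nat.one_mem_divisors.2 hne
  rw [← Finset.add_sum_erase _ _ hone, mul_add, mul_one]
  apply add_le_add
  · rw [Nat.totient_one, Nat.cast_one, div_one, one_mul, ← card_quads]
    exact_mod_cast Finset.card_le_card (Finset.filter_subset _ _)
  · unfold GS
    rw [Finset.mul_sum]
    apply Finset.sum_le_sum
    intro d hd
    have hd1 : d ∣ ∏ p ∈ S, p := Nat.dvd_of_mem_divisors (Finset.mem_of_mem_erase hd)
    have hd2 : d ∣ 5 ^ (30 * K) - 1 := hd1.trans hprod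
    have hd0 : 1 ≤ d := Nat.pos_of_dvd_of_pos hd1 (Nat.pos_of_ne_zero hne)
    have hc : d.Coprime 5 := Nat.Coprime.coprime_dvd_left hd2 (cop5 (30 * K) (by omega))
    obtain ⟨e1, -, e3⟩ := h2 30 a b K d hd0 hc
    have e4 := e3 (od_dvd K d hd2)
    have ht : (0 : ℝ) < Nat.totient d := by exact_mod_cast Nat.totient_pos.2 hd0
    have ho : (0 : ℝ) < od 30 d := by exact_mod_cast e1
    have e5 : (((quads K).filter (fun u => (d : ℤ) ∣ hh 30 a b u)).card : ℝ) ≤
        (K : ℝ) ^ 4 / od 30 d := e4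
    calc (1 : ℝ) / Nat.totient d * (((quads K).filter (fun u => (d : ℤ) ∣ hh 30 a b u)).card : ℝ)
        ≤ 1 / Nat.totient d * ((K : ℝ) ^ 4 / od 30 d) := by
          apply mul_le_mul_of_nonneg_left e5 (by positivity)
      _ = (K : ℝ) ^ 4 * (1 / (Nat.totient d * od 30 d)) := by
          field_simp

end Pool.Agent.Tri5
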