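import Pool.Agent.Tri5.Targets

set_option autoImplicit false

/-!
# SEC: the density of the good numbers
-/

open Finset

namespace Pool.Agent.Tri5

namespace SEC_

/-- The exceptional primes. -/
def T5 : Finset ℕ := {3, 7, 11, 31, 71}

lemma mem_T5 {p : ℕ} : p ∈ T5 ↔ p = 3 ∨ p = 7 ∨ p = 11 ∨ p = 31 ∨ p = 71 := by
  simp [T5]

/-- The product of the exceptional primes. -/
def N0 : ℕ := 508431

lemma T5_dvd {p : ℕ} (hp : p ∈ T5) : p ∣ N0 := by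
  rcases mem_T5.1 hp with h | h | h | h | h <;> subst h <;> decide

lemma T5_pow {p : ℕ} (hp : p ∈ T5) : (p : ℤ) ∣ 5 ^ 30 - 1 := by
  rcases mem_T5.1 hp with h | h | h | h | h <;> subst h <;> norm_num

lemma cop_N0 {p : ℕ} (hp : p.Prime) (h : p ∉ T5) : p.Coprime N0 := by
  rw [Nat.Prime.coprime_iff_not_dvd hp]
  intro hd
  have h1 : N0 = 3 * (7 * (11 * (31 * 71))) := by decide
  rw [h1] at hd
  apply h
  rw [mem_T5]
  have key : ∀ q : ℕ, q.Prime → p ∣ q → p = q := fun q hq hpq =>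
    (Nat.prime_dvd_prime_iff_eq hp hq).1 hpq
  rcases hp.dvd_mul.1 hd with h2 | h2
  · exact Or.inl (key 3 (by norm_num) h2)
  rcases hp.dvd_mul.1 h2 with h2 | h2
  · exact Or.inr (Or.inl (key 7 (by norm_num) h2))
  rcases hp.dvd_mul.1 h2 with h2 | h2
  · exact Or.inr (Or.inr (Or.inl (key 11 (by norm_num) h2)))
  rcases hp.dvd_mul.1 h2 with h2 | h2
  · exact Or.inr (Or.inr (Or.inr (Or.inl (key 31 (by norm_num) h2))))
  · exact Or.inr (Or.inr (Or.inr (Or.inr (key 71 (by norm_num) h2))))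

/-- The other primes. -/
def S0 (L : ℕ) : Finset ℕ := (5 ^ L - 1).primeFactors.filter (fun p => p % 4 = 3 ∧ p ∉ T5)

lemma mem_S0 {L : ℕ} (hL : 1 ≤ L) {p : ℕ} :
    p ∈ S0 L ↔ p.Prime ∧ p ∣ 5 ^ L - 1 ∧ p % 4 = 3 ∧ p ∉ T5 := by
  unfold S0
  rw [Finset.mem_filter, Nat.mem_primeFactors]
  have h1 : 5 ^ L - 1 ≠ 0 := by
    have : 5 ^ 1 ≤ 5 ^ L := Nat.pow_le_pow_right (by norm_num) hL
    omega
  constructor
  · rintro ⟨⟨h2, h3, -⟩, h4, h5⟩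
    exact ⟨h2, h3, h4, h5⟩
  · rintro ⟨h2, h3, h4, h5⟩
    exact ⟨⟨h2, h3, h1⟩, h4, h5⟩

lemma C3_of_S0 {L : ℕ} (hL : 1 ≤ L) {p : ℕ} (h : p ∈ S0 L) : C3 p := by
  obtain ⟨h1, h2, h3, h4⟩ := (mem_S0 hL).1 h
  rw [mem_T5] at h4
  push Not at h4
  exact ⟨h1, h3, h4.1, h4.2.1, h4.2.2.1, h4.2.2.2.1, h4.2.2.2.2⟩

/-- The period. -/
def MM (L : ℕ) : ℕ := N0 * ∏ p ∈ S0 L, p

lemma dvd_MM {L : ℕ} (hL : 1 ≤ L) {p : ℕ} (hp : p.Prime) (h4 : p % 4 = 3)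
    (hd : p ∣ 5 ^ L - 1) : p ∣ MM L := by
  unfold MM
  by_cases h : p ∈ T5
  · exact dvd_mul_of_dvd_left (T5_dvd h) _
  · exact dvd_mul_of_dvd_right (Finset.dvd_prod_of_mem _ ((mem_S0 hL).2 ⟨hp, hd, h4, h⟩)) _

lemma MM_pos {L : ℕ} (hL : 1 ≤ L) : 1 ≤ MM L := by
  unfold MM
  have h1 : 0 < ∏ p ∈ S0 L, p :=
    Finset.prod_pos (fun p hp => ((mem_S0 hL).1 hp).1.pos)
  have h2 : 0 < N0 := by decide
  exact Nat.mul_pos h2 h1

lemma period {L : ℕ} (hL : 1 ≤ L) (n : ℕ) : Good L (n + MM L) ↔ Good L n := by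
  unfold Good
  constructor
  · rintro ⟨a, b, ha, hb, h⟩
    refine ⟨a, b, ha, hb, fun p hp h4 hd hdv => h p hp h4 hd ?_⟩
    have h1 : (p : ℤ) ∣ 4 * (MM L : ℤ) :=
      dvd_mul_of_dvd_right (Int.natCast_dvd_natCast.2 (dvd_MM hL hp h4 hd)) _
    have h2 := dvd_add hdv h1
    have h3 : 4 * (n : ℤ) + 1 - 4 * 5 ^ a - 4 * 5 ^ b + 4 * (MM L : ℤ) =
        4 * ((n + MM L : ℕ) : ℤ) + 1 - 4 * 5 ^ a - 4 * 5 ^ b := by
      push_cast
      ring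
    rwa [h3] at h2
  · rintro ⟨a, b, ha, hb, h⟩
    refine ⟨a, b, ha, hb, fun p hp h4 hd hdv => h p hp h4 hd ?_⟩
    have h1 : (p : ℤ) ∣ 4 * (MM L : ℤ) :=
      dvd_mul_of_dvd_right (Int.natCast_dvd_natCast.2 (dvd_MM hL hp h4 hd)) _
    have h2 := dvd_sub hdv h1
    have h3 : 4 * ((n + MM L : ℕ) : ℤ) + 1 - 4 * 5 ^ a - 4 * 5 ^ b - 4 * (MM L : ℤ) =
        4 * (n : ℤ) + 1 - 4 * 5 ^ a - 4 * 5 ^ b := by
      push_cast
      ring
    rwa [h3] at h2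

/-- Powers with exponents congruent modulo `30`. -/
lemma pow_cong {p : ℕ} (hp : p ∈ T5) (a i : ℕ) : (p : ℤ) ∣ 5 ^ (a + 30 * i) - 5 ^ a := by
  have h1 : (5 : ℤ) ^ (a + 30 * i) - 5 ^ a = 5 ^ a * ((5 ^ 30) ^ i - 1) := by
    rw [pow_add, pow_mul]
    ring
  rw [h1]
  apply dvd_mul_of_dvd_right
  have h2 := sub_dvd_pow_sub_pow ((5 : ℤ) ^ 30) 1 i
  rw [one_pow] at h2
  exact (T5_pow hp).trans h2

/-- The shifts. -/
def vv (a b : ℕ) (u : ℕ × ℕ) : ℤ := 4 * 5 ^ (a + 30 * u.1) + 4 * 5 ^ (b + 30 * u.2)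

lemma vv_sub (a b : ℕ) (w : (ℕ × ℕ) × (ℕ × ℕ)) :
    vv a b w.1 - vv a b w.2 = 4 * hh 30 a b w := by
  unfold vv hh
  ring

lemma dvd_four {p : ℕ} (hp : p.Prime) (h4 : p % 4 = 3) (z : ℤ) :
    (p : ℤ) ∣ 4 * z ↔ (p : ℤ) ∣ z := by
  constructor
  · intro h
    have hpp : Prime (p : ℤ) := Nat.prime_iff_prime_int.1 hp
    rcases hpp.dvd_or_dvd h with h7 | h7
    · exfalso
      have h8 : p ∣ 4 := by exact_mod_cast h7
      have h9 : p ∣ 2 ^ 2 := by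
        have : (4 : ℕ) = 2 ^ 2 := by norm_num
        rwa [this] at h8
      have h10 := (Nat.prime_dvd_prime_iff_eq hp Nat.prime_two).1 (hp.dvd_of_dvd_pow h9)
      omega
    · exact h7
  · intro h
    exact dvd_mul_of_dvd_right h _

open Classical in
/-- The bad numbers in one class modulo `N0`. -/
lemma one_class (h1 : T_FIN) (h2 : T_SM) (h3 : T_SC2) {L : ℕ} {g : ℝ} (hL : 1 ≤ L)
    (h30 : 30 ∣ L) (_hg : 0 ≤ g) (hG : ∀ S : Finset ℕ, (∀ p ∈ S, C3 p) → GS 30 S ≤ g)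
    {r : ℕ} (hr : r < N0) :
    (((range (MM L)).filter (fun n => n % N0 = r ∧ ¬ Good L n)).card : ℝ) ≤
      g * ∏ p ∈ S0 L, (p : ℝ) := by
  obtain ⟨K, hK⟩ := h30
  have hK1 : 1 ≤ K := by
    rcases Nat.eq_zero_or_pos K with h | h
    · subst h; omega
    · exact h
  obtain ⟨a, b, ha, ha', hb, hb', hab⟩ := h1 r
  have hS : ∀ p ∈ S0 L, p.Prime ∧ 3 ≤ p ∧ p.Coprime N0 := by
    intro p hp
    obtain ⟨e1, e2, e3, e4⟩ := (mem_S0 hL).1 hp
    exact ⟨e1, by omega, cop_N0 e1 e4⟩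
  have hsm := h2 (ℕ × ℕ) (range K ×ˢ range K) (vv a b) N0 r (S0 L) (by decide) hr hS
  have hsc := h3 a b K (S0 L) (fun p hp => ⟨C3_of_S0 hL hp, by
    rw [← hK]
    exact ((mem_S0 hL).1 hp).2.1⟩) hK1
  have hgs := hG (S0 L) (fun p hp => C3_of_S0 hL hp)
  -- the two sums agree
  have hsum : ∑ w ∈ (range K ×ˢ range K) ×ˢ (range K ×ˢ range K),
      ∏ p ∈ (S0 L).filter (fun p : ℕ => (p : ℤ) ∣ vv a b w.1 - vv a b w.2),
        (1 + 1 / ((p : ℝ) - 1)) =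
      ∑ u ∈ quads K, ∏ p ∈ (S0 L).filter (fun p : ℕ => (p : ℤ) ∣ hh 30 a b u),
        (1 + 1 / ((p : ℝ) - 1)) := by
    unfold quads
    apply Finset.sum_congr rfl
    intro w _
    apply Finset.prod_congr _ (fun _ _ => rfl)
    apply Finset.filter_congr
    intro p hp
    obtain ⟨e1, e2, e3, e4⟩ := (mem_S0 hL).1 hp
    rw [vv_sub]
    exact dvd_four e1 e3 _
  rw [hsum] at hsm
  have hcard : (((range K ×ˢ range K).card : ℕ) : ℝ) = (K : ℝ) ^ 2 := by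
    rw [Finset.card_product, Finset.card_range]
    push_cast
    ring
  rw [hcard] at hsm
  have hP : (0 : ℝ) ≤ ∏ p ∈ S0 L, (p : ℝ) := Finset.prod_nonneg (fun p _ => Nat.cast_nonneg p)
  have hK0 : (0 : ℝ) < (K : ℝ) ^ 4 := by
    have : (0 : ℝ) < K := by exact_mod_cast hK1
    positivity
  -- the bad numbers are counted by SM
  have hsub : (range (MM L)).filter (fun n => n % N0 = r ∧ ¬ Good L n) ⊆
      (range (N0 * ∏ p ∈ S0 L, p)).filter (fun n => n % N0 = r ∧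
        ∀ u ∈ range K ×ˢ range K, ∃ p ∈ S0 L, (p : ℤ) ∣ 4 * (n : ℤ) + 1 - vv a b u) := by
    intro n hn
    rw [Finset.mem_filter] at hn ⊢
    refine ⟨hn.1, hn.2.1, ?_⟩
    intro u hu
    have hbad := hn.2.2
    unfold Good at hbad
    push Not at hbad
    obtain ⟨p, hp, hp4, hpd, hdv⟩ := hbad (a + 30 * u.1) (b + 30 * u.2) (by omega) (by omega)
    have hdv' : (p : ℤ) ∣ 4 * (n : ℤ) + 1 - vv a b u := by
      have e1 : 4 * (n : ℤ) + 1 - vv a b u =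
          4 * (n : ℤ) + 1 - 4 * 5 ^ (a + 30 * u.1) - 4 * 5 ^ (b + 30 * u.2) := by
        unfold vv
        ring
      rw [e1]
      exact hdv
    refine ⟨p, (mem_S0 hL).2 ⟨hp, hpd, hp4, ?_⟩, hdv'⟩
    intro hT
    have hc := hab p hT
    apply hc
    -- reduce to `r`
    have e1 : (p : ℤ) ∣ (n : ℤ) - r := by
      have e2 : (N0 : ℤ) ∣ (n : ℤ) - r := by
        have e3 := Nat.mod_add_div n N0
        rw [hn.2.1] at e3
        refine ⟨((n / N0 : ℕ) : ℤ), ?_⟩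
        have e4 : ((r + N0 * (n / N0) : ℕ) : ℤ) = (n : ℤ) := by exact_mod_cast e3
        push_cast at e4 ⊢
        linarith
      exact (Int.natCast_dvd_natCast.2 (T5_dvd hT)).trans e2
    have e2 := pow_cong hT a u.1
    have e3 := pow_cong hT b u.2
    have e4 := dvd_add (dvd_add (dvd_sub hdv (dvd_mul_of_dvd_right e1 4))
      (dvd_mul_of_dvd_right e2 4)) (dvd_mul_of_dvd_right e3 4)
    have e5 : 4 * (n : ℤ) + 1 - 4 * 5 ^ (a + 30 * u.1) - 4 * 5 ^ (b + 30 * u.2) -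
        4 * ((n : ℤ) - r) + 4 * (5 ^ (a + 30 * u.1) - 5 ^ a) +
        4 * (5 ^ (b + 30 * u.2) - 5 ^ b) = 4 * (r : ℤ) + 1 - 4 * 5 ^ a - 4 * 5 ^ b := by ring
    rwa [e5] at e4
  have hcle : (((range (MM L)).filter (fun n => n % N0 = r ∧ ¬ Good L n)).card : ℝ) ≤
      (((range (N0 * ∏ p ∈ S0 L, p)).filter (fun n => n % N0 = r ∧
        ∀ u ∈ range K ×ˢ range K, ∃ p ∈ S0 L, (p : ℤ) ∣ 4 * (n : ℤ) + 1 - vv a b u)).card : ℝ) := by
    exact_mod_cast Finset.card_le_card hsub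
  have h5 : (((range (N0 * ∏ p ∈ S0 L, p)).filter (fun n => n % N0 = r ∧
        ∀ u ∈ range K ×ˢ range K, ∃ p ∈ S0 L, (p : ℤ) ∣ 4 * (n : ℤ) + 1 - vv a b u)).card : ℝ) *
        (K : ℝ) ^ 4 ≤ (g * ∏ p ∈ S0 L, (p : ℝ)) * (K : ℝ) ^ 4 := by
    have e0 : ((K : ℝ) ^ 2) ^ 2 = (K : ℝ) ^ 4 := by ring
    rw [e0] at hsm
    have hsm' : (((range (N0 * ∏ p ∈ S0 L, p)).filter (fun n => n % N0 = r ∧
        ∀ u ∈ range K ×ˢ range K, ∃ p ∈ S0 L, (p : ℤ) ∣ 4 * (n : ℤ) + 1 - vv a b u)).card : ℝ) *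
        (K : ℝ) ^ 4 ≤ (∏ p ∈ S0 L, (p : ℝ)) *
          (∑ u ∈ quads K, ∏ p ∈ (S0 L).filter (fun p : ℕ => (p : ℤ) ∣ hh 30 a b u),
            (1 + 1 / ((p : ℝ) - 1)) - (K : ℝ) ^ 4) := by
      exact hsm
    refine hsm'.trans ?_
    have e1 : (∏ p ∈ S0 L, (p : ℝ)) *
          (∑ u ∈ quads K, ∏ p ∈ (S0 L).filter (fun p : ℕ => (p : ℤ) ∣ hh 30 a b u),
            (1 + 1 / ((p : ℝ) - 1)) - (K : ℝ) ^ 4) ≤
          (∏ p ∈ S0 L, (p : ℝ)) * ((K : ℝ) ^ 4 * g) := by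
      apply mul_le_mul_of_nonneg_left _ hP
      have e2 : (K : ℝ) ^ 4 * (1 + GS 30 (S0 L)) ≤ (K : ℝ) ^ 4 * (1 + g) :=
        mul_le_mul_of_nonneg_left (by linarith) hK0.le
      linarith
    refine e1.trans (le_of_eq ?_)
    ring
  exact hcle.trans (le_of_mul_le_mul_right h5 hK0)

end SEC_

open SEC_ in
theorem p_SEC (h1 : T_FIN) (h2 : T_SM) (h3 : T_SC2) : T_SEC := by
  classical
  intro L g hL h30 hg hG
  refine ⟨MM L, MM_pos hL, period hL, ?_⟩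
  have e1 : (Nat.card {n : ℕ // n < MM L ∧ ¬ Good L n}) =
      ((range (MM L)).filter (fun n => ¬ Good L n)).card := by
    rw [Nat.subtype_card]
    intro n
    rw [Finset.mem_filter, Finset.mem_range]
  rw [e1]
  have e2 : ((range (MM L)).filter (fun n => ¬ Good L n)).card =
      ∑ r ∈ range N0, (((range (MM L)).filter (fun n => ¬ Good L n)).filter
        (fun n => n % N0 = r)).card := by
    apply Finset.card_eq_sum_card_fiberwise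
    intro n _
    have h0 : 0 < N0 := by decide
    exact Finset.mem_coe.2 (Finset.mem_range.2 (Nat.mod_lt n h0))
  rw [e2]
  push_cast
  have e3 : ∀ r ∈ range N0, (((((range (MM L)).filter (fun n => ¬ Good L n)).filter
        (fun n => n % N0 = r)).card : ℕ) : ℝ) ≤ g * ∏ p ∈ S0 L, (p : ℝ) := by
    intro r hr
    have h4 := one_class h1 h2 h3 hL h30 hg hG (Finset.mem_range.1 hr)
    have h5 : ((range (MM L)).filter (fun n => ¬ Good L n)).filter (fun n => n % N0 = r) =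
        (range (MM L)).filter (fun n => n % N0 = r ∧ ¬ Good L n) := by
      ext n
      simp only [Finset.mem_filter]
      exact ⟨fun h => ⟨h.1.1, h.2, h.1.2⟩, fun h => ⟨⟨h.1, h.2.2⟩, h.2.1⟩⟩
    rw [h5]
    exact h4
  refine (Finset.sum_le_sum e3).trans (le_of_eq ?_)
  rw [Finset.sum_const, Finset.card_range, nsmul_eq_mul]
  unfold MM
  push_cast
  ring

end Pool.Agent.Tri5
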