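import Pool.Agent.Tri5.Targets
import Mathlib

/-!
# SM: second moment over residues
-/

open Finset

namespace Pool.Agent.Tri5

namespace SM_

open Classical in
/-- independence modulo distinct primes -/
lemma indep (N₀ r : ℕ) (hN : 1 ≤ N₀) (hr : r < N₀) (c : ℕ → ℕ → Prop)
    (S : Finset ℕ) (hS : ∀ p ∈ S, p.Prime ∧ p.Coprime N₀)
    (hc : ∀ p ∈ S, ∀ n m : ℕ, n % p = m % p → (c p n ↔ c p m)) :
    ((range (N₀ * ∏ p ∈ S, p)).filter (fun n => n % N₀ = r ∧ ∀ p ∈ S, c p n)).card =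
      ∏ p ∈ S, ((range p).filter (fun t => c p t)).card := by
  induction S using Finset.induction_on with
  | empty =>
    simp only [Finset.prod_empty, mul_one]
    rw [Finset.card_eq_one]
    refine ⟨r, ?_⟩
    ext n
    simp only [Finset.mem_filter, Finset.mem_range, Finset.notMem_empty, Finset.mem_singleton,
      IsEmpty.forall_iff, implies_true, and_true]
    constructor
    · rintro ⟨h1, h2⟩
      rwa [Nat.mod_eq_of_lt h1] at h2
    · rintro rfl
      exact ⟨hr, Nat.mod_eq_of_lt hr⟩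
  | insert q S hq ih =>
    have ih' := ih (fun p hp => hS p (Finset.mem_insert_of_mem hp))
      (fun p hp => hc p (Finset.mem_insert_of_mem hp))
    obtain ⟨hqp, hqN⟩ := hS q (Finset.mem_insert_self _ _)
    set N₁ := N₀ * ∏ p ∈ S, p with hN₁
    have hcop : Nat.Coprime N₁ q := by
      rw [hN₁]
      apply Nat.Coprime.mul_left hqN.symm
      apply Nat.Coprime.prod_left
      intro p hp
      have h1 := (hS p (Finset.mem_insert_of_mem hp)).1
      rw [Nat.coprime_primes h1 hqp]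
      rintro rfl
      exact hq hp
    have hN₁pos : 0 < N₁ := by
      rw [hN₁]
      apply Nat.mul_pos hN
      apply Finset.prod_pos
      intro p hp
      exact (hS p (Finset.mem_insert_of_mem hp)).1.pos
    have hN₁q : N₀ * ∏ p ∈ insert q S, p = N₁ * q := by
      rw [Finset.prod_insert hq, hN₁]; ring
    rw [hN₁q, Finset.prod_insert hq, ← ih', mul_comm (((range q).filter (fun t => c q t)).card),
      ← Finset.card_product]
    have hN0dvd : N₀ ∣ N₁ := Dvd.intro _ hN₁.symm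
    have hpdvd : ∀ p ∈ S, p ∣ N₁ := by
      intro p hp
      rw [hN₁]
      exact Dvd.dvd.mul_left (Finset.dvd_prod_of_mem _ hp) _
    refine Finset.card_nbij' (fun n => (n % N₁, n % q))
      (fun w => (Nat.chineseRemainder hcop w.1 w.2 : ℕ)) ?_ ?_ ?_ ?_
    · intro n hn
      simp only [Finset.coe_filter, Finset.mem_range, Set.mem_ofPred_eq] at hn
      simp only [Finset.coe_product, Finset.coe_filter, Finset.mem_range, Set.mem_prod,
        Set.mem_ofPred_eq]
      obtain ⟨h1, h2, h3⟩ := hn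
      refine ⟨⟨Nat.mod_lt _ hN₁pos, ?_, ?_⟩, Nat.mod_lt _ hqp.pos, ?_⟩
      · rw [Nat.mod_mod_of_dvd _ hN0dvd]; exact h2
      · intro p hp
        rw [hc p (Finset.mem_insert_of_mem hp) (n % N₁) n (Nat.mod_mod_of_dvd _ (hpdvd p hp))]
        exact h3 p (Finset.mem_insert_of_mem hp)
      · rw [hc q (Finset.mem_insert_self _ _) (n % q) n (Nat.mod_mod _ _)]
        exact h3 q (Finset.mem_insert_self _ _)
    · rintro ⟨x, y⟩ hw
      simp only [Finset.coe_product, Finset.coe_filter, Finset.mem_range, Set.mem_prod,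
        Set.mem_ofPred_eq] at hw
      simp only [Finset.coe_filter, Finset.mem_range, Set.mem_ofPred_eq]
      obtain ⟨⟨h1, h2, h3⟩, h4, h5⟩ := hw
      have e1 := (Nat.chineseRemainder hcop x y).2.1
      have e2 := (Nat.chineseRemainder hcop x y).2.2
      refine ⟨Nat.chineseRemainder_lt_mul hcop x y hN₁pos.ne' hqp.ne_zero, ?_, ?_⟩
      · rw [← h2]
        exact (e1.of_dvd hN0dvd)
      · intro p hp
        rw [Finset.mem_insert] at hp
        rcases hp with rfl | hp
        · rw [hc p (Finset.mem_insert_self _ _) _ y e2]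
          exact h5
        · rw [hc p (Finset.mem_insert_of_mem hp) _ x (e1.of_dvd (hpdvd p hp))]
          exact h3 p hp
    · intro n hn
      simp only [Finset.coe_filter, Finset.mem_range, Set.mem_ofPred_eq] at hn
      obtain ⟨h1, _, _⟩ := hn
      have e1 := (Nat.chineseRemainder hcop (n % N₁) (n % q)).2.1
      have e2 := (Nat.chineseRemainder hcop (n % N₁) (n % q)).2.2
      have e3 : (Nat.chineseRemainder hcop (n % N₁) (n % q) : ℕ) ≡ n [MOD N₁ * q] := by
        rw [← Nat.modEq_and_modEq_iff_modEq_mul hcop]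
        exact ⟨e1.trans (Nat.mod_modEq _ _), e2.trans (Nat.mod_modEq _ _)⟩
      have e4 := Nat.chineseRemainder_lt_mul hcop (n % N₁) (n % q) hN₁pos.ne' hqp.ne_zero
      exact Nat.ModEq.eq_of_lt_of_lt e3 e4 h1
    · rintro ⟨x, y⟩ hw
      simp only [Finset.coe_product, Finset.coe_filter, Finset.mem_range, Set.mem_prod,
        Set.mem_ofPred_eq] at hw
      obtain ⟨⟨h1, _, _⟩, h4, _⟩ := hw
      have e1 := (Nat.chineseRemainder hcop x y).2.1
      have e2 := (Nat.chineseRemainder hcop x y).2.2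
      simp only [Prod.mk.injEq]
      constructor
      · have := e1
        rw [Nat.ModEq, Nat.mod_eq_of_lt h1] at this
        exact this
      · have := e2
        rw [Nat.ModEq, Nat.mod_eq_of_lt h4] at this
        exact this

/-- the class of solutions -/
lemma sol (p : ℕ) (hp : p.Prime) (h3 : 3 ≤ p) (c : ℤ) :
    ∃ t₀ < p, ∀ t : ℕ, t < p → ((p : ℤ) ∣ 4 * (t : ℤ) + 1 - c ↔ t = t₀) := by
  have hpZ : Prime (p : ℤ) := Nat.prime_iff_prime_int.1 hp
  have hp4 : ¬ (p : ℤ) ∣ 4 := by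
    intro h
    have h1 : p ∣ 4 := by exact_mod_cast h
    have h2 : p ∣ 2 ^ 2 := by simpa using h1
    have h3' := (Nat.prime_dvd_prime_iff_eq hp Nat.prime_two).1 (hp.dvd_of_dvd_pow h2)
    omega
  have hcop : IsCoprime (4 : ℤ) (p : ℤ) :=
    ((hpZ.coprime_iff_not_dvd).2 hp4).symm
  obtain ⟨k, l, hkl⟩ := hcop
  have hp0 : (0 : ℤ) < p := by exact_mod_cast hp.pos
  have h0 : 0 ≤ ((c - 1) * k) % (p : ℤ) := Int.emod_nonneg _ hp0.ne'
  have h1 : ((c - 1) * k) % (p : ℤ) < p := Int.emod_lt_of_pos _ hp0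
  refine ⟨(((c - 1) * k) % (p : ℤ)).toNat, by omega, ?_⟩
  have hsol : (p : ℤ) ∣ 4 * (((c - 1) * k) % (p : ℤ)) + 1 - c := by
    have e1 : ((c - 1) * k) % (p : ℤ) = (c - 1) * k - p * (((c - 1) * k) / p) :=
      Int.emod_def _ _
    rw [e1]
    refine ⟨-(4 * (((c - 1) * k) / p)) - (c - 1) * l, ?_⟩
    linear_combination (c - 1) * hkl
  intro t ht
  constructor
  · intro h
    have h2 : (p : ℤ) ∣ 4 * ((t : ℤ) - ((c - 1) * k) % (p : ℤ)) := by
      have := dvd_sub h hsol
      have e : 4 * (t : ℤ) + 1 - c - (4 * (((c - 1) * k) % (p : ℤ)) + 1 - c) =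
          4 * ((t : ℤ) - ((c - 1) * k) % (p : ℤ)) := by ring
      rwa [e] at this
    have h4 := (hpZ.dvd_or_dvd h2).resolve_left hp4
    have h5 : (t : ℤ) - ((c - 1) * k) % (p : ℤ) = 0 := by
      apply Int.eq_zero_of_abs_lt_dvd h4
      rw [abs_lt]
      constructor <;> omega
    omega
  · intro h
    have : (t : ℤ) = ((c - 1) * k) % (p : ℤ) := by
      rw [h, Int.toNat_of_nonneg h0]
    rw [this]
    exact hsol

lemma cnt1 (p : ℕ) (hp : p.Prime) (h3 : 3 ≤ p) (c : ℤ)
    [DecidablePred (fun t : ℕ => ¬ (p : ℤ) ∣ 4 * (t : ℤ) + 1 - c)] :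
    ((range p).filter (fun t : ℕ => ¬ (p : ℤ) ∣ 4 * (t : ℤ) + 1 - c)).card = p - 1 := by
  obtain ⟨t₀, ht₀, h⟩ := sol p hp h3 c
  have : (range p).filter (fun t : ℕ => ¬ (p : ℤ) ∣ 4 * (t : ℤ) + 1 - c) =
      (range p).erase t₀ := by
    ext t
    simp only [Finset.mem_filter, Finset.mem_range, Finset.mem_erase]
    constructor
    · rintro ⟨h1, h2⟩
      rw [h t h1] at h2
      exact ⟨h2, h1⟩
    · rintro ⟨h1, h2⟩
      refine ⟨h2, ?_⟩
      rw [h t h2]
      exact h1
  rw [this, Finset.card_erase_of_mem (Finset.mem_range.2 ht₀), Finset.card_range]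

lemma cnt2 (p : ℕ) (hp : p.Prime) (h3 : 3 ≤ p) (c d : ℤ)
    [DecidablePred (fun t : ℕ => ¬ (p : ℤ) ∣ 4 * (t : ℤ) + 1 - c ∧
      ¬ (p : ℤ) ∣ 4 * (t : ℤ) + 1 - d)] :
    ((range p).filter (fun t : ℕ => ¬ (p : ℤ) ∣ 4 * (t : ℤ) + 1 - c ∧
      ¬ (p : ℤ) ∣ 4 * (t : ℤ) + 1 - d)).card = if (p : ℤ) ∣ c - d then p - 1 else p - 2 := by
  classical
  split_ifs with hcd
  · rw [← cnt1 p hp h3 c]
    congr 1
    ext t
    simp only [Finset.mem_filter, and_congr_right_iff, and_iff_left_iff_imp]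
    intro _ h1 h2
    apply h1
    have := dvd_sub h2 hcd
    have e : 4 * (t : ℤ) + 1 - d - (c - d) = 4 * (t : ℤ) + 1 - c := by ring
    rwa [e] at this
  · obtain ⟨t₀, ht₀, h⟩ := sol p hp h3 c
    obtain ⟨t₁, ht₁, h'⟩ := sol p hp h3 d
    have hne : t₀ ≠ t₁ := by
      intro e
      apply hcd
      have h1 := (h t₀ ht₀).2 rfl
      have h2 := (h' t₀ ht₀).2 e
      have := dvd_sub h2 h1
      have e : 4 * (t₀ : ℤ) + 1 - d - (4 * (t₀ : ℤ) + 1 - c) = c - d := by ring
      rwa [e] at this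
    have : (range p).filter (fun t : ℕ => ¬ (p : ℤ) ∣ 4 * (t : ℤ) + 1 - c ∧
        ¬ (p : ℤ) ∣ 4 * (t : ℤ) + 1 - d) = ((range p).erase t₀).erase t₁ := by
      ext t
      simp only [Finset.mem_filter, Finset.mem_range, Finset.mem_erase]
      constructor
      · rintro ⟨h1, h2, h4⟩
        rw [h t h1] at h2
        rw [h' t h1] at h4
        exact ⟨h4, h2, h1⟩
      · rintro ⟨h1, h2, h4⟩
        rw [h t h4, h' t h4]
        exact ⟨h4, h2, h1⟩
    rw [this, Finset.card_erase_of_mem, Finset.card_erase_of_mem (Finset.mem_range.2 ht₀),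
      Finset.card_range]
    · omega
    · rw [Finset.mem_erase]
      exact ⟨hne.symm, Finset.mem_range.2 ht₁⟩

lemma modinv (p : ℕ) (c : ℤ) (n m : ℕ) (h : n % p = m % p) :
    ((p : ℤ) ∣ 4 * (n : ℤ) + 1 - c ↔ (p : ℤ) ∣ 4 * (m : ℤ) + 1 - c) := by
  have h1 : (p : ℤ) ∣ (m : ℤ) - n := (Nat.modEq_iff_dvd).1 h
  have h2 : (p : ℤ) ∣ 4 * ((m : ℤ) - n) := Dvd.dvd.mul_left h1 4
  constructor
  · intro h3
    have := dvd_add h3 h2
    have e : 4 * (n : ℤ) + 1 - c + 4 * ((m : ℤ) - n) = 4 * (m : ℤ) + 1 - c := by ring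
    rwa [e] at this
  · intro h3
    have := dvd_sub h3 h2
    have e : 4 * (m : ℤ) + 1 - c - 4 * ((m : ℤ) - n) = 4 * (n : ℤ) + 1 - c := by ring
    rwa [e] at this

end SM_

open SM_ Classical in
theorem p_SM : T_SM := by
  intro ι U v N₀ r S hN hr hS
  set R := (range (N₀ * ∏ p ∈ S, p)).filter (fun n => n % N₀ = r) with hR
  set P : ℝ := ∏ p ∈ S, (p : ℝ) with hP
  set W : ℝ := ∏ p ∈ S, ((p : ℝ) - 1) with hW
  have hSp : ∀ p ∈ S, (3 : ℝ) ≤ p := fun p hp => by exact_mod_cast (hS p hp).2.1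
  have hWpos : 0 < W := Finset.prod_pos fun p hp => by have := hSp p hp; linarith
  have hPpos : 0 < P := Finset.prod_pos fun p hp => by have := hSp p hp; linarith
  -- counting lemma
  have key : ∀ c : ℕ → ℕ → Prop, (∀ p ∈ S, ∀ n m : ℕ, n % p = m % p → (c p n ↔ c p m)) →
      ((R.filter (fun n => ∀ p ∈ S, c p n)).card : ℝ) =
        ∏ p ∈ S, (((range p).filter (fun t => c p t)).card : ℝ) := by
    intro c hc
    rw [hR, Finset.filter_filter, indep N₀ r hN hr c S
      (fun p hp => ⟨(hS p hp).1, (hS p hp).2.2⟩) hc]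
    push_cast
    rfl
  have hRcard : (R.card : ℝ) = P := by
    have := key (fun _ _ => True) (fun _ _ _ _ _ => Iff.rfl)
    simp only [implies_true, Finset.filter_true, Finset.card_range] at this
    exact this
  let gd : ℕ → ι → Prop := fun n u => ∀ p ∈ S, ¬ (p : ℤ) ∣ 4 * (n : ℤ) + 1 - v u
  let Z : ℕ → ℝ := fun n => ((U.filter (fun u => gd n u)).card : ℝ)
  have hZ : ∀ n, Z n = ∑ u ∈ U, if gd n u then (1 : ℝ) else 0 := by
    intro n
    simp only [Z, Finset.card_filter]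
    push_cast
    rfl
  -- first moment
  have hM1 : ∑ n ∈ R, Z n = U.card * W := by
    simp only [hZ]
    rw [Finset.sum_comm]
    have : ∀ u ∈ U, ∑ n ∈ R, (if gd n u then (1 : ℝ) else 0) = W := by
      intro u _
      have h1 := key (fun p n => ¬ (p : ℤ) ∣ 4 * (n : ℤ) + 1 - v u)
        (fun p _ n m h => not_congr (modinv p (v u) n m h))
      rw [Finset.card_filter] at h1
      push_cast at h1
      rw [h1]
      apply Finset.prod_congr rfl
      intro p hp
      rw [@cnt1 p (hS p hp).1 (hS p hp).2.1 (v u) (fun _ => Classical.propDecidable _), Nat.cast_sub (by linarith [(hS p hp).2.1])]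
      simp
    rw [Finset.sum_congr rfl this, Finset.sum_const, nsmul_eq_mul]
  -- second moment
  have hM2 : ∑ n ∈ R, Z n ^ 2 = ∑ w ∈ U ×ˢ U, ∏ p ∈ S,
      (if (p : ℤ) ∣ v w.1 - v w.2 then (p : ℝ) - 1 else (p : ℝ) - 2) := by
    have e1 : ∀ n, Z n ^ 2 = ∑ w ∈ U ×ˢ U, if gd n w.1 ∧ gd n w.2 then (1 : ℝ) else 0 := by
      intro n
      rw [hZ, sq, Finset.sum_mul_sum, ← Finset.sum_product']
      apply Finset.sum_congr rfl
      intro w _
      by_cases h1 : gd n w.1 <;> by_cases h2 : gd n w.2 <;> simp [h1, h2]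
    simp only [e1]
    rw [Finset.sum_comm]
    apply Finset.sum_congr rfl
    intro w _
    have h1 := key (fun p n => ¬ (p : ℤ) ∣ 4 * (n : ℤ) + 1 - v w.1 ∧
        ¬ (p : ℤ) ∣ 4 * (n : ℤ) + 1 - v w.2)
        (fun p _ n m h => and_congr (not_congr (modinv p (v w.1) n m h))
          (not_congr (modinv p (v w.2) n m h)))
    rw [Finset.card_filter] at h1
    push_cast at h1
    have e2 : ∑ n ∈ R, (if gd n w.1 ∧ gd n w.2 then (1 : ℝ) else 0) =
        ∑ n ∈ R, (if ∀ p ∈ S, ¬ (p : ℤ) ∣ 4 * (n : ℤ) + 1 - v w.1 ∧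
          ¬ (p : ℤ) ∣ 4 * (n : ℤ) + 1 - v w.2 then (1 : ℝ) else 0) := by
      apply Finset.sum_congr rfl
      intro n _
      congr 1
      simp only [gd, eq_iff_iff]
      constructor
      · rintro ⟨a, b⟩ p hp
        exact ⟨a p hp, b p hp⟩
      · intro a
        exact ⟨fun p hp => (a p hp).1, fun p hp => (a p hp).2⟩
    rw [e2, h1]
    apply Finset.prod_congr rfl
    intro p hp
    rw [@cnt2 p (hS p hp).1 (hS p hp).2.1 (v w.1) (v w.2)
      (fun _ => Classical.propDecidable _)]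
    have h3 := (hS p hp).2.1
    split_ifs
    · rw [Nat.cast_sub (by omega)]; simp
    · rw [Nat.cast_sub (by omega)]; simp
  set A : ℝ := ∑ w ∈ U ×ˢ U, ∏ p ∈ S.filter (fun p : ℕ => (p : ℤ) ∣ v w.1 - v w.2),
    (1 + 1 / ((p : ℝ) - 1)) with hA
  have hM2A : (∑ n ∈ R, Z n ^ 2) * P ≤ W ^ 2 * A := by
    rw [hM2, hA, Finset.sum_mul, Finset.mul_sum]
    apply Finset.sum_le_sum
    intro w _
    rw [hP, hW, ← Finset.prod_pow, Finset.prod_filter, ← Finset.prod_mul_distrib,
      ← Finset.prod_mul_distrib]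
    apply Finset.prod_le_prod
    · intro p hp
      have := hSp p hp
      split_ifs
      · apply mul_nonneg <;> linarith
      · apply mul_nonneg <;> linarith
    · intro p hp
      have := hSp p hp
      split_ifs
      · have h1 : (p : ℝ) - 1 ≠ 0 := by linarith
        apply le_of_eq
        field_simp
        ring
      · nlinarith
  -- good residues
  set G := R.filter (fun n => 0 < Z n) with hG
  have hCS : (U.card * W) ^ 2 ≤ G.card * ∑ n ∈ R, Z n ^ 2 := by
    have e1 : ∑ n ∈ R, Z n = ∑ n ∈ G, Z n := by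
      refine (Finset.sum_filter_of_ne ?_).symm
      intro n _ hne
      exact lt_of_le_of_ne (Nat.cast_nonneg _) (Ne.symm hne)
    have e2 : ∑ n ∈ G, Z n ^ 2 ≤ ∑ n ∈ R, Z n ^ 2 :=
      Finset.sum_le_sum_of_subset_of_nonneg (Finset.filter_subset _ _)
        (fun _ _ _ => sq_nonneg _)
    rw [← hM1, e1]
    refine (sq_sum_le_card_mul_sum_sq (s := G) (f := Z)).trans ?_
    exact mul_le_mul_of_nonneg_left e2 (Nat.cast_nonneg _)
  have hGA : (U.card : ℝ) ^ 2 * P ≤ G.card * A := by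
    have h1 : W ^ 2 * ((U.card : ℝ) ^ 2 * P) ≤ W ^ 2 * (G.card * A) := by
      calc W ^ 2 * ((U.card : ℝ) ^ 2 * P) = (U.card * W) ^ 2 * P := by ring
        _ ≤ (G.card * ∑ n ∈ R, Z n ^ 2) * P := mul_le_mul_of_nonneg_right hCS hPpos.le
        _ = G.card * ((∑ n ∈ R, Z n ^ 2) * P) := by ring
        _ ≤ G.card * (W ^ 2 * A) := mul_le_mul_of_nonneg_left hM2A (Nat.cast_nonneg _)
        _ = W ^ 2 * (G.card * A) := by ring
    exact le_of_mul_le_mul_left h1 (by positivity)
  have hA0 : 0 ≤ A := by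
    rw [hA]
    apply Finset.sum_nonneg
    intro w _
    apply Finset.prod_nonneg
    intro p hp
    have := hSp p (Finset.mem_filter.1 hp).1
    have h1 : 0 ≤ 1 / ((p : ℝ) - 1) := by
      apply div_nonneg <;> linarith
    linarith
  -- bad residues
  have hbad : (((range (N₀ * ∏ p ∈ S, p)).filter (fun n => n % N₀ = r ∧
      ∀ u ∈ U, ∃ p ∈ S, (p : ℤ) ∣ 4 * (n : ℤ) + 1 - v u)).card : ℝ) = P - G.card := by
    have e1 : (range (N₀ * ∏ p ∈ S, p)).filter (fun n => n % N₀ = r ∧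
        ∀ u ∈ U, ∃ p ∈ S, (p : ℤ) ∣ 4 * (n : ℤ) + 1 - v u) =
        R.filter (fun n => ¬ 0 < Z n) := by
      rw [hR, Finset.filter_filter]
      apply Finset.filter_congr
      intro n _
      apply and_congr_right
      intro _
      simp only [Z, Nat.cast_pos, Finset.card_pos, Finset.not_nonempty_iff_eq_empty,
        Finset.filter_eq_empty_iff, gd]
      constructor
      · intro h u hu hcon
        obtain ⟨p, hp, hd⟩ := h u hu
        exact hcon p hp hd
      · intro h u hu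
        by_contra hcon
        push Not at hcon
        exact h hu hcon
    rw [e1, ← hRcard]
    have := Finset.card_filter_add_card_filter_not (s := R) (fun n => 0 < Z n)
    rw [← hG] at this
    have h2 : (G.card : ℝ) + ((R.filter (fun n => ¬ 0 < Z n)).card : ℝ) = R.card := by
      exact_mod_cast this
    linarith
  rw [hbad]
  have h0 : (0 : ℝ) ≤ G.card := Nat.cast_nonneg _
  have hU : (0 : ℝ) ≤ (U.card : ℝ) ^ 2 := by positivity
  set g : ℝ := (G.card : ℝ)
  set u2 : ℝ := (U.card : ℝ) ^ 2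
  have hxy : (P * u2) ^ 2 ≤ (P * A) * (g * u2) := by
    calc (P * u2) ^ 2 = (P * u2) * (u2 * P) := by ring
      _ ≤ (P * u2) * (g * A) := mul_le_mul_of_nonneg_left hGA (by positivity)
      _ = (P * A) * (g * u2) := by ring
  have hz : 0 ≤ P * u2 := by positivity
  have hx : 0 ≤ P * A := by positivity
  have hy : 0 ≤ g * u2 := by positivity
  have hfin : 2 * (P * u2) ≤ P * A + g * u2 := by
    apply le_of_sq_le_sq _ (by positivity)
    nlinarith [sq_nonneg (P * A - g * u2)]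
  nlinarith

end Pool.Agent.Tri5
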