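import Mathlib
import Pool.Agent.Tri5.Targets

/-!
# TAIL: a Gaussian sum
-/

set_option autoImplicit false

namespace Pool.Agent.Tri5

namespace TAIL_

open Finset MeasureTheory

/-- sums of a Gaussian function over the first positive integers -/
private theorem sum_le (σ : ℝ) (hσ : 0 < σ) (N : ℕ) :
    ∑ i ∈ range N, Real.exp (-(Real.pi * (((i + 1 : ℕ) : ℤ) : ℝ) ^ 2 * σ)) ≤
      1 / Real.sqrt σ / 2 := by
  have hb : 0 < Real.pi * σ := mul_pos Real.pi_pos hσ
  set f : ℝ → ℝ := fun x => Real.exp (-(Real.pi * σ) * x ^ 2) with hf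
  have hanti : AntitoneOn f (Set.Icc (0 : ℝ) (0 + (N : ℝ))) := by
    intro x hx y hy hxy
    apply Real.exp_le_exp.2
    have h1 : x ^ 2 ≤ y ^ 2 := pow_le_pow_left₀ hx.1 hxy 2
    nlinarith
  have h1 := hanti.sum_le_integral
  have h2 : ∑ i ∈ range N, Real.exp (-(Real.pi * (((i + 1 : ℕ) : ℤ) : ℝ) ^ 2 * σ)) =
      ∑ i ∈ range N, f (0 + ((i + 1 : ℕ) : ℝ)) := by
    apply Finset.sum_congr rfl
    intro i _
    simp only [hf]
    congr 1
    push_cast
    ring
  have hint : Integrable f := integrable_exp_neg_mul_sq hb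
  have h3 : ∫ x in (0 : ℝ)..(0 + (N : ℝ)), f x ≤ ∫ x in Set.Ioi (0 : ℝ), f x := by
    rw [intervalIntegral.integral_of_le (by positivity)]
    apply setIntegral_mono_set hint.integrableOn
    · exact Filter.Eventually.of_forall (fun x => (Real.exp_pos _).le)
    · exact (Set.Ioc_subset_Ioi_self).eventuallyLE
  have h4 : ∫ x in Set.Ioi (0 : ℝ), f x = 1 / Real.sqrt σ / 2 := by
    have := integral_gaussian_Ioi (Real.pi * σ)
    simp only [hf]
    rw [this]
    congr 1
    have h5 : Real.pi / (Real.pi * σ) = 1 / σ := by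
      field_simp
    rw [h5, Real.sqrt_div zero_le_one, Real.sqrt_one]
  rw [h2]
  exact (h1.trans h3).trans (le_of_eq h4)

end TAIL_

open TAIL_ in
theorem p_TAIL : T_TAIL := by
  intro σ hσ
  set g : ℤ → ℝ := fun k => if k = 0 then 0 else Real.exp (-(Real.pi * (k : ℝ) ^ 2 * σ)) with hg
  set h : ℕ → ℝ := fun i => Real.exp (-(Real.pi * (((i + 1 : ℕ) : ℤ) : ℝ) ^ 2 * σ)) with hh
  have hh0 : ∀ i, 0 ≤ h i := fun i => (Real.exp_pos _).le
  have hs : Summable h := summable_of_sum_range_le hh0 (fun N => sum_le σ hσ N)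
  have ht : ∑' i, h i ≤ 1 / Real.sqrt σ / 2 :=
    Real.tsum_le_of_sum_range_le hh0 (fun N => sum_le σ hσ N)
  have g1 : ∀ i : ℕ, g ((i + 1 : ℕ) : ℤ) = h i := by
    intro i
    simp only [hg, hh]
    rw [if_neg (by positivity)]
  have g2 : ∀ i : ℕ, g (-((i : ℤ) + 1)) = h i := by
    intro i
    simp only [hg, hh]
    rw [if_neg (by omega)]
    push_cast
    congr 1
    ring
  have s1 : Summable (fun i : ℕ => g (i : ℤ)) := by
    rw [← summable_nat_add_iff 1]
    exact hs.congr (fun i => (g1 i).symm)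
  have s2 : Summable (fun i : ℕ => g (-((i : ℤ) + 1))) := hs.congr (fun i => (g2 i).symm)
  have hgs : Summable g := Summable.of_nat_of_neg_add_one s1 s2
  refine ⟨?_, ?_⟩
  · have h0 : Summable (fun k : ℤ => if k = 0 then (1 : ℝ) else 0) :=
      summable_of_ne_finset_zero (s := {0}) (fun b hb => by
        rw [Finset.mem_singleton] at hb; rw [if_neg hb])
    refine (hgs.add h0).congr (fun k => ?_)
    by_cases hk : k = 0
    · simp [hg, hk]
    · simp [hg, hk]
  · have e1 : ∑' k : ℤ, g k = ∑' i : ℕ, g (i : ℤ) + ∑' i : ℕ, g (-((i : ℤ) + 1)) :=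
      tsum_of_nat_of_neg_add_one s1 s2
    have e2 : ∑' i : ℕ, g (i : ℤ) = ∑' i, h i := by
      rw [s1.tsum_eq_zero_add]
      have : g ((0 : ℕ) : ℤ) = 0 := by simp [hg]
      rw [this, zero_add]
      exact tsum_congr g1
    have e3 : ∑' i : ℕ, g (-((i : ℤ) + 1)) = ∑' i, h i := tsum_congr g2
    have e4 : ∑' k : ℤ, g k ≤ 1 / Real.sqrt σ := by
      rw [e1, e2, e3]; linarith
    exact e4

end Pool.Agent.Tri5
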