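import Pool.Agent.Tri5.Targets

/-!
# THM1: the local-global principle for almost all integers
-/

set_option autoImplicit false

open Finset

namespace Pool.Agent.Tri5

namespace THM1_

/-- the cardinality of a bounded set of integers -/
lemma card_eq (N : ℕ) (p : ℕ → Prop) [DecidablePred p] (hp : ∀ n, p n → n < N) :
    Nat.card {n : ℕ // p n} = ((range N).filter p).card := by
  rw [← Nat.card_eq_finsetCard]
  refine Nat.card_congr (Equiv.subtypeEquivRight (fun n => ?_))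
  rw [mem_filter, mem_range]
  exact ⟨fun h => ⟨hp n h, h⟩, fun h => h.2⟩

/-- the constants -/
lemma consts (ε : ℝ) (hε : 0 < ε) : ∃ δ κ g B η : ℝ, 0 < δ ∧ δ ≤ 1 ∧ δ ≤ ε / 2 ∧ 0 < κ ∧ 0 < g ∧
    0 < B ∧ 0 < η ∧ η ≤ 1 / 8 ∧
    2 * Real.pi * g + 32 / B + 4 * Real.pi ^ 3 * B ^ 2 * η ^ 2 < κ ∧
    2048 * Real.exp 16 * κ / δ ≤ ε / 4 := by
  obtain ⟨δ, hδ⟩ : ∃ δ, δ = min (ε / 2) (1 / 2) := ⟨_, rfl⟩
  have hδ0 : 0 < δ := by
    rw [hδ]
    exact lt_min (by linarith) (by norm_num)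
  have hδ1 : δ ≤ ε / 2 := by
    rw [hδ]
    exact min_le_left _ _
  have hδ2 : δ ≤ 1 / 2 := by
    rw [hδ]
    exact min_le_right _ _
  have hE : 0 < Real.exp 16 := Real.exp_pos _
  obtain ⟨κ, hκ⟩ : ∃ κ, κ = ε * δ / (8192 * Real.exp 16) := ⟨_, rfl⟩
  have hκ0 : 0 < κ := by
    rw [hκ]
    positivity
  have hπ : 0 < Real.pi := Real.pi_pos
  obtain ⟨B, hB⟩ : ∃ B, B = 256 / κ := ⟨_, rfl⟩
  have hB0 : 0 < B := by
    rw [hB]
    positivity
  obtain ⟨c, hc⟩ : ∃ c, c = 4 * Real.pi ^ 3 * B ^ 2 := ⟨_, rfl⟩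
  have hc0 : 0 < c := by
    rw [hc]
    positivity
  obtain ⟨η, hη⟩ : ∃ η, η = min (1 / 8) (κ / (4 * c)) := ⟨_, rfl⟩
  have hη0 : 0 < η := by
    rw [hη]
    exact lt_min (by norm_num) (by positivity)
  have hη1 : η ≤ 1 / 8 := by
    rw [hη]
    exact min_le_left _ _
  have hη2 : η ≤ κ / (4 * c) := by
    rw [hη]
    exact min_le_right _ _
  refine ⟨δ, κ, κ / (16 * Real.pi), B, η, hδ0, by linarith, hδ1, hκ0, by positivity, hB0, hη0,
    hη1, ?_, ?_⟩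
  · have e1 : 2 * Real.pi * (κ / (16 * Real.pi)) = κ / 8 := by
      field_simp
      ring
    have e2 : 32 / B = κ / 8 := by
      rw [hB]
      field_simp
      norm_num
    have e3 : c * η ^ 2 ≤ κ / 4 := by
      have h1 : η ^ 2 ≤ η := by nlinarith
      have h2 : c * η ^ 2 ≤ c * η := mul_le_mul_of_nonneg_left h1 hc0.le
      have h3 : c * η ≤ c * (κ / (4 * c)) := mul_le_mul_of_nonneg_left hη2 hc0.le
      have h4 : c * (κ / (4 * c)) = κ / 4 := by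
        field_simp
      linarith
    rw [← hc, e1, e2]
    linarith
  · apply le_of_eq
    rw [hκ]
    field_simp
    ring

end THM1_

open THM1_ Classical in
/-- THM1 -/
theorem p_THM1 (h1 : T_EXC) (h2 : T_LOC) (h3 : T_GSM) (h4 : T_QF) : T_THM1 := by
  intro ε hε
  obtain ⟨δ, κ, g, B, η, hδ0, hδ1, hδε, hκ0, hg0, hB0, hη0, hη1, hsum, hbound⟩ := consts ε hε
  obtain ⟨L, hL, h30, hBG⟩ := h3 g hg0
  refine ⟨L, hL, h30, ?_⟩
  obtain ⟨_, _, _, hQ1, _, _, _⟩ := h4 L hL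
  have hQpos : (0 : ℝ) < Qf L := by
    have : 0 < Qf L := hQ1
    exact_mod_cast this
  have hE : 0 < Real.exp 16 := Real.exp_pos _
  -- one residue class
  have hclass : ∀ ρ : ℕ, ∃ x₀ : ℝ, ∀ x : ℕ, x₀ ≤ x →
      (((range (x + 1)).filter (fun n : ℕ => δ * x ≤ n ∧ n % Qf L = ρ ∧ Good L n ∧ ¬ Rep n)).card
        : ℝ) ≤ 2048 * Real.exp 16 * κ * x / (δ * Qf L) := by
    intro ρ
    by_cases hP : ∃ (a b : ℕ) (y z : ℤ), Dat L a b y z ∧
        (Qf L : ℤ) ∣ (ρ : ℤ) - (Tri y + Tri z + 5 ^ a + 5 ^ b)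
    · obtain ⟨a, b, y, z, hD, hdvd⟩ := hP
      obtain ⟨x₀, hx₀⟩ := h1 L a b y z g δ η B κ hD hBG hg0.le hδ0 hδ1 hη0 hη1 hB0 hsum
      refine ⟨x₀, fun x hx => ?_⟩
      have h5 := hx₀ x hx
      rw [card_eq (x + 1) _ (fun n hn => by
        have : n ≤ x := by exact_mod_cast hn.2.1
        omega)] at h5
      refine le_trans ?_ h5
      have h6 : ((range (x + 1)).filter
          (fun n : ℕ => δ * x ≤ n ∧ n % Qf L = ρ ∧ Good L n ∧ ¬ Rep n)) ⊆
          ((range (x + 1)).filter (fun n : ℕ => δ * x ≤ n ∧ (n : ℝ) ≤ x ∧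
            (Qf L : ℤ) ∣ n - (Tri y + Tri z + 5 ^ a + 5 ^ b) ∧ ¬ Rep n)) := by
        intro n hn
        rw [mem_filter] at hn ⊢
        refine ⟨hn.1, hn.2.1, ?_, ?_, hn.2.2.2.2⟩
        · have : n ≤ x := by
            have := mem_range.mp hn.1
            omega
          exact_mod_cast this
        · have h7 : (Qf L : ℤ) ∣ (n : ℤ) - (ρ : ℤ) := by
            rw [← hn.2.2.1]
            push_cast
            exact Int.dvd_self_sub_emod
          have h8 := dvd_add h7 hdvd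
          have h9 : (n : ℤ) - (ρ : ℤ) + ((ρ : ℤ) - (Tri y + Tri z + 5 ^ a + 5 ^ b)) =
              (n : ℤ) - (Tri y + Tri z + 5 ^ a + 5 ^ b) := by ring
          rw [h9] at h8
          exact h8
      exact_mod_cast card_le_card h6
    · refine ⟨0, fun x _ => ?_⟩
      have h5 : ((range (x + 1)).filter
          (fun n : ℕ => δ * x ≤ n ∧ n % Qf L = ρ ∧ Good L n ∧ ¬ Rep n)) = ∅ := by
        rw [filter_eq_empty_iff]
        rintro n _ ⟨_, hn1, hn2, _⟩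
        obtain ⟨a, b, y, z, hD, _, _, _, _, hdvd⟩ := h2 L n hL hn2
        apply hP
        refine ⟨a, b, y, z, hD, ?_⟩
        have h7 : (Qf L : ℤ) ∣ (n : ℤ) - (ρ : ℤ) := by
          rw [← hn1]
          push_cast
          exact Int.dvd_self_sub_emod
        have h8 := dvd_sub hdvd h7
        have h9 : (n : ℤ) - (Tri y + Tri z + 5 ^ a + 5 ^ b) - ((n : ℤ) - (ρ : ℤ)) =
            (ρ : ℤ) - (Tri y + Tri z + 5 ^ a + 5 ^ b) := by ring
        rw [h9] at h8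
        exact h8
      rw [h5, card_empty, Nat.cast_zero]
      positivity
  choose x₀ hx₀ using hclass
  refine ⟨⌈∑ ρ ∈ range (Qf L), |x₀ ρ|⌉₊ + ⌈4 / ε⌉₊ + 1, fun x hx => ?_⟩
  have hx1 : ∀ ρ ∈ range (Qf L), x₀ ρ ≤ x := by
    intro ρ hρ
    have e1 : |x₀ ρ| ≤ ∑ ρ ∈ range (Qf L), |x₀ ρ| :=
      single_le_sum (f := fun ρ => |x₀ ρ|) (fun _ _ => abs_nonneg _) hρ
    have e2 := Nat.le_ceil (∑ ρ ∈ range (Qf L), |x₀ ρ|)
    have e3 : (⌈∑ ρ ∈ range (Qf L), |x₀ ρ|⌉₊ : ℝ) ≤ x := by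
      have : ⌈∑ ρ ∈ range (Qf L), |x₀ ρ|⌉₊ ≤ x := by omega
      exact_mod_cast this
    have e4 := le_abs_self (x₀ ρ)
    linarith
  have hx2 : 4 / ε ≤ x := by
    have e2 := Nat.le_ceil (4 / ε)
    have e3 : (⌈4 / ε⌉₊ : ℝ) ≤ x := by
      have : ⌈4 / ε⌉₊ ≤ x := by omega
      exact_mod_cast this
    linarith
  have hx3 : 4 ≤ ε * x := by
    rw [div_le_iff₀ hε] at hx2
    linarith
  rw [card_eq x _ (fun n hn => hn.1)]
  have hxR : (0 : ℝ) ≤ x := Nat.cast_nonneg _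
  have hsub : ((range x).filter (fun n : ℕ => n < x ∧ Good L n ∧ ¬ Rep n)) ⊆
      range (⌊δ * x⌋₊ + 1) ∪ (range (Qf L)).biUnion (fun ρ => (range (x + 1)).filter
        (fun n : ℕ => δ * x ≤ n ∧ n % Qf L = ρ ∧ Good L n ∧ ¬ Rep n)) := by
    intro n hn
    rw [mem_filter] at hn
    rw [mem_union, mem_range, mem_biUnion]
    by_cases hd : δ * x ≤ n
    · right
      refine ⟨n % Qf L, mem_range.mpr (Nat.mod_lt _ (by omega)), ?_⟩
      rw [mem_filter, mem_range]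
      exact ⟨by omega, hd, rfl, hn.2.2.1, hn.2.2.2⟩
    · left
      have : n ≤ ⌊δ * x⌋₊ := Nat.le_floor (by linarith)
      omega
  have hcard := (card_le_card hsub).trans ((card_union_le _ _).trans
    (Nat.add_le_add_left card_biUnion_le _))
  rw [card_range] at hcard
  have hcardR : (((range x).filter (fun n : ℕ => n < x ∧ Good L n ∧ ¬ Rep n)).card : ℝ) ≤
      (⌊δ * x⌋₊ + 1 : ℝ) + ∑ ρ ∈ range (Qf L), (((range (x + 1)).filter
        (fun n : ℕ => δ * x ≤ n ∧ n % Qf L = ρ ∧ Good L n ∧ ¬ Rep n)).card : ℝ) := by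
    exact_mod_cast hcard
  have hfl : (⌊δ * x⌋₊ : ℝ) ≤ δ * x := Nat.floor_le (by positivity)
  have hsumQ : ∑ ρ ∈ range (Qf L), (((range (x + 1)).filter
        (fun n : ℕ => δ * x ≤ n ∧ n % Qf L = ρ ∧ Good L n ∧ ¬ Rep n)).card : ℝ) ≤
      ∑ _ρ ∈ range (Qf L), 2048 * Real.exp 16 * κ * x / (δ * Qf L) :=
    sum_le_sum (fun ρ hρ => hx₀ ρ x (hx1 ρ hρ))
  rw [sum_const, card_range, nsmul_eq_mul] at hsumQ
  have e5 : (Qf L : ℝ) * (2048 * Real.exp 16 * κ * x / (δ * Qf L)) =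
      2048 * Real.exp 16 * κ / δ * x := by
    field_simp
  have e6 : 2048 * Real.exp 16 * κ / δ * x ≤ ε / 4 * x := mul_le_mul_of_nonneg_right hbound hxR
  have e7 : δ * x ≤ ε / 2 * x := mul_le_mul_of_nonneg_right hδε hxR
  rw [e5] at hsumQ
  linarith

end Pool.Agent.Tri5
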