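import Pool.Agent.Tri5.Targets

/-!
# THM2: the lower density is at least 9/10
-/

set_option autoImplicit false

open Finset

namespace Pool.Agent.Tri5

namespace THM2_

/-- the cardinality of a bounded set of integers -/
lemma card_eq (N : ℕ) (p : ℕ → Prop) [DecidablePred p] (hp : ∀ n, p n → n < N) :
    Nat.card {n : ℕ // p n} = ((range N).filter p).card := by
  rw [← Nat.card_eq_finsetCard]
  refine Nat.card_congr (Equiv.subtypeEquivRight (fun n => ?_))
  rw [mem_filter, mem_range]
  exact ⟨fun h => ⟨hp n h, h⟩, fun h => h.2⟩

/-- periodic sets -/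
lemma periodic (M : ℕ) (hM : 1 ≤ M) (p : ℕ → Prop) [DecidablePred p]
    (hp : ∀ n, p (n + M) ↔ p n) (k : ℕ) :
    ((range (k * M)).filter p).card = k * ((range M).filter p).card := by
  induction k with
  | zero => simp
  | succ k ih =>
    have h1 : (range ((k + 1) * M)).filter p =
        (range (k * M)).filter p ∪ ((range M).filter p).image (fun n => n + k * M) := by
      ext n
      rw [mem_union, mem_image, mem_filter, mem_filter, mem_range, mem_range]
      have hk : ∀ j m, p (m + j * M) ↔ p m := by
        intro j
        induction j with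
        | zero => intro m; simp
        | succ j ihj =>
          intro m
          have : m + (j + 1) * M = (m + j * M) + M := by ring
          rw [this, hp, ihj]
      have e : (k + 1) * M = k * M + M := by ring
      constructor
      · rintro ⟨h2, h3⟩
        by_cases h4 : n < k * M
        · exact Or.inl ⟨h4, h3⟩
        · right
          refine ⟨n - k * M, ?_, by omega⟩
          rw [mem_filter, mem_range]
          refine ⟨by omega, ?_⟩
          rw [← hk k (n - k * M)]
          have : n - k * M + k * M = n := by omega
          rw [this]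
          exact h3
      · rintro (⟨h2, h3⟩ | ⟨m, hm, rfl⟩)
        · exact ⟨by omega, h3⟩
        · rw [mem_filter, mem_range] at hm
          exact ⟨by omega, (hk k m).mpr hm.2⟩
    have h2 : Disjoint ((range (k * M)).filter p)
        (((range M).filter p).image (fun n => n + k * M)) := by
      rw [disjoint_left]
      intro n hn hn'
      rw [mem_filter, mem_range] at hn
      rw [mem_image] at hn'
      obtain ⟨m, _, rfl⟩ := hn'
      omega
    rw [h1, card_union_of_disjoint h2, ih,
      card_image_of_injective _ (fun a b hab => by
        have hab' : a + k * M = b + k * M := hab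
        omega)]
    ring

end THM2_

open THM2_ Classical in
/-- THM2 -/
theorem p_THM2 (h1 : T_THM1) (h2 : T_SEC) (h3 : T_NUM) : T_THM2 := by
  obtain ⟨L, hL, h30, x₀, hx₀⟩ := h1 (5 / 1000) (by norm_num)
  obtain ⟨M, hM, hper, hdens⟩ := h2 L (9 / 100) hL h30 (by norm_num) h3
  rw [card_eq M _ (fun n hn => hn.1)] at hdens
  have hG : ((range M).filter (fun n => n < M ∧ ¬ Good L n)).card =
      ((range M).filter (fun n => ¬ Good L n)).card := by
    congr 1
    apply filter_congr
    intro n hn
    exact ⟨fun h => h.2, fun h => ⟨mem_range.mp hn, h⟩⟩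
  rw [hG] at hdens
  refine ⟨x₀ + 200 * M + 1, fun x hx => ?_⟩
  have hx1 := hx₀ x (by omega)
  rw [card_eq x _ (fun n hn => hn.1)] at hx1
  rw [card_eq x _ (fun n hn => hn.1)]
  have hxM : (200 : ℝ) * M ≤ x := by
    have : 200 * M ≤ x := by omega
    exact_mod_cast this
  -- not good numbers
  have hbad : (((range x).filter (fun n => ¬ Good L n)).card : ℝ) ≤ 9 / 100 * (x + M) := by
    have e1 : (range x).filter (fun n => ¬ Good L n) ⊆
        (range ((x / M + 1) * M)).filter (fun n => ¬ Good L n) := by
      apply filter_subset_filter
      rw [range_subset_range]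
      have := Nat.div_add_mod x M
      have h4 := Nat.mod_lt x (show 0 < M by omega)
      have e : (x / M + 1) * M = M * (x / M) + M := by ring
      omega
    have e2 := card_le_card e1
    rw [periodic M hM (fun n => ¬ Good L n) (fun n => not_congr (hper n))] at e2
    have e3 : (((range x).filter (fun n => ¬ Good L n)).card : ℝ) ≤
        ((x / M : ℕ) + 1 : ℝ) * ((range M).filter (fun n => ¬ Good L n)).card := by
      exact_mod_cast e2
    have e4 : ((x / M : ℕ) + 1 : ℝ) * ((range M).filter (fun n => ¬ Good L n)).card ≤
        ((x / M : ℕ) + 1 : ℝ) * (9 / 100 * M) :=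
      mul_le_mul_of_nonneg_left hdens (by positivity)
    have e5 : ((x / M : ℕ) : ℝ) * M ≤ x := by
      have : x / M * M ≤ x := Nat.div_mul_le_self x M
      exact_mod_cast this
    nlinarith
  have hsub : range x ⊆ (range x).filter (fun n => n < x ∧ Rep n) ∪
      ((range x).filter (fun n => ¬ Good L n) ∪
        (range x).filter (fun n => n < x ∧ Good L n ∧ ¬ Rep n)) := by
    intro n hn
    rw [mem_union, mem_union, mem_filter, mem_filter, mem_filter]
    by_cases hr : Rep n
    · exact Or.inl ⟨hn, mem_range.mp hn, hr⟩
    · by_cases hg : Good L n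
      · exact Or.inr (Or.inr ⟨hn, mem_range.mp hn, hg, hr⟩)
      · exact Or.inr (Or.inl ⟨hn, hg⟩)
  have hcard := (card_le_card hsub).trans ((card_union_le _ _).trans
    (Nat.add_le_add_left (card_union_le _ _) _))
  rw [card_range] at hcard
  have hcardR : (x : ℝ) ≤ ((range x).filter (fun n => n < x ∧ Rep n)).card +
      (((range x).filter (fun n => ¬ Good L n)).card +
        ((range x).filter (fun n => n < x ∧ Good L n ∧ ¬ Rep n)).card) := by
    exact_mod_cast hcard
  linarith

end Pool.Agent.Tri5
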