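import Pool.Agent.Tri5.Targets

/-!
# Tri5, target VAR: the mean square is small
-/

set_option autoImplicit false

open Finset

namespace Pool.Agent.Tri5

namespace VAR_

private lemma sqrt_sqrt_sq (X : ℝ) : Real.sqrt (Real.sqrt X) ^ 2 = Real.sqrt X :=
  Real.sq_sqrt (Real.sqrt_nonneg X)

/-- the error terms -/
private lemma err (Q : ℕ) (I : ℕ) (X C Δ J J' K : ℝ) (hQ : 1 ≤ Q) (hI : 1 ≤ I) (hX : 1 ≤ X)
    (_hC : 0 < C) (hΔ : 0 < Δ)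
    (h1 : J ≤ C * ((I : ℝ) ^ 2 * Real.sqrt X + (I : ℝ) ^ 4 * X ^ ((1 : ℝ) / 4)))
    (h2 : J' ≤ C * ((I : ℝ) ^ 2 * Real.sqrt X + (I : ℝ) ^ 4 * X ^ ((1 : ℝ) / 4)))
    (h3 : K ≤ 2 * (I : ℝ) ^ 2)
    (h4 : 864 * (Q : ℝ) ^ 5 * (2 * C + 18 * (Q : ℝ) ^ 2) / Δ ≤ I)
    (h5 : (1728 * C * (Q : ℝ) ^ 5 / Δ) ^ 4 ≤ X) :
    24 * (3 * Q * Real.sqrt (Real.sqrt X)) ^ 2 * (J + J' +
      (3 * Q * Real.sqrt (Real.sqrt X)) ^ 2 * K) ≤ Δ / 2 * X * (I : ℝ) ^ 4 / (Q : ℝ) ^ 3 := by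
  have hQR : (1 : ℝ) ≤ Q := by exact_mod_cast hQ
  have hIR : (1 : ℝ) ≤ I := by exact_mod_cast hI
  have hX0 : (0 : ℝ) < X := by linarith
  set s := Real.sqrt X with hs
  have hs0 : 0 ≤ s := Real.sqrt_nonneg X
  have hss : s * s = X := Real.mul_self_sqrt hX0.le
  set f := X ^ ((1 : ℝ) / 4) with hf
  have hf0 : 0 < f := Real.rpow_pos_of_pos hX0 _
  have hf4 : f ^ 4 = X := by
    rw [hf, ← Real.rpow_natCast, ← Real.rpow_mul hX0.le]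
    norm_num
  have hfs : f * f = s := by
    rw [hs, Real.sqrt_eq_rpow, hf, ← Real.rpow_add hX0]
    norm_num
  have hE : (3 * (Q : ℝ) * Real.sqrt s) ^ 2 = 9 * (Q : ℝ) ^ 2 * s := by
    rw [mul_pow, Real.sq_sqrt hs0]
    ring
  rw [hE]
  have hQ2 : (0 : ℝ) < (Q : ℝ) ^ 2 := by positivity
  have hI2 : (1 : ℝ) ≤ (I : ℝ) ^ 2 := one_le_pow₀ hIR
  have step1 : 24 * (9 * (Q : ℝ) ^ 2 * s) * (J + J' + 9 * (Q : ℝ) ^ 2 * s * K) ≤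
      24 * (9 * (Q : ℝ) ^ 2 * s) * (2 * (C * ((I : ℝ) ^ 2 * s + (I : ℝ) ^ 4 * f)) +
        9 * (Q : ℝ) ^ 2 * s * (2 * (I : ℝ) ^ 2)) := by
    apply mul_le_mul_of_nonneg_left _ (by positivity)
    have : 9 * (Q : ℝ) ^ 2 * s * K ≤ 9 * (Q : ℝ) ^ 2 * s * (2 * (I : ℝ) ^ 2) :=
      mul_le_mul_of_nonneg_left h3 (by positivity)
    linarith
  have step2 : 24 * (9 * (Q : ℝ) ^ 2 * s) * (2 * (C * ((I : ℝ) ^ 2 * s + (I : ℝ) ^ 4 * f)) +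
        9 * (Q : ℝ) ^ 2 * s * (2 * (I : ℝ) ^ 2)) =
      216 * (Q : ℝ) ^ 2 * (2 * C + 18 * (Q : ℝ) ^ 2) * (I : ℝ) ^ 2 * X +
        432 * C * (Q : ℝ) ^ 2 * (I : ℝ) ^ 4 * (s * f) := by
    rw [← hss]
    ring
  have step3 : 216 * (Q : ℝ) ^ 2 * (2 * C + 18 * (Q : ℝ) ^ 2) * (I : ℝ) ^ 2 * X ≤
      Δ / 4 * X * (I : ℝ) ^ 4 / (Q : ℝ) ^ 3 := by
    rw [le_div_iff₀ (by positivity)]
    have h6 : 864 * (Q : ℝ) ^ 5 * (2 * C + 18 * (Q : ℝ) ^ 2) ≤ Δ * (I : ℝ) ^ 2 := by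
      rw [div_le_iff₀ hΔ] at h4
      have h7 : (I : ℝ) ≤ (I : ℝ) ^ 2 := by nlinarith
      nlinarith
    have h8 : 0 ≤ (I : ℝ) ^ 2 * X := by positivity
    nlinarith [mul_le_mul_of_nonneg_right h6 h8]
  have step4 : 432 * C * (Q : ℝ) ^ 2 * (I : ℝ) ^ 4 * (s * f) ≤
      Δ / 4 * X * (I : ℝ) ^ 4 / (Q : ℝ) ^ 3 := by
    rw [le_div_iff₀ (by positivity)]
    have h6 : 1728 * C * (Q : ℝ) ^ 5 ≤ Δ * f := by
      have h7 : (1728 * C * (Q : ℝ) ^ 5 / Δ) ≤ f := by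
        rw [← hf4] at h5
        exact le_of_pow_le_pow_left₀ (by norm_num) hf0.le h5
      rw [div_le_iff₀ hΔ] at h7
      linarith
    have h8 : 0 ≤ (I : ℝ) ^ 4 * (s * f) := by positivity
    have h9 : X = s * f * f := by rw [mul_assoc, hfs, hss]
    rw [h9]
    nlinarith [mul_le_mul_of_nonneg_right h6 h8]
  calc _ ≤ _ := step1
    _ = _ := step2
    _ ≤ Δ / 4 * X * (I : ℝ) ^ 4 / (Q : ℝ) ^ 3 + Δ / 4 * X * (I : ℝ) ^ 4 / (Q : ℝ) ^ 3 :=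
      add_le_add step3 step4
    _ = _ := by ring

end VAR_

open VAR_ in
theorem p_VAR (hJVE : T_JVE) (hARC : T_ARC) (hJO : T_JO) (hJJ : T_JJ) (hROM : T_ROM)
    (hQF : T_QF) : T_VAR := by
  intro L a b y z g δ η B κ hD hBG hg hδ hδ1 hη hB hκ
  obtain ⟨-, -, -, hQ1, -, -, -⟩ := hQF L hD.hL
  have hQR : (1 : ℝ) ≤ (Qf L : ℝ) := by exact_mod_cast hQ1
  set Δ := κ - (2 * Real.pi * g + 32 / B + 4 * Real.pi ^ 3 * B ^ 2 * η ^ 2) with hΔ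
  have hΔ0 : 0 < Δ := by rw [hΔ]; linarith
  have hpi : 0 < Real.pi := Real.pi_pos
  set ε := Δ / (4 * Real.pi) with hε
  have hε0 : 0 < ε := by rw [hε]; positivity
  obtain ⟨I₁, hI₁⟩ := hROM L a b g (64 * 5 ^ (2 * L) / δ) ε hD.hL hg hBG hε0
  obtain ⟨C, hC, hJO⟩ := hJO
  set T₁ := 864 * (Qf L : ℝ) ^ 5 * (2 * C + 18 * (Qf L : ℝ) ^ 2) / Δ with hT₁
  set T₂ := (1728 * C * (Qf L : ℝ) ^ 5 / Δ) ^ 4 with hT₂
  refine ⟨max (max 1 I₁) (max ⌈T₁⌉₊ ⌈T₂⌉₊), ?_⟩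
  intro I hI x hx1 hx2 h hh
  have hI1 : 1 ≤ I := le_trans (le_trans (le_max_left _ _) (le_max_left _ _)) hI
  have hII₁ : I₁ ≤ I := le_trans (le_trans (le_max_right _ _) (le_max_left _ _)) hI
  have hIT₁ : T₁ ≤ I := by
    have : ⌈T₁⌉₊ ≤ I := le_trans (le_trans (le_max_left _ _) (le_max_right _ _)) hI
    exact (Nat.le_ceil _).trans (by exact_mod_cast this)
  have hIT₂ : T₂ ≤ I := by
    have : ⌈T₂⌉₊ ≤ I := le_trans (le_trans (le_max_right _ _) (le_max_right _ _)) hI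
    exact (Nat.le_ceil _).trans (by exact_mod_cast this)
  have h5pos : (0 : ℝ) < 5 ^ (L * (I + 1)) := by positivity
  have hx0 : 0 < x := by
    by_contra hcon
    push Not at hcon
    have : δ * x ≤ 0 := mul_nonpos_of_nonneg_of_nonpos hδ.le hcon
    linarith
  have hδx : δ * x ≤ x := by nlinarith
  set X := 8 * x with hX
  have hX5 : (5 : ℝ) ^ (L * (I + 1)) ≤ X := by rw [hX]; linarith
  have hXI : (I : ℝ) ≤ X := by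
    refine le_trans ?_ hX5
    have h1 : I ≤ 5 ^ I := (Nat.lt_pow_self (by norm_num)).le
    have h2 : I ≤ L * (I + 1) := by nlinarith [hD.hL]
    calc (I : ℝ) ≤ ((5 ^ I : ℕ) : ℝ) := by exact_mod_cast h1
      _ = 5 ^ I := by push_cast; ring
      _ ≤ 5 ^ (L * (I + 1)) := pow_le_pow_right₀ (by norm_num) h2
  have hX1 : 1 ≤ X := by
    have : (1 : ℝ) ≤ I := by exact_mod_cast hI1
    linarith
  have hQh : |(Qf L : ℝ) * (h : ℤ)| ≤ η * X := by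
    rw [Int.cast_natCast, abs_of_nonneg (by positivity), hX]
    linarith
  have harc := hARC L a b I y z X B η (h : ℤ) hD hX1 hB hη.le hQh
  have hjve := hJVE (Qf L) L a b I y z X ((Qf L : ℤ) * (h : ℤ)) hQ1 hX1
  -- the sum
  have hSI : SI L a b I ⌊Real.sqrt X⌋₊ ≤ (g + ε) * (I : ℝ) ^ 4 := by
    apply hI₁ I hII₁
    have h1 : (⌊Real.sqrt X⌋₊ : ℝ) ≤ Real.sqrt X := Nat.floor_le (Real.sqrt_nonneg X)
    have h2 : Real.sqrt X ≤ X := by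
      rw [Real.sqrt_le_left (by linarith)]
      nlinarith
    have h3 : X ≤ 64 * 5 ^ (2 * L) / δ * 5 ^ (L * I) := by
      have h4 : x ≤ 8 * 5 ^ (L * (I + 2)) / δ := by
        rw [le_div_iff₀ hδ]
        linarith
      have h5 : (5 : ℝ) ^ (L * (I + 2)) = 5 ^ (2 * L) * 5 ^ (L * I) := by
        rw [← pow_add]
        congr 1
        ring
      rw [h5] at h4
      calc X = 8 * x := rfl
        _ ≤ 8 * (8 * (5 ^ (2 * L) * 5 ^ (L * I)) / δ) := by linarith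
        _ = _ := by ring
    exact h1.trans (h2.trans h3)
  have hab : ∀ c, c ≤ L → (5 : ℝ) ^ (c + L * I) ≤ X := by
    intro c hc
    refine le_trans ?_ hX5
    apply pow_le_pow_right₀ (by norm_num)
    nlinarith
  have hJ1 := hJO (Qf L) L a b I y X hQ1 hD.hL hX1 (hab a hD.ha') (hab b hD.hb')
  have hJ2 := hJO (Qf L) L a b I z X hQ1 hD.hL hX1 (hab a hD.ha') (hab b hD.hb')
  have hJ3 := hJJ L a b I hD.hL
  have herr := err (Qf L) I X C Δ (J1 (Qf L) L a b I y X) (J1 (Qf L) L a b I z X) (J2 L a b I)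
    hQ1 hI1 hX1 hC hΔ0 hJ1 hJ2 hJ3 hIT₁ (hIT₂.trans hXI)
  refine ⟨hjve.1, ?_⟩
  rw [hjve.2]
  refine harc.trans ?_
  have hQ3 : (0 : ℝ) < (Qf L : ℝ) ^ 3 := by positivity
  have hmain : X / (Qf L : ℝ) ^ 3 * (2 * Real.pi * SI L a b I ⌊Real.sqrt X⌋₊ +
      (I : ℝ) ^ 4 * (32 / B + 4 * Real.pi ^ 3 * B ^ 2 * η ^ 2)) ≤
      X / (Qf L : ℝ) ^ 3 * (2 * Real.pi * ((g + ε) * (I : ℝ) ^ 4) +
      (I : ℝ) ^ 4 * (32 / B + 4 * Real.pi ^ 3 * B ^ 2 * η ^ 2)) := by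
    apply mul_le_mul_of_nonneg_left _ (by positivity)
    have : 2 * Real.pi * SI L a b I ⌊Real.sqrt X⌋₊ ≤ 2 * Real.pi * ((g + ε) * (I : ℝ) ^ 4) :=
      mul_le_mul_of_nonneg_left hSI (by positivity)
    linarith
  have hε' : 2 * Real.pi * ε = Δ / 2 := by
    rw [hε]
    field_simp
    ring
  calc _ ≤ X / (Qf L : ℝ) ^ 3 * (2 * Real.pi * ((g + ε) * (I : ℝ) ^ 4) +
      (I : ℝ) ^ 4 * (32 / B + 4 * Real.pi ^ 3 * B ^ 2 * η ^ 2)) +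
      Δ / 2 * X * (I : ℝ) ^ 4 / (Qf L : ℝ) ^ 3 := add_le_add hmain herr
    _ = (2 * Real.pi * g + 2 * Real.pi * ε + 32 / B + 4 * Real.pi ^ 3 * B ^ 2 * η ^ 2 + Δ / 2) *
        X * (I : ℝ) ^ 4 / (Qf L : ℝ) ^ 3 := by ring
    _ = κ * X * (I : ℝ) ^ 4 / (Qf L : ℝ) ^ 3 := by
      rw [hε', hΔ]
      ring

end Pool.Agent.Tri5
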