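import Pool.Agent.Tri5.Targets

/-!
# Tri5, target WS: the sums over powers at the fractions
-/

set_option autoImplicit false

open Finset

namespace Pool.Agent.Tri5

namespace WS_

lemma ex_add (x y : ℝ) : ex (x + y) = ex x * ex y := by
  unfold ex
  rw [← Complex.exp_add]
  congr 1
  push_cast
  ring

lemma ex_int (n : ℤ) : ex (n : ℝ) = 1 := by
  unfold ex
  rw [Complex.exp_eq_one_iff]
  exact ⟨n, by push_cast; ring⟩

lemma norm_ex (x : ℝ) : ‖ex x‖ = 1 := by
  unfold ex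
  have : (2 * Real.pi * x * Complex.I : ℂ) = ((2 * Real.pi * x : ℝ) : ℂ) * Complex.I := by
    push_cast; ring
  rw [this, Complex.norm_exp_ofReal_mul_I]

lemma ex_zero : ex 0 = 1 := by
  have := ex_int 0
  simpa using this

lemma ex_conj (x : ℝ) : (starRingEnd ℂ) (ex x) = ex (-x) := by
  unfold ex
  rw [← Complex.exp_conj]
  congr 1
  simp only [map_mul, Complex.conj_ofReal, Complex.conj_I, Complex.ofReal_neg]
  rw [show (starRingEnd ℂ) 2 = 2 from Complex.conj_ofNat 2]
  ring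

lemma ex_mul_nat (x : ℝ) (n : ℕ) : ex (n * x) = ex x ^ n := by
  induction n with
  | zero => simp [ex_zero]
  | succ n ih =>
    rw [pow_succ, ← ih, ← ex_add]
    congr 1
    push_cast
    ring

lemma ex_eq_one_iff (x : ℝ) : ex x = 1 ↔ ∃ n : ℤ, x = n := by
  constructor
  · intro h
    unfold ex at h
    rw [Complex.exp_eq_one_iff] at h
    obtain ⟨n, hn⟩ := h
    refine ⟨n, ?_⟩
    have h2 : (x : ℂ) = (n : ℂ) := by
      have h3 : (2 * (Real.pi : ℂ) * Complex.I) ≠ 0 := Complex.two_pi_I_ne_zero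
      have h4 : (2 * (Real.pi : ℂ) * Complex.I) * (x : ℂ) =
          (2 * (Real.pi : ℂ) * Complex.I) * (n : ℂ) := by
        linear_combination hn
      exact mul_left_cancel₀ h3 h4
    exact_mod_cast h2
  · rintro ⟨n, rfl⟩
    exact ex_int n

/-- a geometric sum over the roots of unity -/
lemma geom (m : ℕ) (x : ℝ) (h1 : ex ((m : ℝ) * x) = 1) (h2 : ex x ≠ 1) :
    ∑ s ∈ range m, ex ((s : ℝ) * x) = 0 := by
  have h3 : ∀ s ∈ range m, ex ((s : ℝ) * x) = ex x ^ s := fun s _ => ex_mul_nat x s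
  rw [Finset.sum_congr rfl h3, geom_sum_eq h2, ← ex_mul_nat, h1]
  simp

/-- the mean value expansion -/
lemma WW (L a b I : ℕ) (α : ℝ) :
    ((‖PP L a I α‖ ^ 2 * ‖PP L b I α‖ ^ 2 : ℝ) : ℂ) = ∑ u ∈ quads I, ex (α * hh L a b u) := by
  have hn : ∀ z : ℂ, ((‖z‖ ^ 2 : ℝ) : ℂ) = z * (starRingEnd ℂ) z := by
    intro z
    rw [Complex.mul_conj, Complex.normSq_eq_norm_sq]
  rw [Complex.ofReal_mul, hn, hn]
  unfold PP quads
  rw [map_sum, map_sum]
  have hre : ∀ x x' z z' : ℂ, x * x' * (z * z') = (x * z) * (x' * z') := by intros; ring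
  rw [hre, Finset.sum_mul_sum, Finset.sum_mul_sum, ← Finset.sum_product', ← Finset.sum_product',
    Finset.sum_mul_sum, ← Finset.sum_product']
  refine Finset.sum_congr rfl fun u _ => ?_
  rw [ex_conj, ex_conj, ← ex_add, ← ex_add, ← ex_add]
  congr 1
  unfold hh
  push_cast
  ring

end WS_

open WS_ in
theorem p_WS (hQF : T_QF) : T_WS := by
  intro L a b I q₁ q₂ β hL ha hb hq₁ hq₂ hcop
  obtain ⟨-, -, -, hQ1, -, hpow, -⟩ := hQF L hL
  have hq₁0 : 0 < q₁ := Nat.pos_of_dvd_of_pos hq₁ (by omega)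
  have hc12 : Nat.Coprime q₁ q₂ := by
    have h1 : Nat.Coprime q₂ (Qf L) := Nat.Coprime.coprime_mul_left_right hcop
    exact (Nat.Coprime.coprime_dvd_right hq₁ h1).symm
  have : NeZero q₂ := ⟨by omega⟩
  have hr₁ : (q₁ : ℝ) ≠ 0 := by positivity
  have hr₂ : (q₂ : ℝ) ≠ 0 := by positivity
  -- Bezout
  obtain ⟨r, s, hrs⟩ : ∃ r s : ℤ, r * q₁ + s * q₂ = 1 := by
    have := Nat.isCoprime_iff_coprime.mpr hc12
    exact this
  -- the norm at the fractions
  have hPP : ∀ (a : ℕ), 1 ≤ a → ∀ c : ℤ,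
      ‖PP L a I ((c : ℝ) / ((q₁ * q₂ : ℕ) : ℝ) + β)‖ =
        ‖PP L a I (((c * r : ℤ) : ℝ) / q₂ + β)‖ := by
    intro a ha c
    have h1 : PP L a I ((c : ℝ) / ((q₁ * q₂ : ℕ) : ℝ) + β) =
        ex (c * s * 5 ^ a / q₁) * PP L a I (((c * r : ℤ) : ℝ) / q₂ + β) := by
      unfold PP
      rw [Finset.mul_sum]
      refine Finset.sum_congr rfl fun i _ => ?_
      obtain ⟨k, hk⟩ := (Int.natCast_dvd_natCast.mpr hq₁).trans (hpow a i ha)
      have hkR : (5 : ℝ) ^ (a + L * i) = 5 ^ a + q₁ * k := by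
        have : (5 : ℤ) ^ (a + L * i) = 5 ^ a + q₁ * k := by linarith
        exact_mod_cast this
      have hrsR : (r : ℝ) * q₁ + s * q₂ = 1 := by exact_mod_cast hrs
      have h2 : ((c : ℝ) / ((q₁ * q₂ : ℕ) : ℝ) + β) * 5 ^ (a + L * i) =
          (c * s * 5 ^ a / q₁) + ((((c * r : ℤ) : ℝ) / q₂ + β) * 5 ^ (a + L * i)) +
            ((c * s * k : ℤ) : ℝ) := by
        have h3 : (c : ℝ) / ((q₁ * q₂ : ℕ) : ℝ) = c * r / q₂ + c * s / q₁ := by
          push_cast
          field_simp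
          linear_combination (-(c : ℝ)) * hrsR
        rw [h3]
        push_cast
        have h4 : (c : ℝ) * s / q₁ * 5 ^ (a + L * i) = c * s * 5 ^ a / q₁ + c * s * k := by
          rw [hkR]
          field_simp
        linear_combination h4
      rw [h2, ex_add, ex_int, mul_one, ex_add]
    rw [h1, norm_mul, norm_ex, one_mul]
  -- the function on `ZMod q₂`
  set w : ℤ → ℝ := fun t => ‖PP L a I ((t : ℝ) / q₂ + β)‖ ^ 2 * ‖PP L b I ((t : ℝ) / q₂ + β)‖ ^ 2
    with hw
  have hPPper : ∀ (a : ℕ) (t n : ℤ), PP L a I (((t + n * q₂ : ℤ) : ℝ) / q₂ + β) =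
      PP L a I ((t : ℝ) / q₂ + β) := by
    intro a t n
    unfold PP
    refine Finset.sum_congr rfl fun i _ => ?_
    have h2 : (((t + n * q₂ : ℤ) : ℝ) / q₂ + β) * 5 ^ (a + L * i) =
        ((t : ℝ) / q₂ + β) * 5 ^ (a + L * i) + ((n * 5 ^ (a + L * i) : ℤ) : ℝ) := by
      push_cast
      field_simp
      ring
    rw [h2, ex_add, ex_int, mul_one]
  have hwper : ∀ t t' : ℤ, (t : ZMod q₂) = (t' : ZMod q₂) → w t = w t' := by
    intro t t' h
    rw [ZMod.intCast_eq_intCast_iff_dvd_sub] at h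
    obtain ⟨n, hn⟩ := h
    have h5 : t' = t + n * q₂ := by linarith [mul_comm n (q₂ : ℤ)]
    rw [h5]
    simp only [hw]
    rw [hPPper, hPPper]
  set V : ZMod q₂ → ℝ := fun x => w (x.val : ℤ) with hV
  have hVw : ∀ t : ℤ, V (t : ZMod q₂) = w t := by
    intro t
    apply hwper
    simp
  have hV0 : ∀ x, 0 ≤ V x := by
    intro x
    simp only [hV, hw]
    positivity
  set S := (range (q₁ * q₂)).filter (fun c => c.Coprime (q₁ * q₂)) with hS
  -- first step
  have hstep1 : ∑ c ∈ S, ‖PP L a I ((c : ℝ) / ((q₁ * q₂ : ℕ) : ℝ) + β)‖ ^ 2 *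
      ‖PP L b I ((c : ℝ) / ((q₁ * q₂ : ℕ) : ℝ) + β)‖ ^ 2 =
      ∑ c ∈ S, V ((c : ZMod q₂) * (r : ZMod q₂)) := by
    refine Finset.sum_congr rfl fun c _ => ?_
    have h1 := hPP a ha (c : ℤ)
    have h2 := hPP b hb (c : ℤ)
    rw [Int.cast_natCast] at h1 h2
    rw [h1, h2]
    have h3 := hVw ((c : ℤ) * r)
    rw [Int.cast_mul, Int.cast_natCast] at h3
    rw [h3]
  -- second step
  have hstep2 : ∑ c ∈ S, V ((c : ZMod q₂) * (r : ZMod q₂)) ≤
      (Nat.totient q₁ : ℝ) * ∑ x : ZMod q₂, V x := by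
    have h1 : ∑ c ∈ S, V ((c : ZMod q₂) * (r : ZMod q₂)) = ∑ x : ZMod q₂,
        ∑ c ∈ S.filter (fun c : ℕ => (c : ZMod q₂) * (r : ZMod q₂) = x),
          V ((c : ZMod q₂) * (r : ZMod q₂)) :=
      (Finset.sum_fiberwise S (fun c : ℕ => (c : ZMod q₂) * (r : ZMod q₂))
        (fun c : ℕ => V ((c : ZMod q₂) * (r : ZMod q₂)))).symm
    rw [h1, Finset.mul_sum]
    refine Finset.sum_le_sum fun x _ => ?_
    have h2 : ∑ c ∈ S.filter (fun c : ℕ => (c : ZMod q₂) * (r : ZMod q₂) = x),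
        V ((c : ZMod q₂) * (r : ZMod q₂)) =
        ((S.filter (fun c : ℕ => (c : ZMod q₂) * (r : ZMod q₂) = x)).card : ℝ) * V x := by
      rw [Finset.sum_congr rfl (fun c hc => by rw [(Finset.mem_filter.mp hc).2]),
        Finset.sum_const, nsmul_eq_mul]
    rw [h2]
    apply mul_le_mul_of_nonneg_right _ (hV0 x)
    have h3 : (S.filter (fun c : ℕ => (c : ZMod q₂) * (r : ZMod q₂) = x)).card ≤
        Nat.totient q₁ := by
      rw [Nat.totient]
      apply Finset.card_le_card_of_injOn (fun c => c % q₁)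
      · intro c hc
        have hc' := (Finset.mem_filter.mp (Finset.mem_filter.mp (Finset.mem_coe.mp hc)).1).2
        rw [Finset.mem_coe, Finset.mem_filter, Finset.mem_range]
        refine ⟨Nat.mod_lt _ hq₁0, ?_⟩
        have h4 : Nat.Coprime c q₁ := Nat.Coprime.coprime_mul_right_right hc'
        change Nat.gcd q₁ (c % q₁) = 1
        rw [Nat.gcd_comm, ← Nat.gcd_rec]
        exact h4.symm
      · intro c hc c' hc' heq
        have g1 := Finset.mem_filter.mp (Finset.mem_coe.mp hc)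
        have g2 := Finset.mem_filter.mp (Finset.mem_coe.mp hc')
        have k1 : c < q₁ * q₂ := Finset.mem_range.mp (Finset.mem_filter.mp g1.1).1
        have k2 : c' < q₁ * q₂ := Finset.mem_range.mp (Finset.mem_filter.mp g2.1).1
        have k3 : (c : ZMod q₂) = (c' : ZMod q₂) := by
          have hrq : (r : ZMod q₂) * (q₁ : ZMod q₂) = 1 := by
            have := congrArg (fun z : ℤ => (z : ZMod q₂)) hrs
            simpa using this
          have h5 : (c : ZMod q₂) * r = c' * r := g1.2.trans g2.2.symm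
          calc (c : ZMod q₂) = (c : ZMod q₂) * r * q₁ := by rw [mul_assoc, hrq, mul_one]
            _ = c' * r * q₁ := by rw [h5]
            _ = c' := by rw [mul_assoc, hrq, mul_one]
        have k4 : c ≡ c' [MOD q₂] := (ZMod.natCast_eq_natCast_iff _ _ _).mp k3
        have k5 : c ≡ c' [MOD q₁] := heq
        have k6 : c ≡ c' [MOD q₁ * q₂] := (Nat.modEq_and_modEq_iff_modEq_mul hc12).mp ⟨k5, k4⟩
        have k7 : c % (q₁ * q₂) = c' % (q₁ * q₂) := k6
        rwa [Nat.mod_eq_of_lt k1, Nat.mod_eq_of_lt k2] at k7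
    exact_mod_cast h3
  -- third step
  have hstep3 : ∑ x : ZMod q₂, V x ≤ q₂ * (Nq L a b I q₂ : ℝ) := by
    have h1 : ∑ x : ZMod q₂, V x = ∑ t ∈ range q₂, w (t : ℤ) := by
      symm
      apply Finset.sum_bij' (s := range q₂) (t := (univ : Finset (ZMod q₂)))
        (i := fun (s : ℕ) _ => (s : ZMod q₂)) (j := fun (x : ZMod q₂) _ => x.val)
      · intro s _; exact Finset.mem_univ _
      · intro x _; exact Finset.mem_range.mpr (ZMod.val_lt x)
      · intro s hs; exact ZMod.val_natCast_of_lt (Finset.mem_range.mp hs)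
      · intro x _; exact ZMod.natCast_zmod_val x
      · intro s hs
        simp only [hV]
        rw [ZMod.val_natCast_of_lt (Finset.mem_range.mp hs)]
    have h2 : ((∑ x : ZMod q₂, V x : ℝ) : ℂ) = ∑ u ∈ quads I,
        ex (β * hh L a b u) * ∑ t ∈ range q₂, ex ((t : ℝ) * ((hh L a b u : ℝ) / q₂)) := by
      rw [h1]
      push_cast
      have h3 : ∀ t ∈ range q₂, ((w (t : ℤ) : ℝ) : ℂ) =
          ∑ u ∈ quads I, ex (((t : ℝ) / q₂ + β) * hh L a b u) := by
        intro t _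
        simp only [hw]
        rw [WW, Int.cast_natCast]
      rw [Finset.sum_congr rfl h3, Finset.sum_comm]
      refine Finset.sum_congr rfl fun u _ => ?_
      rw [Finset.mul_sum]
      refine Finset.sum_congr rfl fun t _ => ?_
      rw [← ex_add]
      congr 1
      ring
    have h4 : ∀ u ∈ quads I, ‖ex (β * hh L a b u) *
        ∑ t ∈ range q₂, ex ((t : ℝ) * ((hh L a b u : ℝ) / q₂))‖ ≤
        if (q₂ : ℤ) ∣ hh L a b u then (q₂ : ℝ) else 0 := by
      intro u _
      rw [norm_mul, norm_ex, one_mul]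
      split_ifs with hd
      · refine (norm_sum_le _ _).trans ?_
        rw [Finset.sum_congr rfl (fun s _ => norm_ex _), Finset.sum_const, Finset.card_range]
        simp
      · rw [geom, norm_zero]
        · rw [ex_eq_one_iff]
          exact ⟨hh L a b u, by field_simp⟩
        · rw [Ne, ex_eq_one_iff]
          rintro ⟨n, hn⟩
          apply hd
          refine ⟨n, ?_⟩
          have h5 : (hh L a b u : ℝ) = q₂ * n := by
            field_simp at hn
            linarith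
          exact_mod_cast h5
    have h5 : ∑ x : ZMod q₂, V x = ‖((∑ x : ZMod q₂, V x : ℝ) : ℂ)‖ := by
      rw [Complex.norm_real, Real.norm_of_nonneg (Finset.sum_nonneg fun x _ => hV0 x)]
    rw [h5, h2]
    refine (norm_sum_le _ _).trans ((Finset.sum_le_sum h4).trans ?_)
    rw [← Finset.sum_filter, Finset.sum_const, nsmul_eq_mul]
    unfold Nq
    exact le_of_eq (mul_comm _ _)
  rw [hstep1]
  refine hstep2.trans ?_
  calc (Nat.totient q₁ : ℝ) * ∑ x : ZMod q₂, V x
      ≤ (Nat.totient q₁ : ℝ) * (q₂ * (Nq L a b I q₂ : ℝ)) :=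
        mul_le_mul_of_nonneg_left hstep3 (by positivity)
    _ = _ := by ring

end Pool.Agent.Tri5
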