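import Pool.Agent.Tri5.APP
import Pool.Agent.Tri5.ARC
import Pool.Agent.Tri5.ARCA
import Pool.Agent.Tri5.ARCB
import Pool.Agent.Tri5.ARCC
import Pool.Agent.Tri5.CNT
import Pool.Agent.Tri5.CONT
import Pool.Agent.Tri5.DIV
import Pool.Agent.Tri5.EQ
import Pool.Agent.Tri5.EXC
import Pool.Agent.Tri5.EXP
import Pool.Agent.Tri5.FAC
import Pool.Agent.Tri5.FIN
import Pool.Agent.Tri5.GAU
import Pool.Agent.Tri5.GAU2
import Pool.Agent.Tri5.GK
import Pool.Agent.Tri5.GS1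
import Pool.Agent.Tri5.GS2
import Pool.Agent.Tri5.GSM
import Pool.Agent.Tri5.HYP
import Pool.Agent.Tri5.INT
import Pool.Agent.Tri5.J1E
import Pool.Agent.Tri5.JJ
import Pool.Agent.Tri5.JO
import Pool.Agent.Tri5.JVE
import Pool.Agent.Tri5.LAT
import Pool.Agent.Tri5.LCM
import Pool.Agent.Tri5.LOC
import Pool.Agent.Tri5.LOC0
import Pool.Agent.Tri5.MER
import Pool.Agent.Tri5.N3A
import Pool.Agent.Tri5.N3B
import Pool.Agent.Tri5.N3C
import Pool.Agent.Tri5.N3D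
import Pool.Agent.Tri5.ND
import Pool.Agent.Tri5.NU1
import Pool.Agent.Tri5.NU2
import Pool.Agent.Tri5.NU3
import Pool.Agent.Tri5.NUM
import Pool.Agent.Tri5.PAR
import Pool.Agent.Tri5.POI
import Pool.Agent.Tri5.PT
import Pool.Agent.Tri5.QF
import Pool.Agent.Tri5.REP
import Pool.Agent.Tri5.RO1
import Pool.Agent.Tri5.RO2
import Pool.Agent.Tri5.ROM
import Pool.Agent.Tri5.SC2
import Pool.Agent.Tri5.SEC
import Pool.Agent.Tri5.SM
import Pool.Agent.Tri5.SUMF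
import Pool.Agent.Tri5.TAIL
import Pool.Agent.Tri5.THM1
import Pool.Agent.Tri5.THM2
import Pool.Agent.Tri5.VAR
import Pool.Agent.Tri5.WS

/-!
# Assembly
-/

set_option autoImplicit false

namespace Pool.Agent.Tri5

theorem main_LAT : T_LAT := p_LAT p_QF (p_SUMF p_FAC) p_CNT

theorem main_JO : T_JO := p_JO (p_J1E p_CONT) p_HYP p_EQ p_DIV p_CONT

theorem main_ROM : T_ROM := p_ROM p_EQ p_RO1 (p_RO2 p_EXP p_ND p_QF)

theorem main_PT : T_PT := p_PT (p_APP p_GK p_POI p_TAIL p_CONT) (p_GAU2 (p_GAU p_GK) p_QF) p_QF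

theorem main_ARC : T_ARC :=
  p_ARC (p_ARCA main_PT p_CONT p_QF) (p_ARCB (p_WS p_QF) p_INT) (p_ARCC p_INT) p_QF

theorem main_VAR : T_VAR :=
  p_VAR (p_JVE p_PAR p_FAC) main_ARC main_JO (p_JJ p_EQ) main_ROM p_QF

theorem main_EXC : T_EXC := p_EXC main_VAR main_LAT p_REP p_QF

theorem main_GSM : T_GSM := p_GSM (p_GS1 p_EXP) (p_GS2 p_MER) (p_LCM p_QF)

theorem main1 : T_THM1 := p_THM1 main_EXC (p_LOC p_QF p_LOC0) main_GSM p_QF

theorem main_NUM : T_NUM := p_NUM p_NU1 p_NU2 (p_NU3 p_N3A p_N3B p_N3C p_N3D)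

theorem main2 : T_THM2 := p_THM2 main1 (p_SEC p_FIN p_SM (p_SC2 p_EXP p_ND)) main_NUM

end Pool.Agent.Tri5
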