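import Pool.Agent.Tri5.Targets

set_option autoImplicit false

open Finset

namespace Pool.Agent.Tri5.APP_

theorem ex_add (x y : ℝ) : ex (x + y) = ex x * ex y := by
  unfold ex
  rw [← Complex.exp_add]
  congr 1
  push_cast
  ring

theorem ex_int (n : ℤ) : ex (n : ℝ) = 1 := by
  unfold ex
  rw [show (2 * (Real.pi : ℂ) * ((n : ℝ) : ℂ) * Complex.I) = n * (2 * Real.pi * Complex.I) by
    push_cast; ring]
  exact Complex.exp_int_mul_two_pi_mul_I n

theorem norm_ex (x : ℝ) : ‖ex x‖ = 1 := by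
  unfold ex
  rw [Complex.norm_exp]
  simp

theorem tri8 (z : ℤ) : 8 * ((Tri z : ℤ) : ℝ) + 1 = (2 * (z : ℝ) + 1) ^ 2 := by
  have h : 2 * (z * (z + 1) / 2) = z * (z + 1) := by
    have : (2 : ℤ) ∣ z * (z + 1) := Int.even_mul_succ_self z |>.two_dvd
    exact Int.mul_ediv_cancel' this
  have h2 : 8 * Tri z + 1 = (2 * z + 1) ^ 2 := by
    unfold Tri
    linear_combination 4 * h
  exact_mod_cast h2

theorem tri_diff (Q q : ℕ) (A j : ℤ) : Tri (A + Q * (2 * q * j)) =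
    Tri A + q * (Q * j * (2 * A + 1) + 2 * q * Q ^ 2 * j ^ 2) := by
  have h1 := tri8 (A + Q * (2 * q * j))
  have h2 := tri8 A
  have h3 : ((Tri (A + Q * (2 * q * j)) : ℤ) : ℝ) =
      ((Tri A + q * (Q * j * (2 * A + 1) + 2 * q * Q ^ 2 * j ^ 2) : ℤ) : ℝ) := by
    push_cast at h1 h2 ⊢
    linear_combination h1 / 8 - h2 / 8
  exact_mod_cast h3

/-- The parameter. -/
noncomputable def tau (X β : ℝ) : ℂ := (1 / X : ℝ) - (β / 4 : ℝ) * Complex.I

theorem tau_re (X β : ℝ) : (tau X β).re = 1 / X := by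
  unfold tau
  simp

theorem tau_normSq (X β : ℝ) : Complex.normSq (tau X β) = 1 / X ^ 2 + β ^ 2 / 16 := by
  unfold tau
  rw [Complex.normSq_apply]
  simp
  ring

theorem tau_norm (X β : ℝ) : ‖tau X β‖ = Real.sqrt (1 / X ^ 2 + β ^ 2 / 16) := by
  rw [← tau_normSq, Complex.norm_def]

theorem term_id (Q : ℕ) (y : ℤ) (X : ℝ) (q : ℕ) (c : ℤ) (β : ℝ) (hq : 1 ≤ q) (s j : ℤ) :
    (wt X (y + Q * (s + 2 * q * j)) : ℂ) *
      ex ((c / q + β) * Tri (y + Q * (s + 2 * q * j))) =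
    ex (-β / 8) * (ex (c * Tri (y + Q * s) / q) *
      Complex.exp (-(Real.pi * tau X β * (((2 * ((y : ℝ) + Q * s) + 1 : ℝ) : ℂ) +
        (4 * q * Q : ℝ) * j) ^ 2))) := by
  have e0 : y + Q * (s + 2 * q * j) = (y + Q * s) + Q * (2 * q * j) := by ring
  have hq' : (q : ℝ) ≠ 0 := by positivity
  have h8 := tri8 (y + Q * (s + 2 * q * j))
  have hd := tri_diff Q q (y + Q * s) j
  rw [← e0] at hd
  have h1 : ex ((c / q + β) * Tri (y + Q * (s + 2 * q * j))) =
      ex (c * Tri (y + Q * s) / q) * ex (β * Tri (y + Q * (s + 2 * q * j))) := by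
    rw [← ex_add]
    have : (c / q + β) * (Tri (y + Q * (s + 2 * q * j)) : ℝ) =
        (c * Tri (y + Q * s) / q + β * Tri (y + Q * (s + 2 * q * j))) +
        ((c * (Q * j * (2 * (y + Q * s) + 1) + 2 * q * Q ^ 2 * j ^ 2) : ℤ) : ℝ) := by
      have hd' : ((Tri (y + Q * (s + 2 * q * j)) : ℤ) : ℝ) = ((Tri (y + Q * s) +
        q * (Q * j * (2 * (y + Q * s) + 1) + 2 * q * Q ^ 2 * j ^ 2) : ℤ) : ℝ) := by rw [hd]
      rw [add_mul]
      have : (c : ℝ) / q * (Tri (y + Q * (s + 2 * q * j)) : ℝ) = c * Tri (y + Q * s) / q +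
          ((c * (Q * j * (2 * (y + Q * s) + 1) + 2 * q * Q ^ 2 * j ^ 2) : ℤ) : ℝ) := by
        rw [hd']
        push_cast
        field_simp
      rw [this]
      ring
    rw [this, ex_add, ex_int, mul_one]
  rw [h1]
  set Y : ℤ := y + Q * (s + 2 * q * j) with hY
  have hYr : (2 * (Y : ℝ) + 1) = (2 * ((y : ℝ) + Q * s) + 1) + (4 * q * Q) * j := by
    rw [hY]; push_cast; ring
  have h2 : (wt X Y : ℂ) * ex (β * Tri Y) = ex (-β / 8) *
      Complex.exp (-(Real.pi * tau X β * (((2 * ((y : ℝ) + Q * s) + 1 : ℝ) : ℂ) +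
        (4 * q * Q : ℝ) * j) ^ 2)) := by
    have e1 : (((2 * ((y : ℝ) + Q * s) + 1 : ℝ) : ℂ) + (4 * q * Q : ℝ) * j) =
        ((2 * (Y : ℝ) + 1 : ℝ) : ℂ) := by
      rw [hYr]; push_cast; ring
    rw [e1]
    unfold wt ex tau
    rw [Complex.ofReal_exp, ← Complex.exp_add, ← Complex.exp_add]
    congr 1
    have h8' : ((Tri Y : ℤ) : ℝ) = ((2 * (Y : ℝ) + 1) ^ 2 - 1) / 8 := by linarith
    rw [h8']
    push_cast
    ring
  rw [mul_left_comm, h2]
  ring

theorem tsum_split (f : ℤ → ℂ) (n : ℕ) (hn : 1 ≤ n) (hf : Summable f) :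
    ∑' k, f k = ∑ s ∈ range n, ∑' j : ℤ, f (s + n * j) := by
  have : NeZero n := ⟨by omega⟩
  have h2 : Summable (fun p : ℤ × Fin n => f ((Int.divModEquiv n).symm p)) :=
    ((Int.divModEquiv n).symm.summable_iff).2 hf
  have h3 : Summable (fun p : Fin n × ℤ => f ((Int.divModEquiv n).symm (p.2, p.1))) :=
    ((Equiv.prodComm (Fin n) ℤ).summable_iff).2 h2
  rw [← (Int.divModEquiv n).symm.tsum_eq f]
  rw [← (Equiv.prodComm (Fin n) ℤ).tsum_eq (fun p : ℤ × Fin n => f ((Int.divModEquiv n).symm p))]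
  have e : (∑' p : Fin n × ℤ, (fun p : ℤ × Fin n => f ((Int.divModEquiv n).symm p))
      ((Equiv.prodComm (Fin n) ℤ) p)) =
      ∑' p : Fin n × ℤ, f ((Int.divModEquiv n).symm (p.2, p.1)) := rfl
  rw [e, Summable.tsum_prod h3, tsum_fintype, ← Fin.sum_univ_eq_sum_range (fun s : ℕ =>
    ∑' j : ℤ, f (s + n * j)) n]
  apply sum_congr rfl
  intro s _
  congr 1
  ext j
  congr 1
  simp [Int.divModEquiv]
  ring

/-- The complete sum with a linear term. -/
noncomputable def G (Q : ℕ) (y : ℤ) (q : ℕ) (c k : ℤ) : ℂ :=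
  ∑ s ∈ range (2 * q), ex (c * Tri (y + Q * s) / q) *
    ex (k * (2 * ((y : ℝ) + Q * s) + 1) / (4 * q * Q))

theorem G_norm (h1 : T_GK) (Q : ℕ) (y : ℤ) (q : ℕ) (c k : ℤ) (hQ : 1 ≤ Q) (hq : 1 ≤ q)
    (hc : IsCoprime c (q : ℤ)) : ‖G Q y q c k‖ ≤ 2 * Real.sqrt q * Q := by
  have e : G Q y q c k = ex (k * (2 * y + 1) / (4 * q * Q)) *
      ∑ s ∈ range (2 * q), ex ((c : ℝ) * Tri (y + Q * s) / q + k * s / (2 * q)) := by
    unfold G
    rw [mul_sum]
    apply sum_congr rfl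
    intro s _
    rw [← ex_add, ← ex_add]
    congr 1
    have : (q : ℝ) ≠ 0 := by positivity
    have : (Q : ℝ) ≠ 0 := by positivity
    field_simp
    ring
  rw [e, norm_mul, norm_ex, one_mul]
  have h := h1 Q y q c k hQ hq hc
  have h2 : ((4 * q * Nat.gcd (Q ^ 2) q : ℕ) : ℝ) ≤ (2 * Real.sqrt q * Q) ^ 2 := by
    have : Nat.gcd (Q ^ 2) q ≤ Q ^ 2 := Nat.gcd_le_left _ (by positivity)
    have : ((Nat.gcd (Q ^ 2) q : ℕ) : ℝ) ≤ (Q : ℝ) ^ 2 := by exact_mod_cast this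
    rw [mul_pow, mul_pow, Real.sq_sqrt (by positivity)]
    push_cast
    nlinarith [show (0 : ℝ) < q by positivity]
  push_cast at h2
  exact abs_le_of_sq_le_sq' (h.trans h2) (by positivity) |>.2

theorem th_eq (h2 : T_POI) (h4 : T_CONT) (Q : ℕ) (y : ℤ) (X : ℝ) (q : ℕ) (c : ℤ) (β : ℝ)
    (hQ : 1 ≤ Q) (hX : 1 ≤ X) (hq : 1 ≤ q) :
    Summable (fun k : ℤ => Complex.exp (-(Real.pi * (k : ℂ) ^ 2 /
      (((4 * q * Q : ℝ) : ℂ) ^ 2 * tau X β))) * G Q y q c k) ∧
    th Q y X (c / q + β) = ex (-β / 8) * (1 / (((4 * q * Q : ℝ) : ℂ) * (tau X β) ^ (1 / 2 : ℂ)) *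
      ∑' k : ℤ, Complex.exp (-(Real.pi * (k : ℂ) ^ 2 / (((4 * q * Q : ℝ) : ℂ) ^ 2 * tau X β))) *
        G Q y q c k) := by
  have hre : 0 < (tau X β).re := by rw [tau_re]; positivity
  have hm : (0 : ℝ) < 4 * q * Q := by positivity
  have hs0 : Summable (fun k : ℤ => Complex.exp (-(Real.pi * (k : ℂ) ^ 2 /
      (((4 * q * Q : ℝ) : ℂ) ^ 2 * tau X β)))) := (h2 (tau X β) (4 * q * Q) 0 hre hm).2.1
  have hs1 : ∀ x : ℝ, Summable (fun k : ℤ => Complex.exp (-(Real.pi * (k : ℂ) ^ 2 /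
      (((4 * q * Q : ℝ) : ℂ) ^ 2 * tau X β))) * ex (k * x / (4 * q * Q))) := by
    intro x
    apply Summable.of_norm
    have := hs0.norm
    refine this.congr (fun k => ?_)
    rw [norm_mul, norm_ex, mul_one]
  have key : ∀ k : ℤ, Complex.exp (-(Real.pi * (k : ℂ) ^ 2 /
      (((4 * q * Q : ℝ) : ℂ) ^ 2 * tau X β))) * G Q y q c k =
      ∑ s ∈ range (2 * q), ex (c * Tri (y + Q * s) / q) * (Complex.exp (-(Real.pi * (k : ℂ) ^ 2 /
      (((4 * q * Q : ℝ) : ℂ) ^ 2 * tau X β))) *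
        ex (k * (2 * ((y : ℝ) + Q * s) + 1) / (4 * q * Q))) := by
    intro k
    unfold G
    rw [mul_sum]
    apply sum_congr rfl
    intro s _
    ring
  have hs2 : ∀ s ∈ range (2 * q), Summable (fun k : ℤ => ex (c * Tri (y + Q * s) / q) *
      (Complex.exp (-(Real.pi * (k : ℂ) ^ 2 / (((4 * q * Q : ℝ) : ℂ) ^ 2 * tau X β))) *
        ex (k * (2 * ((y : ℝ) + Q * s) + 1) / (4 * q * Q)))) := by
    intro s _
    exact (hs1 _).mul_left _
  refine ⟨?_, ?_⟩
  · simp_rw [key]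
    exact summable_sum hs2
  simp_rw [key]
  rw [Summable.tsum_finsetSum hs2]
  -- the left side
  have hsF : Summable (fun k : ℤ => (wt X (y + Q * k) : ℂ) * ex ((c / q + β) * Tri (y + Q * k))) := by
    apply Summable.of_norm
    refine (h4 Q y X hQ hX).2.1.congr (fun k => ?_)
    rw [norm_mul, norm_ex, mul_one]
    unfold wt
    rw [Complex.norm_of_nonneg (Real.exp_nonneg _)]
  unfold th
  rw [tsum_split _ (2 * q) (by omega) hsF, mul_sum, mul_sum]
  apply sum_congr rfl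
  intro s _
  have e1 : ∀ j : ℤ, (wt X (y + Q * ((s : ℕ) + (2 * q : ℕ) * j)) : ℂ) *
      ex ((c / q + β) * Tri (y + Q * ((s : ℕ) + (2 * q : ℕ) * j))) =
      (ex (-β / 8) * ex (c * Tri (y + Q * s) / q)) *
      Complex.exp (-(Real.pi * tau X β * (((2 * ((y : ℝ) + Q * s) + 1 : ℝ) : ℂ) +
        (4 * q * Q : ℝ) * j) ^ 2)) := by
    intro j
    have := term_id Q y X q c β hq s j
    push_cast at this ⊢
    rw [this]
    ring
  simp_rw [e1]
  rw [tsum_mul_left, tsum_mul_left, (h2 (tau X β) (4 * q * Q) (2 * ((y : ℝ) + Q * s) + 1) hre hm).2.2]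
  ring

end Pool.Agent.Tri5.APP_

namespace Pool.Agent.Tri5

open APP_ in
theorem p_APP (h1 : T_GK) (h2 : T_POI) (h3 : T_TAIL) (h4 : T_CONT) : T_APP := by
  intro Q y X q c β hQ hX hq hc hqX hβ
  obtain ⟨hs, he⟩ := th_eq h2 h4 Q y X q c β hQ hX hq
  have hre : 0 < (tau X β).re := by rw [tau_re]; positivity
  have hX0 : 0 < X := by linarith
  have hm : (0 : ℝ) < 4 * q * Q := by positivity
  have hq0 : (0 : ℝ) < q := by positivity
  have hQ0 : (0 : ℝ) < Q := by positivity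
  have hτ0 : tau X β ≠ 0 := by
    intro h; rw [h] at hre; simp at hre
  have hτ : 0 < ‖tau X β‖ := norm_pos_iff.2 hτ0
  have hcp : ‖(tau X β) ^ (1 / 2 : ℂ)‖ = Real.sqrt ‖tau X β‖ := by
    have : (1 / 2 : ℂ) = ((1 / 2 : ℝ) : ℂ) := by push_cast; ring
    rw [this, Complex.norm_cpow_real, Real.sqrt_eq_rpow]
  rw [Summable.tsum_eq_add_tsum_ite hs 0] at he
  refine ⟨ex (-β / 8) * (1 / (((4 * q * Q : ℝ) : ℂ) * (tau X β) ^ (1 / 2 : ℂ)) *
    (Complex.exp (-(Real.pi * ((0 : ℤ) : ℂ) ^ 2 / (((4 * q * Q : ℝ) : ℂ) ^ 2 * tau X β))) *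
        G Q y q c 0)), ?_, ?_⟩
  · rw [he, mul_add, mul_add, add_sub_cancel_left, norm_mul, norm_ex, one_mul, norm_mul, norm_div,
      norm_one, norm_mul, hcp, Complex.norm_of_nonneg hm.le]
    set σ : ℝ := 1 / ((4 * q * Q) ^ 2 * (X * ‖tau X β‖ ^ 2)) with hσ
    have hσ0 : 0 < σ := by positivity
    obtain ⟨t1, t2⟩ := h3 σ hσ0
    have hne : ∀ k : ℤ, ‖Complex.exp (-(Real.pi * (k : ℂ) ^ 2 /
        (((4 * q * Q : ℝ) : ℂ) ^ 2 * tau X β)))‖ = Real.exp (-(Real.pi * (k : ℝ) ^ 2 * σ)) := by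
      intro k
      rw [Complex.norm_exp]
      congr 1
      have : (-(Real.pi * (k : ℂ) ^ 2 / (((4 * q * Q : ℝ) : ℂ) ^ 2 * tau X β))) =
          ((-(Real.pi * (k : ℝ) ^ 2 / (4 * q * Q) ^ 2) : ℝ) : ℂ) * (tau X β)⁻¹ := by
        push_cast
        field_simp
      rw [this, Complex.re_ofReal_mul, Complex.inv_re, tau_re, ← Complex.sq_norm, hσ]
      field_simp
    have hb : ∀ k : ℤ, ‖(if k = 0 then 0 else Complex.exp (-(Real.pi * (k : ℂ) ^ 2 /
        (((4 * q * Q : ℝ) : ℂ) ^ 2 * tau X β))) * G Q y q c k)‖ ≤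
        (2 * Real.sqrt q * Q) * (if k = 0 then 0 else Real.exp (-(Real.pi * (k : ℝ) ^ 2 * σ))) := by
      intro k
      by_cases hk : k = 0
      · simp [hk]
      · rw [if_neg hk, if_neg hk, norm_mul, hne, mul_comm]
        exact mul_le_mul_of_nonneg_right (G_norm h1 Q y q c k hQ hq hc) (Real.exp_nonneg _)
    have hs3 : Summable (fun k : ℤ => if k = 0 then (0 : ℝ) else
        Real.exp (-(Real.pi * (k : ℝ) ^ 2 * σ))) := by
      refine Summable.of_nonneg_of_le (fun k => ?_) (fun k => ?_) t1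
      · split_ifs
        · exact le_refl _
        · exact Real.exp_nonneg _
      · split_ifs
        · exact Real.exp_nonneg _
        · exact le_refl _
    have hs4 := hs3.mul_left (2 * Real.sqrt q * Q)
    have hT := tsum_of_norm_bounded hs4.hasSum hb
    rw [tsum_mul_left] at hT
    have hT2 : ‖∑' k : ℤ, (if k = 0 then 0 else Complex.exp (-(Real.pi * (k : ℂ) ^ 2 /
        (((4 * q * Q : ℝ) : ℂ) ^ 2 * tau X β))) * G Q y q c k)‖ ≤
        (2 * Real.sqrt q * Q) * (1 / Real.sqrt σ) :=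
      hT.trans (mul_le_mul_of_nonneg_left t2 (by positivity))
    have hrs : 1 / Real.sqrt σ = 4 * q * Q * (Real.sqrt X * ‖tau X β‖) := by
      rw [hσ, Real.sqrt_div (by positivity), Real.sqrt_one, one_div_one_div,
        Real.sqrt_mul (by positivity), Real.sqrt_sq hm.le, Real.sqrt_mul hX0.le,
        Real.sqrt_sq hτ.le]
    rw [hrs] at hT2
    have hfin : 1 / (4 * q * Q * Real.sqrt ‖tau X β‖) * (2 * Real.sqrt q * Q *
        (4 * q * Q * (Real.sqrt X * ‖tau X β‖))) ≤ 3 * Q * Real.sqrt (Real.sqrt X) := by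
      have hst : 0 < Real.sqrt ‖tau X β‖ := Real.sqrt_pos.2 hτ
      have e1 : 1 / (4 * q * Q * Real.sqrt ‖tau X β‖) * (2 * Real.sqrt q * Q *
        (4 * q * Q * (Real.sqrt X * ‖tau X β‖))) =
        Q * (2 * (Real.sqrt q * Real.sqrt X * Real.sqrt ‖tau X β‖)) := by
        have : ‖tau X β‖ = Real.sqrt ‖tau X β‖ * Real.sqrt ‖tau X β‖ :=
          (Real.mul_self_sqrt hτ.le).symm
        rw [div_mul_eq_mul_div, div_eq_iff (by positivity)]
        nth_rewrite 1 [this]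
        ring
      rw [e1]
      have e2 : 2 * (Real.sqrt q * Real.sqrt X * Real.sqrt ‖tau X β‖) ≤
          3 * Real.sqrt (Real.sqrt X) := by
        have hsX : 0 < Real.sqrt X := Real.sqrt_pos.2 hX0
        have hXX : Real.sqrt X * Real.sqrt X = X := Real.mul_self_sqrt hX0.le
        have f1 : (q : ℝ) ^ 2 ≤ X := by
          have := mul_self_le_mul_self hq0.le hqX
          rw [hXX] at this
          rw [sq]; exact this
        have f2 : (q : ℝ) ^ 2 * β ^ 2 * X ≤ 1 := by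
          have h6 : |β| * (q * Real.sqrt X) ≤ 1 := by
            rwa [le_div_iff₀ (by positivity)] at hβ
          have h7 : 0 ≤ |β| * (q * Real.sqrt X) := by positivity
          have h8 : (|β| * (q * Real.sqrt X)) ^ 2 ≤ 1 := by
            nlinarith
          have h9 : (|β| * (q * Real.sqrt X)) ^ 2 = (q : ℝ) ^ 2 * β ^ 2 * X := by
            rw [mul_pow, mul_pow, sq_abs, Real.sq_sqrt hX0.le]; ring
          rwa [h9] at h8
        have f3 : (q * ‖tau X β‖ * Real.sqrt X) ^ 2 ≤ 2 := by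
          have h6 : ‖tau X β‖ ^ 2 = 1 / X ^ 2 + β ^ 2 / 16 := by
            rw [tau_norm, Real.sq_sqrt (by positivity)]
          rw [mul_pow, mul_pow, Real.sq_sqrt hX0.le, h6]
          have h7 : (q : ℝ) ^ 2 * (1 / X ^ 2 + β ^ 2 / 16) * X =
              (q : ℝ) ^ 2 / X + (q : ℝ) ^ 2 * β ^ 2 * X / 16 := by
            field_simp
          rw [h7]
          have h8 : (q : ℝ) ^ 2 / X ≤ 1 := by rw [div_le_one hX0]; exact f1
          linarith
        have f4 : q * ‖tau X β‖ * Real.sqrt X ≤ 2 := by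
          have : 0 ≤ q * ‖tau X β‖ * Real.sqrt X := by positivity
          nlinarith
        have f5 : (2 * (Real.sqrt q * Real.sqrt X * Real.sqrt ‖tau X β‖)) ^ 2 ≤
            (3 * Real.sqrt (Real.sqrt X)) ^ 2 := by
          rw [mul_pow, mul_pow, mul_pow, mul_pow, Real.sq_sqrt hq0.le, Real.sq_sqrt hX0.le,
            Real.sq_sqrt hτ.le, Real.sq_sqrt hsX.le]
          have : (q : ℝ) * X * ‖tau X β‖ = Real.sqrt X * (q * ‖tau X β‖ * Real.sqrt X) := by
            nth_rewrite 1 [← hXX]; ring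
          rw [this]
          nlinarith
        exact (sq_le_sq₀ (by positivity) (by positivity)).1 f5
      nlinarith
    refine le_trans ?_ hfin
    exact mul_le_mul_of_nonneg_left hT2 (by positivity)
  · have hG : G Q y q c 0 = GG Q y q c := by
      unfold G GG
      apply sum_congr rfl
      intro s _
      have : (((0 : ℤ) : ℝ) * (2 * ((y : ℝ) + Q * s) + 1) / (4 * q * Q)) = ((0 : ℤ) : ℝ) := by simp
      rw [this, ex_int, mul_one]
    have h0 : Complex.exp (-(Real.pi * ((0 : ℤ) : ℂ) ^ 2 /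
        (((4 * q * Q : ℝ) : ℂ) ^ 2 * tau X β))) = 1 := by simp
    rw [h0, one_mul, hG, norm_mul, norm_ex, one_mul, norm_mul, norm_div,
      norm_one, norm_mul, hcp, Complex.norm_of_nonneg hm.le, ← tau_norm]
    have h5 : (Real.sqrt ‖tau X β‖) ^ 2 = ‖tau X β‖ := Real.sq_sqrt hτ.le
    rw [mul_pow, div_pow, mul_pow, h5]
    apply le_of_eq
    field_simp
    ring

end Pool.Agent.Tri5
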