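import Mathlib

/-!
# Sums of two triangular numbers and two powers of 5: definitions
-/

set_option autoImplicit false

open Finset

namespace Pool.Agent.Tri5

/-- `n` is a sum of two triangular numbers and two powers of `5`. -/
def Rep (n : ℕ) : Prop :=
  ∃ a b c d : ℕ, n = a * (a + 1) / 2 + b * (b + 1) / 2 + 5 ^ c + 5 ^ d

/-- There are exponents `a, b` such that `4n + 1 - 4 * 5^a - 4 * 5^b` is divisible by no prime
`p = 3 mod 4` which divides `5^L - 1`. -/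
def Good (L n : ℕ) : Prop :=
  ∃ a b : ℕ, 1 ≤ a ∧ 1 ≤ b ∧ ∀ p : ℕ, p.Prime → p % 4 = 3 → p ∣ 5 ^ L - 1 →
    ¬ (p : ℤ) ∣ 4 * (n : ℤ) + 1 - 4 * 5 ^ a - 4 * 5 ^ b

/-- `e(x) = exp (2 pi i x)`. -/
noncomputable def ex (x : ℝ) : ℂ := Complex.exp (2 * Real.pi * x * Complex.I)

/-- Triangular numbers, for integers. -/
def Tri (z : ℤ) : ℤ := z * (z + 1) / 2

/-- The product of `5` and the odd primes dividing `5^L - 1`. -/
def Qf (L : ℕ) : ℕ := ∏ p ∈ (5 * (5 ^ L - 1)).primeFactors.erase 2, p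

/-- Residue data: the class modulo `Qf L` of `Tri y + Tri z + 5^a + 5^b`. -/
structure Dat (L a b : ℕ) (y z : ℤ) : Prop where
  hL : 1 ≤ L
  ha : 1 ≤ a
  ha' : a ≤ L
  hb : 1 ≤ b
  hb' : b ≤ L
  nd : ∀ p : ℕ, p.Prime → p ∣ Qf L → ¬ ((p : ℤ) ∣ 2 * y + 1 ∧ (p : ℤ) ∣ 2 * z + 1)

/-- Gaussian weight. -/
noncomputable def wt (X : ℝ) (z : ℤ) : ℝ := Real.exp (-(Real.pi * (2 * z + 1) ^ 2 / X))

/-- Theta sum over triangular numbers `Tri (y + Q k)`. -/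
noncomputable def th (Q : ℕ) (y : ℤ) (X α : ℝ) : ℂ :=
  ∑' k : ℤ, (wt X (y + Q * k) : ℂ) * ex (α * Tri (y + Q * k))

/-- Exponential sum over powers of `5`. -/
noncomputable def PP (L a I : ℕ) (α : ℝ) : ℂ := ∑ i ∈ range I, ex (α * 5 ^ (a + L * i))

/-- Complete sum. -/
noncomputable def GG (Q : ℕ) (y : ℤ) (q : ℕ) (c : ℤ) : ℂ :=
  ∑ s ∈ range (2 * q), ex ((c : ℝ) * Tri (y + Q * s) / q)

/-- Index set of the representations. -/
abbrev Ix (I : ℕ) : Type := (ℤ × ℤ) × (Fin I × Fin I)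

/-- The represented number. -/
def vl (Q L a b I : ℕ) (y z : ℤ) (x : Ix I) : ℤ :=
  Tri (y + Q * x.1.1) + Tri (z + Q * x.1.2) + 5 ^ (a + L * (x.2.1 : ℕ)) + 5 ^ (b + L * (x.2.2 : ℕ))

/-- Its weight. -/
noncomputable def wg (Q : ℕ) (y z : ℤ) (X : ℝ) (I : ℕ) (x : Ix I) : ℝ :=
  wt X (y + Q * x.1.1) * wt X (z + Q * x.1.2)

/-- Weighted number of representations of `n` in the given classes. -/
noncomputable def RR (Q L a b I : ℕ) (y z : ℤ) (X : ℝ) (n : ℤ) : ℝ :=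
  ∑' x : Ix I, if vl Q L a b I y z x = n then wg Q y z X I x else 0

/-- Quadruples of exponent indices. -/
def quads (I : ℕ) : Finset ((ℕ × ℕ) × (ℕ × ℕ)) := (range I ×ˢ range I) ×ˢ (range I ×ˢ range I)

/-- The difference of two sums of two powers. -/
def hh (L a b : ℕ) (u : (ℕ × ℕ) × (ℕ × ℕ)) : ℤ :=
  5 ^ (a + L * u.1.1) + 5 ^ (b + L * u.1.2) - 5 ^ (a + L * u.2.1) - 5 ^ (b + L * u.2.2)

/-- Number of quadruples with `d` dividing the difference. -/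
def Nq (L a b I d : ℕ) : ℕ := ((quads I).filter (fun u => (d : ℤ) ∣ hh L a b u)).card

/-- The Romanoff type sum. -/
noncomputable def SI (L a b I N : ℕ) : ℝ :=
  ∑ q ∈ (Icc 2 N).filter (fun q => q.Coprime (2 * Qf L)), (Nq L a b I q : ℝ) / q

/-- The order of `5^L` modulo `d`. -/
noncomputable def od (L d : ℕ) : ℕ := orderOf ((5 : ZMod d) ^ L)

/-- The Romanoff series over the squarefree numbers composed of the primes of `S`, without the
term `1`. -/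
noncomputable def GS (L : ℕ) (S : Finset ℕ) : ℝ :=
  ∑ d ∈ (∏ p ∈ S, p).divisors.erase 1, (1 : ℝ) / (Nat.totient d * od L d)

/-- The Romanoff series of `L` is at most `g`. -/
def BG (L : ℕ) (g : ℝ) : Prop :=
  ∀ S : Finset ℕ, (∀ p ∈ S, p.Prime ∧ ¬ p ∣ 2 * Qf L) → GS L S ≤ g

/-- The mean square of one theta sum against the powers. -/
noncomputable def J1 (Q L a b I : ℕ) (y : ℤ) (X : ℝ) : ℝ :=
  ∫ α in (0 : ℝ)..1, ‖th Q y X α‖ ^ 2 * (‖PP L a I α‖ ^ 2 * ‖PP L b I α‖ ^ 2)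

/-- The mean square of the powers. -/
noncomputable def J2 (L a b I : ℕ) : ℝ :=
  ∫ α in (0 : ℝ)..1, ‖PP L a I α‖ ^ 2 * ‖PP L b I α‖ ^ 2

/-- The mean square of the difference of the counting function and its translate. -/
noncomputable def JV (Q L a b I : ℕ) (y z : ℤ) (X : ℝ) (h : ℤ) : ℝ :=
  ∫ α in (0 : ℝ)..1, ‖th Q y X α‖ ^ 2 * ‖th Q z X α‖ ^ 2 *
    (‖PP L a I α‖ ^ 2 * ‖PP L b I α‖ ^ 2) * ‖1 - ex (α * h)‖ ^ 2

end Pool.Agent.Tri5
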