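import Pool.Agent.Tri5.Targets

set_option autoImplicit false

open Finset

namespace Pool.Agent.Tri5.GS1_

theorem sum_inv_le (J : Finset ℕ) (hJ : ∀ j ∈ J, 1 ≤ j) :
    ∑ j ∈ J, (1 : ℝ) / j ≤ ∑ i ∈ range J.card, (1 : ℝ) / ((i : ℝ) + 1) := by
  induction J using Finset.induction_on_max with
  | empty => simp
  | insert a s ha ih =>
    have hn : a ∉ s := fun h => lt_irrefl a (ha a h)
    rw [sum_insert hn, card_insert_of_notMem hn, sum_range_succ, add_comm]
    refine add_le_add (ih (fun j hj => hJ j (mem_insert_of_mem hj))) ?_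
    have hc : s.card ≤ a - 1 := by
      have : s ⊆ Ico 1 a := fun x hx => by
        rw [mem_Ico]; exact ⟨hJ x (mem_insert_of_mem hx), ha x hx⟩
      have := card_le_card this
      rwa [Nat.card_Ico] at this
    have ha1 := hJ a (mem_insert_self a s)
    have hc' : (s.card : ℝ) + 1 ≤ a := by exact_mod_cast (by omega : s.card + 1 ≤ a)
    apply one_div_le_one_div_of_le (by positivity) hc'

theorem sum_inv_log (J : Finset ℕ) (n : ℕ) (hJ : ∀ j ∈ J, 1 ≤ j) (hn : J.card ≤ n) :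
    ∑ j ∈ J, (1 : ℝ) / j ≤ 1 + Real.log n := by
  have h2 := sum_inv_le J hJ
  have h3 : ∑ i ∈ range J.card, (1 : ℝ) / ((i : ℝ) + 1) ≤ ∑ i ∈ range n, (1 : ℝ) / ((i : ℝ) + 1) := by
    apply sum_le_sum_of_subset_of_nonneg
    · exact range_subset_range.2 hn
    · intro i _ _; positivity
  have h4 := harmonic_le_one_add_log n
  have h5 : ((harmonic n : ℚ) : ℝ) = ∑ i ∈ range n, (1 : ℝ) / ((i : ℝ) + 1) := by
    unfold harmonic
    push_cast
    apply sum_congr rfl
    intro i _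
    rw [one_div]
  rw [← h5] at h3
  linarith

theorem tot_sum (h1 : T_EXP) (S : Finset ℕ) (hS : ∀ p ∈ S, p.Prime) :
    ∑ d ∈ (∏ p ∈ S, p).divisors, (1 : ℝ) / Nat.totient d = ∏ p ∈ S, (1 + 1 / ((p : ℝ) - 1)) := by
  have := h1 Unit {()} (fun _ => 0) S hS
  simp only [dvd_zero, filter_true, sum_singleton, card_singleton, Nat.cast_one, mul_one] at this
  exact this.symm

theorem five_ne (L p : ℕ) (hL : 1 ≤ L) (hp : p.Prime) (h : ¬ p ∣ 2 * Qf L) :
    p ≠ 2 ∧ p ≠ 5 ∧ ¬ p ∣ 5 ^ L - 1 := by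
  have h2 : p ≠ 2 := by
    rintro rfl
    exact h (dvd_mul_right _ _)
  have h5L : 5 ^ L - 1 ≠ 0 := by
    have : 5 ^ 1 ≤ 5 ^ L := Nat.pow_le_pow_right (by norm_num) hL
    omega
  have key : ∀ _ : p ∣ 5 * (5 ^ L - 1), False := by
    intro hd
    apply h
    apply Dvd.dvd.mul_left
    unfold Qf
    apply Finset.dvd_prod_of_mem (fun p => p)
    rw [mem_erase, Nat.mem_primeFactors]
    exact ⟨h2, hp, hd, by positivity⟩
  exact ⟨h2, fun h5 => key (h5 ▸ dvd_mul_right _ _), fun hd => key (hd.mul_left _)⟩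

theorem od_facts (L p : ℕ) (hL : 1 ≤ L) (hp : p.Prime) (h : ¬ p ∣ 2 * Qf L) :
    2 ≤ od L p ∧ p ∣ 5 ^ (L * od L p) - 1 ∧ ∀ r : ℕ, r.Prime → r ∣ od L p →
      r ^ (L.factorization r + 1) ∣ p - 1 := by
  obtain ⟨h2, h5, hn⟩ := five_ne L p hL hp h
  have : Fact p.Prime := ⟨hp⟩
  have h50 : (5 : ZMod p) ≠ 0 := by
    intro h
    have : ((5 : ℕ) : ZMod p) = 0 := by exact_mod_cast h
    rw [ZMod.natCast_eq_zero_iff] at this
    exact h5 ((Nat.prime_dvd_prime_iff_eq hp Nat.prime_five).1 this)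
  have hw : orderOf (5 : ZMod p) ∣ p - 1 := ZMod.orderOf_dvd_card_sub_one h50
  have hp2 := hp.two_le
  have hw0 : 0 < orderOf (5 : ZMod p) := Nat.pos_of_dvd_of_pos hw (by omega)
  have ho : od L p = orderOf (5 : ZMod p) / Nat.gcd (orderOf (5 : ZMod p)) L := by
    unfold od
    exact orderOf_pow' _ (by omega)
  have hg0 : 0 < Nat.gcd (orderOf (5 : ZMod p)) L := Nat.gcd_pos_of_pos_left _ hw0
  have hmul : od L p * Nat.gcd (orderOf (5 : ZMod p)) L = orderOf (5 : ZMod p) := by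
    rw [ho]; exact Nat.div_mul_cancel (Nat.gcd_dvd_left _ _)
  have hpow : ∀ n : ℕ, (5 : ZMod p) ^ n = 1 → p ∣ 5 ^ n - 1 := by
    intro n hn
    rw [← ZMod.natCast_eq_zero_iff, Nat.cast_sub (Nat.one_le_pow _ _ (by norm_num))]
    push_cast
    rw [hn, sub_self]
  refine ⟨?_, ?_, ?_⟩
  · by_contra hlt
    push Not at hlt
    have h1 : od L p = 1 := by
      have : od L p ≠ 0 := by
        intro h0; rw [h0, zero_mul] at hmul; omega
      omega
    apply hn
    apply hpow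
    have := pow_orderOf_eq_one ((5 : ZMod p) ^ L)
    unfold od at h1
    rw [h1, pow_one] at this
    exact this
  · apply hpow
    rw [pow_mul]
    exact pow_orderOf_eq_one _
  · intro r hr hrd
    refine dvd_trans ?_ hw
    rw [Nat.Prime.pow_dvd_iff_le_factorization hr hw0.ne']
    have hod0 : od L p ≠ 0 := by
      intro h0; rw [h0, zero_mul] at hmul; omega
    have e1 : (orderOf (5 : ZMod p)).factorization r =
        (od L p).factorization r + (Nat.gcd (orderOf (5 : ZMod p)) L).factorization r := by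
      nth_rewrite 1 [← hmul]
      rw [Nat.factorization_mul hod0 hg0.ne']
      rfl
    have e2 : (Nat.gcd (orderOf (5 : ZMod p)) L).factorization r =
        min ((orderOf (5 : ZMod p)).factorization r) (L.factorization r) := by
      rw [Nat.factorization_gcd hw0.ne' (by omega)]
      rfl
    have e3 : 1 ≤ (od L p).factorization r :=
      (hr.dvd_iff_one_le_factorization hod0).1 hrd
    rw [e2] at e1
    rcases le_total ((orderOf (5 : ZMod p)).factorization r) (L.factorization r) with h | h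
    · rw [min_eq_left h] at e1; omega
    · rw [min_eq_right h] at e1; omega

theorem card_bound (L k : ℕ) (S : Finset ℕ) (hL : 1 ≤ L)
    (hS : ∀ p ∈ S, p.Prime ∧ ∃ e, 1 ≤ e ∧ e ≤ k ∧ p ∣ 5 ^ (L * e) - 1) :
    S.card ≤ 3 * L * k ^ 2 := by
  have hf : ∀ e ∈ Icc 1 k, 0 < 5 ^ (L * e) - 1 := by
    intro e he
    rw [mem_Icc] at he
    have : 5 ^ 1 ≤ 5 ^ (L * e) := Nat.pow_le_pow_right (by norm_num) (Nat.mul_pos hL he.1)
    omega
  have h1 : ∏ p ∈ S, p ∣ ∏ e ∈ Icc 1 k, (5 ^ (L * e) - 1) := by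
    apply Finset.prod_primes_dvd
    · intro p hp; exact (hS p hp).1.prime
    · intro p hp
      obtain ⟨_, e, he1, he2, he3⟩ := hS p hp
      exact he3.trans (Finset.dvd_prod_of_mem (fun e => 5 ^ (L * e) - 1) (mem_Icc.2 ⟨he1, he2⟩))
  have h2 : ∏ p ∈ S, p ≤ ∏ e ∈ Icc 1 k, (5 ^ (L * e) - 1) := Nat.le_of_dvd (prod_pos hf) h1
  have h3 : ∏ e ∈ Icc 1 k, (5 ^ (L * e) - 1) ≤ ∏ _e ∈ Icc 1 k, 5 ^ (L * k) := by
    apply prod_le_prod'
    intro e he
    rw [mem_Icc] at he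
    have : 5 ^ (L * e) ≤ 5 ^ (L * k) := Nat.pow_le_pow_right (by norm_num) (Nat.mul_le_mul_left _ he.2)
    exact (Nat.sub_le _ _).trans this
  have h4 : 2 ^ S.card ≤ ∏ p ∈ S, p := by
    rw [← prod_const]
    apply prod_le_prod'
    intro p hp; exact (hS p hp).1.two_le
  rw [prod_const, Nat.card_Icc, ← pow_mul] at h3
  have h5 : (5 : ℕ) ^ (L * k * (k + 1 - 1)) ≤ 8 ^ (L * k * (k + 1 - 1)) :=
    Nat.pow_le_pow_left (by norm_num) _
  have h6 : (8 : ℕ) ^ (L * k * (k + 1 - 1)) = 2 ^ (3 * L * k ^ 2) := by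
    rw [show (8 : ℕ) = 2 ^ 3 by norm_num, ← pow_mul]
    congr 1
    rw [Nat.add_sub_cancel]
    ring
  rw [h6] at h5
  exact (Nat.pow_le_pow_iff_right (by norm_num : 1 < 2)).1 (h4.trans (h2.trans (h3.trans h5)))

theorem od_pos (L d : ℕ) (hd : 1 ≤ d) (h5 : d.Coprime 5) : 1 ≤ od L d := by
  have : NeZero d := ⟨by omega⟩
  have hu : IsUnit (5 : ZMod d) := by
    have := (ZMod.isUnit_iff_coprime 5 d).2 h5.symm
    exact_mod_cast this
  obtain ⟨u, hu⟩ := hu
  unfold od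
  rw [← hu, ← Units.val_pow_eq_pow_val, orderOf_units]
  exact orderOf_pos _

theorem od_dvd (L p d : ℕ) (h : p ∣ d) : od L p ∣ od L d := by
  unfold od
  have h1 := orderOf_map_dvd (ZMod.castHom h (ZMod p)).toMonoidHom ((5 : ZMod d) ^ L)
  have h2 : (ZMod.castHom h (ZMod p)).toMonoidHom ((5 : ZMod d) ^ L) = (5 : ZMod p) ^ L := by
    rw [map_pow]
    congr 1
    exact map_ofNat (ZMod.castHom h (ZMod p)) 5
  rwa [h2] at h1

theorem step1 (h1 : T_EXP) (L k : ℕ) (S : Finset ℕ) (hL : 1 ≤ L)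
    (hS : ∀ p ∈ S, p.Prime ∧ ¬ p ∣ 2 * Qf L) :
    ∑ d ∈ ((∏ p ∈ S, p).divisors.erase 1).filter (fun d => od L d ≤ k),
      (1 : ℝ) / (Nat.totient d * od L d) ≤
    ∏ p ∈ S.filter (fun p => od L p ≤ k), (1 + 1 / ((p : ℝ) - 1)) - 1 := by
  set S' := S.filter (fun p => od L p ≤ k) with hS'
  have hP : ∀ p ∈ S', p.Prime := fun p hp => (hS p (mem_filter.1 hp).1).1
  have hP0 : ∏ p ∈ S', p ≠ 0 := prod_ne_zero_iff.2 (fun p hp => (hP p hp).ne_zero)
  have hsq : Squarefree (∏ p ∈ S, p) := by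
    refine Finset.squarefree_prod_of_pairwise_isCoprime (fun p hp q hq hpq => ?_)
      (fun p hp => (hS p hp).1.squarefree)
    exact Nat.coprime_iff_isRelPrime.1 ((Nat.coprime_primes (hS p hp).1 (hS q hq).1).2 hpq)
  have hsub : ((∏ p ∈ S, p).divisors.erase 1).filter (fun d => od L d ≤ k) ⊆
      (∏ p ∈ S', p).divisors.erase 1 := by
    intro d hd
    rw [mem_filter, mem_erase, Nat.mem_divisors] at hd
    obtain ⟨⟨hd1, hd2, hd3⟩, hd4⟩ := hd
    rw [mem_erase, Nat.mem_divisors]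
    refine ⟨hd1, ?_, hP0⟩
    have hdsq : Squarefree d := hsq.squarefree_of_dvd hd2
    have hd0 : d ≠ 0 := hdsq.ne_zero
    have hpS : ∀ p ∈ d.primeFactors, p ∈ S := by
      intro p hp
      rw [Nat.mem_primeFactors] at hp
      obtain ⟨q, hq1, hq2⟩ := (Prime.dvd_finsetProd_iff hp.1.prime _).1 (hp.2.1.trans hd2)
      rw [(Nat.prime_dvd_prime_iff_eq hp.1 (hS q hq1).1).1 hq2]
      exact hq1
    have hd5 : d.Coprime 5 := by
      rw [Nat.coprime_comm, Nat.Prime.coprime_iff_not_dvd Nat.prime_five]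
      intro h5
      have := hpS 5 (Nat.mem_primeFactors.2 ⟨Nat.prime_five, h5, hd0⟩)
      exact (five_ne L 5 hL Nat.prime_five (hS 5 this).2).2.1 rfl
    have hod := od_pos L d (Nat.pos_of_ne_zero hd0) hd5
    rw [← Nat.prod_primeFactors_of_squarefree hdsq]
    apply prod_dvd_prod_of_subset
    intro p hp
    rw [hS', mem_filter]
    refine ⟨hpS p hp, ?_⟩
    exact (Nat.le_of_dvd hod (od_dvd L p d (Nat.dvd_of_mem_primeFactors hp))).trans hd4
  have e1 : ∑ d ∈ (∏ p ∈ S', p).divisors.erase 1, (1 : ℝ) / Nat.totient d =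
      ∏ p ∈ S', (1 + 1 / ((p : ℝ) - 1)) - 1 := by
    rw [← tot_sum h1 S' hP, Finset.sum_erase_eq_sub (Nat.mem_divisors.2 ⟨one_dvd _, hP0⟩)]
    simp
  rw [← e1]
  refine le_trans (sum_le_sum_of_subset_of_nonneg hsub ?_) (sum_le_sum ?_)
  · intro d _ _; positivity
  · intro d hd
    rcases Nat.eq_zero_or_pos (od L d) with h | h
    · rw [h]; simp
    · rcases Nat.eq_zero_or_pos (Nat.totient d) with h' | h'
      · rw [h']; simp
      · apply one_div_le_one_div_of_le (by exact_mod_cast h')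
        have : (1 : ℝ) ≤ od L d := by exact_mod_cast h
        have : (0 : ℝ) < Nat.totient d := by exact_mod_cast h'
        nlinarith

theorem step4 (L k : ℕ) (S' : Finset ℕ) (hL : 1 ≤ L) (hk : 2 ≤ k)
    (hD : ∀ r : ℕ, r.Prime → r ≤ k → k ^ 4 < r ^ (L.factorization r + 1))
    (hS : ∀ p ∈ S', p.Prime ∧ ¬ p ∣ 2 * Qf L ∧ od L p ≤ k) :
    ∑ p ∈ S', 1 / ((p : ℝ) - 1) ≤ (1 + Real.log (3 * L * k ^ 2)) / k ^ 3 := by
  have hcard : S'.card ≤ 3 * L * k ^ 2 := by
    apply card_bound L k S' hL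
    intro p hp
    obtain ⟨hp1, hp2, hp3⟩ := hS p hp
    obtain ⟨f1, f2, -⟩ := od_facts L p hL hp1 hp2
    exact ⟨hp1, od L p, by omega, hp3, f2⟩
  have hn1 : 1 ≤ 3 * L * k ^ 2 := by
    have : 0 < 3 * L * k ^ 2 := by positivity
    exact this
  have hp1R : ∀ p ∈ S', (0 : ℝ) < (p : ℝ) - 1 := by
    intro p hp
    have : (2 : ℝ) ≤ p := by exact_mod_cast (hS p hp).1.two_le
    linarith
  set D : ℕ → ℕ := fun r => r ^ (L.factorization r + 1) with hDdef
  have hcov : ∀ p ∈ S', ∃ r ∈ (Icc 1 k).filter Nat.Prime, D r ∣ p - 1 := by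
    intro p hp
    obtain ⟨hp1, hp2, hp3⟩ := hS p hp
    obtain ⟨f1, f2, f3⟩ := od_facts L p hL hp1 hp2
    have hr : (od L p).minFac.Prime := Nat.minFac_prime (by omega)
    have hrd := Nat.minFac_dvd (od L p)
    refine ⟨(od L p).minFac, ?_, f3 _ hr hrd⟩
    rw [mem_filter, mem_Icc]
    exact ⟨⟨hr.one_lt.le, (Nat.le_of_dvd (by omega) hrd).trans hp3⟩, hr⟩
  have h1 : ∑ p ∈ S', 1 / ((p : ℝ) - 1) ≤ ∑ r ∈ (Icc 1 k).filter Nat.Prime,
      ∑ p ∈ S'.filter (fun p => D r ∣ p - 1), 1 / ((p : ℝ) - 1) := by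
    simp_rw [sum_filter (fun p => D _ ∣ p - 1)]
    rw [sum_comm]
    apply sum_le_sum
    intro p hp
    obtain ⟨r, hr1, hr2⟩ := hcov p hp
    have hnn : ∀ r ∈ (Icc 1 k).filter Nat.Prime,
        0 ≤ (if D r ∣ p - 1 then 1 / ((p : ℝ) - 1) else 0) := by
      intro r _
      have := hp1R p hp
      split_ifs <;> positivity
    refine le_trans ?_ (single_le_sum hnn hr1)
    rw [if_pos hr2]
  have h2 : ∀ r ∈ (Icc 1 k).filter Nat.Prime,
      ∑ p ∈ S'.filter (fun p => D r ∣ p - 1), 1 / ((p : ℝ) - 1) ≤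
      (1 + Real.log (3 * L * k ^ 2)) / k ^ 4 := by
    intro r hr
    rw [mem_filter, mem_Icc] at hr
    have hDr : k ^ 4 < D r := hD r hr.2 hr.1.2
    have hDpos : 0 < D r := by omega
    have hinj : Set.InjOn (fun p => (p - 1) / D r) (S'.filter (fun p => D r ∣ p - 1)) := by
      intro p hp q hq hpq
      rw [coe_filter] at hp hq
      have h1 := Nat.div_mul_cancel hp.2
      have h2 := Nat.div_mul_cancel hq.2
      simp only at hpq
      rw [hpq, h2] at h1
      have := (hS p hp.1).1.two_le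
      have := (hS q hq.1).1.two_le
      omega
    have e : ∑ p ∈ S'.filter (fun p => D r ∣ p - 1), 1 / ((p : ℝ) - 1) =
        (1 / (D r : ℝ)) * ∑ j ∈ (S'.filter (fun p => D r ∣ p - 1)).image (fun p => (p - 1) / D r),
          (1 : ℝ) / j := by
      rw [sum_image hinj, mul_sum]
      apply sum_congr rfl
      intro p hp
      rw [mem_filter] at hp
      have h1 := Nat.div_mul_cancel hp.2
      have h2 := (hS p hp.1).1.two_le
      have h3 : ((p : ℝ) - 1) = (((p - 1) / D r : ℕ) : ℝ) * (D r : ℝ) := by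
        rw [← Nat.cast_mul, h1, Nat.cast_sub (by omega)]; simp
      rw [h3, one_div_mul_one_div, mul_comm]
    rw [e]
    have hlog : ∑ j ∈ (S'.filter (fun p => D r ∣ p - 1)).image (fun p => (p - 1) / D r),
          (1 : ℝ) / j ≤ 1 + Real.log ((3 * L * k ^ 2 : ℕ) : ℝ) := by
      apply sum_inv_log
      · intro j hj
        rw [mem_image] at hj
        obtain ⟨p, hp, rfl⟩ := hj
        rw [mem_filter] at hp
        have h2 := (hS p hp.1).1.two_le
        exact Nat.div_pos (Nat.le_of_dvd (by omega) hp.2) hDpos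
      · exact card_image_le.trans ((card_filter_le _ _).trans hcard)
    have hcast : ((3 * L * k ^ 2 : ℕ) : ℝ) = 3 * L * k ^ 2 := by push_cast; ring
    rw [hcast] at hlog
    have hlog0 : 0 ≤ Real.log (3 * L * k ^ 2) := by
      rw [← hcast]
      exact Real.log_nonneg (by exact_mod_cast hn1)
    have hk0 : (0 : ℝ) < (k : ℝ) ^ 4 := by positivity
    have hDk : (k : ℝ) ^ 4 ≤ D r := by exact_mod_cast hDr.le
    calc (1 / (D r : ℝ)) * _ ≤ (1 / (D r : ℝ)) * (1 + Real.log (3 * L * k ^ 2)) := by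
          apply mul_le_mul_of_nonneg_left hlog (by positivity)
      _ ≤ (1 / (k : ℝ) ^ 4) * (1 + Real.log (3 * L * k ^ 2)) := by
          apply mul_le_mul_of_nonneg_right _ (by linarith)
          exact one_div_le_one_div_of_le hk0 hDk
      _ = _ := by ring
  refine h1.trans ((sum_le_card_nsmul _ _ _ h2).trans ?_)
  rw [nsmul_eq_mul]
  have hc : ((Icc 1 k).filter Nat.Prime).card ≤ k := by
    refine (card_filter_le _ _).trans ?_
    rw [Nat.card_Icc]; omega
  have hcast : ((3 * L * k ^ 2 : ℕ) : ℝ) = 3 * L * k ^ 2 := by push_cast; ring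
  have hlog0 : 0 ≤ Real.log (3 * L * k ^ 2) := by
    rw [← hcast]
    exact Real.log_nonneg (by exact_mod_cast hn1)
  have hkR : (0 : ℝ) < k := by positivity
  have hc' : (((Icc 1 k).filter Nat.Prime).card : ℝ) ≤ k := by exact_mod_cast hc
  calc (((Icc 1 k).filter Nat.Prime).card : ℝ) * ((1 + Real.log (3 * L * k ^ 2)) / k ^ 4) ≤
      k * ((1 + Real.log (3 * L * k ^ 2)) / k ^ 4) := by
        apply mul_le_mul_of_nonneg_right hc' (by positivity)
    _ = _ := by field_simp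

end Pool.Agent.Tri5.GS1_

namespace Pool.Agent.Tri5

open GS1_ in
theorem p_GS1 (h1 : T_EXP) : T_GS1 := by
  intro L k S hL hk hD hS
  refine (step1 h1 L k S hL hS).trans ?_
  have hS' : ∀ p ∈ S.filter (fun p => od L p ≤ k), p.Prime ∧ ¬ p ∣ 2 * Qf L ∧ od L p ≤ k := by
    intro p hp
    rw [mem_filter] at hp
    exact ⟨(hS p hp.1).1, (hS p hp.1).2, hp.2⟩
  have h4 := step4 L k (S.filter (fun p => od L p ≤ k)) hL hk hD hS'
  have h5 : ∏ p ∈ S.filter (fun p => od L p ≤ k), (1 + 1 / ((p : ℝ) - 1)) ≤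
      Real.exp (∑ p ∈ S.filter (fun p => od L p ≤ k), 1 / ((p : ℝ) - 1)) := by
    rw [Real.exp_sum]
    apply prod_le_prod
    · intro p hp
      have : (2 : ℝ) ≤ p := by exact_mod_cast (hS' p hp).1.two_le
      have : (0 : ℝ) < (p : ℝ) - 1 := by linarith
      positivity
    · intro p hp
      have := Real.add_one_le_exp (1 / ((p : ℝ) - 1))
      linarith
  have h6 := Real.exp_le_exp.2 h4
  linarith

end Pool.Agent.Tri5
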