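import Pool.Agent.Tri5.Targets

/-!
# TRI-N3D: the order of `5 ^ 30` modulo a prime
-/

set_option autoImplicit false

open Finset

namespace Pool.Agent.Tri5

theorem p_N3D : T_N3D := by
  intro p hp h34
  haveI : Fact p.Prime := ⟨hp⟩
  have h5 : (5 : ZMod p) ≠ 0 := by
    intro h
    have h1 : ((5 : ℕ) : ZMod p) = 0 := by exact_mod_cast h
    rw [ZMod.natCast_eq_zero_iff] at h1
    have h2 : p = 5 := (Nat.prime_dvd_prime_iff_eq hp (by norm_num)).mp h1
    omega
  set w := orderOf (5 : ZMod p) with hw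
  have hwd : w ∣ p - 1 := ZMod.orderOf_dvd_card_sub_one h5
  have hp1 : 0 < p - 1 := by have := hp.two_le; omega
  have hw0 : 0 < w := Nat.pos_of_dvd_of_pos hwd hp1
  have hod : od 30 p = w / Nat.gcd w 30 := by
    rw [od, orderOf_pow' _ (by norm_num)]
  have hdiv : ∀ t : ℕ, w ∣ 2 * t → p ∣ 5 ^ (2 * t) - 1 := by
    intro t ht
    rw [← ZMod.natCast_eq_zero_iff, Nat.cast_sub (Nat.one_le_pow _ _ (by norm_num))]
    push_cast
    rw [orderOf_dvd_iff_pow_eq_one.mp ht, sub_self]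
  rcases Nat.even_or_odd w with he | ho
  · obtain ⟨t, ht⟩ := he
    have ht2 : w = 2 * t := by omega
    have hto : Odd t := by
      rw [← Nat.not_even_iff_odd]
      rintro ⟨s, hs⟩
      obtain ⟨r, hr⟩ := hwd
      have h1 : p - 1 = 4 * (s * r) := by rw [hr, ht2, hs]; ring
      omega
    refine ⟨t, hto, hdiv t (by rw [ht2]), (Dvd.intro_left 2 ht2.symm).trans hwd, ?_⟩
    have hg : Nat.gcd w 30 = 2 * Nat.gcd t 15 := by
      rw [ht2, show (30 : ℕ) = 2 * 15 by norm_num, Nat.gcd_mul_left]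
    rw [hod, hg, ht2, Nat.mul_div_mul_left _ _ (by norm_num)]
    exact Nat.div_mul_cancel (Nat.gcd_dvd_left _ _)
  · refine ⟨w, ho, hdiv w (Dvd.intro_left 2 rfl), hwd, ?_⟩
    have hg : Nat.gcd w 30 = Nat.gcd w 15 := by
      rw [show (30 : ℕ) = 2 * 15 by norm_num]
      exact Nat.Coprime.gcd_mul_left_cancel_right 15 (Nat.coprime_two_right.mpr ho).symm
    rw [hod, hg]
    exact Nat.div_mul_cancel (Nat.gcd_dvd_left _ _)

end Pool.Agent.Tri5
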