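import Pool.Agent.Tri5.Targets

/-!
# SUMF: lower bound of local sums by a finite set of representations
-/

set_option autoImplicit false

open Finset

namespace Pool.Agent.Tri5

theorem p_SUMF (h1 : T_FAC) : T_SUMF := by
  intro Q L a b I y z X w n H F hQ hX hF
  obtain ⟨hsum, -⟩ := h1 Q L a b I y z X hQ hX
  have hnn : ∀ x, 0 ≤ wg Q y z X I x := by
    intro x
    unfold wg wt
    positivity
  have hnn' : ∀ (m : ℤ) (x : Ix I), 0 ≤ (if vl Q L a b I y z x = m then wg Q y z X I x else 0) := by
    intro m x
    split_ifs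
    · exact hnn x
    · exact le_refl _
  have hR : ∀ m : ℤ, ∑ x ∈ F, (if vl Q L a b I y z x = m then wg Q y z X I x else 0) ≤
      RR Q L a b I y z X m := by
    intro m
    unfold RR
    refine Summable.sum_le_tsum F (fun x _ => hnn' m x) ?_
    refine Summable.of_nonneg_of_le (hnn' m) ?_ hsum
    intro x
    split_ifs
    · exact le_refl _
    · exact hnn x
  calc w * (F.card : ℝ) = ∑ x ∈ F, w := by
        rw [Finset.sum_const, nsmul_eq_mul, mul_comm]
    _ ≤ ∑ x ∈ F, ∑ h ∈ Icc 1 H,
        (if vl Q L a b I y z x = n + Q * (h : ℤ) then wg Q y z X I x else 0) := by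
        apply Finset.sum_le_sum
        intro x hx
        obtain ⟨hw, h, hh, hv⟩ := hF x hx
        refine hw.trans ?_
        have := Finset.single_le_sum (f := fun h : ℕ =>
          (if vl Q L a b I y z x = n + Q * (h : ℤ) then wg Q y z X I x else 0))
          (fun h _ => hnn' _ x) hh
        simp only [hv, if_true] at this
        simpa [hv] using this
    _ = ∑ h ∈ Icc 1 H, ∑ x ∈ F,
        (if vl Q L a b I y z x = n + Q * (h : ℤ) then wg Q y z X I x else 0) :=
        Finset.sum_comm
    _ ≤ _ := Finset.sum_le_sum (fun h _ => hR _)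

end Pool.Agent.Tri5
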